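import Mathlib

/-! Generic bases of finite-dimensional commutative algebras: all structure constants nonzero. -/

open MvPolynomial Module

namespace Q34.Approx

section Exist

variable {k A : Type*} [Field k] [Infinite k] [CommRing A] [Algebra k A]

/-- if `dim A ≥ 2` some `x` is independent from its square -/
theorem exists_sq_indep [Module.Finite k A] (h : 2 ≤ finrank k A) :
    ∃ x : A, LinearIndependent k ![x, x * x] := by
  classical
  by_contra hcon
  push Not at hcon
  have hnt : Nontrivial A := Module.nontrivial_of_finrank_pos (R := k) (by omega)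
  -- an element not in the line of `1`
  obtain ⟨x, hx⟩ : ∃ x : A, x ∉ Submodule.span k {(1 : A)} := by
    by_contra hall
    push Not at hall
    have h1 : Submodule.span k {(1 : A)} = ⊤ := by
      rw [eq_top_iff]; exact fun y _ => hall y
    have h2 : finrank k (Submodule.span k {(1 : A)}) = 1 := finrank_span_singleton one_ne_zero
    rw [h1, finrank_top] at h2
    omega
  have hx0 : ∀ y : A, y ∉ Submodule.span k {(1 : A)} → y * y = -y := by
    intro y hy
    -- `y * y = a • y`
    have key : ∀ z : A, z ∉ Submodule.span k {(1 : A)} → ∃ a : k, z * z = a • z := by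
      intro z hz
      have hz0 : z ≠ 0 := fun h0 => hz (h0 ▸ Submodule.zero_mem _)
      have h3 := hcon z
      rw [LinearIndependent.pair_iff' hz0] at h3
      push Not at h3
      obtain ⟨a, ha⟩ := h3
      exact ⟨a, ha.symm⟩
    obtain ⟨a, ha⟩ := key y hy
    have hy1 : (1 : A) + y ∉ Submodule.span k {(1 : A)} := by
      intro hmem
      apply hy
      have := Submodule.sub_mem _ hmem (Submodule.mem_span_singleton_self (R := k) (1 : A))
      simpa using this
    obtain ⟨b, hb⟩ := key (1 + y) hy1
    have h4 : (1 + y) * (1 + y) = 1 + (2 + a) • y := by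
      have : (1 + y) * (1 + y) = 1 + 2 * y + y * y := by ring
      rw [this, ha, add_smul, ofNat_smul_eq_nsmul]
      simp only [two_mul, two_smul]
      abel
    rw [h4, smul_add] at hb
    -- `(1 - b) • 1 + (2 + a - b) • y = 0`
    have h5 : (1 - b) • (1 : A) = (b - (2 + a)) • y := by
      rw [sub_smul, sub_smul, one_smul]
      have := hb
      linear_combination (exp := 1) this
    have hind : b - (2 + a) = 0 := by
      by_contra hne
      apply hy
      rw [Submodule.mem_span_singleton]
      refine ⟨(b - (2 + a))⁻¹ * (1 - b), ?_⟩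
      rw [mul_smul, h5, smul_smul, inv_mul_cancel₀ hne, one_smul]
    rw [hind, zero_smul] at h5
    have hb1 : 1 - b = 0 := by
      by_contra hne
      exact (smul_ne_zero hne one_ne_zero) h5
    have ha1 : a = -1 := by linear_combination -hind - hb1
    rw [ha, ha1, neg_one_smul]
  -- apply to `x` and `c • x` with `c ≠ 0, 1`
  obtain ⟨c, hc⟩ : ∃ c : k, c ∉ ({0, 1} : Finset k) := Infinite.exists_notMem_finset _
  rw [Finset.mem_insert, Finset.mem_singleton, not_or] at hc
  have h1 := hx0 x hx
  have h2 := hx0 (c • x) (by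
    intro hmem
    apply hx
    have := Submodule.smul_mem _ c⁻¹ hmem
    rwa [smul_smul, inv_mul_cancel₀ hc.1, one_smul] at this)
  rw [smul_mul_smul_comm, h1, smul_neg, neg_inj, ← sub_eq_zero, ← sub_smul] at h2
  have hx00 : x ≠ 0 := fun h0 => hx (h0 ▸ Submodule.zero_mem _)
  rcases smul_eq_zero.mp h2 with h3 | h3
  · have h4 : c * (c - 1) = 0 := by linear_combination h3
    rcases mul_eq_zero.mp h4 with h5 | h5
    · exact hc.1 h5
    · exact hc.2 (sub_eq_zero.mp h5)
  · exact hx00 h3

theorem exists_mul_indep [Module.Finite k A] (h : 3 ≤ finrank k A) :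
    ∃ x y : A, LinearIndependent k ![x, y, x * y] := by
  classical
  by_contra hcon
  push Not at hcon
  -- `1, u, v` independent
  obtain ⟨u, v, huv⟩ : ∃ u v : A, LinearIndependent k ![(1 : A), u, v] := by
    have hnt : Nontrivial A := Module.nontrivial_of_finrank_pos (R := k) (by omega)
    have h1 : LinearIndependent k ![(1 : A)] := by
      rw [linearIndependent_unique_iff]; simp
    obtain ⟨u, hu⟩ := exists_linearIndependent_snoc_of_lt_finrank (n := 1) h1 (by omega)
    obtain ⟨v, hv⟩ := exists_linearIndependent_snoc_of_lt_finrank (n := 2) hu (by omega)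
    refine ⟨u, v, ?_⟩
    have e : (![(1 : A), u, v] : Fin 3 → A) = Fin.snoc (Fin.snoc ![(1 : A)] u) v := by
      ext i
      fin_cases i <;> rfl
    rw [e]; exact hv
  have hmul : ∀ x y : A, LinearIndependent k ![x, y] → ∃ a b : k, x * y = a • x + b • y := by
    intro x y hxy
    have h1 := hcon x y
    rw [Fintype.linearIndependent_iff] at h1
    push Not at h1
    obtain ⟨g, hg, i, hi⟩ := h1
    rw [Fin.sum_univ_three] at hg
    simp only [Matrix.cons_val_zero, Matrix.cons_val_one, Matrix.cons_val] at hg
    rw [LinearIndependent.pair_iff] at hxy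
    have hg2 : g 2 ≠ 0 := by
      intro h0
      rw [h0, zero_smul, add_zero] at hg
      obtain ⟨h3, h4⟩ := hxy _ _ hg
      apply hi
      fin_cases i
      · exact h3
      · exact h4
      · exact h0
    refine ⟨-(g 2)⁻¹ * g 0, -(g 2)⁻¹ * g 1, ?_⟩
    have h5 : (g 2)⁻¹ • (g 0 • x + g 1 • y + g 2 • (x * y)) = 0 := by rw [hg, smul_zero]
    rw [smul_add, smul_add, smul_smul, smul_smul, smul_smul, inv_mul_cancel₀ hg2, one_smul] at h5
    rw [neg_mul, neg_smul, neg_mul, neg_smul]
    linear_combination (exp := 1) h5
  have key : ∀ u v : A, LinearIndependent k ![(1 : A), u, v] →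
      ∃ a b : k, u * v = a • u + b • v ∧ a + b + 1 = 0 := by
    intro u v huv
    rw [Fintype.linearIndependent_iff] at huv
    have hz : ∀ r s t : k, r • (1 : A) + s • u + t • v = 0 → r = 0 ∧ s = 0 ∧ t = 0 := by
      intro r s t hrst
      have h2 := huv ![r, s, t] (by
        rw [Fin.sum_univ_three]
        simpa using hrst)
      exact ⟨h2 0, h2 1, h2 2⟩
    have h1 : LinearIndependent k ![u, v] := by
      rw [LinearIndependent.pair_iff]
      intro s t hst
      have := hz 0 s t (by rw [zero_smul, zero_add]; exact hst)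
      exact this.2
    have h2 : LinearIndependent k ![1 + u, 1 + v] := by
      rw [LinearIndependent.pair_iff]
      intro s t hst
      have := hz (s + t) s t (by
        rw [← hst]
        rw [smul_add, smul_add, add_smul]; abel)
      exact this.2
    obtain ⟨a, b, hab⟩ := hmul u v h1
    obtain ⟨c, e, hce⟩ := hmul _ _ h2
    refine ⟨a, b, hab, ?_⟩
    have h3 : (1 - (c + e)) • (1 : A) + (1 + a - c) • u + (1 + b - e) • v = 0 := by
      have h4 : (1 + u) * (1 + v) = 1 + u + v + u * v := by ring
      rw [h4, hab] at hce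
      have : (1 - (c + e)) • (1 : A) + (1 + a - c) • u + (1 + b - e) • v =
        (1 + u + v + (a • u + b • v)) - (c • (1 + u) + e • (1 + v)) := by
        rw [smul_add, smul_add, sub_smul, sub_smul, sub_smul, add_smul, add_smul, add_smul,
          one_smul, one_smul, one_smul]
        abel
      rw [this, hce, sub_self]
    obtain ⟨h5, h6, h7⟩ := hz _ _ _ h3
    linear_combination h6 + h7 - h5
  obtain ⟨c, hc⟩ : ∃ c : k, c ∉ ({0, 1} : Finset k) := Infinite.exists_notMem_finset _
  rw [Finset.mem_insert, Finset.mem_singleton, not_or] at hc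
  have hscale : ∀ s t : k, s ≠ 0 → t ≠ 0 → LinearIndependent k ![(1 : A), s • u, t • v] := by
    intro s t hs ht
    rw [Fintype.linearIndependent_iff] at huv ⊢
    intro g hg
    have h2 := huv ![g 0, g 1 * s, g 2 * t] (by
      rw [Fin.sum_univ_three] at hg ⊢
      simpa [mul_smul] using hg)
    intro i
    fin_cases i
    · exact h2 0
    · exact (mul_eq_zero.mp (h2 1)).resolve_right hs
    · exact (mul_eq_zero.mp (h2 2)).resolve_right ht
  obtain ⟨a, b, hab, hs⟩ := key u v huv
  have huv' : ∀ r s : k, r • u + s • v = 0 → r = 0 ∧ s = 0 := by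
    intro r s hrs
    rw [Fintype.linearIndependent_iff] at huv
    have h2 := huv ![0, r, s] (by
      rw [Fin.sum_univ_three]
      simpa using hrs)
    exact ⟨h2 1, h2 2⟩
  obtain ⟨a1, b1, hab1, hs1⟩ := key _ _ (hscale c 1 hc.1 one_ne_zero)
  obtain ⟨a2, b2, hab2, hs2⟩ := key _ _ (hscale 1 c one_ne_zero hc.1)
  have e1 : (a1 * c - c * a) • u + (b1 - c * b) • v = 0 := by
    rw [one_smul, smul_mul_assoc, hab, smul_add, smul_smul, smul_smul, smul_smul] at hab1
    rw [sub_smul, sub_smul]
    linear_combination (exp := 1) -hab1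
  have e2 : (a2 - c * a) • u + (b2 * c - c * b) • v = 0 := by
    rw [one_smul, mul_smul_comm, hab, smul_add, smul_smul, smul_smul, smul_smul] at hab2
    rw [sub_smul, sub_smul]
    linear_combination (exp := 1) -hab2
  obtain ⟨f1, f2⟩ := huv' _ _ e1
  obtain ⟨f3, f4⟩ := huv' _ _ e2
  have g1 : a1 = a := by
    have : c * (a1 - a) = 0 := by linear_combination f1
    exact sub_eq_zero.mp ((mul_eq_zero.mp this).resolve_left hc.1)
  have g2 : b2 = b := by
    have : c * (b2 - b) = 0 := by linear_combination f4
    exact sub_eq_zero.mp ((mul_eq_zero.mp this).resolve_left hc.1)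
  have hc1 : c - 1 ≠ 0 := fun h0 => hc.2 (sub_eq_zero.mp h0)
  have g3 : b = 0 := by
    have : (c - 1) * b = 0 := by linear_combination hs1 - hs - g1 - f2
    exact (mul_eq_zero.mp this).resolve_left hc1
  have g4 : a = 0 := by
    have : (c - 1) * a = 0 := by linear_combination hs2 - hs - g2 - f3
    exact (mul_eq_zero.mp this).resolve_left hc1
  rw [g3, g4] at hs
  simp at hs

end Exist

section Extend

variable {k A : Type*} [Field k] [CommRing A] [Algebra k A]

/-- an independent family extends to a basis with prescribed positions -/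
theorem exists_basis_extending [Module.Finite k A] {m : ℕ} (v : Fin m → A)
    (hv : LinearIndependent k v) (σ : Fin m → Fin (finrank k A)) (hσ : Function.Injective σ) :
    ∃ b : Basis (Fin (finrank k A)) k A, ∀ a, b (σ a) = v a := by
  classical
  have hs : LinearIndepOn k id (Set.range v) := hv.linearIndepOn_id
  let B := Basis.extend hs
  have : Finite (hs.extend (Set.subset_univ _)) := Module.Finite.finite_basis B
  let : Fintype (hs.extend (Set.subset_univ _)) := Fintype.ofFinite _
  have hcard : Fintype.card (hs.extend (Set.subset_univ _)) = finrank k A :=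
    (Module.finrank_eq_card_basis B).symm
  obtain ⟨g, hg⟩ := Set.MapsTo.exists_equiv_extend_of_card_eq (α := Fin (finrank k A)) (β := A)
    (t := (hs.extend (Set.subset_univ _)).toFinset)
    (by rw [Fintype.card_fin, Set.toFinset_card, hcard]) (s := Set.range σ)
    (f := Function.extend σ v 0) (by
      rintro _ ⟨a, rfl⟩
      rw [hσ.extend_apply, Set.coe_toFinset]
      exact hs.subset_extend _ ⟨a, rfl⟩) (by
      rintro _ ⟨a, rfl⟩ _ ⟨a', rfl⟩ h
      rw [hσ.extend_apply, hσ.extend_apply] at h
      rw [hv.injective h])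
  let e : (hs.extend (Set.subset_univ _)) ≃ Fin (finrank k A) :=
    (Equiv.subtypeEquivRight (fun x => by simp)).trans g.symm
  refine ⟨B.reindex e, fun a => ?_⟩
  rw [Basis.reindex_apply, Basis.extend_apply_self]
  show ((g (σ a) : A)) = v a
  rw [hg _ ⟨a, rfl⟩, hσ.extend_apply]

end Extend

section Generic

variable {k A : Type*} [Field k] [Infinite k] [CommRing A] [Algebra k A]

/-- for each triple of positions there is a basis with `e_i e_j = e_l` -/
theorem exists_basis_mul_eq [Module.Finite k A] (i j l : Fin (finrank k A)) :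
    ∃ b : Basis (Fin (finrank k A)) k A, b i * b j = b l := by
  have hpos : 0 < finrank k A := lt_of_le_of_lt (Nat.zero_le _) i.2
  have hnt : Nontrivial A := Module.nontrivial_of_finrank_pos (R := k) hpos
  have h1 : LinearIndependent k ![(1 : A)] := by
    rw [linearIndependent_unique_iff]; simp
  by_cases hil : i = l
  · obtain ⟨b, hb⟩ := exists_basis_extending ![(1 : A)] h1 (fun _ => j)
      (Function.injective_of_subsingleton _)
    refine ⟨b, ?_⟩
    have : b j = 1 := hb 0
    rw [this, mul_one, hil]
  by_cases hjl : j = l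
  · obtain ⟨b, hb⟩ := exists_basis_extending ![(1 : A)] h1 (fun _ => i)
      (Function.injective_of_subsingleton _)
    refine ⟨b, ?_⟩
    have : b i = 1 := hb 0
    rw [this, one_mul, hjl]
  by_cases hij : i = j
  · subst hij
    have h2 : 2 ≤ finrank k A := by
      have := Fintype.one_lt_card_iff.mpr ⟨i, l, hil⟩
      rw [Fintype.card_fin] at this
      omega
    obtain ⟨x, hx⟩ := exists_sq_indep (k := k) (A := A) h2
    obtain ⟨b, hb⟩ := exists_basis_extending ![x, x * x] hx ![i, l] (by
      intro a a' h
      fin_cases a <;> fin_cases a' <;> simp_all)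
    refine ⟨b, ?_⟩
    have e0 : b i = x := hb 0
    have e1 : b l = x * x := hb 1
    rw [e0, e1]
  · have h3 : 3 ≤ finrank k A := by
      have := Fintype.two_lt_card_iff.mpr ⟨i, j, l, hij, hil, hjl⟩
      rw [Fintype.card_fin] at this
      omega
    obtain ⟨x, y, hxy⟩ := exists_mul_indep (k := k) (A := A) h3
    obtain ⟨b, hb⟩ := exists_basis_extending ![x, y, x * y] hxy ![i, j, l] (by
      intro a a' h
      fin_cases a <;> fin_cases a' <;> simp_all)
    refine ⟨b, ?_⟩
    have e0 : b i = x := hb 0
    have e1 : b j = y := hb 1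
    have e2 : b l = x * y := hb 2
    rw [e0, e1, e2]

/-- the family attached to a matrix -/
noncomputable def fam (b0 : Basis (Fin (finrank k A)) k A)
    (g : Fin (finrank k A) × Fin (finrank k A) → k) (i : Fin (finrank k A)) : A :=
  ∑ a, g (i, a) • b0 a

omit [Infinite k] in
theorem repr_fam (b0 : Basis (Fin (finrank k A)) k A)
    (g : Fin (finrank k A) × Fin (finrank k A) → k) (i a : Fin (finrank k A)) :
    b0.repr (fam b0 g i) a = g (i, a) := by
  rw [fam, map_sum, Finsupp.finsetSum_apply]
  simp [Finsupp.single_apply]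

/-- **A finite-dimensional commutative algebra over an infinite field has a basis all of whose
structure constants are nonzero.** -/
theorem exists_basis_all_ne [Module.Finite k A] :
    ∃ b : Basis (Fin (finrank k A)) k A, ∀ i j l, b.repr (b i * b j) l ≠ 0 := by
  classical
  let d := finrank k A
  let b0 : Basis (Fin (finrank k A)) k A := Module.finBasis k A
  -- polynomials
  let P0 : MvPolynomial (Fin d × Fin d) k := Matrix.det (Matrix.of fun a m => X (m, a))
  let P : Fin d → Fin d → Fin d → MvPolynomial (Fin d × Fin d) k := fun i j l =>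
    Matrix.det (Matrix.of fun a m => if m = l then
      ∑ b, ∑ c, X (i, b) * X (j, c) * C (b0.repr (b0 b * b0 c) a) else X (m, a))
  have hP0 : ∀ g, eval g P0 = b0.det (fam b0 g) := by
    intro g
    rw [Basis.det_apply, RingHom.map_det]
    congr 1
    ext a m
    simp only [RingHom.mapMatrix_apply, Matrix.map_apply, Matrix.of_apply, eval_X,
      Basis.toMatrix_apply, repr_fam]
  have hP : ∀ g i j l, eval g (P i j l) =
      b0.det (Function.update (fam b0 g) l (fam b0 g i * fam b0 g j)) := by
    intro g i j l
    rw [Basis.det_apply, RingHom.map_det]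
    congr 1
    ext a m
    simp only [RingHom.mapMatrix_apply, Matrix.map_apply, Matrix.of_apply, Basis.toMatrix_apply]
    by_cases hm : m = l
    · subst hm
      rw [if_pos rfl, Function.update_self]
      have : fam b0 g i * fam b0 g j = ∑ b, ∑ c, (g (i, b) * g (j, c)) • (b0 b * b0 c) := by
        rw [fam, fam, Finset.sum_mul_sum]
        refine Finset.sum_congr rfl fun b _ => Finset.sum_congr rfl fun c _ => ?_
        rw [smul_mul_smul_comm]
      rw [this]
      simp only [map_sum, map_mul, eval_X, eval_C, Finsupp.finsetSum_apply, map_smul,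
        Finsupp.smul_apply, smul_eq_mul]
      rfl
    · rw [if_neg hm, Function.update_of_ne hm, eval_X, repr_fam]
  have hex : ∀ b : Basis (Fin (finrank k A)) k A, ∃ g, fam b0 g = b := by
    intro b
    refine ⟨fun x => b0.repr (b x.1) x.2, ?_⟩
    ext i
    rw [fam]
    exact b0.sum_repr (b i)
  have hdet : ∀ b : Basis (Fin (finrank k A)) k A, b0.det b ≠ 0 := by
    intro b
    exact (Basis.isUnit_det b0 b).ne_zero
  have hP0ne : P0 ≠ 0 := by
    intro h0
    obtain ⟨g, hg⟩ := hex b0
    have := hP0 g
    rw [h0, map_zero, hg] at this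
    exact hdet b0 this.symm
  have hPne : ∀ i j l, P i j l ≠ 0 := by
    intro i j l h0
    obtain ⟨b, hb⟩ := exists_basis_mul_eq (k := k) (A := A) i j l
    obtain ⟨g, hg⟩ := hex b
    have := hP g i j l
    rw [h0, map_zero, hg, hb, Function.update_eq_self] at this
    exact hdet b this.symm
  let Q : MvPolynomial (Fin d × Fin d) k := P0 * ∏ i, ∏ j, ∏ l, P i j l
  have hQ : Q ≠ 0 := mul_ne_zero hP0ne (Finset.prod_ne_zero_iff.mpr fun i _ =>
    Finset.prod_ne_zero_iff.mpr fun j _ => Finset.prod_ne_zero_iff.mpr fun l _ => hPne i j l)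
  obtain ⟨g, hg⟩ : ∃ g, eval g Q ≠ 0 := by
    by_contra hcon
    push Not at hcon
    exact hQ (MvPolynomial.funext (fun g => by rw [hcon g, map_zero]))
  have hg1 : eval g P0 ≠ 0 ∧ ∀ i j l, eval g (P i j l) ≠ 0 := by
    rw [map_mul] at hg
    refine ⟨left_ne_zero_of_mul hg, fun i j l => ?_⟩
    have h1 := right_ne_zero_of_mul hg
    simp only [map_prod] at h1
    exact Finset.prod_ne_zero_iff.mp (Finset.prod_ne_zero_iff.mp (Finset.prod_ne_zero_iff.mp h1 i
      (Finset.mem_univ _)) j (Finset.mem_univ _)) l (Finset.mem_univ _)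
  have hdet1 : IsUnit (b0.det (fam b0 g)) := by
    rw [← hP0]; exact hg1.1.isUnit
  rw [← Basis.is_basis_iff_det] at hdet1
  let b : Basis (Fin (finrank k A)) k A := Basis.mk hdet1.1 (by rw [hdet1.2])
  have hb : ⇑b = fam b0 g := Basis.coe_mk _ _
  refine ⟨b, fun i j l h0 => ?_⟩
  have h1 : IsUnit (b0.det (Function.update (fam b0 g) l (fam b0 g i * fam b0 g j))) := by
    rw [← hP]; exact (hg1.2 i j l).isUnit
  rw [← Basis.is_basis_iff_det] at h1
  have h2 := h1.1.notMem_span_image (s := {l}ᶜ) (x := l) (by simp)
  apply h2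
  rw [Function.update_self]
  have h3 : Function.update (fam b0 g) l (fam b0 g i * fam b0 g j) '' {l}ᶜ = b '' {l}ᶜ := by
    apply Set.image_congr
    intro m hm
    rw [Function.update_of_ne hm, hb]
  rw [h3, ← hb, ← b.sum_repr (b i * b j)]
  apply Submodule.sum_mem
  intro m _
  by_cases hm : m = l
  · rw [hm, h0, zero_smul]; exact Submodule.zero_mem _
  · exact Submodule.smul_mem _ _ (Submodule.subset_span ⟨m, hm, rfl⟩)

end Generic

end Q34.Approx
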