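import Pool.Agent.Q34.ApproxA

/-! Lifting generic bases to algebras over `k⟦t⟧`. -/

open Module

namespace Q34.Approx

open PowerSeries

section Lift

variable {k A B : Type*} [Field k] [CommRing A] [Algebra k A] [CommRing B] [Algebra k⟦X⟧ B]

theorem pi_algebraMap (π : B →+* A) (hker : RingHom.ker π = Ideal.span {algebraMap k⟦X⟧ B X})
    (hπ : ∀ a : k, π (algebraMap k⟦X⟧ B (C a)) = algebraMap k A a) (f : k⟦X⟧) :
    π (algebraMap k⟦X⟧ B f) = algebraMap k A (constantCoeff f) := by
  have h0 : π (algebraMap k⟦X⟧ B X) = 0 := by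
    rw [← RingHom.mem_ker, hker]
    exact Ideal.mem_span_singleton_self _
  have h1 : f = C (constantCoeff f) + X * (PowerSeries.mk fun n => coeff (n + 1) f) := by
    conv_lhs => rw [eq_X_mul_shift_add_const f]
    rw [add_comm]
  conv_lhs => rw [h1]
  rw [map_add, map_add, map_mul, map_mul, h0, zero_mul, add_zero, hπ]

theorem pi_smul (π : B →+* A) (hker : RingHom.ker π = Ideal.span {algebraMap k⟦X⟧ B X})
    (hπ : ∀ a : k, π (algebraMap k⟦X⟧ B (C a)) = algebraMap k A a) (f : k⟦X⟧) (x : B) :
    π (f • x) = constantCoeff f • π x := by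
  rw [Algebra.smul_def, map_mul, pi_algebraMap π hker hπ, ← Algebra.smul_def]

/-- lifting a basis of the special fibre -/
theorem exists_basis_lift [Module.Finite k⟦X⟧ B] [Module.Flat k⟦X⟧ B] (π : B →+* A)
    (hsurj : Function.Surjective π)
    (hker : RingHom.ker π = Ideal.span {algebraMap k⟦X⟧ B X})
    (hπ : ∀ a : k, π (algebraMap k⟦X⟧ B (C a)) = algebraMap k A a)
    {n : ℕ} (e : Basis (Fin n) k A) :
    ∃ E : Basis (Fin n) k⟦X⟧ B, ∀ i, π (E i) = e i := by
  classical
  have hfree : Module.Free k⟦X⟧ B := Module.free_of_flat_of_isLocalRing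
  choose w hw using fun i => hsurj (e i)
  -- spanning
  have hspan : Submodule.span k⟦X⟧ (Set.range w) = ⊤ := by
    have h1 : (⊤ : Submodule k⟦X⟧ B) ≤ Submodule.span k⟦X⟧ (Set.range w) ⊔
        (Ideal.span {(X : k⟦X⟧)}) • (⊤ : Submodule k⟦X⟧ B) := by
      intro x _
      have h2 : π (x - ∑ i, (C (e.repr (π x) i) : k⟦X⟧) • w i) = 0 := by
        rw [map_sub, map_sum, sub_eq_zero]
        simp only [pi_smul π hker hπ, hw, constantCoeff_C]
        exact (e.sum_repr (π x)).symm
      rw [← RingHom.mem_ker, hker, Ideal.mem_span_singleton] at h2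
      obtain ⟨y, hy⟩ := h2
      have h3 : x = (∑ i, (C (e.repr (π x) i) : k⟦X⟧) • w i) + (X : k⟦X⟧) • y := by
        rw [Algebra.smul_def, ← hy]; ring
      rw [h3]
      refine Submodule.add_mem_sup ?_ ?_
      · exact Submodule.sum_mem _ fun i _ => Submodule.smul_mem _ _
          (Submodule.subset_span ⟨i, rfl⟩)
      · exact Submodule.smul_mem_smul (Ideal.mem_span_singleton_self _) trivial
    have h4 := Submodule.le_of_le_smul_of_le_jacobson_bot (R := k⟦X⟧) (M := B)
      (I := Ideal.span {(X : k⟦X⟧)}) (N := Submodule.span k⟦X⟧ (Set.range w)) (N' := ⊤)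
      Module.Finite.fg_top ?_ h1
    · exact eq_top_iff.mpr h4
    · rw [IsLocalRing.jacobson_eq_maximalIdeal _ bot_ne_top]
      rw [PowerSeries.maximalIdeal_eq_span_X]
  -- independence
  have hind : LinearIndependent k⟦X⟧ w := by
    rw [Fintype.linearIndependent_iff]
    intro f hf
    have key : ∀ n : ℕ, ∀ f : Fin _ → k⟦X⟧, ∑ i, f i • w i = 0 → ∀ i, coeff n (f i) = 0 := by
      intro n
      induction n with
      | zero =>
        intro f hf i
        have h1 : ∑ i, constantCoeff (f i) • e i = 0 := by
          have := congrArg π hf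
          rw [map_sum, map_zero] at this
          simpa only [pi_smul π hker hπ, hw] using this
        have h2 := Fintype.linearIndependent_iff.mp e.linearIndependent _ h1 i
        rwa [← coeff_zero_eq_constantCoeff_apply] at h2
      | succ n ih =>
        intro f hf i
        have h0 : ∀ i, constantCoeff (f i) = 0 := by
          intro i
          have h1 : ∑ i, constantCoeff (f i) • e i = 0 := by
            have := congrArg π hf
            rw [map_sum, map_zero] at this
            simpa only [pi_smul π hker hπ, hw] using this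
          exact Fintype.linearIndependent_iff.mp e.linearIndependent _ h1 i
        have h1 : ∀ i, f i = X * (PowerSeries.mk fun n => coeff (n + 1) (f i)) := by
          intro i
          conv_lhs => rw [eq_X_mul_shift_add_const (f i)]
          rw [h0 i, map_zero, add_zero]
        have h2 : ∑ i, (PowerSeries.mk fun n => coeff (n + 1) (f i)) • w i = 0 := by
          have h3 : (X : k⟦X⟧) • ∑ i, (PowerSeries.mk fun n => coeff (n + 1) (f i)) • w i = 0 := by
            rw [Finset.smul_sum, ← hf]
            refine Finset.sum_congr rfl fun i _ => ?_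
            rw [smul_smul, ← h1 i]
          exact (smul_eq_zero.mp h3).resolve_left X_ne_zero
        have h4 := ih _ h2 i
        rwa [coeff_mk] at h4
    intro i
    ext n
    rw [key n f hf i, map_zero]
  exact ⟨Basis.mk hind (by rw [hspan]), fun i => by rw [Basis.mk_apply]; exact hw i⟩

/-- **Every abstract smoothing has a basis all of whose structure constants are units.** -/
theorem exists_basis_units [Infinite k] [Module.Finite k A] [Module.Finite k⟦X⟧ B]
    [Module.Flat k⟦X⟧ B] (π : B →+* A)
    (hsurj : Function.Surjective π)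
    (hker : RingHom.ker π = Ideal.span {algebraMap k⟦X⟧ B X})
    (hπ : ∀ a : k, π (algebraMap k⟦X⟧ B (C a)) = algebraMap k A a) :
    ∃ E : Basis (Fin (finrank k A)) k⟦X⟧ B, ∀ i j l, IsUnit (E.repr (E i * E j) l) := by
  obtain ⟨e, he⟩ := exists_basis_all_ne (k := k) (A := A)
  obtain ⟨E, hE⟩ := exists_basis_lift π hsurj hker hπ e
  refine ⟨E, fun i j l => ?_⟩
  rw [PowerSeries.isUnit_iff_constantCoeff, isUnit_iff_ne_zero]
  have h1 : e i * e j = ∑ l, constantCoeff (E.repr (E i * E j) l) • e l := by
    rw [← hE i, ← hE j, ← map_mul, ← E.sum_repr (E i * E j), map_sum]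
    refine Finset.sum_congr rfl fun l _ => ?_
    rw [pi_smul π hker hπ, hE, E.sum_repr]
  have h2 : e.repr (e i * e j) l = constantCoeff (E.repr (E i * E j) l) := by
    rw [h1, map_sum, Finsupp.finsetSum_apply]
    simp [Finsupp.single_apply]
  rw [← h2]
  exact he i j l

end Lift

end Q34.Approx
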