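import Mathlib

/-! Geometrically reduced finite algebras over a field: separability, splitting. -/

open TensorProduct Module

namespace Q34.Approx

section Sep

open Polynomial

variable {K E : Type*} [Field K] [CommRing E] [Algebra K E]

theorem separable_minpoly [Module.Finite K E] [Algebra.IsGeometricallyReduced K E] (x : E) :
    (minpoly K x).Separable := by
  classical
  have hx : IsIntegral K x := Algebra.IsIntegral.isIntegral x
  have hM : minpoly K x ≠ 0 := minpoly.ne_zero hx
  by_contra hsep
  have hMΩ : (minpoly K x).map (algebraMap K (AlgebraicClosure K)) ≠ 0 :=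
    (Polynomial.map_ne_zero_iff (algebraMap K (AlgebraicClosure K)).injective).mpr hM
  have hsep' : ¬ ((minpoly K x).map (algebraMap K (AlgebraicClosure K))).Separable := by
    rwa [Polynomial.separable_map]
  rw [← nodup_roots_iff_of_splits hMΩ (IsAlgClosed.splits _),
    Multiset.nodup_iff_count_le_one] at hsep'
  push Not at hsep'
  obtain ⟨r, hr⟩ := hsep'
  rw [count_roots] at hr
  have h2 : (X - C r) ^ 2 ∣ (minpoly K x).map (algebraMap K (AlgebraicClosure K)) :=
    (le_rootMultiplicity_iff hMΩ).mp hr
  obtain ⟨h, hh⟩ := h2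
  have h0 : h ≠ 0 := by
    rintro rfl
    rw [mul_zero] at hh
    exact hMΩ hh
  set q : (AlgebraicClosure K)[X] := (X - C r) * h with hq
  have hq0 : q ≠ 0 := mul_ne_zero (X_sub_C_ne_zero r) h0
  set x' : AlgebraicClosure K ⊗[K] E := 1 ⊗ₜ x with hx'
  have hroot : aeval x' ((minpoly K x).map (algebraMap K (AlgebraicClosure K))) = 0 := by
    rw [aeval_map_algebraMap]
    have h3 : x' = Algebra.TensorProduct.includeRight x := rfl
    rw [h3, aeval_algHom_apply, minpoly.aeval, map_zero]
  have hy2 : (aeval x' q) ^ 2 = 0 := by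
    have : q ^ 2 = ((minpoly K x).map (algebraMap K (AlgebraicClosure K))) * h := by
      rw [hh, hq]; ring
    rw [← map_pow, this, map_mul, hroot, zero_mul]
  have hy : aeval x' q = 0 := pow_eq_zero_iff (two_ne_zero) |>.mp hy2
  have hli := Module.Flat.linearIndependent_one_tmul (S := AlgebraicClosure K) (linearIndependent_pow (K := K) x)
  have hdeg : q.natDegree < (minpoly K x).natDegree := by
    have h3 : ((minpoly K x).map (algebraMap K (AlgebraicClosure K))).natDegree =
        (minpoly K x).natDegree := natDegree_map _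
    rw [← h3, hh, natDegree_mul (pow_ne_zero _ (X_sub_C_ne_zero r)) h0, natDegree_pow,
      natDegree_X_sub_C, hq, natDegree_mul (X_sub_C_ne_zero r) h0, natDegree_X_sub_C]
    omega
  rw [Fintype.linearIndependent_iff] at hli
  have h4 := hli (fun i => q.coeff i) (by
    rw [← hy, aeval_eq_sum_range' hdeg, ← Fin.sum_univ_eq_sum_range
      (fun i => q.coeff i • x' ^ i)]
    refine Finset.sum_congr rfl fun i _ => ?_
    rw [hx', Algebra.TensorProduct.tmul_pow, one_pow])
  apply hq0
  ext n
  rw [coeff_zero]
  rcases lt_or_ge n (minpoly K x).natDegree with hn | hn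
  · exact h4 ⟨n, hn⟩
  · exact coeff_eq_zero_of_natDegree_lt (lt_of_lt_of_le hdeg hn)

end Sep

section Split

variable {Ω R : Type*} [Field Ω] [IsAlgClosed Ω] [CommRing R] [Algebra Ω R] [Module.Finite Ω R]

/-- a reduced finite algebra over an algebraically closed field is a product of copies of it -/
theorem exists_linearEquiv_pi [IsReduced R] (d : ℕ) (hd : finrank Ω R = d) :
    ∃ (χ : Fin d → (R →ₐ[Ω] Ω)), Function.Bijective (fun x i => χ i x) := by
  classical
  have : IsArtinianRing R := IsArtinianRing.of_finite Ω R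
  have hfin : Finite (MaximalSpectrum R) := inferInstance
  have hbij : ∀ I : MaximalSpectrum R, Function.Bijective (algebraMap Ω (R ⧸ I.asIdeal)) := by
    intro I
    let := Ideal.Quotient.field I.asIdeal
    have hint : Algebra.IsIntegral Ω (R ⧸ I.asIdeal) := Algebra.IsIntegral.of_finite _ _
    exact IsAlgClosed.algebraMap_bijective_of_isIntegral
  let eI : ∀ I : MaximalSpectrum R, Ω ≃ₐ[Ω] (R ⧸ I.asIdeal) := fun I =>
    AlgEquiv.ofBijective (Algebra.ofId Ω (R ⧸ I.asIdeal)) (hbij I)
  let χ0 : ∀ I : MaximalSpectrum R, R →ₐ[Ω] Ω := fun I =>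
    ((eI I).symm : (R ⧸ I.asIdeal) →ₐ[Ω] Ω).comp (Ideal.Quotient.mkₐ Ω I.asIdeal)
  have hb : Function.Bijective (fun (x : R) (I : MaximalSpectrum R) => χ0 I x) := by
    constructor
    · intro x y hxy
      apply (IsArtinianRing.equivPi R).injective
      ext I
      have h1 := congrFun hxy I
      have h2 : (eI I).symm (Ideal.Quotient.mk I.asIdeal x) =
        (eI I).symm (Ideal.Quotient.mk I.asIdeal y) := h1
      exact (eI I).symm.injective h2
    · intro c
      obtain ⟨x, hx⟩ := (IsArtinianRing.equivPi R).surjective (fun I => eI I (c I))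
      refine ⟨x, ?_⟩
      ext I
      have h1 : (Ideal.Quotient.mk I.asIdeal x) = eI I (c I) := congrFun hx I
      show (eI I).symm (Ideal.Quotient.mk I.asIdeal x) = c I
      rw [h1, AlgEquiv.symm_apply_apply]
  let : Fintype (MaximalSpectrum R) := Fintype.ofFinite _
  let Φ : R ≃ₗ[Ω] (MaximalSpectrum R → Ω) :=
    LinearEquiv.ofBijective (LinearMap.pi fun I => (χ0 I).toLinearMap) hb
  have hcard : Fintype.card (MaximalSpectrum R) = d := by
    rw [← hd, Φ.finrank_eq, Module.finrank_fintype_fun_eq_card]
  let σ : Fin d ≃ MaximalSpectrum R := (Fintype.equivFinOfCardEq hcard).symm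
  refine ⟨fun i => χ0 (σ i), ?_⟩
  constructor
  · intro x y hxy
    apply hb.1
    ext I
    have := congrFun hxy (σ.symm I)
    simpa using this
  · intro c
    obtain ⟨x, hx⟩ := hb.2 (fun I => c (σ.symm I))
    refine ⟨x, ?_⟩
    ext i
    have := congrFun hx (σ i)
    simpa using this

end Split

section Homs

variable {K E : Type*} [Field K] [CommRing E] [Algebra K E]

/-- a geometrically reduced finite algebra has `d` homs to the algebraic closure with nonzero
determinant -/
theorem exists_homs [Module.Finite K E] [Algebra.IsGeometricallyReduced K E] {d : ℕ}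
    (b : Basis (Fin d) K E) :
    ∃ φ : Fin d → (E →ₐ[K] AlgebraicClosure K), Matrix.det (Matrix.of fun i j => φ i (b j)) ≠ 0 := by
  classical
  have hd : finrank (AlgebraicClosure K) (AlgebraicClosure K ⊗[K] E) = d := by
    rw [Module.finrank_baseChange, Module.finrank_eq_card_basis b, Fintype.card_fin]
  obtain ⟨χ, hχ⟩ := exists_linearEquiv_pi (Ω := AlgebraicClosure K)
    (R := AlgebraicClosure K ⊗[K] E) d hd
  refine ⟨fun i => ((χ i).restrictScalars K).comp Algebra.TensorProduct.includeRight, ?_⟩
  let Φ : (AlgebraicClosure K ⊗[K] E) ≃ₗ[AlgebraicClosure K] (Fin d → AlgebraicClosure K) :=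
    LinearEquiv.ofBijective (LinearMap.pi fun I => (χ I).toLinearMap) hχ
  let B : Basis (Fin d) (AlgebraicClosure K) (AlgebraicClosure K ⊗[K] E) :=
    Algebra.TensorProduct.basis (AlgebraicClosure K) b
  let B' := B.map Φ
  have h1 := (Pi.basisFun (AlgebraicClosure K) (Fin d)).isUnit_det B'
  rw [Basis.det_apply] at h1
  have h2 : (Pi.basisFun (AlgebraicClosure K) (Fin d)).toMatrix B' =
      Matrix.of fun i j => χ i (1 ⊗ₜ b j) := by
    ext i j
    rw [Basis.toMatrix_apply, Pi.basisFun_repr, Matrix.of_apply]
    show Φ (B j) i = _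
    rw [show B j = 1 ⊗ₜ b j from Algebra.TensorProduct.basis_apply b j]
    rfl
  rw [h2] at h1
  exact h1.ne_zero

end Homs

end Q34.Approx
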