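import Mathlib

/-! The Taylor expansion of a discrete valuation ring containing its residue field. -/

open Module

namespace Q34.Approx

open PowerSeries

section Taylor

variable {k R : Type*} [Field k] [CommRing R] [IsDomain R] [Algebra k R]

/-- `f` is the expansion of `x` in powers of `ϖ` -/
def Expands (ϖ : R) (f : k⟦X⟧) (x : R) : Prop :=
  ∀ n, ϖ ^ n ∣ x - Polynomial.aeval ϖ (trunc n f)

omit [IsDomain R] in
theorem expands_add {ϖ : R} {f g : k⟦X⟧} {x y : R} (hf : Expands ϖ f x) (hg : Expands ϖ g y) :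
    Expands ϖ (f + g) (x + y) := by
  intro n
  have h1 : x + y - Polynomial.aeval ϖ (trunc n (f + g)) =
      (x - Polynomial.aeval ϖ (trunc n f)) + (y - Polynomial.aeval ϖ (trunc n g)) := by
    rw [map_add, map_add]; ring
  rw [h1]
  exact dvd_add (hf n) (hg n)

theorem expands_mul {ϖ : R} {f g : k⟦X⟧} {x y : R} (hf : Expands ϖ f x) (hg : Expands ϖ g y) :
    Expands ϖ (f * g) (x * y) := by
  intro n
  have h1 : Polynomial.X ^ n ∣ trunc n f * trunc n g - trunc n (f * g) := by
    rw [Polynomial.X_pow_dvd_iff]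
    intro m hm
    rw [Polynomial.coeff_sub, coeff_trunc, if_pos hm,
      PowerSeries.coeff_mul_eq_coeff_trunc_mul_trunc f g hm, sub_eq_zero]
    rw [← Polynomial.coe_mul, Polynomial.coeff_coe]
  obtain ⟨q, hq⟩ := h1
  have h2 : x * y - Polynomial.aeval ϖ (trunc n (f * g)) =
      (x - Polynomial.aeval ϖ (trunc n f)) * y +
      Polynomial.aeval ϖ (trunc n f) * (y - Polynomial.aeval ϖ (trunc n g)) +
      Polynomial.aeval ϖ (trunc n f * trunc n g - trunc n (f * g)) := by
    rw [map_sub (Polynomial.aeval (R := k) ϖ), map_mul (Polynomial.aeval (R := k) ϖ)]; ring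
  rw [h2, hq, map_mul, map_pow, Polynomial.aeval_X]
  exact dvd_add (dvd_add ((hf n).mul_right _) ((hg n).mul_left _)) (dvd_mul_right _ _)

omit [IsDomain R] in
theorem expands_C {ϖ : R} (a : k) : Expands ϖ (C a : k⟦X⟧) (algebraMap k R a) := by
  intro n
  rcases Nat.eq_zero_or_pos n with rfl | hn
  · simp
  · obtain ⟨m, rfl⟩ : ∃ m, n = m + 1 := ⟨n - 1, by omega⟩
    have : trunc (m + 1) (C a : k⟦X⟧) = Polynomial.C a := by
      ext i
      rw [coeff_trunc, Polynomial.coeff_C, PowerSeries.coeff_C]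
      by_cases hi : i = 0
      · subst hi; simp
      · simp [hi]
    rw [this, Polynomial.aeval_C, sub_self]
    exact dvd_zero _

theorem expands_unique {ϖ : R} (hϖ : ϖ ≠ 0) (hk : ∀ a : k, ϖ ∣ algebraMap k R a → a = 0)
    {f g : k⟦X⟧} {x : R} (hf : Expands ϖ f x) (hg : Expands ϖ g x) : f = g := by
  by_contra hne
  have hex : ∃ n, coeff n f ≠ coeff n g := by
    by_contra hall
    push Not at hall
    exact hne (PowerSeries.ext hall)
  classical
  let m := Nat.find hex
  have hm : coeff m f ≠ coeff m g := Nat.find_spec hex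
  have hmin : ∀ i < m, coeff i f = coeff i g := fun i hi => by
    by_contra h; exact Nat.find_min hex hi h
  have h1 : ϖ ^ (m + 1) ∣ Polynomial.aeval ϖ (trunc (m + 1) f) -
      Polynomial.aeval ϖ (trunc (m + 1) g) := by
    have := dvd_sub (hg (m + 1)) (hf (m + 1))
    convert this using 1
    ring
  have h2 : trunc (m + 1) f - trunc (m + 1) g =
      Polynomial.monomial m (coeff m f - coeff m g) := by
    ext i
    rw [Polynomial.coeff_sub, coeff_trunc, coeff_trunc, Polynomial.coeff_monomial]
    rcases lt_trichotomy i m with h | h | h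
    · rw [if_pos (by omega), if_pos (by omega), if_neg (by omega), hmin i h, sub_self]
    · subst h; simp
    · rw [if_neg (by omega), if_neg (by omega), if_neg (by omega), sub_self]
  rw [← map_sub, h2, Polynomial.aeval_monomial, pow_succ, mul_comm (algebraMap k R _) _] at h1
  have h3 : ϖ ∣ algebraMap k R (coeff m f - coeff m g) :=
    (mul_dvd_mul_iff_left (pow_ne_zero m hϖ)).mp h1
  exact hm (sub_eq_zero.mp (hk _ h3))

omit [IsDomain R] in
theorem exists_expands {ϖ : R} (hs : ∀ x : R, ∃ a : k, ϖ ∣ x - algebraMap k R a) (x : R) :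
    ∃ f : k⟦X⟧, Expands ϖ f x := by
  choose c hc using hs
  choose s hs' using hc
  refine ⟨PowerSeries.mk fun n => c (s^[n] x), ?_⟩
  have key : ∀ n, x = Polynomial.aeval ϖ (trunc n (PowerSeries.mk fun n => c (s^[n] x))) +
      ϖ ^ n * s^[n] x := by
    intro n
    induction n with
    | zero => simp
    | succ n ih =>
      rw [trunc_succ, map_add, coeff_mk, Polynomial.aeval_monomial, Function.iterate_succ_apply']
      conv_lhs => rw [ih]
      have h1 := hs' (s^[n] x)
      have h2 : s^[n] x = algebraMap k R (c (s^[n] x)) + ϖ * s (s^[n] x) := by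
        rw [← h1]; ring
      conv_lhs => rw [show ϖ ^ n * s^[n] x =
        ϖ ^ n * (algebraMap k R (c (s^[n] x)) + ϖ * s (s^[n] x)) from by rw [← h2]]
      rw [pow_succ]
      ring
  intro n
  exact ⟨s^[n] x, by linear_combination key n⟩

/-- the expansion homomorphism -/
theorem exists_taylor {ϖ : R} (hϖ : ϖ ≠ 0) (hk : ∀ a : k, ϖ ∣ algebraMap k R a → a = 0)
    (hs : ∀ x : R, ∃ a : k, ϖ ∣ x - algebraMap k R a)
    (hinter : ∀ x : R, (∀ n, ϖ ^ n ∣ x) → x = 0) :
    ∃ τ : R →+* k⟦X⟧, (∀ a : k, τ (algebraMap k R a) = C a) ∧ Function.Injective τ ∧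
      ∀ x, constantCoeff (τ x) = 0 ↔ ϖ ∣ x := by
  choose τ hτ using fun x => exists_expands (k := k) hs x
  have huniq : ∀ (x : R) (f : k⟦X⟧), Expands ϖ f x → τ x = f := fun x f hf =>
    expands_unique hϖ hk (hτ x) hf
  let T : R →+* k⟦X⟧ :=
    { toFun := τ
      map_one' := huniq _ _ (by
        have := expands_C (k := k) (ϖ := ϖ) (1 : k)
        simpa using this)
      map_mul' := fun x y => huniq _ _ (expands_mul (hτ x) (hτ y))
      map_zero' := huniq _ _ (by
        have := expands_C (k := k) (ϖ := ϖ) (0 : k)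
        simpa using this)
      map_add' := fun x y => huniq _ _ (expands_add (hτ x) (hτ y)) }
  refine ⟨T, fun a => huniq _ _ (expands_C a), ?_, ?_⟩
  · rw [injective_iff_map_eq_zero]
    intro x hx
    apply hinter
    intro n
    have h1 := hτ x n
    have h2 : τ x = 0 := hx
    rw [h2] at h1
    simpa using h1
  · intro x
    show constantCoeff (τ x) = 0 ↔ _
    have h1 := hτ x 1
    have h2 : trunc 1 (τ x) = Polynomial.C (constantCoeff (τ x)) := by
      rw [trunc_succ]
      simp
    rw [h2, pow_one, Polynomial.aeval_C] at h1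
    constructor
    · intro h0
      rw [h0, map_zero, sub_zero] at h1
      exact h1
    · intro hx
      apply hk
      have := dvd_sub hx h1
      simpa using this

/-- a discrete valuation ring containing its residue field embeds into `k⟦X⟧` -/
theorem exists_taylor_dvr [IsDiscreteValuationRing R]
    (hs : ∀ x : R, ∃ a : k, x - algebraMap k R a ∈ IsLocalRing.maximalIdeal R) :
    ∃ τ : R →+* k⟦X⟧, (∀ a : k, τ (algebraMap k R a) = C a) ∧ Function.Injective τ ∧
      ∀ x, constantCoeff (τ x) = 0 ↔ x ∈ IsLocalRing.maximalIdeal R := by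
  obtain ⟨ϖ, hϖ⟩ := IsDiscreteValuationRing.exists_irreducible R
  have hmax : IsLocalRing.maximalIdeal R = Ideal.span {ϖ} :=
    (IsDiscreteValuationRing.irreducible_iff_uniformizer ϖ).mp hϖ
  have hmem : ∀ x, x ∈ IsLocalRing.maximalIdeal R ↔ ϖ ∣ x := by
    intro x; rw [hmax, Ideal.mem_span_singleton]
  obtain ⟨τ, h1, h2, h3⟩ := exists_taylor (k := k) hϖ.ne_zero (by
    intro a ha
    by_contra hne
    rw [← hmem] at ha
    exact (IsLocalRing.notMem_maximalIdeal.mpr
      ((isUnit_iff_ne_zero.mpr hne).map (algebraMap k R))) ha) (by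
    intro x
    obtain ⟨a, ha⟩ := hs x
    exact ⟨a, (hmem _).mp ha⟩) (by
    intro x hx
    by_contra hne
    obtain ⟨n, hn⟩ := IsDiscreteValuationRing.associated_pow_irreducible hne hϖ
    have h4 := (hx (n + 1)).trans hn.dvd
    rw [pow_succ] at h4
    have h5 : ϖ ∣ 1 := by
      have : ϖ ^ n * ϖ ∣ ϖ ^ n * 1 := by rwa [mul_one]
      exact (mul_dvd_mul_iff_left (pow_ne_zero n hϖ.ne_zero)).mp this
    exact hϖ.not_isUnit (isUnit_of_dvd_one h5))
  exact ⟨τ, h1, h2, fun x => by rw [h3, hmem]⟩

end Taylor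

end Q34.Approx
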