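import Pool.Agent.Q34.ApproxC
import Pool.Agent.Q34.ApproxD

/-! Points of integral closures of `k⟦t⟧` with values in `k⟦t⟧`, and splittings. -/

open Module TensorProduct

namespace Q34.Approx

open PowerSeries

theorem exists_taylor_dvr' {k R : Type*} [Field k] [CommRing R] [IsDomain R]
    [IsDiscreteValuationRing R] (ι : k →+* R)
    (hs : ∀ x : R, ∃ a : k, x - ι a ∈ IsLocalRing.maximalIdeal R) :
    ∃ τ : R →+* k⟦X⟧, (∀ a : k, τ (ι a) = C a) ∧ Function.Injective τ ∧
      ∀ x, constantCoeff (τ x) = 0 ↔ x ∈ IsLocalRing.maximalIdeal R := by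
  let : Algebra k R := ι.toAlgebra
  exact exists_taylor_dvr hs

/-- a Dedekind domain integral over `k⟦t⟧` maps injectively to `k⟦t⟧` -/
theorem exists_point {k C' : Type*} [Field k] [IsAlgClosed k] [CommRing C'] [IsDedekindDomain C']
    [Algebra k⟦X⟧ C'] [Algebra.IsIntegral k⟦X⟧ C']
    (hinj : Function.Injective (algebraMap k⟦X⟧ C')) :
    ∃ ψ : C' →+* k⟦X⟧, Function.Injective ψ ∧
      (∀ a : k, ψ (algebraMap k⟦X⟧ C' (C a)) = C a) ∧
      constantCoeff (ψ (algebraMap k⟦X⟧ C' X)) = 0 := by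
  classical
  have hXprime : (Ideal.span {(X : k⟦X⟧)}).IsPrime := by
    rw [← PowerSeries.maximalIdeal_eq_span_X]
    infer_instance
  obtain ⟨Q, hQ, hQX⟩ := Ideal.exists_ideal_over_prime_of_isIntegral_of_isDomain (S := C')
    (Ideal.span {(X : k⟦X⟧)}) (by
      rw [(RingHom.injective_iff_ker_eq_bot _).mp hinj]
      exact bot_le)
  have hXQ : algebraMap k⟦X⟧ C' X ∈ Q := by
    rw [← Ideal.mem_comap, hQX]
    exact Ideal.mem_span_singleton_self _
  have hQ0 : Q ≠ ⊥ := by
    rintro rfl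
    rw [Ideal.mem_bot] at hXQ
    exact X_ne_zero (hinj (by rw [hXQ, map_zero]))
  -- residue field
  have hres : ∀ c : C', ∃ a : k, c - algebraMap k⟦X⟧ C' (C a) ∈ Q := by
    let ι : k →+* C' ⧸ Q := (Ideal.Quotient.mk Q).comp ((algebraMap k⟦X⟧ C').comp C)
    let : Algebra k (C' ⧸ Q) := ι.toAlgebra
    have hι : ι.comp (constantCoeff (R := k)) =
        (Ideal.Quotient.mk Q).comp (algebraMap k⟦X⟧ C') := by
      ext f
      show Ideal.Quotient.mk Q (algebraMap k⟦X⟧ C' (C (constantCoeff f))) =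
        Ideal.Quotient.mk Q (algebraMap k⟦X⟧ C' f)
      rw [Ideal.Quotient.eq, ← map_sub]
      have h1 : C (constantCoeff f) - f = X * (-(PowerSeries.mk fun n => coeff (n + 1) f)) := by
        conv_lhs => rw [eq_X_mul_shift_add_const f]
        simp
      rw [h1, map_mul]
      exact Ideal.mul_mem_right _ _ hXQ
    have hint : Algebra.IsIntegral k (C' ⧸ Q) := by
      constructor
      intro x
      obtain ⟨c, rfl⟩ := Ideal.Quotient.mk_surjective x
      obtain ⟨p, hp, hpc⟩ := Algebra.IsIntegral.isIntegral (R := k⟦X⟧) c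
      refine ⟨p.map constantCoeff, hp.map _, ?_⟩
      show Polynomial.eval₂ ι (Ideal.Quotient.mk Q c) (p.map constantCoeff) = 0
      rw [Polynomial.eval₂_map, hι, ← Polynomial.hom_eval₂, hpc, map_zero]
    intro c
    obtain ⟨a, ha⟩ := (IsAlgClosed.algebraMap_bijective_of_isIntegral (k := k)
      (K := C' ⧸ Q)).2 (Ideal.Quotient.mk Q c)
    refine ⟨a, ?_⟩
    rw [← Ideal.Quotient.eq]
    exact ha.symm
  have hDVR : IsDiscreteValuationRing (Localization.AtPrime Q) :=
    IsLocalization.AtPrime.isDiscreteValuationRing_of_dedekind_domain C' hQ0 _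
  have hmax : Q.IsMaximal := hQ.isMaximal hQ0
  obtain ⟨τ, h1, h2, h3⟩ := exists_taylor_dvr' (k := k) (R := Localization.AtPrime Q)
    ((algebraMap C' (Localization.AtPrime Q)).comp ((algebraMap k⟦X⟧ C').comp C)) (by
      intro x
      obtain ⟨y, hy⟩ := (IsLocalization.AtPrime.equivQuotMaximalIdeal Q
        (Localization.AtPrime Q)).surjective
        (Ideal.Quotient.mk (IsLocalRing.maximalIdeal (Localization.AtPrime Q)) x)
      obtain ⟨c, rfl⟩ := Ideal.Quotient.mk_surjective y
      rw [IsLocalization.AtPrime.equivQuotMaximalIdeal_apply_mk, Ideal.Quotient.eq] at hy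
      obtain ⟨a, ha⟩ := hres c
      refine ⟨a, ?_⟩
      have h4 : algebraMap C' (Localization.AtPrime Q) (c - algebraMap k⟦X⟧ C' (C a)) ∈
          IsLocalRing.maximalIdeal (Localization.AtPrime Q) :=
        (IsLocalization.AtPrime.to_map_mem_maximal_iff _ Q _).mpr ha
      have h5 := Ideal.sub_mem _ h4 hy
      convert h5 using 1
      simp only [RingHom.comp_apply, map_sub]
      ring)
  refine ⟨τ.comp (algebraMap C' (Localization.AtPrime Q)), ?_, ?_, ?_⟩
  · exact h2.comp (IsLocalization.injective _ (Ideal.primeCompl_le_nonZeroDivisors Q))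
  · intro a
    exact h1 a
  · rw [RingHom.comp_apply, h3]
    exact (IsLocalization.AtPrime.to_map_mem_maximal_iff _ Q _).mpr hXQ

/-- **Splitting an abstract smoothing.** -/
theorem exists_splitting {k B : Type*} [Field k] [IsAlgClosed k] [CommRing B] [Algebra k⟦X⟧ B]
    [Module.Finite k⟦X⟧ B] [Module.Flat k⟦X⟧ B]
    [Algebra.IsGeometricallyReduced (LaurentSeries k) (LaurentSeries k ⊗[k⟦X⟧] B)] :
    ∃ θ : k⟦X⟧ →+* k⟦X⟧, Function.Injective θ ∧ (∀ a : k, θ (C a) = C a) ∧
      (∀ f, constantCoeff (θ f) = constantCoeff f) ∧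
      ∃ (d : ℕ) (E : Basis (Fin d) k⟦X⟧ B) (g : Fin d → (B →+* k⟦X⟧)),
        (∀ i f, g i (algebraMap k⟦X⟧ B f) = θ f) ∧
        Matrix.det (Matrix.of fun i j => g i (E j)) ≠ 0 := by
  classical
  have hfree : Module.Free k⟦X⟧ B := Module.free_of_flat_of_isLocalRing
  let E : Basis (Fin (finrank k⟦X⟧ B)) k⟦X⟧ B := Module.finBasis k⟦X⟧ B
  let b : Basis (Fin (finrank k⟦X⟧ B)) (LaurentSeries k) (LaurentSeries k ⊗[k⟦X⟧] B) :=
    Algebra.TensorProduct.basis (LaurentSeries k) E
  have hb : ∀ j, b j = 1 ⊗ₜ E j := fun j => Algebra.TensorProduct.basis_apply E j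
  obtain ⟨φ, hφ⟩ := exists_homs b
  let S : Set (AlgebraicClosure (LaurentSeries k)) :=
    Set.range fun p : Fin (finrank k⟦X⟧ B) × Fin (finrank k⟦X⟧ B) => φ p.1 (b p.2)
  let L : IntermediateField (LaurentSeries k) (AlgebraicClosure (LaurentSeries k)) :=
    IntermediateField.adjoin (LaurentSeries k) S
  have hfd : FiniteDimensional (LaurentSeries k) L :=
    IntermediateField.finiteDimensional_adjoin (fun x _ => Algebra.IsIntegral.isIntegral x)
  have hsep : Algebra.IsSeparable (LaurentSeries k) L := by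
    rw [IntermediateField.isSeparable_adjoin_iff_isSeparable]
    rintro _ ⟨p, rfl⟩
    have h1 := separable_minpoly (K := LaurentSeries k) (b p.2)
    refine h1.of_dvd (minpoly.dvd _ _ ?_)
    rw [Polynomial.aeval_algHom_apply, minpoly.aeval, map_zero]
  have hmem : ∀ i x, φ i x ∈ L := by
    intro i x
    rw [← b.sum_repr x, map_sum]
    refine Subalgebra.sum_mem L.toSubalgebra fun j _ => ?_
    rw [map_smul]
    exact L.toSubalgebra.smul_mem (IntermediateField.subset_adjoin _ _ ⟨(i, j), rfl⟩) _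
  let φ' : Fin (finrank k⟦X⟧ B) → (LaurentSeries k ⊗[k⟦X⟧] B →ₐ[LaurentSeries k] L) := fun i =>
    (φ i).codRestrict L.toSubalgebra (hmem i)
  let f : Fin (finrank k⟦X⟧ B) → (B →ₐ[k⟦X⟧] L) := fun i =>
    ((φ' i).restrictScalars k⟦X⟧).comp Algebra.TensorProduct.includeRight
  have hD : IsDedekindDomain (integralClosure k⟦X⟧ L) :=
    integralClosure.isDedekindDomain k⟦X⟧ (LaurentSeries k) L
  let f' : Fin (finrank k⟦X⟧ B) → (B →ₐ[k⟦X⟧] integralClosure k⟦X⟧ L) := fun i =>
    (f i).codRestrict (integralClosure k⟦X⟧ L) (fun x =>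
      (Algebra.IsIntegral.isIntegral (R := k⟦X⟧) x).map (f i))
  have hinj : Function.Injective (algebraMap k⟦X⟧ (integralClosure k⟦X⟧ L)) := by
    have h1 : Function.Injective (algebraMap k⟦X⟧ L) := by
      rw [IsScalarTower.algebraMap_eq k⟦X⟧ (LaurentSeries k) L]
      exact (algebraMap (LaurentSeries k) L).injective.comp
        (IsFractionRing.injective k⟦X⟧ (LaurentSeries k))
    intro x y hxy
    apply h1
    exact congrArg (algebraMap (integralClosure k⟦X⟧ L) L) hxy
  obtain ⟨ψ, hψ1, hψ2, hψ3⟩ := exists_point (k := k) (C' := integralClosure k⟦X⟧ L) hinj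
  refine ⟨ψ.comp (algebraMap k⟦X⟧ (integralClosure k⟦X⟧ L)), hψ1.comp hinj, hψ2, ?_,
    finrank k⟦X⟧ B, E, fun i => ψ.comp (f' i : B →+* integralClosure k⟦X⟧ L), ?_, ?_⟩
  · intro g
    have h1 : g = C (constantCoeff g) + X * (PowerSeries.mk fun n => coeff (n + 1) g) := by
      conv_lhs => rw [eq_X_mul_shift_add_const g]
      rw [add_comm]
    conv_lhs => rw [h1]
    rw [map_add, map_add, RingHom.comp_apply, hψ2, constantCoeff_C, map_mul, map_mul,
      RingHom.comp_apply, hψ3, zero_mul, add_zero]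
  · intro i g
    show ψ (f' i (algebraMap k⟦X⟧ B g)) = _
    rw [AlgHom.commutes]
    rfl
  · have h1 : Matrix.det (Matrix.of fun i j => (ψ.comp (f' i : B →+* integralClosure k⟦X⟧ L)) (E j))
        = ψ (Matrix.det (Matrix.of fun i j => f' i (E j))) := by
      rw [RingHom.map_det]
      rfl
    rw [h1]
    intro h0
    have h2 := (map_eq_zero_iff ψ hψ1).mp h0
    apply hφ
    have h3 : Matrix.det (Matrix.of fun i j => φ i (b j)) =
        (algebraMap L (AlgebraicClosure (LaurentSeries k)))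
          ((algebraMap (integralClosure k⟦X⟧ L) L) (Matrix.det (Matrix.of fun i j => f' i (E j)))) := by
      rw [RingHom.map_det, RingHom.map_det]
      congr 1
      ext i j
      rw [Matrix.of_apply, hb]
      rfl
    rw [h3, h2, map_zero, map_zero]

end Q34.Approx
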