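import Pool.Agent.Q34.ApproxB
import Pool.Agent.Q34.ApproxE

/-! Base change of abstract smoothings. -/

open Module TensorProduct

namespace Q34.Approx

/-- a base change with enough points is completely split -/
theorem split_of_points {O O' B K' : Type*} [CommRing O] [CommRing O'] [IsDomain O']
    [Algebra O O'] [CommRing B] [Algebra O B] [Field K'] [Algebra O' K'] [IsFractionRing O' K']
    {d : ℕ} (E : Basis (Fin d) O B) (g : Fin d → (B →+* O'))
    (hg : ∀ i f, g i (algebraMap O B f) = algebraMap O O' f)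
    (hdet : Matrix.det (Matrix.of fun i j => g i (E j)) ≠ 0) :
    Nonempty (K' ⊗[O'] (O' ⊗[O] B) ≃ₐ[K'] (Fin d → K')) := by
  classical
  let g' : Fin d → (B →ₐ[O] O') := fun i => { g i with commutes' := hg i }
  let χ : Fin d → (O' ⊗[O] B →ₐ[O'] O') := fun i =>
    Algebra.TensorProduct.lift (AlgHom.id O' O') (g' i) (fun _ _ => Commute.all _ _)
  let Ξ : Fin d → (K' ⊗[O'] (O' ⊗[O] B) →ₐ[K'] K') := fun i =>
    Algebra.TensorProduct.lift (AlgHom.id K' K') ((Algebra.ofId O' K').comp (χ i))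
      (fun _ _ => Commute.all _ _)
  let Φ : K' ⊗[O'] (O' ⊗[O] B) →ₐ[K'] (Fin d → K') := AlgHom.pi Ξ
  let E1 : Basis (Fin d) O' (O' ⊗[O] B) := Algebra.TensorProduct.basis O' E
  let E2 : Basis (Fin d) K' (K' ⊗[O'] (O' ⊗[O] B)) := Algebra.TensorProduct.basis K' E1
  have hval : ∀ i j, Φ (E2 j) i = algebraMap O' K' (g i (E j)) := by
    intro i j
    have e2 : E2 j = 1 ⊗ₜ (1 ⊗ₜ E j) := by
      rw [Algebra.TensorProduct.basis_apply, Algebra.TensorProduct.basis_apply]
    rw [e2]
    show Ξ i (1 ⊗ₜ (1 ⊗ₜ E j)) = _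
    rw [Algebra.TensorProduct.lift_tmul, map_one, one_mul, AlgHom.comp_apply,
      Algebra.TensorProduct.lift_tmul, map_one, one_mul]
    rfl
  have hinj : Function.Injective Φ := by
    rw [injective_iff_map_eq_zero]
    intro x hx
    have h1 : Matrix.mulVec (Matrix.of fun i j => algebraMap O' K' (g i (E j)))
        (fun j => E2.repr x j) = 0 := by
      ext i
      have h2 : Φ x i = 0 := congrFun hx i
      have h2' : Φ x i = ∑ j, Φ (E2.repr x j • E2 j) i := by
        conv_lhs => rw [← E2.sum_repr x, map_sum, Finset.sum_apply]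
      show ∑ j, (Matrix.of fun i j => algebraMap O' K' (g i (E j))) i j * E2.repr x j = 0
      rw [← h2, h2']
      refine Finset.sum_congr rfl fun j _ => ?_
      rw [map_smul, Pi.smul_apply, hval, smul_eq_mul, Matrix.of_apply, mul_comm]
    have h3 : Matrix.det (Matrix.of fun i j => algebraMap O' K' (g i (E j))) ≠ 0 := by
      have h4 : Matrix.det (Matrix.of fun i j => algebraMap O' K' (g i (E j))) =
          algebraMap O' K' (Matrix.det (Matrix.of fun i j => g i (E j))) := by
        rw [RingHom.map_det]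
        rfl
      rw [h4]
      intro h0
      exact hdet ((IsFractionRing.injective O' K') (by rw [h0, map_zero]))
    have h5 := Matrix.eq_zero_of_mulVec_eq_zero h3 h1
    apply E2.repr.injective
    ext j
    rw [map_zero]
    exact congrFun h5 j
  have hfin : Module.Finite K' (K' ⊗[O'] (O' ⊗[O] B)) := Module.Finite.of_basis E2
  have hsurj : Function.Surjective Φ := by
    have hrank : finrank K' (K' ⊗[O'] (O' ⊗[O] B)) = finrank K' (Fin d → K') := by
      rw [Module.finrank_eq_card_basis E2, Fintype.card_fin, Module.finrank_fin_fun]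
    exact (LinearMap.injective_iff_surjective_of_finrank_eq_finrank
      (f := Φ.toLinearMap) hrank).mp hinj
  exact ⟨AlgEquiv.ofBijective Φ ⟨hinj, hsurj⟩⟩

/-- split algebras are geometrically reduced -/
theorem geomReduced_of_split {K E : Type*} [Field K] [CommRing E] [Algebra K E] {d : ℕ}
    (e : E ≃ₐ[K] (Fin d → K)) : Algebra.IsGeometricallyReduced K E := by
  rw [Algebra.isGeometricallyReduced_field_iff]
  let e1 : AlgebraicClosure K ⊗[K] E ≃ₐ[AlgebraicClosure K] AlgebraicClosure K ⊗[K] (Fin d → K) :=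
    Algebra.TensorProduct.congr AlgEquiv.refl e
  let e2 : AlgebraicClosure K ⊗[K] (Fin d → K) ≃ₐ[AlgebraicClosure K]
      (Fin d → AlgebraicClosure K) :=
    Algebra.TensorProduct.piScalarRight K (AlgebraicClosure K) (AlgebraicClosure K) (Fin d)
  exact isReduced_of_injective (e1.trans e2) (e1.trans e2).injective

open PowerSeries in
/-- the special fibre of the base change -/
theorem special_fibre {k A O B : Type*} [Field k] [CommRing A] [Algebra k A] [CommRing O]
    [CommRing B] [Algebra O B] [Algebra O k⟦X⟧] (ρ : O →+* k) (hρ : Function.Surjective ρ)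
    (hρθ : ∀ f, constantCoeff (algebraMap O k⟦X⟧ f) = ρ f)
    (u : O) (hu : RingHom.ker ρ = Ideal.span {u})
    (π : B →+* A) (hsurj : Function.Surjective π)
    (hker : RingHom.ker π = Ideal.span {algebraMap O B u})
    (hπ : ∀ f : O, π (algebraMap O B f) = algebraMap k A (ρ f)) :
    ∃ π' : k⟦X⟧ ⊗[O] B →+* A, Function.Surjective π' ∧
      RingHom.ker π' = Ideal.span {algebraMap k⟦X⟧ (k⟦X⟧ ⊗[O] B) X} ∧
      ∀ a : k, π' (algebraMap k⟦X⟧ (k⟦X⟧ ⊗[O] B) (C a)) = algebraMap k A a := by
  classical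
  let : Algebra O A := ((algebraMap k A).comp ρ).toAlgebra
  let α : k⟦X⟧ →ₐ[O] A :=
    { (algebraMap k A).comp (constantCoeff (R := k)) with
      commutes' := fun f => by
        show algebraMap k A (constantCoeff (algebraMap O k⟦X⟧ f)) = algebraMap k A (ρ f)
        rw [hρθ] }
  let β : B →ₐ[O] A := { π with commutes' := fun f => hπ f }
  have hα : ∀ f, α f = algebraMap k A (constantCoeff f) := fun f => rfl
  have hβ : ∀ x, β x = π x := fun x => rfl
  let P : k⟦X⟧ ⊗[O] B →ₐ[O] A := Algebra.TensorProduct.lift α β (fun _ _ => Commute.all _ _)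
  have hP : ∀ f x, P (f ⊗ₜ x) = algebraMap k A (constantCoeff f) * π x := by
    intro f x
    rw [Algebra.TensorProduct.lift_tmul, hα, hβ]
  refine ⟨P, ?_, ?_, ?_⟩
  · intro a
    obtain ⟨x, hx⟩ := hsurj a
    refine ⟨1 ⊗ₜ x, ?_⟩
    show P (1 ⊗ₜ x) = a
    rw [hP, map_one, map_one, one_mul, hx]
  · apply le_antisymm
    · intro z hz
      -- every element is congruent to `1 ⊗ x` modulo `X`
      have hred : ∀ z : k⟦X⟧ ⊗[O] B, ∃ x : B,
          z - 1 ⊗ₜ x ∈ Ideal.span {algebraMap k⟦X⟧ (k⟦X⟧ ⊗[O] B) X} := by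
        intro z
        induction z with
        | zero => exact ⟨0, by rw [tmul_zero, sub_zero]; exact Ideal.zero_mem _⟩
        | tmul f x =>
          obtain ⟨o, ho⟩ := hρ (constantCoeff f)
          refine ⟨o • x, ?_⟩
          have h1 : (1 : k⟦X⟧) ⊗ₜ[O] (o • x) = (algebraMap O k⟦X⟧ o) ⊗ₜ x := by
            rw [← smul_tmul, Algebra.smul_def, mul_one]
          rw [h1, ← sub_tmul]
          have h2 : X ∣ f - algebraMap O k⟦X⟧ o := by
            rw [PowerSeries.X_dvd_iff, map_sub, hρθ, ho, sub_self]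
          obtain ⟨q, hq⟩ := h2
          rw [hq, Ideal.mem_span_singleton]
          refine ⟨q ⊗ₜ x, ?_⟩
          rw [Algebra.TensorProduct.algebraMap_apply, Algebra.TensorProduct.tmul_mul_tmul, one_mul]
          rfl
        | add z w hz hw =>
          obtain ⟨x, hx⟩ := hz
          obtain ⟨y, hy⟩ := hw
          refine ⟨x + y, ?_⟩
          have h1 : z + w - 1 ⊗ₜ (x + y) = (z - 1 ⊗ₜ x) + (w - (1 : k⟦X⟧) ⊗ₜ[O] y) := by
            rw [tmul_add]; abel
          rw [h1]
          exact Ideal.add_mem _ hx hy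
      obtain ⟨x, hx⟩ := hred z
      have hX : P (algebraMap k⟦X⟧ (k⟦X⟧ ⊗[O] B) X) = 0 := by
        rw [Algebra.TensorProduct.algebraMap_apply, hP]
        simp
      have h1 : P (1 ⊗ₜ x) = 0 := by
        obtain ⟨q, hq⟩ := Ideal.mem_span_singleton.mp hx
        have h2 : P (z - 1 ⊗ₜ x) = 0 := by
          rw [hq, map_mul, hX, zero_mul]
        rw [map_sub, sub_eq_zero] at h2
        rw [← h2]
        exact hz
      rw [hP, map_one, map_one, one_mul] at h1
      have h2 : x ∈ RingHom.ker π := h1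
      rw [hker, Ideal.mem_span_singleton] at h2
      obtain ⟨y, rfl⟩ := h2
      have h3 : X ∣ algebraMap O k⟦X⟧ u := by
        rw [PowerSeries.X_dvd_iff, hρθ, ← RingHom.mem_ker, hu]
        exact Ideal.mem_span_singleton_self _
      obtain ⟨q, hq⟩ := h3
      have h4 : (1 : k⟦X⟧) ⊗ₜ[O] (algebraMap O B u * y) ∈
          Ideal.span {algebraMap k⟦X⟧ (k⟦X⟧ ⊗[O] B) X} := by
        rw [← Algebra.smul_def, ← smul_tmul, Algebra.smul_def, mul_one, hq,
          Ideal.mem_span_singleton]
        refine ⟨q ⊗ₜ y, ?_⟩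
        rw [Algebra.TensorProduct.algebraMap_apply, Algebra.TensorProduct.tmul_mul_tmul, one_mul]
        rfl
      have h5 := Ideal.add_mem _ hx h4
      simpa using h5
    · rw [Ideal.span_singleton_le_iff_mem, RingHom.mem_ker]
      show P (algebraMap k⟦X⟧ (k⟦X⟧ ⊗[O] B) X) = 0
      rw [Algebra.TensorProduct.algebraMap_apply, hP]
      simp
  · intro a
    show P (algebraMap k⟦X⟧ (k⟦X⟧ ⊗[O] B) (C a)) = _
    rw [Algebra.TensorProduct.algebraMap_apply, hP]
    simp

universe u

open PowerSeries in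
/-- the base change of an abstract smoothing along a splitting -/
theorem exists_base_change {k A O B : Type u} [Field k] [CommRing A] [Algebra k A] [CommRing O]
    [CommRing B] [Algebra O B] [Module.Finite O B] [Module.Flat O B] [Algebra O k⟦X⟧]
    (ρ : O →+* k) (hρ : Function.Surjective ρ)
    (hρθ : ∀ f, constantCoeff (algebraMap O k⟦X⟧ f) = ρ f)
    (u : O) (hu : RingHom.ker ρ = Ideal.span {u})
    (π : B →+* A) (hsurj : Function.Surjective π)
    (hker : RingHom.ker π = Ideal.span {algebraMap O B u})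
    (hπ : ∀ f : O, π (algebraMap O B f) = algebraMap k A (ρ f))
    {d : ℕ} (E : Basis (Fin d) O B) (g : Fin d → (B →+* k⟦X⟧))
    (hg : ∀ i f, g i (algebraMap O B f) = algebraMap O k⟦X⟧ f)
    (hdet : Matrix.det (Matrix.of fun i j => g i (E j)) ≠ 0) :
    ∃ (𝒜 : Type u) (_ : CommRing 𝒜) (_ : Algebra k⟦X⟧ 𝒜), Module.Finite k⟦X⟧ 𝒜 ∧
      Module.Flat k⟦X⟧ 𝒜 ∧
      Algebra.IsGeometricallyReduced (LaurentSeries k) (LaurentSeries k ⊗[k⟦X⟧] 𝒜) ∧
      (∃ π' : 𝒜 →+* A, Function.Surjective π' ∧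
        RingHom.ker π' = Ideal.span {algebraMap k⟦X⟧ 𝒜 X} ∧
        ∀ a : k, π' (algebraMap k⟦X⟧ 𝒜 (C a)) = algebraMap k A a) ∧
      Nonempty (LaurentSeries k ⊗[k⟦X⟧] 𝒜 ≃ₐ[LaurentSeries k] (Fin d → LaurentSeries k)) := by
  obtain ⟨e⟩ := split_of_points (K' := LaurentSeries k) E g hg hdet
  exact ⟨k⟦X⟧ ⊗[O] B, inferInstance, inferInstance, inferInstance, inferInstance,
    geomReduced_of_split e, special_fibre ρ hρ hρθ u hu π hsurj hker hπ, ⟨e⟩⟩

end Q34.Approx
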