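import Pool.Agent.Y206.Q.Fin
import Pool.Agent.Y206.Q.Gen
import Pool.Agent.Y625.QG.Two
import Pool.Agent.Helper947.Geo.C4

/-! Cones over point sets: relations of a set and of its projections. -/

set_option autoImplicit false
open MvPolynomial
open Pool.Agent.Helper947.Geo Pool.Agent.Y206.Q Pool.Agent.Y206.G
open scoped LinearAlgebra.Projectivization

namespace Q34.Cone

/-- the cone over a form of the hyperplane -/
noncomputable def pull {N : ℕ} (P : Fin (N + 1) → ℂ) :
    MvPolynomial (Fin N) ℂ →ₐ[ℂ] MvPolynomial (Fin (N + 1)) ℂ :=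
  aeval (fun i => C (P (Fin.last N)) * X i.castSucc - C (P i.castSucc) * X (Fin.last N))

theorem eval_pull {N : ℕ} (P x : Fin (N + 1) → ℂ) (g : MvPolynomial (Fin N) ℂ) :
    eval x (pull P g) = eval (projv P x) g := by
  have : (eval x).comp (pull P : MvPolynomial (Fin N) ℂ →+* MvPolynomial (Fin (N + 1)) ℂ) =
      eval (projv P x) := by
    apply MvPolynomial.ringHom_ext
    · intro c
      simp [pull]
    · intro i
      simp [pull, projv]
      ring
  exact RingHom.congr_fun this g

theorem pull_hom {N : ℕ} (P : Fin (N + 1) → ℂ) {g : MvPolynomial (Fin N) ℂ} {m : ℕ}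
    (hg : g.IsHomogeneous m) : (pull P g).IsHomogeneous m := by
  have := hg.aeval (fun i => C (P (Fin.last N)) * X i.castSucc - C (P i.castSucc) * X (Fin.last N))
    (n := 1) (fun i => by
      apply IsHomogeneous.sub
      · exact isHomogeneous_C_mul_X _ _
      · exact isHomogeneous_C_mul_X _ _)
  rwa [one_mul] at this

theorem evRel_le {N : ℕ} {K : Type} [Fintype K] (z : K → Fin (N + 1) → ℂ) (P : Fin (N + 1) → ℂ)
    (m : ℕ) : evRel z m ≤ evRel (fun k => projv P (z k)) m := by
  intro c hc g hg
  have := hc (pull P g) (pull_hom P hg)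
  simpa only [eval_pull] using this

/-- Euler's identity -/
theorem euler {N : ℕ} {f : MvPolynomial (Fin N) ℂ} {m : ℕ} (hf : f.IsHomogeneous m)
    (x : Fin N → ℂ) : (m : ℂ) * eval x f = ∑ i, x i * eval x (pderiv i f) := by
  have := hf.sum_X_mul_pderiv
  have h1 := congrArg (eval x) this
  simpa [map_sum] using h1.symm

/-- a relation in degree `m + 1` is a family which stays a relation after multiplying with the
coordinates -/
theorem evRel_succ {N : ℕ} {K : Type} [Fintype K] (z : K → Fin N → ℂ) (m : ℕ) (c : K → ℂ)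
    (h : ∀ j, (fun k => c k * z k j) ∈ evRel z m) : c ∈ evRel z (m + 1) := by
  intro f hf
  have h1 : ((m + 1 : ℕ) : ℂ) * ∑ k, c k * eval (z k) f = 0 := by
    rw [Finset.mul_sum]
    have h2 : ∀ k, ((m + 1 : ℕ) : ℂ) * (c k * eval (z k) f) =
        ∑ i, (c k * z k i) * eval (z k) (pderiv i f) := by
      intro k
      rw [mul_left_comm, euler hf, Finset.mul_sum]
      exact Finset.sum_congr rfl fun i _ => by ring
    rw [Finset.sum_congr rfl fun k _ => h2 k, Finset.sum_comm]
    exact Finset.sum_eq_zero fun i _ => h i _ (by simpa using hf.pderiv)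
  exact (mul_eq_zero.mp h1).resolve_left (by exact_mod_cast Nat.succ_ne_zero m)

theorem evRel_mul {N : ℕ} {K : Type} [Fintype K] (z : K → Fin N → ℂ) (m : ℕ) (c : K → ℂ)
    (h : c ∈ evRel z (m + 1)) (j : Fin N) : (fun k => c k * z k j) ∈ evRel z m := by
  intro f hf
  have h1 := h (X j * f) (by
    have := (isHomogeneous_X ℂ j).mul hf
    rwa [add_comm] at this)
  rw [← h1]
  refine Finset.sum_congr rfl fun k _ => ?_
  rw [map_mul, eval_X]
  ring

/-- propagation of the equality of relations -/
theorem prop_step {N : ℕ} {K : Type} [Fintype K] (z : K → Fin (N + 1) → ℂ) (P : Fin (N + 1) → ℂ)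
    (hP : P (Fin.last N) ≠ 0) (d : ℕ) (hd : 1 ≤ d)
    (h : evRel (fun k => projv P (z k)) d ≤ evRel z d) :
    evRel (fun k => projv P (z k)) (d + 1) ≤ evRel z (d + 1) := by
  intro c hc
  have h1 : ∀ i : Fin N, (fun k => c k * projv P (z k) i) ∈ evRel z d := fun i =>
    h (evRel_mul _ _ _ hc i)
  -- the last coordinate
  have hlast : (fun k => c k * z k (Fin.last N)) ∈ evRel z d := by
    intro f hf
    obtain ⟨g, hg, hgv⟩ := mem_values (w := fun k => projv P (z k)) d (fun k => eval (z k) f)
      (fun c' hc' => h hc' f hf)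
    have h2 : ∀ k, c k * z k (Fin.last N) * eval (z k) f =
        c k * z k (Fin.last N) * eval (projv P (z k)) g := fun k => by rw [hgv k]
    rw [Finset.sum_congr rfl fun k _ => h2 k]
    obtain ⟨e, rfl⟩ : ∃ e, d = e + 1 := ⟨d - 1, by omega⟩
    have h3 : ((e + 1 : ℕ) : ℂ) * ∑ k, c k * z k (Fin.last N) * eval (projv P (z k)) g = 0 := by
      rw [Finset.mul_sum]
      have h4 : ∀ k, ((e + 1 : ℕ) : ℂ) * (c k * z k (Fin.last N) * eval (projv P (z k)) g) =
          ∑ i, (c k * projv P (z k) i) *
            eval (z k) (X (Fin.last N) * pull P (pderiv i g)) := by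
        intro k
        rw [mul_left_comm, euler hg, Finset.mul_sum]
        refine Finset.sum_congr rfl fun i _ => ?_
        rw [map_mul, eval_X, eval_pull]
        ring
      rw [Finset.sum_congr rfl fun k _ => h4 k, Finset.sum_comm]
      refine Finset.sum_eq_zero fun i _ => h1 i _ ?_
      have h5 : (pderiv i g).IsHomogeneous e := by simpa using hg.pderiv
      have h6 := (isHomogeneous_X ℂ (Fin.last N)).mul (pull_hom P h5)
      rwa [add_comm 1 e] at h6
    exact (mul_eq_zero.mp h3).resolve_left (by exact_mod_cast Nat.succ_ne_zero e)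
  apply evRel_succ
  intro j
  induction j using Fin.lastCases with
  | last => exact hlast
  | cast i =>
    have h2 : (fun k => c k * z k i.castSucc) =
        (P (Fin.last N))⁻¹ • (fun k => c k * projv P (z k) i) +
        ((P (Fin.last N))⁻¹ * P i.castSucc) • (fun k => c k * z k (Fin.last N)) := by
      funext k
      simp only [projv, Pi.add_apply, Pi.smul_apply, smul_eq_mul]
      field_simp
      ring
    rw [h2]
    exact Submodule.add_mem _ (Submodule.smul_mem _ _ (h1 i)) (Submodule.smul_mem _ _ hlast)

theorem prop {N : ℕ} {K : Type} [Fintype K] (z : K → Fin (N + 1) → ℂ) (P : Fin (N + 1) → ℂ)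
    (hP : P (Fin.last N) ≠ 0) (d : ℕ) (hd : 1 ≤ d)
    (h : evRel (fun k => projv P (z k)) d ≤ evRel z d) (e : ℕ) (he : d ≤ e) :
    evRel (fun k => projv P (z k)) e ≤ evRel z e := by
  induction e, he using Nat.le_induction with
  | base => exact h
  | succ e he ih => exact prop_step z P hP e (by omega) ih

/-- **the key lemma**: a spanning set whose projection is Cayley–Bacharach has no relation in
degree `n` -/
theorem no_rel_of_cb {N : ℕ} {K : Type} [Fintype K] (z : K → Fin (N + 1) → ℂ)
    (P : Fin (N + 1) → ℂ) (hsp : Submodule.span ℂ (Set.range z) = ⊤) (n : ℕ)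
    (h3 : Module.finrank ℂ (evRel (fun k => projv P (z k)) n) ≤ N)
    (hcb : ∀ c ∈ evRel (fun k => projv P (z k)) (n + 1), c ≠ 0 → ∀ k, c k ≠ 0) :
    evRel z (n + 1) = ⊥ := by
  rw [eq_bot_iff]
  intro c hc
  by_contra hc0
  rw [Submodule.mem_bot] at hc0
  have hne := hcb c (evRel_le z P _ hc) hc0
  let T : (Fin (N + 1) → ℂ) →ₗ[ℂ] evRel (fun k => projv P (z k)) n :=
    { toFun := fun η => ⟨fun k => c k * ∑ j, η j * z k j, by
        apply evRel_le z P n
        have h1 : (fun k => c k * ∑ j, η j * z k j) = ∑ j, η j • (fun k => c k * z k j) := by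
          funext k
          rw [Finset.sum_apply, Finset.mul_sum]
          refine Finset.sum_congr rfl fun j _ => ?_
          simp only [Pi.smul_apply, smul_eq_mul]
          ring
        rw [h1]
        exact Submodule.sum_mem _ fun j _ => Submodule.smul_mem _ _ (evRel_mul _ _ _ hc j)⟩
      map_add' := fun η θ => by
        apply Subtype.ext
        funext k
        simp only [Pi.add_apply, add_mul, Finset.sum_add_distrib, mul_add]
        rfl
      map_smul' := fun r η => by
        apply Subtype.ext
        funext k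
        simp only [Pi.smul_apply, smul_eq_mul, mul_assoc, RingHom.id_apply, ← Finset.mul_sum]
        show _ = r * _
        ring }
  have hT : Function.Injective T := by
    rw [injective_iff_map_eq_zero]
    intro η hη
    apply span_dual z hsp
    intro k
    have h2 := congrFun (congrArg Subtype.val hη) k
    have h4 : c k * ∑ j, η j * z k j = 0 := h2
    exact (mul_eq_zero.mp h4).resolve_left (hne k)
  have h5 := LinearMap.finrank_le_finrank_of_injective hT
  rw [Module.finrank_fin_fun] at h5
  omega

end Q34.Cone
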