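import Pool.Agent.Q34.ConeA

/-! Cones of degree `d` with vertex `P` are the forms of degree `d` in `I(P)^d`. -/

set_option autoImplicit false
open MvPolynomial
open Pool.Agent.Helper947.Geo Pool.Agent.Y206.Q Pool.Agent.Y206.G

namespace Q34.Cone

/-- the linear forms vanishing at `P` -/
noncomputable def ell {N : ℕ} (P : Fin (N + 1) → ℂ) (i : Fin N) : MvPolynomial (Fin (N + 1)) ℂ :=
  C (P (Fin.last N)) * X i.castSucc - C (P i.castSucc) * X (Fin.last N)

theorem ell_hom {N : ℕ} (P : Fin (N + 1) → ℂ) (i : Fin N) : (ell P i).IsHomogeneous 1 :=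
  (isHomogeneous_C_mul_X _ _).sub (isHomogeneous_C_mul_X _ _)

theorem pull_eq {N : ℕ} (P : Fin (N + 1) → ℂ) (g : MvPolynomial (Fin N) ℂ) :
    pull P g = aeval (ell P) g := rfl

/-- the ideal of a point is generated by the linear forms vanishing at it -/
theorem ideal_point {N : ℕ} (P : Fin (N + 1) → ℂ) (hP : P (Fin.last N) ≠ 0)
    (J : Ideal (MvPolynomial (Fin (N + 1)) ℂ)) (hJ : ∀ f, f ∈ J ↔ ∀ t : ℂ, eval (t • P) f = 0) :
    J = Ideal.span (Set.range (ell P)) := by
  apply le_antisymm
  · intro f hf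
    rw [hJ] at hf
    let ρ : MvPolynomial (Fin (N + 1)) ℂ →ₐ[ℂ] MvPolynomial (Fin (N + 1)) ℂ :=
      aeval (fun i => C (P i / P (Fin.last N)) * X (Fin.last N))
    have h1 : (Ideal.Quotient.mkₐ ℂ (Ideal.span (Set.range (ell P)))).comp ρ =
        Ideal.Quotient.mkₐ ℂ (Ideal.span (Set.range (ell P))) := by
      apply MvPolynomial.algHom_ext
      intro i
      rw [AlgHom.comp_apply]
      show Ideal.Quotient.mk _ (ρ (X i)) = Ideal.Quotient.mk _ (X i)
      rw [Ideal.Quotient.eq]
      have h2 : ρ (X i) = C (P i / P (Fin.last N)) * X (Fin.last N) := by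
        simp [ρ]
      rw [h2]
      induction i using Fin.lastCases with
      | last =>
        rw [div_self hP, map_one, one_mul, sub_self]
        exact Ideal.zero_mem _
      | cast i =>
        have h3 : C (P i.castSucc / P (Fin.last N)) * X (Fin.last N) - X i.castSucc =
            -(C (P (Fin.last N))⁻¹ * ell P i) := by
          rw [ell, div_eq_inv_mul, map_mul]
          have h4 : (C (P (Fin.last N))⁻¹ : MvPolynomial (Fin (N + 1)) ℂ) * C (P (Fin.last N)) = 1 := by
            rw [← map_mul, inv_mul_cancel₀ hP, map_one]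
          linear_combination (X i.castSucc) * h4
        rw [h3]
        exact Ideal.neg_mem_iff _ |>.mpr (Ideal.mul_mem_left _ _ (Ideal.subset_span ⟨i, rfl⟩))
    have h2 : ρ f = 0 := by
      apply MvPolynomial.funext
      intro v
      rw [map_zero]
      have h3 : eval v (ρ f) = eval ((v (Fin.last N) / P (Fin.last N)) • P) f := by
        have : (eval v).comp (ρ : MvPolynomial (Fin (N + 1)) ℂ →+* MvPolynomial (Fin (N + 1)) ℂ) =
            eval ((v (Fin.last N) / P (Fin.last N)) • P) := by
          apply MvPolynomial.ringHom_ext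
          · intro c
            simp [ρ]
          · intro i
            simp [ρ]
            ring
        exact RingHom.congr_fun this f
      rw [h3]
      exact hf _
    have h3 := DFunLike.congr_fun h1 f
    rw [AlgHom.comp_apply, h2, map_zero] at h3
    exact Ideal.Quotient.eq_zero_iff_mem.mp h3.symm
  · rw [Ideal.span_le]
    rintro _ ⟨i, rfl⟩
    show ell P i ∈ J
    rw [hJ]
    intro t
    simp [ell]
    ring

theorem comp_mul_hom {N : ℕ} (a L : MvPolynomial (Fin N) ℂ) (d : ℕ) (hL : L.IsHomogeneous d) :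
    homogeneousComponent d (a * L) = C (constantCoeff a) * L := by
  classical
  conv_lhs => rw [← sum_homogeneousComponent a, Finset.sum_mul, map_sum]
  rw [Finset.sum_eq_single 0]
  · rw [homogeneousComponent_zero]
    have h1 : (C (coeff 0 a) * L).IsHomogeneous d := hL.C_mul _
    rw [homogeneousComponent_of_mem h1, if_pos rfl]
    rfl
  · intro i _ hi
    have h1 : (homogeneousComponent i a * L).IsHomogeneous (i + d) :=
      (homogeneousComponent_isHomogeneous i a).mul hL
    rw [homogeneousComponent_of_mem h1, if_neg (by omega)]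
  · intro h
    exact absurd (Finset.mem_range.mpr (Nat.succ_pos _)) h

/-- a form of degree `d` in `I(P)^d` is a cone -/
theorem exists_pull {N : ℕ} (P : Fin (N + 1) → ℂ) (d : ℕ) (f : MvPolynomial (Fin (N + 1)) ℂ)
    (hf : f.IsHomogeneous d) (hfJ : f ∈ Ideal.span (Set.range (ell P)) ^ d) :
    ∃ g : MvPolynomial (Fin N) ℂ, g.IsHomogeneous d ∧ pull P g = f := by
  classical
  rw [Ideal.mem_span_pow_iff_exists_isHomogeneous] at hfJ
  obtain ⟨p, hp, hpf⟩ := hfJ
  have hL : ∀ m ∈ p.support, (∏ i, ell P i ^ m i).IsHomogeneous d := by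
    intro m hm
    have h1 : (∏ i, ell P i ^ m i).IsHomogeneous (∑ i, 1 * m i) :=
      IsHomogeneous.prod _ _ _ fun i _ => (ell_hom P i).pow _
    have h2 : m.degree = d := by
      have := hp (mem_support_iff.mp hm)
      rwa [Finsupp.degree_eq_weight_one]
    rw [Finsupp.degree_eq_sum] at h2
    simpa [h2] using h1
  refine ⟨∑ m ∈ p.support, monomial m (constantCoeff (coeff m p)), ?_, ?_⟩
  · apply IsHomogeneous.sum
    intro m hm
    apply isHomogeneous_monomial
    have := hp (mem_support_iff.mp hm)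
    rwa [Finsupp.degree_eq_weight_one]
  · have h1 : f = homogeneousComponent d f := by
      rw [homogeneousComponent_of_mem hf, if_pos rfl]
    rw [h1, ← hpf, eval_eq', map_sum, map_sum]
    refine Finset.sum_congr rfl fun m hm => ?_
    rw [comp_mul_hom _ _ d (hL m hm), pull_eq, aeval_monomial]
    rw [Finsupp.prod_fintype _ _ (fun i => by simp)]
    rfl

theorem pull_mem {N : ℕ} (P : Fin (N + 1) → ℂ) (d : ℕ) (g : MvPolynomial (Fin N) ℂ)
    (hg : g.IsHomogeneous d) : pull P g ∈ Ideal.span (Set.range (ell P)) ^ d := by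
  rw [Ideal.mem_span_pow_iff_exists_isHomogeneous]
  refine ⟨map C g, hg.map _, ?_⟩
  rw [pull_eq, eval_map, aeval_def]
  rfl

theorem pull_injective {N : ℕ} (P : Fin (N + 1) → ℂ) (hP : P (Fin.last N) ≠ 0) :
    Function.Injective (pull P) := by
  rw [injective_iff_map_eq_zero]
  intro g hg
  apply MvPolynomial.funext
  intro v
  rw [map_zero]
  have h1 := eval_pull P (Fin.snoc (fun i => (P (Fin.last N))⁻¹ * v i) 0) g
  rw [hg, map_zero] at h1
  have h2 : projv P (Fin.snoc (fun i => (P (Fin.last N))⁻¹ * v i) 0) = v := by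
    funext i
    simp only [projv, Fin.snoc_castSucc, Fin.snoc_last]
    field_simp
    ring
  rw [h2] at h1
  exact h1.symm

/-- **dimension of the space of cones** -/
theorem finrank_cones {N : ℕ} {K : Type} (z : K → Fin (N + 1) → ℂ)
    (P : Fin (N + 1) → ℂ) (hP : P (Fin.last N) ≠ 0)
    (J IZ : Ideal (MvPolynomial (Fin (N + 1)) ℂ)) (hJ : ∀ f, f ∈ J ↔ ∀ t : ℂ, eval (t • P) f = 0)
    (hIZ : IsVan z IZ) (I : Ideal (MvPolynomial (Fin N) ℂ))
    (hI : IsVan (fun k => projv P (z k)) I) (d : ℕ) :
    Module.finrank ℂ ↥(homogeneousSubmodule (Fin (N + 1)) ℂ d ⊓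
      (IZ ⊓ J ^ d).restrictScalars ℂ) =
    Module.finrank ℂ ↥(homogeneousSubmodule (Fin N) ℂ d ⊓ I.restrictScalars ℂ) := by
  classical
  have hJ' := ideal_point P hP J hJ
  set V := homogeneousSubmodule (Fin N) ℂ d ⊓ I.restrictScalars ℂ with hV
  let φ : V →ₗ[ℂ] MvPolynomial (Fin (N + 1)) ℂ := (pull P).toLinearMap ∘ₗ V.subtype
  have hφ : Function.Injective φ := fun a b hab => Subtype.ext (pull_injective P hP hab)
  have hr : LinearMap.range φ = homogeneousSubmodule (Fin (N + 1)) ℂ d ⊓
      (IZ ⊓ J ^ d).restrictScalars ℂ := by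
    ext f
    constructor
    · rintro ⟨⟨g, hg1, hg2⟩, rfl⟩
      have hg1' : g.IsHomogeneous d := hg1
      have hg2' : g ∈ I := hg2
      refine ⟨pull_hom P hg1', ?_, ?_⟩
      · show pull P g ∈ IZ
        rw [hIZ]
        intro k t
        rw [eval_pull]
        have h1 : projv P (t • z k) = t • projv P (z k) := by
          funext i
          simp only [projv, Pi.smul_apply, smul_eq_mul]
          ring
        rw [h1]
        exact (hI g).mp hg2' k t
      · show pull P g ∈ J ^ d
        rw [hJ']
        exact pull_mem P d g hg1'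
    · rintro ⟨hf1, hf2, hf3⟩
      have hf1' : f.IsHomogeneous d := hf1
      have hf2' : f ∈ IZ := hf2
      have hf3' : f ∈ J ^ d := hf3
      rw [hJ'] at hf3'
      obtain ⟨g, hg, rfl⟩ := exists_pull P d f hf1' hf3'
      refine ⟨⟨g, hg, ?_⟩, rfl⟩
      show g ∈ I
      rw [hI]
      intro k t
      have h1 := (hIZ _).mp hf2' k t
      rw [eval_pull] at h1
      have h2 : projv P (t • z k) = t • projv P (z k) := by
        funext i
        simp only [projv, Pi.smul_apply, smul_eq_mul]
        ring
      rwa [h2] at h1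
  rw [← hr]
  exact (LinearEquiv.finrank_eq (LinearEquiv.ofInjective φ hφ)).symm

end Q34.Cone
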