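import Pool.Agent.Q34.ConeB

/-! Geproci sets of type `(2, b)` are grids. -/

set_option autoImplicit false
open MvPolynomial
open Pool.Agent.Helper947.Geo Pool.Agent.Y206.Q Pool.Agent.Y206.G
open scoped LinearAlgebra.Projectivization

namespace Q34.Cone

/-- the projection as a linear map -/
theorem projv_lin {K : Type} [Fintype K] (P : Fin 4 → ℂ) (c : K → ℂ) (z : K → Fin 4 → ℂ) :
    projv P (∑ k, c k • z k) = ∑ k, c k • projv P (z k) := by
  funext i
  simp only [projv, Finset.sum_apply, Pi.smul_apply, smul_eq_mul, Finset.mul_sum,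
    Finset.sum_mul, ← Finset.sum_sub_distrib]
  exact Finset.sum_congr rfl fun k _ => by ring

/-- independent triples stay independent after projecting from a general point -/
theorem triple_generic (u : Fin 3 → Fin 4 → ℂ) (hu : LinearIndependent ℂ u) :
    ∃ φ : MvPolynomial (Fin 4) ℂ, φ ≠ 0 ∧ ∀ P, P (Fin.last 3) ≠ 0 → eval P φ ≠ 0 →
      LinearIndependent ℂ (fun i => projv P (u i)) := by
  classical
  -- a vector orthogonal to the three vectors
  obtain ⟨x, hx⟩ : ∃ x, x ∉ Submodule.span ℂ (Set.range u) := by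
    by_contra hcon
    push Not at hcon
    have h1 : Submodule.span ℂ (Set.range u) = ⊤ := Submodule.eq_top_iff'.mpr hcon
    have h2 := finrank_span_eq_card hu
    rw [h1, finrank_top, Module.finrank_fin_fun, Fintype.card_fin] at h2
    omega
  obtain ⟨θ, hθ1, hθ2⟩ := card_rel_sep _ x hx
  have hθ0 : θ ≠ 0 := by
    rintro rfl
    simp at hθ2
  refine ⟨lf θ, pi_lf_ne hθ0, fun P hl hP => ?_⟩
  rw [eval_lf] at hP
  rw [Fintype.linearIndependent_iff] at hu ⊢
  intro c hc
  rw [← projv_lin] at hc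
  obtain ⟨r, hr⟩ := projv_ker P _ hl hc
  have h1 : θ ⬝ᵥ (∑ k, c k • u k) = 0 := by
    rw [dotProduct_sum]
    refine Finset.sum_eq_zero fun k _ => ?_
    rw [dotProduct_smul, dotProduct_comm, hθ1 _ (Submodule.subset_span ⟨k, rfl⟩), smul_zero]
  rw [hr, dotProduct_smul, smul_eq_mul] at h1
  have h2 : r = 0 := (mul_eq_zero.mp h1).resolve_right hP
  rw [h2, zero_smul] at hr
  exact hu c hr

/-- three vectors orthogonal to a nonzero vector of the 3-space are dependent -/
theorem plane_dep (η : Fin 3 → ℂ) (hη : η ≠ 0) (u : Fin 3 → Fin 3 → ℂ)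
    (h : ∀ i, η ⬝ᵥ u i = 0) : ¬ LinearIndependent ℂ u := by
  intro hu
  have h1 : Submodule.span ℂ (Set.range u) = ⊤ :=
    hu.span_eq_top_of_card_eq_finrank (by simp)
  apply hη
  funext i
  have h2 : ∀ x ∈ Submodule.span ℂ (Set.range u), η ⬝ᵥ x = 0 := by
    intro x hx
    induction hx using Submodule.span_induction with
    | mem x hx => obtain ⟨i, rfl⟩ := hx; exact h i
    | zero => simp
    | add x y _ _ hx hy => rw [dotProduct_add, hx, hy, add_zero]
    | smul c x _ hx => rw [dotProduct_smul, hx, smul_zero]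
  have h3 := h2 (Pi.single i 1) (by rw [h1]; trivial)
  simpa using h3

theorem dot_projv_lin {K : Type} [Fintype K] (η : Fin 3 → ℂ) (P : Fin 4 → ℂ) (c : K → ℂ)
    (z : K → Fin 4 → ℂ) (h : ∀ k, η ⬝ᵥ projv P (z k) = 0) :
    η ⬝ᵥ projv P (∑ k, c k • z k) = 0 := by
  rw [projv_lin, dotProduct_sum]
  exact Finset.sum_eq_zero fun k _ => by rw [dotProduct_smul, h k, smul_zero]

theorem mem_pair_of_dep {x y w : Fin 4 → ℂ} (hxy : LinearIndependent ℂ ![x, y])
    (h : ¬ LinearIndependent ℂ ![x, y, w]) : w ∈ Submodule.span ℂ {x, y} := by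
  by_contra hw
  exact h (c4_triple x y w hxy hw)

theorem finrank_pair {x y : Fin 4 → ℂ} (hxy : LinearIndependent ℂ ![x, y]) :
    Module.finrank ℂ (Submodule.span ℂ ({x, y} : Set (Fin 4 → ℂ))) = 2 := by
  have h1 := finrank_span_eq_card hxy
  rw [Matrix.range_cons, Matrix.range_cons, Matrix.range_empty, Set.union_empty,
    Set.singleton_union, Fintype.card_fin] at h1
  exact h1

open Pool.Agent.Y206.Q in
/-- **type `(2, b)`** -/
theorem type_two (Z : Finset (ℙ ℂ (Fin 4 → ℂ)))
    (hsp : Submodule.span ℂ (Set.range fun z : Z => z.1.rep) = ⊤) (b : ℕ) (hb : 3 ≤ b)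
    (hG : Gep (fun z : Z => z.1.rep) 2 b) : Grid Z := by
  classical
  set z : Z → Fin 4 → ℂ := fun z => z.1.rep with hz
  have hpair : ∀ k l : Z, k ≠ l → LinearIndependent ℂ ![z k, z l] := fun k l hkl =>
    c4_pair k.1 l.1 fun h => hkl (Subtype.ext h)
  have hz0 : ∀ k, z k ≠ 0 := fun k => k.1.rep_nonzero
  have hK : 0 < Fintype.card Z := lt_of_lt_of_le (by norm_num) (card_pos_of_span z hsp)
  have hKne : Nonempty Z := Fintype.card_pos_iff.mp hK
  obtain ⟨ξ, W, -, -, -, -, i, -, j, -, k, -, hij, hik, hjk, hdep⟩ :=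
    gep_special z hsp hpair hz0 2 b hG (by omega) (Classical.arbitrary Z)
  obtain ⟨φ, hφ, hP⟩ := hG
  obtain ⟨φ₂, hφ₂, hind⟩ := projv_indep z hpair hz0 (le_refl 3) hsp
  -- genericity for triples
  have htr : ∀ t : Z × Z × Z, ∃ ψ : MvPolynomial (Fin 4) ℂ, ψ ≠ 0 ∧
      (LinearIndependent ℂ ![z t.1, z t.2.1, z t.2.2] → ∀ P, P (Fin.last 3) ≠ 0 → eval P ψ ≠ 0 →
        LinearIndependent ℂ ![projv P (z t.1), projv P (z t.2.1), projv P (z t.2.2)]) := by
    intro t
    by_cases h : LinearIndependent ℂ ![z t.1, z t.2.1, z t.2.2]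
    · obtain ⟨ψ, h1, h2⟩ := triple_generic _ h
      refine ⟨ψ, h1, fun _ P hl hP => ?_⟩
      have h3 := h2 P hl hP
      convert h3 using 1
      funext i
      fin_cases i <;> rfl
    · exact ⟨1, one_ne_zero, fun h' => absurd h' h⟩
  choose ψ hψ1 hψ2 using htr
  obtain ⟨P, hPne⟩ := g4_exists_ne (φ * φ₂ * ∏ t, ψ t) (mul_ne_zero (mul_ne_zero hφ hφ₂)
    (Finset.prod_ne_zero_iff.mpr fun t _ => hψ1 t))
  rw [map_mul, map_mul, map_prod] at hPne
  have hPφ := left_ne_zero_of_mul (left_ne_zero_of_mul hPne)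
  have hPφ₂ := right_ne_zero_of_mul (left_ne_zero_of_mul hPne)
  have hPψ : ∀ t, eval P (ψ t) ≠ 0 := fun t =>
    Finset.prod_ne_zero_iff.mp (right_ne_zero_of_mul hPne) t (Finset.mem_univ t)
  obtain ⟨hl, hw, hw0, -⟩ := hind P hPφ₂
  obtain ⟨F, G, hF, hG', hI⟩ := hP P hPφ
  set w : Z → Fin 3 → ℂ := fun k => projv P (z k) with hwdef
  have htriple : ∀ x y v : Z, LinearIndependent ℂ ![z x, z y, z v] →
      LinearIndependent ℂ ![w x, w y, w v] := fun x y v h => hψ2 (x, y, v) h P hl (hPψ _)
  -- the line through the three points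
  have hij' := hpair i j hij
  obtain ⟨η, hη0, hηi, hηj⟩ : ∃ η : Fin 3 → ℂ, η ≠ 0 ∧ η ⬝ᵥ w i = 0 ∧ η ⬝ᵥ w j = 0 := by
    obtain ⟨x, hx⟩ : ∃ x, x ∉ Submodule.span ℂ (Set.range ![w i, w j]) := by
      by_contra hcon
      push Not at hcon
      have h1 : Submodule.span ℂ (Set.range ![w i, w j]) = ⊤ := Submodule.eq_top_iff'.mpr hcon
      have h2 := finrank_span_eq_card (hw i j hij)
      rw [h1, finrank_top, Module.finrank_fin_fun, Fintype.card_fin] at h2
      omega
    obtain ⟨θ, hθ1, hθ2⟩ := card_rel_sep _ x hx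
    refine ⟨θ, ?_, ?_, ?_⟩
    · rintro rfl
      simp at hθ2
    · rw [dotProduct_comm]
      exact hθ1 _ (Submodule.subset_span ⟨0, rfl⟩)
    · rw [dotProduct_comm]
      exact hθ1 _ (Submodule.subset_span ⟨1, rfl⟩)
  set L : Submodule ℂ (Fin 4 → ℂ) := Submodule.span ℂ {z i, z j} with hL
  have hL2 : Module.finrank ℂ L = 2 := finrank_pair hij'
  have hmemL : ∀ x : Z, η ⬝ᵥ w x = 0 ↔ z x ∈ L := by
    intro x
    constructor
    · intro hx
      by_contra hnot
      have h1 := htriple i j x (c4_triple _ _ _ hij' hnot)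
      refine plane_dep η hη0 _ ?_ h1
      intro a
      fin_cases a
      · exact hηi
      · exact hηj
      · exact hx
    · intro hx
      rw [hL, Submodule.mem_span_pair] at hx
      obtain ⟨c, e, hce⟩ := hx
      have h1 := dot_projv_lin η P ![c, e] ![z i, z j] (by
        intro a
        fin_cases a
        · exact hηi
        · exact hηj)
      rw [Fin.sum_univ_two] at h1
      simp only [Matrix.cons_val_zero, Matrix.cons_val_one] at h1
      rw [hce] at h1
      exact h1
  have hkL : z k ∈ L := mem_pair_of_dep hij' hdep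
  have hcard3 : 3 ≤ Nat.card {x : Z // η ⬝ᵥ w x = 0} := by
    rw [Nat.card_eq_fintype_card, Fintype.card_subtype]
    have h1 : ({i, j, k} : Finset Z) ⊆ Finset.univ.filter fun x => η ⬝ᵥ w x = 0 := by
      intro x hx
      rw [Finset.mem_insert, Finset.mem_insert, Finset.mem_singleton] at hx
      rw [Finset.mem_filter]
      refine ⟨Finset.mem_univ _, ?_⟩
      rcases hx with rfl | rfl | rfl
      · exact hηi
      · exact hηj
      · exact (hmemL _).mpr hkL
    have h2 := Finset.card_le_card h1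
    rw [Finset.card_insert_of_notMem (by simp [hij, hik]),
      Finset.card_insert_of_notMem (by simp [hjk]), Finset.card_singleton] at h2
    exact h2
  have hcardK := h_card Z w 2 b F G hw hw0 hF hG' hI
  rcases h_full Z w 2 b F G hw hw0 hF hG' hI (by norm_num) (by omega) η hη0 (by omega) with
    ⟨hcb, F', hF', hI'⟩ | ⟨hca, -⟩
  swap
  · omega
  -- the residual points
  have hη' : ∃ η' : Fin 3 → ℂ, η' ≠ 0 ∧ ∀ x : Z, z x ∉ L → η' ⬝ᵥ w x = 0 := by
    refine ⟨fun a => eval (Pi.single a 1) F', ?_, ?_⟩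
    · intro h0
      have hF'0 : F' = 0 := by
        apply MvPolynomial.funext
        intro v
        rw [map_zero]
        obtain ⟨Λ, hΛ⟩ := zz_eval_lin F' (by simpa using hF')
        rw [← hΛ, pi_eq_sum_univ' v, map_sum]
        refine Finset.sum_eq_zero fun a _ => ?_
        rw [map_smul, hΛ]
        have := congrFun h0 a
        simp only [Pi.zero_apply] at this
        rw [this, smul_zero]
      have hcop := coprime_of_van _ F' G hI'
      have hu : IsUnit G := hcop (by rw [hF'0]; exact dvd_zero _) (dvd_refl _)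
      have htop : Ideal.span {F', G} = ⊤ :=
        Ideal.eq_top_of_isUnit_mem _ (Ideal.subset_span (by simp)) hu
      have hemp : IsEmpty {x : Z // η ⬝ᵥ w x ≠ 0} := by
        constructor
        intro x
        have h1 := (hI' 1).mp (by rw [htop]; trivial) x 1
        simp at h1
      have hall : ∀ x : Z, η ⬝ᵥ w x = 0 := by
        intro x
        by_contra hx
        exact hemp.false ⟨x, hx⟩
      have h5 : Nat.card {x : Z // η ⬝ᵥ w x = 0} = Fintype.card Z := by
        rw [Nat.card_eq_fintype_card]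
        exact Fintype.card_congr (Equiv.subtypeUnivEquiv hall)
      omega
    · intro x hx
      have hx' : η ⬝ᵥ w x ≠ 0 := fun h => hx ((hmemL x).mp h)
      obtain ⟨Λ, hΛ⟩ := zz_eval_lin F' (by simpa using hF')
      have h1 := (hI' F').mp (Ideal.subset_span (by simp)) ⟨x, hx'⟩ 1
      rw [one_smul] at h1
      have h2 : eval (w x) F' = 0 := h1
      rw [← hΛ, pi_eq_sum_univ' (w x), map_sum] at h2
      rw [← h2, dotProduct]
      refine Finset.sum_congr rfl fun a _ => ?_
      rw [map_smul, hΛ, smul_eq_mul, mul_comm]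
  obtain ⟨η', hη'0, hη'⟩ := hη'
  -- counting
  set R : Finset Z := Finset.univ.filter fun x => z x ∉ L with hR
  have hcL : (Finset.univ.filter fun x : Z => z x ∈ L).card = b := by
    rw [← hcb, Nat.card_eq_fintype_card, Fintype.card_subtype]
    congr 1
    ext x
    simp only [Finset.mem_filter, Finset.mem_univ, true_and]
    exact (hmemL x).symm
  have hRc : R.card = b := by
    have h1 := Finset.card_filter_add_card_filter_not (s := (Finset.univ : Finset Z))
      (fun x : Z => z x ∈ L)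
    rw [Finset.card_univ, hcL, hcardK] at h1
    have h2 : (Finset.univ.filter fun x : Z => ¬ z x ∈ L).card = R.card := by congr
    rw [h2] at h1
    omega
  obtain ⟨r₁, hr₁, r₂, hr₂, hr⟩ := Finset.one_lt_card.mp (by rw [hRc]; omega : 1 < R.card)
  have hr' := hpair r₁ r₂ hr
  set M : Submodule ℂ (Fin 4 → ℂ) := Submodule.span ℂ {z r₁, z r₂} with hM
  have hM2 : Module.finrank ℂ M = 2 := finrank_pair hr'
  have hRM : ∀ x : Z, z x ∉ L → z x ∈ M := by
    intro x hx
    apply mem_pair_of_dep hr'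
    intro hi3
    refine plane_dep η' hη'0 _ ?_ (htriple r₁ r₂ x hi3)
    intro a
    fin_cases a
    · exact hη' _ (Finset.mem_filter.mp hr₁).2
    · exact hη' _ (Finset.mem_filter.mp hr₂).2
    · exact hη' _ hx
  have hsup : L ⊔ M = ⊤ := by
    rw [eq_top_iff, ← hsp, Submodule.span_le]
    rintro _ ⟨x, rfl⟩
    by_cases hx : z x ∈ L
    · exact Submodule.mem_sup_left hx
    · exact Submodule.mem_sup_right (hRM x hx)
  have hinf : L ⊓ M = ⊥ := by
    have h1 := Submodule.finrank_sup_add_finrank_inf_eq L M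
    rw [hsup, finrank_top, Module.finrank_fin_fun, hL2, hM2] at h1
    apply Submodule.finrank_eq_zero.mp
    omega
  have hcnt : ∀ S : Submodule ℂ (Fin 4 → ℂ), Nat.card {x // x ∈ Z ∧ x.submodule ≤ S} =
      (Finset.univ.filter fun x : Z => z x ∈ S).card := by
    intro S
    rw [← Fintype.card_subtype, ← Nat.card_eq_fintype_card]
    exact (Nat.card_congr ((Equiv.subtypeEquivRight fun x : Z =>
      (sub_le_iff x.1 S).symm).trans
      (Equiv.subtypeSubtypeEquivSubtypeInter (fun x => x ∈ Z) (fun x => x.submodule ≤ S)))).symm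
  refine Pool.Agent.Y625.QG.two Z b ![L, M] ?_ hinf ?_ ?_ ?_
  · intro a
    fin_cases a
    · exact hL2
    · exact hM2
  · intro x hx
    by_cases h1 : z ⟨x, hx⟩ ∈ L
    · exact Or.inl ((sub_le_iff x _).mpr h1)
    · exact Or.inr ((sub_le_iff x _).mpr (hRM ⟨x, hx⟩ h1))
  · exact (hcnt L).trans hcL
  · refine (hcnt M).trans ?_
    rw [← hRc]
    congr 1
    ext x
    simp only [Finset.mem_filter, Finset.mem_univ, true_and, hR]
    constructor
    · intro h1 h2
      have h3 : z x ∈ L ⊓ M := ⟨h2, h1⟩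
      rw [hinf, Submodule.mem_bot] at h3
      exact hz0 x h3
    · exact hRM x

end Q34.Cone
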