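import Pool.Agent.Q34.ConeC

/-! Unexpected cones of geproci sets: the numerical part. -/

set_option autoImplicit false
open MvPolynomial
open Pool.Agent.Helper947.Geo Pool.Agent.Y206.Q Pool.Agent.Y206.G
open scoped LinearAlgebra.Projectivization

namespace Q34.Cone

/-- all facts at a good point -/
theorem good_point {K : Type} [Fintype K] [DecidableEq K] (z : K → Fin 4 → ℂ)
    (h2 : ∀ k l, k ≠ l → LinearIndependent ℂ ![z k, z l]) (h1 : ∀ k, z k ≠ 0)
    (hsp : Submodule.span ℂ (Set.range z) = ⊤) (a b : ℕ) (hG : Gep z a b) :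
    ∃ φ : MvPolynomial (Fin 4) ℂ, φ ≠ 0 ∧ ∀ P, eval P φ ≠ 0 → P (Fin.last 3) ≠ 0 ∧ 2 ≤ a ∧ 2 ≤ b ∧
      Fintype.card K = a * b ∧
      ∃ F G : MvPolynomial (Fin 3) ℂ, F.IsHomogeneous a ∧ G.IsHomogeneous b ∧ F ≠ 0 ∧ G ≠ 0 ∧
        IsVan (fun k => projv P (z k)) (Ideal.span {F, G}) ∧
        ∀ n, n + 3 = a + b → Module.finrank ℂ (evRel (fun k => projv P (z k)) n) = 1 ∧
          (1 ≤ n → Module.finrank ℂ (evRel (fun k => projv P (z k)) (n - 1)) = 3) ∧
          ∀ c ∈ evRel (fun k => projv P (z k)) n, c ≠ 0 → ∀ k, c k ≠ 0 := by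
  classical
  have hKne : Nonempty K := by
    by_contra hcon
    rw [not_nonempty_iff] at hcon
    rw [Set.range_eq_empty, Submodule.span_empty] at hsp
    exact bot_ne_top hsp
  obtain ⟨φ₀, hφ₀, hφ₀'⟩ := hG
  obtain ⟨φ₁, hφ₁, hφ₁'⟩ := projv_indep z h2 h1 (le_refl 3) hsp
  refine ⟨φ₀ * φ₁, mul_ne_zero hφ₀ hφ₁, ?_⟩
  intro P hP
  rw [map_mul] at hP
  obtain ⟨F, G, hF, hG, hvan⟩ := hφ₀' P (left_ne_zero_of_mul hP)
  obtain ⟨hl, hw, hw0, hwsp⟩ := hφ₁' P (right_ne_zero_of_mul hP)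
  have hcop := coprime_of_van (fun k => projv P (z k)) F G hvan
  have hnotunit : ∀ H : MvPolynomial (Fin 3) ℂ,
      H ∈ Ideal.span ({F, G} : Set (MvPolynomial (Fin 3) ℂ)) → ¬ IsUnit H := by
    intro H hH hu
    have htop := Ideal.eq_top_of_isUnit_mem _ hH hu
    have h1 : (1 : MvPolynomial (Fin 3) ℂ) ∈
        Ideal.span ({F, G} : Set (MvPolynomial (Fin 3) ℂ)) := by
      rw [htop]; trivial
    have := (hvan 1).mp h1 (Classical.arbitrary K) 1
    simp at this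
  have hF0 : F ≠ 0 := by
    intro h0
    apply hnotunit G (Ideal.subset_span (by simp))
    exact hcop (by rw [h0]; exact dvd_zero _) (dvd_refl _)
  have hG0 : G ≠ 0 := by
    intro h0
    apply hnotunit F (Ideal.subset_span (by simp))
    exact hcop (dvd_refl _) (by rw [h0]; exact dvd_zero _)
  have hreg := isReg_pair F G hF0 hcop
  have hrange : Set.range ![F, G] = {F, G} := by
    simp [Matrix.range_cons, Matrix.range_empty, Set.pair_comm G F]
  have hci := ci_rel (fun k => projv P (z k)) hw hw0 hwsp ![F, G] ![a, b] (by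
    intro i
    fin_cases i
    · exact hF
    · exact hG) hreg (by rw [hrange]; exact hvan)
  obtain ⟨hci1, hci2⟩ := hci
  have ha2 : 2 ≤ a := by simpa using hci1 0
  have hb2 : 2 ≤ b := by simpa using hci1 1
  refine ⟨hl, ha2, hb2, h_card K _ a b F G hw hw0 hF hG hvan, F, G, hF, hG, hF0, hG0, hvan, ?_⟩
  intro n hn
  have h5 := hci2 n (by simpa using hn)
  refine ⟨h5.1, h5.2, ?_⟩
  intro c hc hc0
  exact cb_nonzero (fun k => projv P (z k)) hw0 F G a b n hF hG hF0 hG0 hcop hn hvan h5.1 c hc hc0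

/-- positivity of the dimension of the space of curves -/
theorem finrank_pos_of_mem {N d : ℕ} (I : Ideal (MvPolynomial (Fin N) ℂ))
    (F : MvPolynomial (Fin N) ℂ) (hF : F.IsHomogeneous d) (hF0 : F ≠ 0) (hFI : F ∈ I) :
    0 < Module.finrank ℂ ↥(homogeneousSubmodule (Fin N) ℂ d ⊓ I.restrictScalars ℂ) := by
  have hfin : Module.Finite ℂ (homogeneousSubmodule (Fin N) ℂ d) := part_succ_fin N d
  have hfin2 : Module.Finite ℂ ↥(homogeneousSubmodule (Fin N) ℂ d ⊓ I.restrictScalars ℂ) :=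
    Submodule.finiteDimensional_of_le inf_le_left
  rw [Nat.pos_iff_ne_zero]
  intro h0
  rw [Submodule.finrank_eq_zero] at h0
  have hmem : F ∈ (homogeneousSubmodule (Fin N) ℂ d ⊓ I.restrictScalars ℂ) := ⟨hF, hFI⟩
  rw [h0, Submodule.mem_bot] at hmem
  exact hF0 hmem

/-- **unexpected cones** -/
theorem unexpected {K : Type} [Fintype K] [DecidableEq K] (z : K → Fin 4 → ℂ)
    (h2 : ∀ k l, k ≠ l → LinearIndependent ℂ ![z k, z l]) (h1 : ∀ k, z k ≠ 0)
    (hsp : Submodule.span ℂ (Set.range z) = ⊤) (a b : ℕ) (ha : 3 ≤ a) (hb : 3 ≤ b)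
    (hG : Gep z a b) (IZ : Ideal (MvPolynomial (Fin 4) ℂ)) (hIZ : IsVan z IZ)
    (J : (Fin 4 → ℂ) → Ideal (MvPolynomial (Fin 4) ℂ))
    (hJ : ∀ P f, f ∈ J P ↔ ∀ t : ℂ, eval (t • P) f = 0) :
    ∃ φ : MvPolynomial (Fin 4) ℂ, φ ≠ 0 ∧ ∀ P, eval P φ ≠ 0 → ∀ d, (d = a ∨ d = b) →
      max 0 ((Module.finrank ℂ ↥(homogeneousSubmodule (Fin 4) ℂ d ⊓
        IZ.restrictScalars ℂ) : ℤ) - ((d + 2).choose 3 : ℤ)) <
      (Module.finrank ℂ ↥(homogeneousSubmodule (Fin 4) ℂ d ⊓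
        (IZ ⊓ J P ^ d).restrictScalars ℂ) : ℤ) := by
  classical
  obtain ⟨φ, hφ, hP⟩ := good_point z h2 h1 hsp a b hG
  refine ⟨φ, hφ, fun P hPφ d hd => ?_⟩
  obtain ⟨hl, -, -, -, F, G, hF, hG', hF0, hG0, hvan, hrel⟩ := hP P hPφ
  obtain ⟨n, hn⟩ : ∃ n, n + 1 + 3 = a + b := ⟨a + b - 4, by omega⟩
  obtain ⟨hr1, hr2, hr3⟩ := hrel (n + 1) hn
  have hr2' : Module.finrank ℂ (evRel (fun k => projv P (z k)) n) = 3 := hr2 (by omega)
  have hbot : evRel z (n + 1) = ⊥ := no_rel_of_cb z P hsp n (by rw [hr2']) hr3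
  have hdn : d ≤ n + 1 := by omega
  have hd1 : 1 ≤ d := by omega
  -- strict inequality of the numbers of relations
  have hlt : Module.finrank ℂ (evRel z d) < Module.finrank ℂ (evRel (fun k => projv P (z k)) d) := by
    by_contra hnot
    push Not at hnot
    have heq := Submodule.eq_of_le_of_finrank_le (evRel_le z P d) hnot
    have h3 := prop z P hl d hd1 (by rw [← heq]) (n + 1) hdn
    rw [hbot, le_bot_iff] at h3
    rw [h3, finrank_bot] at hr1
    omega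
  have e1 := finrank_evRel (fun k => projv P (z k)) d _ hvan
  have e2 := finrank_evRel z d _ hIZ
  have e3 := finrank_cones z P hl (J P) IZ (hJ P) hIZ _ hvan d
  have e4 := finrank_forms 2 d
  have e5 := finrank_forms 3 d
  have e4' : Module.finrank ℂ (homogeneousSubmodule (Fin 3) ℂ d) = (2 + d).choose 2 := e4
  have e5' : Module.finrank ℂ (homogeneousSubmodule (Fin 4) ℂ d) = (3 + d).choose 3 := e5
  have e6 : (3 + d).choose 3 = (2 + d).choose 2 + (2 + d).choose 3 := by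
    rw [show 3 + d = (2 + d) + 1 by ring, Nat.choose_succ_succ' (2 + d) 2]
  have hpos : 0 < Module.finrank ℂ ↥(homogeneousSubmodule (Fin 3) ℂ d ⊓
      (Ideal.span {F, G}).restrictScalars ℂ) := by
    rcases hd with rfl | rfl
    · exact finrank_pos_of_mem _ F hF hF0 (Ideal.subset_span (by simp))
    · exact finrank_pos_of_mem _ G hG' hG0 (Ideal.subset_span (by simp))
  have e3' : Module.finrank ℂ ↥(homogeneousSubmodule (Fin 4) ℂ d ⊓
        (IZ ⊓ J P ^ d).restrictScalars ℂ) = Module.finrank ℂ ↥(homogeneousSubmodule (Fin 3) ℂ d ⊓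
      (Ideal.span {F, G}).restrictScalars ℂ) := e3
  rw [e3', show d + 2 = 2 + d by ring]
  rw [max_lt_iff]
  refine ⟨by exact_mod_cast hpos, ?_⟩
  rw [e4'] at e1
  rw [e5', e6] at e2
  omega

end Q34.Cone
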