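import Pool.Agent.Y744.GP.Card

/-! The degrees of the two curves in the starting library's families of geproci sets. -/

set_option autoImplicit false

open MvPolynomial
open Pool.Agent.Helper26.GeprociPts Pool.Agent.Helper26.GeprociCI
open Pool.Agent.Results.MP_586029_ag.GeprociMatroid
open Pool.Agent.Helper26.LineArr (lin lin_isHomogeneous)
open Pool.Agent.Y744.GP

namespace Q34.GeproType

theorem geproci_S_type {n : ℕ} {s : Fin n → ℂ} (hn : 0 < n) (hs : GoodS s) {P : V4}
    (hP : eval P (DS s) ≠ 0)
    {π : V4 →ₗ[ℂ] V3} (hπ : LinearMap.ker π = Submodule.span ℂ {P}) :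
    ∃ F G : R3, F.IsHomogeneous 4 ∧ G.IsHomogeneous (n * 3) ∧
      RingTheory.Sequence.IsRegular R3 [F, G] ∧ imageIdeal (Zs s) π = Ideal.span {F, G} := by
  obtain ⟨gen1, gen2⟩ := DS_general hP
  have hsurj : LinearMap.range π = ⊤ := by
    apply Submodule.eq_top_of_finrank_eq
    have h1 := LinearMap.finrank_range_add_finrank_ker π
    have h2 : Module.finrank ℂ (LinearMap.ker π) ≤ 1 := by
      rw [hπ]
      exact (finrank_span_le_card ({P} : Set V4)).trans (by simp)
    have h3 : Module.finrank ℂ (LinearMap.range π) ≤ Module.finrank ℂ V3 :=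
      Submodule.finrank_le _
    have h4 : Module.finrank ℂ V4 = 4 := by simp
    have h5 : Module.finrank ℂ V3 = 3 := by simp
    omega
  obtain ⟨σ, hσ⟩ := LinearMap.exists_rightInverse_of_surjective π hsurj
  have hπσ : ∀ y, π (σ y) = y := fun y => by
    have := LinearMap.congr_fun hσ y
    simpa using this
  have hσπ : ∀ x, ∃ κ : ℂ, σ (π x) = x + κ • P := by
    intro x
    have h1 : σ (π x) - x ∈ LinearMap.ker π := by
      rw [LinearMap.mem_ker, map_sub, hπσ, sub_self]
    rw [hπ, Submodule.mem_span_singleton] at h1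
    obtain ⟨κ, hκ⟩ := h1
    exact ⟨κ, by rw [hκ]; abel⟩
  have hellx : ∀ x k, ∑ r, ell P (σ (Pi.single r 1)) k * π x r = ell P x k := by
    intro x k
    rw [ell_linear]
    obtain ⟨κ, hκ⟩ := hσπ x
    have := ell_smul_add P x 1 κ
    rw [one_smul, one_smul] at this
    rw [hκ, this]
  have hGGx : ∀ x (c : ℂ), eval (c • π x) (GS s P σ) =
      ∏ j, (c ^ 3 * Psi (s j) P x) := by
    intro x c
    rw [eval_GS, map_smul]
    obtain ⟨κ, hκ⟩ := hσπ x
    rw [hκ, smul_add, smul_smul]
    exact Finset.prod_congr rfl fun j _ => Psi_smul_add _ _ _ _ _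
  set a : Fin 4 → V3 := fun i r => ell P (σ (Pi.single r 1)) i with ha
  let q : Fin (n * 3) → Fin n × Fin 3 := finProdFinEquiv.symm
  have hq : Function.Injective q := finProdFinEquiv.symm.injective
  set w : Fin 4 → Fin (n * 3) → V3 := fun i l => π (dp (s (q l).1) i (q l).2) with hw
  let l0 : Fin (n * 3) := ⟨0, by omega⟩
  have hoff : ∀ i k l, i ≠ k → ∑ r, a k r * w i l r ≠ 0 := by
    intro i k l hik
    rw [hellx]
    exact gen1 i k _ _ hik
  have haw : ∀ i l, ∑ r, a i r * w i l r = 0 := by
    intro i l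
    rw [hellx, dp, ell_lpt_self]
  have hne : ∀ i : Fin 4, ∃ k, i ≠ k := by decide
  have H : Data a w (GS s P σ) := by
    refine ⟨?_, ?_, haw, hoff, ?_, GS_hom P σ, ?_, ?_⟩
    · intro i h0
      obtain ⟨k, hk⟩ := hne i
      apply hoff k i l0 hk.symm
      rw [h0]
      simp
    · intro i j h0
      obtain ⟨k, hk⟩ := hne i
      apply hoff i k j hk
      rw [h0]
      simp
    · intro i l l' hll c hc
      have h1 : dp (s (q l).1) i (q l).2 - c • dp (s (q l').1) i (q l').2 ∈ LinearMap.ker π := by
        rw [LinearMap.mem_ker, map_sub, map_smul]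
        change w i l - c • w i l' = 0
        rw [hc, sub_self]
      rw [hπ, Submodule.mem_span_singleton] at h1
      obtain ⟨κ, hκ⟩ := h1
      by_cases hκ0 : κ = 0
      · rw [hκ0, zero_smul] at hκ
        refine ne_point hs (i := i) (j := (q l).1) (a := (q l).2) (j' := (q l').1)
          (a' := (q l').2) ?_ c (sub_eq_zero.mp hκ.symm)
        intro h'
        exact hll (hq h')
      · obtain ⟨k, hk⟩ := hne i
        apply gen1 k i (q l).1 (q l).2 hk.symm
        have hPl : P = lpt i (κ⁻¹ * (pA (s (q l).1) (q l).2 - c * pA (s (q l').1) (q l').2))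
            (κ⁻¹ * (pB (s (q l).1) (q l).2 - c * pB (s (q l').1) (q l').2)) := by
          have : P = κ⁻¹ • (κ • P) := by rw [smul_smul, inv_mul_cancel₀ hκ0, one_smul]
          rw [this, hκ]
          funext r
          simp only [dp, lpt, Pi.smul_apply, Pi.sub_apply, smul_eq_mul]
          ring
        rw [hPl, ell_lpt_left]
    · intro i l c _
      rw [hGGx]
      apply Finset.prod_eq_zero (Finset.mem_univ (q l).1)
      rw [Psi_dp, mul_zero]
    · intro i hdvd
      obtain ⟨p, hp⟩ := hdvd
      have h1 := congrArg (eval (π (lpt i 0 1))) hp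
      rw [map_mul, eval_lin, hellx, ell_lpt_self, zero_mul] at h1
      have h2 := hGGx (lpt i 0 1) 1
      rw [one_smul, h1] at h2
      have h3 := Finset.prod_eq_zero_iff.mp h2.symm
      obtain ⟨j, -, hj⟩ := h3
      rw [one_pow, one_mul] at hj
      exact gen2 i j hj
  refine ⟨∏ i, lin (a i), GS s P σ, ?_, GS_hom P σ,
    isRegular_of_data H 0 l0, ?_⟩
  · have := IsHomogeneous.prod Finset.univ (fun i => lin (a i)) (fun _ => 1)
      (fun i _ => lin_isHomogeneous _)
    simpa using this
  · apply le_antisymm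
    · intro F hF
      apply mem_span_of_data H Finset.univ F
      intro i _ l c hc
      have hc0 : c • dp (s (q l).1) i (q l).2 ≠ 0 := smul_ne_zero hc (dp_ne_zero _ _ _)
      have := hF (c • dp (s (q l).1) i (q l).2) hc0 (smul_dp_mem i _ _ hc0)
      rw [map_smul] at this
      exact this
    · intro F hF
      rw [Ideal.mem_span_pair] at hF
      obtain ⟨α, β, rfl⟩ := hF
      intro x hx hxZ
      obtain ⟨i, j, b, c, hc, rfl⟩ := mem_Zs hx hxZ
      have h1 : eval (π (c • dp (s j) i b)) (∏ i, lin (a i)) = 0 := by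
        rw [map_prod]
        apply Finset.prod_eq_zero (Finset.mem_univ i)
        rw [eval_lin, hellx]
        have := ell_smul_add P (dp (s j) i b) c 0
        rw [zero_smul, add_zero] at this
        rw [this, Pi.smul_apply, dp, ell_lpt_self, smul_zero]
      have h2 : eval (π (c • dp (s j) i b)) (GS s P σ) = 0 := by
        rw [map_smul, hGGx]
        apply Finset.prod_eq_zero (Finset.mem_univ j)
        rw [Psi_dp, mul_zero]
      rw [map_add, map_mul, map_mul, h1, h2]
      ring


end Q34.GeproType
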