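import Pool.Agent.Q34.GrNorm

/-!
# The graded algebra `gr ℚ[S_α]` and its subalgebra of class functions
-/

set_option linter.unusedSectionVars false

open Equiv Equiv.Perm Finset

namespace GrSym

variable (α : Type) [Fintype α] [DecidableEq α]

/-- The algebra `gr ℚ[S_α]`.  A function `f` stands for `∑ f(σ) [σ]`. -/
def Gr : Type := Perm α → ℚ

namespace Gr
variable {α}

instance : AddCommGroup (Gr α) := inferInstanceAs (AddCommGroup (Perm α → ℚ))
noncomputable instance : Module ℚ (Gr α) := inferInstanceAs (Module ℚ (Perm α → ℚ))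

/-- The product: `[σ][τ] = [στ]` if `N(σ) + N(τ) = N(στ)` and `[σ][τ] = 0` otherwise. -/
instance : Mul (Gr α) := ⟨fun f g π =>
  ∑ σ : Perm α, if nrm σ + nrm (σ⁻¹ * π) = nrm π then f σ * g (σ⁻¹ * π) else 0⟩

instance : One (Gr α) := ⟨fun π => if π = 1 then 1 else 0⟩

theorem ext' {f g : Gr α} (h : ∀ π : Perm α, f π = g π) : f = g := funext h

theorem mul_apply (f g : Gr α) (π : Perm α) :
    (f * g) π = ∑ σ : Perm α, if nrm σ + nrm (σ⁻¹ * π) = nrm π then f σ * g (σ⁻¹ * π) else 0 :=
  rfl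

theorem one_apply (π : Perm α) : (1 : Gr α) π = if π = 1 then 1 else 0 := rfl

theorem add_apply (f g : Gr α) (π : Perm α) : (f + g) π = f π + g π := rfl
theorem sub_apply (f g : Gr α) (π : Perm α) : (f - g) π = f π - g π := rfl
theorem neg_apply (f : Gr α) (π : Perm α) : (-f) π = -f π := rfl
theorem zero_apply (π : Perm α) : (0 : Gr α) π = 0 := rfl
theorem smul_apply (c : ℚ) (f : Gr α) (π : Perm α) : (c • f) π = c * f π := rfl
theorem sum_apply {ι : Type*} (s : Finset ι) (f : ι → Gr α) (π : Perm α) :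
    (∑ i ∈ s, f i) π = ∑ i ∈ s, f i π := by
  induction s using Finset.cons_induction with
  | empty => rfl
  | cons a s ha ih => rw [Finset.sum_cons, Finset.sum_cons, add_apply, ih]

theorem mul_apply' (f g : Gr α) (π : Perm α) :
    (f * g) π = ∑ τ : Perm α, if nrm (π * τ⁻¹) + nrm τ = nrm π then f (π * τ⁻¹) * g τ else 0 := by
  rw [mul_apply]
  refine Fintype.sum_equiv ((Equiv.inv (Perm α)).trans (Equiv.mulRight π)) _ _ ?_
  intro σ
  simp only [Equiv.trans_apply, Equiv.inv_apply, Equiv.coe_mulRight, mul_inv_rev, inv_inv,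
    mul_inv_cancel_left]

protected theorem mul_assoc (f g h : Gr α) : f * g * h = f * (g * h) := by
  apply ext'
  intro π
  rw [mul_apply, mul_apply]
  have e1 : ∀ σ : Perm α, (if nrm σ + nrm (σ⁻¹ * π) = nrm π then (f * g) σ * h (σ⁻¹ * π) else 0)
      = ∑ τ : Perm α, if nrm τ + nrm (τ⁻¹ * σ) + nrm (σ⁻¹ * π) = nrm π then
          f τ * g (τ⁻¹ * σ) * h (σ⁻¹ * π) else 0 := by
    intro σ
    rw [mul_apply, Finset.sum_mul]
    split_ifs with hc
    · apply Finset.sum_congr rfl
      intro τ _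
      have h1 : nrm σ ≤ nrm τ + nrm (τ⁻¹ * σ) := by
        have := nrm_mul_le τ (τ⁻¹ * σ)
        rwa [mul_inv_cancel_left] at this
      by_cases hc2 : nrm τ + nrm (τ⁻¹ * σ) = nrm σ
      · rw [if_pos hc2, if_pos (by omega)]
      · rw [if_neg hc2, if_neg (by omega), zero_mul]
    · symm
      apply Finset.sum_eq_zero
      intro τ _
      have h1 : nrm σ ≤ nrm τ + nrm (τ⁻¹ * σ) := by
        have := nrm_mul_le τ (τ⁻¹ * σ)
        rwa [mul_inv_cancel_left] at this
      have h2 : nrm π ≤ nrm σ + nrm (σ⁻¹ * π) := by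
        have := nrm_mul_le σ (σ⁻¹ * π)
        rwa [mul_inv_cancel_left] at this
      rw [if_neg (by omega)]
  have e2 : ∀ τ : Perm α, (if nrm τ + nrm (τ⁻¹ * π) = nrm π then f τ * (g * h) (τ⁻¹ * π) else 0)
      = ∑ σ : Perm α, if nrm τ + nrm (τ⁻¹ * σ) + nrm (σ⁻¹ * π) = nrm π then
          f τ * g (τ⁻¹ * σ) * h (σ⁻¹ * π) else 0 := by
    intro τ
    have e3 : (g * h) (τ⁻¹ * π) = ∑ σ : Perm α,
        if nrm (τ⁻¹ * σ) + nrm (σ⁻¹ * π) = nrm (τ⁻¹ * π) then
          g (τ⁻¹ * σ) * h (σ⁻¹ * π) else 0 := by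
      rw [mul_apply]
      refine (Fintype.sum_equiv (Equiv.mulLeft τ⁻¹) _ _ ?_).symm
      intro σ
      simp only [Equiv.coe_mulLeft, mul_inv_rev, inv_inv, mul_assoc, mul_inv_cancel_left]
    rw [e3, Finset.mul_sum]
    split_ifs with hc
    · apply Finset.sum_congr rfl
      intro σ _
      have h1 : nrm (τ⁻¹ * π) ≤ nrm (τ⁻¹ * σ) + nrm (σ⁻¹ * π) := by
        have := nrm_mul_le (τ⁻¹ * σ) (σ⁻¹ * π)
        rwa [mul_assoc, mul_inv_cancel_left] at this
      by_cases hc2 : nrm (τ⁻¹ * σ) + nrm (σ⁻¹ * π) = nrm (τ⁻¹ * π)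
      · rw [if_pos hc2, if_pos (by omega), mul_assoc]
      · rw [if_neg hc2, if_neg (by omega), mul_zero]
    · symm
      apply Finset.sum_eq_zero
      intro σ _
      have h1 : nrm (τ⁻¹ * π) ≤ nrm (τ⁻¹ * σ) + nrm (σ⁻¹ * π) := by
        have := nrm_mul_le (τ⁻¹ * σ) (σ⁻¹ * π)
        rwa [mul_assoc, mul_inv_cancel_left] at this
      have h2 : nrm π ≤ nrm τ + nrm (τ⁻¹ * π) := by
        have := nrm_mul_le τ (τ⁻¹ * π)
        rwa [mul_inv_cancel_left] at this
      rw [if_neg (by omega)]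
  rw [Finset.sum_congr rfl (fun σ _ => e1 σ), Finset.sum_congr rfl (fun τ _ => e2 τ)]
  exact Finset.sum_comm

protected theorem one_mul (f : Gr α) : 1 * f = f := by
  apply ext'
  intro π
  rw [mul_apply, Finset.sum_eq_single 1]
  · simp [nrm_one, one_apply]
  · intro σ _ hσ
    simp [one_apply, hσ]
  · intro h; exact absurd (Finset.mem_univ _) h

protected theorem mul_one (f : Gr α) : f * 1 = f := by
  apply ext'
  intro π
  rw [mul_apply', Finset.sum_eq_single 1]
  · simp [nrm_one, one_apply]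
  · intro σ _ hσ
    simp [one_apply, hσ]
  · intro h; exact absurd (Finset.mem_univ _) h

protected theorem mul_add (f g h : Gr α) : f * (g + h) = f * g + f * h := by
  apply ext'
  intro π
  rw [add_apply, mul_apply, mul_apply, mul_apply, ← Finset.sum_add_distrib]
  apply Finset.sum_congr rfl
  intro σ _
  rw [add_apply]
  split_ifs <;> ring

protected theorem add_mul (f g h : Gr α) : (f + g) * h = f * h + g * h := by
  apply ext'
  intro π
  rw [add_apply, mul_apply, mul_apply, mul_apply, ← Finset.sum_add_distrib]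
  apply Finset.sum_congr rfl
  intro σ _
  rw [add_apply]
  split_ifs <;> ring

protected theorem zero_mul (f : Gr α) : 0 * f = 0 := by
  apply ext'
  intro π
  rw [mul_apply, zero_apply]
  apply Finset.sum_eq_zero
  intro σ _
  rw [zero_apply]
  split_ifs <;> ring

protected theorem mul_zero (f : Gr α) : f * 0 = 0 := by
  apply ext'
  intro π
  rw [mul_apply, zero_apply]
  apply Finset.sum_eq_zero
  intro σ _
  rw [zero_apply]
  split_ifs <;> ring

noncomputable instance : Ring (Gr α) :=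
  { (inferInstance : AddCommGroup (Gr α)) with
    mul := (· * ·)
    one := 1
    mul_assoc := Gr.mul_assoc
    one_mul := Gr.one_mul
    mul_one := Gr.mul_one
    left_distrib := Gr.mul_add
    right_distrib := Gr.add_mul
    zero_mul := Gr.zero_mul
    mul_zero := Gr.mul_zero }

noncomputable instance : Algebra ℚ (Gr α) := Algebra.ofModule
  (by
    intro c f g
    apply ext'
    intro π
    rw [smul_apply, mul_apply, mul_apply, Finset.mul_sum]
    apply Finset.sum_congr rfl
    intro σ _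
    rw [smul_apply]
    split_ifs <;> ring)
  (by
    intro c f g
    apply ext'
    intro π
    rw [smul_apply, mul_apply, mul_apply, Finset.mul_sum]
    apply Finset.sum_congr rfl
    intro σ _
    rw [smul_apply]
    split_ifs <;> ring)

theorem algebraMap_apply (c : ℚ) (π : Perm α) :
    (algebraMap ℚ (Gr α) c) π = if π = 1 then c else 0 := by
  rw [Algebra.algebraMap_eq_smul_one, smul_apply, one_apply]
  split_ifs <;> ring

end Gr

/-- The subalgebra `A(α)` of class functions: the span of the conjugacy class sums. -/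
noncomputable def cls : Subalgebra ℚ (Gr α) where
  carrier := {f | ∀ σ τ : Perm α, σ.cycleType = τ.cycleType → f σ = f τ}
  add_mem' := by
    intro f g hf hg σ τ h
    rw [Gr.add_apply, Gr.add_apply, hf σ τ h, hg σ τ h]
  mul_mem' := by
    intro f g hf hg σ τ h
    obtain ⟨υ, rfl⟩ := isConj_iff.1 (isConj_of_cycleType_eq h)
    rw [Gr.mul_apply, Gr.mul_apply]
    refine Fintype.sum_equiv (MulAut.conj υ).toEquiv _ _ ?_
    intro ρ
    have e1 : (MulAut.conj υ).toEquiv ρ = υ * ρ * υ⁻¹ := rfl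
    have e2 : (υ * ρ * υ⁻¹)⁻¹ * (υ * σ * υ⁻¹) = υ * (ρ⁻¹ * σ) * υ⁻¹ := by group
    rw [e1, e2, nrm_conj, nrm_conj, nrm_conj]
    rw [hf ρ (υ * ρ * υ⁻¹) cycleType_conj.symm,
      hg (ρ⁻¹ * σ) (υ * (ρ⁻¹ * σ) * υ⁻¹) cycleType_conj.symm]
  algebraMap_mem' := by
    intro c σ τ h
    rw [Gr.algebraMap_apply, Gr.algebraMap_apply]
    exact if_congr (by rw [← cycleType_eq_zero, ← cycleType_eq_zero, h]) rfl rfl

variable {α}

theorem mem_cls {f : Gr α} :
    f ∈ cls α ↔ ∀ σ τ : Perm α, σ.cycleType = τ.cycleType → f σ = f τ := Iff.rfl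

/-- Class functions are central. -/
theorem cls_comm {g : Gr α} (hg : g ∈ cls α) (f : Gr α) : f * g = g * f := by
  apply Gr.ext'
  intro π
  rw [Gr.mul_apply, Gr.mul_apply']
  apply Finset.sum_congr rfl
  intro σ _
  have e1 : π * σ⁻¹ = σ * (σ⁻¹ * π) * σ⁻¹ := by group
  have e2 : g (σ⁻¹ * π) = g (π * σ⁻¹) := hg _ _ (by rw [e1, cycleType_conj])
  have e3 : nrm (π * σ⁻¹) = nrm (σ⁻¹ * π) := by rw [e1, nrm_conj]
  rw [e2, e3, add_comm (nrm σ), mul_comm (f σ)]

noncomputable instance : CommRing (cls α) :=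
  { (inferInstance : Ring (cls α)) with
    mul_comm := fun f g => Subtype.ext (cls_comm g.2 f.1) }

/-- The conjugacy class sum of all permutations of cycle type `m` (fixed points omitted). -/
noncomputable def csum (α : Type) [Fintype α] [DecidableEq α] (m : Multiset ℕ) : cls α :=
  ⟨fun σ => if σ.cycleType = m then 1 else 0, by
    intro σ τ h
    exact if_congr (by rw [h]) rfl rfl⟩

theorem csum_apply (m : Multiset ℕ) (σ : Perm α) :
    (csum α m).1 σ = if σ.cycleType = m then 1 else 0 := rfl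

/-- The basis vector `[τ]`. -/
def sg (τ : Perm α) : Gr α := fun σ => if σ = τ then 1 else 0

theorem mul_sg_apply (f : Gr α) (τ π : Perm α) :
    (f * sg τ) π = if nrm (π * τ⁻¹) + nrm τ = nrm π then f (π * τ⁻¹) else 0 := by
  rw [Gr.mul_apply', Finset.sum_eq_single τ]
  · simp [sg]
  · intro σ _ hσ
    simp [sg, hσ]
  · intro h; exact absurd (Finset.mem_univ _) h

/-- The Jucys-Murphy type element: the sum of all transpositions moving `x`. -/
noncomputable def JM (x : α) : Gr α := ∑ i ∈ Finset.univ.erase x, sg (swap i x)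

theorem mul_JM_apply (f : Gr α) (x : α) (π : Perm α) :
    (f * JM x) π = ∑ s ∈ Finset.Ico 1 (clen π x), f (π * swap ((π ^ s) x) x) := by
  rw [JM, Finset.mul_sum, Gr.sum_apply]
  have e1 : ∀ i ∈ Finset.univ.erase x, (f * sg (swap i x)) π
      = if nrm (π * swap i x) + 1 = nrm π then f (π * swap i x) else 0 := by
    intro i hi
    rw [mul_sg_apply, swap_inv, nrm_swap (Finset.ne_of_mem_erase hi)]
  rw [Finset.sum_congr rfl e1, ← Finset.sum_filter]
  symm
  apply Finset.sum_bij (fun s _ => (π ^ s) x)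
  · intro s hs
    rw [Finset.mem_Ico] at hs
    rw [Finset.mem_filter, Finset.mem_erase]
    exact ⟨⟨pow_ne_self hs.1 hs.2, Finset.mem_univ _⟩, nrm_split hs.1 hs.2⟩
  · intro a ha b hb hab
    rw [Finset.mem_Ico] at ha hb
    by_contra hne
    rcases lt_or_gt_of_ne hne with h | h
    · exact pow_ne_pow h (by omega) hab.symm
    · exact pow_ne_pow h (by omega) hab
  · intro i hi
    rw [Finset.mem_filter, Finset.mem_erase] at hi
    obtain ⟨j, hj, hj'⟩ := exists_pow_lt (sameCycle_of_nrm hi.1.1 hi.2)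
    refine ⟨j, ?_, hj'⟩
    rw [Finset.mem_Ico]
    refine ⟨?_, hj⟩
    rcases Nat.eq_zero_or_pos j with rfl | h
    · exact absurd hj'.symm hi.1.1
    · exact h
  · intro s _; rfl

/-- The rational number `1` if `p` holds and `0` otherwise. -/
noncomputable def chi (p : Prop) : ℚ := @ite ℚ p (Classical.propDecidable p) 1 0

theorem chi_pos {p : Prop} (h : p) : chi p = 1 := by unfold chi; rw [if_pos h]
theorem chi_neg {p : Prop} (h : ¬ p) : chi p = 0 := by unfold chi; rw [if_neg h]
theorem chi_congr {p q : Prop} (h : p ↔ q) : chi p = chi q := by rw [propext h]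
theorem ite_eq_chi (p : Prop) [Decidable p] : (if p then (1 : ℚ) else 0) = chi p := by
  by_cases h : p
  · rw [if_pos h, chi_pos h]
  · rw [if_neg h, chi_neg h]

/-- Indicator of the permutations for which the cycle of `x` has length `n + 1` and the lengths of
all other cycles are in `S`. -/
noncomputable def UU (S : Set ℕ) (n : ℕ) (x : α) : Gr α := fun σ =>
  chi (clen σ x = n + 1 ∧ ∀ y, ¬ SameCycle σ x y → clen σ y ∈ S)

theorem others_split {S : Set ℕ} {π : Perm α} {x : α} {s : ℕ} (h0 : 0 < s) (h1 : s < clen π x) :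
    (∀ y, ¬ SameCycle (π * swap ((π ^ s) x) x) x y → clen (π * swap ((π ^ s) x) x) y ∈ S) ↔
      (s ∈ S ∧ ∀ y, ¬ SameCycle π x y → clen π y ∈ S) := by
  constructor
  · intro h
    refine ⟨?_, ?_⟩
    · have := h _ (split_not_sameCycle h0 h1)
      rwa [split_clen' h0 h1] at this
    · intro y hy
      have := h y (split_not_sameCycle_of_not _ (sameCycle_pow π x s) hy (SameCycle.refl _ _))
      rwa [split_clen_of_not _ (sameCycle_pow π x s) hy] at this
  · rintro ⟨h2, h3⟩ y hy
    by_cases hyx : SameCycle π x y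
    · rcases split_sameCycle_or h0 h1 hyx with h4 | h4
      · exact absurd h4 hy
      · rw [← clen_sameCycle h4, split_clen' h0 h1]
        exact h2
    · rw [split_clen_of_not _ (sameCycle_pow π x s) hyx]
      exact h3 y hyx

theorem UU_mul_JM_apply (S : Set ℕ) (n : ℕ) (x : α) (π : Perm α) :
    (UU S n x * JM x) π = chi (n + 1 < clen π x ∧ clen π x - (n + 1) ∈ S ∧
      ∀ y, ¬ SameCycle π x y → clen π y ∈ S) := by
  classical
  rw [mul_JM_apply]
  have e1 : ∀ s ∈ Finset.Ico 1 (clen π x), (UU S n x) (π * swap ((π ^ s) x) x) =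
      chi (clen π x - s = n + 1 ∧ s ∈ S ∧ ∀ y, ¬ SameCycle π x y → clen π y ∈ S) := by
    intro s hs
    rw [Finset.mem_Ico] at hs
    unfold UU
    rw [split_clen hs.1 hs.2]
    exact chi_congr (by rw [others_split hs.1 hs.2])
  rw [Finset.sum_congr rfl e1]
  by_cases hc : (n + 1 < clen π x ∧ clen π x - (n + 1) ∈ S ∧
      ∀ y, ¬ SameCycle π x y → clen π y ∈ S)
  · rw [chi_pos hc, Finset.sum_eq_single (clen π x - (n + 1))]
    · rw [chi_pos ⟨by omega, hc.2⟩]
    · intro s hs hne
      rw [Finset.mem_Ico] at hs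
      rw [chi_neg]
      rintro ⟨h1, _⟩
      omega
    · intro h
      exfalso
      apply h
      rw [Finset.mem_Ico]
      omega
  · rw [chi_neg hc]
    apply Finset.sum_eq_zero
    intro s hs
    rw [Finset.mem_Ico] at hs
    rw [chi_neg]
    rintro ⟨h1, h2, h3⟩
    apply hc
    refine ⟨by omega, ?_, h3⟩
    have : clen π x - (n + 1) = s := by omega
    rwa [this]

/-- `R_n`: the sum of all `(n+1)`-cycles through `x`. -/
theorem UU_one_mul_JM (n : ℕ) (x : α) : UU {1} n x * JM x = UU {1} (n + 1) x := by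
  apply Gr.ext'
  intro π
  rw [UU_mul_JM_apply]
  unfold UU
  refine chi_congr ?_
  simp only [Set.mem_singleton_iff]
  constructor
  · rintro ⟨h1, h2, h3⟩
    exact ⟨by omega, h3⟩
  · rintro ⟨h1, h3⟩
    exact ⟨by omega, by omega, h3⟩

theorem UU_two_mul_JM (n : ℕ) (x : α) :
    UU {1, 2} n x * JM x = UU {1, 2} (n + 1) x + UU {1, 2} (n + 2) x := by
  apply Gr.ext'
  intro π
  rw [UU_mul_JM_apply, Gr.add_apply]
  unfold UU
  simp only [Set.mem_insert_iff, Set.mem_singleton_iff]
  by_cases h3 : ∀ y, ¬ SameCycle π x y → (clen π y = 1 ∨ clen π y = 2)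
  · by_cases h1 : clen π x = n + 1 + 1
    · rw [chi_pos ⟨by omega, by omega, h3⟩, chi_pos ⟨h1, h3⟩, chi_neg (fun h => by omega)]
      norm_num
    · by_cases h2 : clen π x = n + 2 + 1
      · rw [chi_pos ⟨by omega, by omega, h3⟩, chi_neg (fun h => h1 h.1), chi_pos ⟨h2, h3⟩]
        norm_num
      · rw [chi_neg (fun h => by omega), chi_neg (fun h => h1 h.1), chi_neg (fun h => h2 h.1)]
        norm_num
  · rw [chi_neg (fun h => h3 h.2.2), chi_neg (fun h => h3 h.2), chi_neg (fun h => h3 h.2)]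
    norm_num

end GrSym
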