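import Mathlib

/-!
# Spans of finitely many polynomial sequences have eventually constant dimension
-/

set_option linter.style.haveILetI false

open Module

namespace GrSym

/-- `g` is a polynomial function of `k`. -/
def IsPolyFn (g : ℕ → ℚ) : Prop := ∃ p : Polynomial ℚ, ∀ k : ℕ, g k = p.eval (k : ℚ)

theorem IsPolyFn.add {f g : ℕ → ℚ} (hf : IsPolyFn f) (hg : IsPolyFn g) :
    IsPolyFn (fun k => f k + g k) := by
  obtain ⟨p, hp⟩ := hf
  obtain ⟨q, hq⟩ := hg
  exact ⟨p + q, fun k => by simp only [hp, hq, Polynomial.eval_add]⟩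

theorem isPolyFn_const (c : ℚ) : IsPolyFn (fun _ => c) := ⟨Polynomial.C c, fun k => by simp⟩

theorem exists_antidiff (q : Polynomial ℚ) :
    ∃ p : Polynomial ℚ, ∀ x : ℚ, p.eval (1 + x) = p.eval x + q.eval x := by
  induction q using Polynomial.induction_on' with
  | add p q hp hq =>
    obtain ⟨p', hp'⟩ := hp
    obtain ⟨q', hq'⟩ := hq
    refine ⟨p' + q', fun x => ?_⟩
    rw [Polynomial.eval_add, Polynomial.eval_add, Polynomial.eval_add, hp', hq']
    ring
  | monomial n a =>
    refine ⟨Polynomial.C (a / (n + 1)) * Polynomial.bernoulli (n + 1), fun x => ?_⟩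
    rw [Polynomial.eval_mul, Polynomial.eval_C, Polynomial.bernoulli_eval_one_add,
      Polynomial.eval_mul, Polynomial.eval_C, Polynomial.eval_monomial]
    have : ((n : ℚ) + 1) ≠ 0 := by positivity
    simp only [Nat.add_sub_cancel]
    push_cast
    field_simp

theorem isPolyFn_of_diff {g h : ℕ → ℚ} (hh : IsPolyFn h) (hg : ∀ k, g (k + 1) = g k + h k) :
    IsPolyFn g := by
  obtain ⟨q, hq⟩ := hh
  obtain ⟨p, hp⟩ := exists_antidiff q
  refine ⟨p + Polynomial.C (g 0 - p.eval 0), fun k => ?_⟩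
  induction k with
  | zero => simp
  | succ k ih =>
    rw [hg, ih, hq, Polynomial.eval_add, Polynomial.eval_add, Polynomial.eval_C,
      Polynomial.eval_C]
    have := hp k
    push_cast
    rw [add_comm (k : ℚ) 1, this]
    ring

theorem eventually_ne_zero {p : Polynomial ℚ} (hp : p ≠ 0) :
    ∃ N : ℕ, ∀ k : ℕ, N ≤ k → p.eval (k : ℚ) ≠ 0 := by
  have h1 : ((fun k : ℕ => (k : ℚ)) ⁻¹' (p.roots.toFinset : Set ℚ)).Finite :=
    Set.Finite.preimage (fun a _ b _ h => by exact_mod_cast h) (Finset.finite_toSet _)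
  obtain ⟨N, hN⟩ := h1.bddAbove
  refine ⟨N + 1, fun k hk h => ?_⟩
  have : k ∈ ((fun k : ℕ => (k : ℚ)) ⁻¹' (p.roots.toFinset : Set ℚ)) := by
    rw [Set.mem_preimage, Finset.mem_coe, Multiset.mem_toFinset, Polynomial.mem_roots hp]
    exact h
  have := hN this
  omega

/-- The generic rank lemma. -/
theorem eventually_const_rank {E : Type*} [AddCommGroup E] [Module ℚ E] {ι : Type} [Finite ι]
    (v : ι → ℕ → E) (hv : ∀ j, ∀ φ : E →ₗ[ℚ] ℚ, IsPolyFn (fun k => φ (v j k))) :
    ∃ c N : ℕ, ∀ k, N ≤ k → finrank ℚ (Submodule.span ℚ (Set.range fun j => v j k)) = c := by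
  classical
  have : Fintype ι := Fintype.ofFinite ι
  set R : ℕ → ℕ := fun k => finrank ℚ (Submodule.span ℚ (Set.range fun j => v j k)) with hR
  have hbd : ∀ k, R k ≤ Fintype.card ι := fun k => finrank_range_le_card (fun j => v j k)
  obtain ⟨k1, hk1⟩ : ∃ k1, ∀ k, R k ≤ R k1 := by
    have hne : (Set.range R).Nonempty := ⟨R 0, 0, rfl⟩
    have hb : BddAbove (Set.range R) := ⟨Fintype.card ι, by rintro _ ⟨k, rfl⟩; exact hbd k⟩
    obtain ⟨k1, hk1⟩ := Nat.sSup_mem hne hb
    exact ⟨k1, fun k => by rw [hk1]; exact le_csSup hb ⟨k, rfl⟩⟩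
  obtain ⟨κ, a, ha, hsp, hli⟩ := exists_linearIndependent' ℚ (fun j => v j k1)
  have : Finite κ := Finite.of_injective a ha
  have : Fintype κ := Fintype.ofFinite κ
  have hcard : R k1 = Fintype.card κ := by
    rw [hR]
    simp only
    rw [← hsp, finrank_span_eq_card hli]
  -- dual functionals
  obtain ⟨g, hg⟩ := LinearMap.exists_leftInverse_of_injective
    (Finsupp.linearCombination ℚ ((fun j => v j k1) ∘ a))
    (LinearMap.ker_eq_bot.2 hli)
  let φ : κ → E →ₗ[ℚ] ℚ := fun b => (Finsupp.lapply b).comp g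
  have hφ : ∀ b c, φ b (v (a c) k1) = if b = c then 1 else 0 := by
    intro b c
    have h1 := congrArg (fun f => f (Finsupp.single c (1 : ℚ))) hg
    simp only [LinearMap.comp_apply, Finsupp.linearCombination_single, one_smul,
      LinearMap.id_apply, Function.comp_apply] at h1
    change (g (v (a c) k1)) b = _
    rw [h1, Finsupp.single_apply]
    simp only [eq_comm]
  choose p hp using fun (b c : κ) => hv (a c) (φ b)
  let M : Matrix κ κ (Polynomial ℚ) := Matrix.of p
  have hM : ∀ k : ℕ, (M.det).eval (k : ℚ) = (Matrix.of (fun b c => φ b (v (a c) k))).det := by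
    intro k
    have h1 := RingHom.map_det (Polynomial.evalRingHom (k : ℚ)) M
    rw [Polynomial.coe_evalRingHom] at h1
    rw [h1]
    congr 1
    ext b c
    simp only [M, RingHom.mapMatrix_apply, Matrix.map_apply, Matrix.of_apply,
      Polynomial.coe_evalRingHom]
    exact (hp b c k).symm
  have hM1 : (M.det).eval (k1 : ℚ) = 1 := by
    rw [hM]
    have : (Matrix.of (fun b c => φ b (v (a c) k1)) : Matrix κ κ ℚ) = 1 := by
      ext b c
      rw [Matrix.of_apply, hφ, Matrix.one_apply]
    rw [this, Matrix.det_one]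
  have hM0 : M.det ≠ 0 := by
    intro h
    rw [h, Polynomial.eval_zero] at hM1
    exact one_ne_zero hM1.symm
  obtain ⟨N, hN⟩ := eventually_ne_zero hM0
  refine ⟨R k1, N, fun k hk => le_antisymm (hk1 k) ?_⟩
  have hdet := hN k hk
  rw [hM] at hdet
  have hli2 : LinearIndependent ℚ (fun c => v (a c) k) := by
    rw [Fintype.linearIndependent_iff]
    intro x hx
    have h2 : (Matrix.of (fun b c => φ b (v (a c) k))).mulVec x = 0 := by
      funext b
      have h3 := congrArg (φ b) hx
      rw [map_sum, map_zero] at h3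
      rw [Matrix.mulVec, dotProduct, Pi.zero_apply, ← h3]
      apply Finset.sum_congr rfl
      intro c _
      rw [map_smul, smul_eq_mul, Matrix.of_apply, mul_comm]
    have h3 := Matrix.eq_zero_of_mulVec_eq_zero hdet h2
    intro i
    rw [h3]; rfl
  rw [hcard, ← finrank_span_eq_card hli2]
  have : FiniteDimensional ℚ (Submodule.span ℚ (Set.range fun j => v j k)) :=
    FiniteDimensional.span_of_finite ℚ (Set.finite_range _)
  apply Submodule.finrank_mono
  apply Submodule.span_mono
  rintro _ ⟨c, rfl⟩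
  exact ⟨a c, rfl⟩

end GrSym
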