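import Pool.Agent.Q34.GrVal
import Pool.Agent.Q34.GrStab

/-!
# The graded pieces of the kernels, and their stability
-/

set_option linter.unusedSectionVars false

open Module

namespace GrSym

/-- The polynomial ring in the variables `X_0, X_1, …`. -/
abbrev PP : Type := MvPolynomial ℕ ℚ

/-- The weighted homogeneous polynomials of degree `n` (`X_i` has weight `i + 1`). -/
noncomputable abbrev WH (n : ℕ) : Submodule ℚ PP := MvPolynomial.weightedHomogeneousSubmodule ℚ wt n

theorem sum_map_succ (s : ℕ →₀ ℕ) :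
    ((Finsupp.toMultiset s).map Nat.succ).sum = Finsupp.weight wt s := by
  induction s using Finsupp.induction_linear with
  | zero => simp
  | add f g hf hg => rw [map_add, Multiset.map_add, Multiset.sum_add, hf, hg, map_add]
  | single i n =>
    rw [Finsupp.toMultiset_single, Multiset.nsmul_singleton, Multiset.map_replicate,
      Multiset.sum_replicate, Finsupp.weight_apply, Finsupp.sum_single_index (by simp)]
    rfl

theorem finite_weight (n : ℕ) : {s : ℕ →₀ ℕ | Finsupp.weight wt s = n}.Finite := by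
  let f : {s : ℕ →₀ ℕ | Finsupp.weight wt s = n} → Nat.Partition n := fun s =>
    { parts := (Finsupp.toMultiset s.1).map Nat.succ
      parts_pos := by
        intro i hi
        rw [Multiset.mem_map] at hi
        obtain ⟨j, _, rfl⟩ := hi
        exact Nat.succ_pos j
      parts_sum := by rw [sum_map_succ]; exact s.2 }
  have hf : Function.Injective f := by
    intro s t h
    apply Subtype.ext
    have h1 : (Finsupp.toMultiset s.1).map Nat.succ = (Finsupp.toMultiset t.1).map Nat.succ :=
      congrArg Nat.Partition.parts h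
    have h2 := congrArg Multiset.toFinsupp (Multiset.map_injective Nat.succ_injective h1)
    rwa [Finsupp.toMultiset_toFinsupp, Finsupp.toMultiset_toFinsupp] at h2
  have : Finite {s : ℕ →₀ ℕ | Finsupp.weight wt s = n} := Finite.of_injective f hf
  exact Set.toFinite _

theorem WH_eq (n : ℕ) : WH n = MvPolynomial.restrictSupport ℚ {s | Finsupp.weight wt s = n} :=
  MvPolynomial.weightedHomogeneousSubmodule_eq_finsupp_supported ℚ wt n

instance finite_WH (n : ℕ) : Module.Finite ℚ (WH n) := by
  rw [WH_eq]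
  have := (finite_weight n).to_subtype
  exact Module.Finite.of_basis (MvPolynomial.basisRestrictSupport ℚ _)

theorem finrank_WH (n : ℕ) :
    finrank ℚ (WH n) = Nat.card {s : ℕ →₀ ℕ // Finsupp.weight wt s = n} := by
  rw [WH_eq]
  exact finrank_eq_nat_card_basis (MvPolynomial.basisRestrictSupport ℚ _)

/-- `val` as a linear map. -/
noncomputable def valL (n : ℕ) :
    WH n →ₗ[ℚ] ({s : ℕ →₀ ℕ // Finsupp.weight wt s = n} → ℚ) where
  toFun P s := val P.1 s.1
  map_add' P Q := by funext s; exact val_add _ _ _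
  map_smul' c P := by funext s; exact val_smul _ _ _

theorem valL_injective (n : ℕ) : Function.Injective (valL n) := by
  have : Finite {s : ℕ →₀ ℕ // Finsupp.weight wt s = n} := (finite_weight n).to_subtype
  have : Fintype {s : ℕ →₀ ℕ // Finsupp.weight wt s = n} := Fintype.ofFinite _
  have h : finrank ℚ (WH n) = finrank ℚ ({s : ℕ →₀ ℕ // Finsupp.weight wt s = n} → ℚ) := by
    rw [finrank_WH, finrank_fintype_fun_eq_card, Nat.card_eq_fintype_card]
  rw [LinearMap.injective_iff_surjective_of_finrank_eq_finrank h]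
  intro F
  obtain ⟨P, hP, hP'⟩ := exists_val n
    (fun s => if h : Finsupp.weight wt s = n then F ⟨s, h⟩ else 0)
  refine ⟨⟨P, hP⟩, ?_⟩
  funext s
  change val P s.1 = F s
  rw [hP' s.1 s.2, dif_pos s.2]

theorem val_inj {P : PP} {n : ℕ} (hP : P ∈ WH n)
    (h : ∀ s, Finsupp.weight wt s = n → val P s = 0) : P = 0 := by
  have : (⟨P, hP⟩ : WH n) = 0 := by
    apply valL_injective n
    funext s
    rw [map_zero]
    exact h s.1 s.2
  exact congrArg Subtype.val this

/-- Homogeneous elements of degree `n` whose values vanish on all types of excess at least `e`. -/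
noncomputable def GG (n e : ℕ) : Submodule ℚ PP where
  carrier := {P | P ∈ WH n ∧ ∀ s, Finsupp.weight wt s = n → e ≤ Finsupp.weight wexc s → val P s = 0}
  add_mem' := by
    rintro P Q ⟨h1, h2⟩ ⟨h3, h4⟩
    exact ⟨(WH n).add_mem h1 h3, fun s hs hs' => by rw [val_add, h2 s hs hs', h4 s hs hs', add_zero]⟩
  zero_mem' := ⟨(WH n).zero_mem, fun s _ _ => by
    have := val_smul 0 (0 : PP) s
    rwa [zero_smul, zero_mul] at this⟩
  smul_mem' := by
    rintro c P ⟨h1, h2⟩
    exact ⟨(WH n).smul_mem c h1, fun s hs hs' => by rw [val_smul, h2 s hs hs', mul_zero]⟩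

theorem mem_GG {n e : ℕ} {P : PP} : P ∈ GG n e ↔ P ∈ WH n ∧
    ∀ s, Finsupp.weight wt s = n → e ≤ Finsupp.weight wexc s → val P s = 0 := Iff.rfl

theorem GG_le (n e : ℕ) : GG n e ≤ WH n := fun _ h => h.1

instance finite_GG (n e : ℕ) : Module.Finite ℚ (GG n e) :=
  Submodule.finiteDimensional_of_le (GG_le n e)

theorem GG_zero (n : ℕ) : GG n 0 = ⊥ := by
  rw [eq_bot_iff]
  intro P hP
  rw [Submodule.mem_bot]
  exact val_inj hP.1 (fun s hs => hP.2 s hs (Nat.zero_le _))

/-- The kernel of `Phi` for `S_d`. -/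
noncomputable def KK (d : ℕ) : Ideal PP := RingHom.ker (Phi (Fin d))

theorem mem_KK {d : ℕ} {P : PP} : P ∈ KK d ↔ ∀ s, Finsupp.weight wsize s ≤ d → val P s = 0 := by
  rw [KK, RingHom.mem_ker, mem_ker_iff]

theorem mem_KK_iff_GG {d n : ℕ} {P : PP} (hP : P ∈ WH n) : P ∈ KK d ↔ P ∈ GG n (2 * n - d) := by
  rw [mem_KK, mem_GG]
  constructor
  · intro h
    refine ⟨hP, fun s hs hs' => h s ?_⟩
    have := weight_rel s
    omega
  · rintro ⟨_, h⟩ s hs
    by_cases hn : Finsupp.weight wt s = n
    · apply h s hn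
      have := weight_rel s
      omega
    · exact val_of_homogeneous hP hn

theorem component_mem_WH (n : ℕ) (P : PP) :
    MvPolynomial.weightedHomogeneousComponent wt n P ∈ WH n :=
  MvPolynomial.weightedHomogeneousComponent_isWeightedHomogeneous _ _

theorem component_of_mem {n : ℕ} {P : PP} (h : P ∈ WH n) :
    MvPolynomial.weightedHomogeneousComponent wt n P = P :=
  MvPolynomial.IsWeightedHomogeneous.weightedHomogeneousComponent_same h

theorem component_mem_KK {d n : ℕ} {P : PP} (h : P ∈ KK d) :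
    MvPolynomial.weightedHomogeneousComponent wt n P ∈ KK d := by
  rw [mem_KK] at h ⊢
  intro s hs
  by_cases hn : Finsupp.weight wt s = n
  · rw [← hn, val_component]; exact h s hs
  · exact val_of_homogeneous (component_mem_WH n P) hn

theorem mem_WH_of_component {n : ℕ} {P : PP}
    (h : ∀ k, k ≠ n → MvPolynomial.weightedHomogeneousComponent wt k P = 0) : P ∈ WH n := by
  intro s hs
  by_contra hc
  apply hs
  have h1 := h _ hc
  have h2 := congrArg (MvPolynomial.coeff s) h1
  rw [MvPolynomial.coeff_weightedHomogeneousComponent, if_pos rfl, MvPolynomial.coeff_zero] at h2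
  exact h2

theorem weight_add_single (s : ℕ →₀ ℕ) (i : ℕ) :
    Finsupp.weight wt (s + Finsupp.single i 1) = Finsupp.weight wt s + (i + 1) := by
  rw [map_add]
  congr 1
  rw [Finsupp.weight_apply, Finsupp.sum_single_index (by simp)]
  simp [wt]

theorem wexc_add_single (s : ℕ →₀ ℕ) (i : ℕ) :
    Finsupp.weight wexc (s + Finsupp.single i 1) = Finsupp.weight wexc s + i := by
  rw [map_add]
  congr 1
  rw [Finsupp.weight_apply, Finsupp.sum_single_index (by simp)]
  simp [wexc]

theorem dd_mem_WH {n : ℕ} {P : PP} (h : P ∈ WH (n + 1)) : dd P ∈ WH n := by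
  apply mem_WH_of_component
  intro k hk
  apply val_inj (component_mem_WH k _)
  intro s hs
  rw [← hs, val_component, val_dd]
  apply val_of_homogeneous h
  rw [weight_add_single]
  omega

theorem dd_mem_GG {n e : ℕ} {P : PP} (h : P ∈ GG (n + 1) e) : dd P ∈ GG n e := by
  refine ⟨dd_mem_WH h.1, fun s hs hs' => ?_⟩
  rw [val_dd]
  apply h.2
  · rw [weight_add_single]; omega
  · rw [wexc_add_single]; omega

theorem weight_le_of_zero {s : ℕ →₀ ℕ} (h : s 0 = 0) :
    Finsupp.weight wt s ≤ 2 * Finsupp.weight wexc s := by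
  rw [Finsupp.weight_apply, Finsupp.weight_apply, Finsupp.sum, Finsupp.sum, Finset.mul_sum]
  apply Finset.sum_le_sum
  intro i hi
  have hi0 : i ≠ 0 := by
    rintro rfl
    rw [Finsupp.mem_support_iff] at hi
    exact hi h
  simp only [wt, wexc, smul_eq_mul]
  have h1 : i + 1 ≤ 2 * i := by omega
  calc s i * (i + 1) ≤ s i * (2 * i) := Nat.mul_le_mul_left _ h1
    _ = 2 * (s i * i) := by ring

theorem sub_single_add {s : ℕ →₀ ℕ} {i : ℕ} (h : s i ≠ 0) :
    s - Finsupp.single i 1 + Finsupp.single i 1 = s := by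
  apply tsub_add_cancel_of_le
  rw [Finsupp.single_le_iff]
  omega

theorem dd_injective {n e : ℕ} (hn : 2 * e ≤ n + 1) {P : PP} (h : P ∈ GG (n + 1) e)
    (h0 : dd P = 0) : P = 0 := by
  apply val_inj h.1
  intro s hs
  by_cases he : e ≤ Finsupp.weight wexc s
  · exact h.2 s hs he
  · have hs0 : s 0 ≠ 0 := by
      intro h1
      have := weight_le_of_zero h1
      omega
    rw [← sub_single_add hs0, ← val_dd, h0]
    have := val_smul 0 (0 : PP) (s - Finsupp.single 0 1)
    rwa [zero_smul, zero_mul] at this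

theorem dd_surjective {n e : ℕ} {Q : PP} (hQ : Q ∈ GG n e) : ∃ P ∈ GG (n + 1) e, dd P = Q := by
  obtain ⟨P, hP, hP'⟩ := exists_val (n + 1)
    (fun s => if s 0 = 0 then 0 else val Q (s - Finsupp.single 0 1))
  have hPG : P ∈ GG (n + 1) e := by
    refine ⟨hP, fun s hs hs' => ?_⟩
    rw [hP' s hs]
    split_ifs with h0
    · rfl
    · have h1 := sub_single_add h0
      apply hQ.2
      · have := weight_add_single (s - Finsupp.single 0 1) 0
        rw [h1] at this
        omega
      · have := wexc_add_single (s - Finsupp.single 0 1) 0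
        rw [h1] at this
        omega
  refine ⟨P, hPG, ?_⟩
  have h2 : dd P - Q ∈ WH n := (WH n).sub_mem (dd_mem_WH hP) hQ.1
  apply sub_eq_zero.1
  apply val_inj h2
  intro s hs
  have h3 : val (dd P - Q) s = val (dd P) s - val Q s := by
    rw [sub_eq_add_neg, val_add]
    have : -Q = (-1 : ℚ) • Q := by rw [neg_smul, one_smul]
    rw [this, val_smul]
    ring
  rw [h3, val_dd, hP' _ (by rw [weight_add_single, hs])]
  rw [if_neg, add_tsub_cancel_right, sub_self]
  simp

theorem exists_seq {n e : ℕ} {b : PP} (hb : b ∈ GG n e) :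
    ∃ w : ℕ → PP, w 0 = b ∧ (∀ k, w k ∈ GG (n + k) e) ∧ ∀ k, dd (w (k + 1)) = w k := by
  choose f hf1 hf2 using fun (n e : ℕ) (Q : PP) (hQ : Q ∈ GG n e) => dd_surjective hQ
  let w : (k : ℕ) → {P : PP // P ∈ GG (n + k) e} := fun k => Nat.rec ⟨b, hb⟩
    (fun k x => ⟨f (n + k) e x.1 x.2, hf1 (n + k) e x.1 x.2⟩) k
  refine ⟨fun k => (w k).1, rfl, fun k => (w k).2, fun k => ?_⟩
  exact hf2 (n + k) e (w k).1 (w k).2

/-- The iterated derivation. -/
noncomputable def ddk (k : ℕ) : PP →ₗ[ℚ] PP := ((dd : Derivation ℚ PP PP) : PP →ₗ[ℚ] PP) ^ k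

theorem ddk_zero (P : PP) : ddk 0 P = P := rfl

theorem ddk_succ (k : ℕ) (P : PP) : ddk (k + 1) P = ddk k (dd P) := by
  unfold ddk
  rw [pow_succ]
  rfl

theorem ddk_seq {w : ℕ → PP} (hw : ∀ k, dd (w (k + 1)) = w k) (k : ℕ) : ∀ j, ddk k (w (k + j)) = w j := by
  induction k with
  | zero => intro j; rw [ddk_zero, Nat.zero_add]
  | succ k ih =>
    intro j
    have : k + 1 + j = (k + j) + 1 := by ring
    rw [ddk_succ, this, hw, ih]

theorem ddk_mem_GG {n e : ℕ} (k : ℕ) : ∀ {P : PP}, P ∈ GG (n + k) e → ddk k P ∈ GG n e := by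
  induction k with
  | zero => intro P hP; exact hP
  | succ k ih =>
    intro P hP
    rw [ddk_succ]
    exact ih (dd_mem_GG hP)

theorem ddk_injective {n e : ℕ} (hn : 2 * e ≤ n + 1) (k : ℕ) :
    ∀ {P : PP}, P ∈ GG (n + k) e → ddk k P = 0 → P = 0 := by
  induction k with
  | zero => intro P _ h; exact h
  | succ k ih =>
    intro P hP h0
    rw [ddk_succ] at h0
    have h1 : dd P = 0 := ih (dd_mem_GG hP) h0
    exact dd_injective (n := n + k) (by omega) hP h1

theorem isPolyFn_T (φ : PP →ₗ[ℚ] ℚ) (i : ℕ) : ∀ w : ℕ → PP, (∀ k, dd (w (k + 1)) = w k) →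
    IsPolyFn (fun k => φ (ddk k (MvPolynomial.X i * w k))) := by
  induction i with
  | zero =>
    intro w hw
    apply isPolyFn_of_diff (h := fun _ => φ (w 1)) (isPolyFn_const _)
    intro k
    rw [ddk_succ, Derivation.leibniz, smul_eq_mul, smul_eq_mul, dd_X_zero, hw, mul_one, map_add,
      map_add, ddk_seq hw]
  | succ i ih =>
    intro w hw
    apply isPolyFn_of_diff (h := fun k => φ (ddk k (MvPolynomial.X i * w (k + 1))))
      (ih (fun k => w (k + 1)) (fun k => hw (k + 1)))
    intro k
    rw [ddk_succ, Derivation.leibniz, smul_eq_mul, smul_eq_mul, dd_X_succ, hw,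
      mul_comm (w (k + 1)), map_add, map_add]

end GrSym
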