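import Pool.Agent.Q34.GrAlg

/-!
# The classes of products of disjoint transpositions generate the class algebra
-/

set_option linter.unusedSectionVars false

open Equiv Equiv.Perm Finset

namespace GrSym

section catalan

/-- The truncated power series `∑ (-1)^r Cat_r X^r`. -/
noncomputable def catP (D : ℕ) : Polynomial ℚ :=
  ∑ r ∈ Finset.range (D + 1), Polynomial.monomial r ((-1) ^ r * (catalan r : ℚ))

theorem catP_coeff (D n : ℕ) (h : n ≤ D) : (catP D).coeff n = (-1) ^ n * (catalan n : ℚ) := by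
  unfold catP
  rw [Polynomial.finsetSum_coeff, Finset.sum_eq_single n]
  · simp
  · intro b _ hb
    rw [Polynomial.coeff_monomial, if_neg hb]
  · intro hn
    exfalso; apply hn; rw [Finset.mem_range]; omega

theorem catP_rel (D : ℕ) :
    Polynomial.X ^ (D + 1) ∣ catP D + Polynomial.X * (catP D * catP D) - 1 := by
  rw [Polynomial.X_pow_dvd_iff]
  intro d hd
  cases d with
  | zero =>
    rw [Polynomial.coeff_sub, Polynomial.coeff_add, catP_coeff D 0 (by omega)]
    simp
  | succ n =>
    rw [Polynomial.coeff_sub, Polynomial.coeff_add, catP_coeff D (n + 1) (by omega),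
      Polynomial.coeff_X_mul, Polynomial.coeff_mul]
    have e1 : ∀ ij ∈ Finset.HasAntidiagonal.antidiagonal n, (catP D).coeff ij.1 * (catP D).coeff ij.2
        = (-1) ^ n * ((catalan ij.1 : ℚ) * (catalan ij.2 : ℚ)) := by
      intro ij hij
      rw [Finset.HasAntidiagonal.mem_antidiagonal] at hij
      rw [catP_coeff D ij.1 (by omega), catP_coeff D ij.2 (by omega), ← hij, pow_add]
      ring
    rw [Finset.sum_congr rfl e1, ← Finset.mul_sum]
    have e2 : (catalan (n + 1) : ℚ)
        = ∑ ij ∈ Finset.HasAntidiagonal.antidiagonal n, (catalan ij.1 : ℚ) * (catalan ij.2 : ℚ) := by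
      rw [catalan_succ']; push_cast; rfl
    rw [← e2, Polynomial.coeff_one, if_neg (by omega)]
    ring

theorem catalan_ne_zero (n : ℕ) : (catalan n : ℚ) ≠ 0 := by
  have h := succ_mul_catalan_eq_centralBinom n
  have h2 : 0 < n.centralBinom := Nat.centralBinom_pos n
  intro h3
  have h4 : catalan n = 0 := by exact_mod_cast h3
  rw [h4] at h
  omega

end catalan

variable {α : Type} [Fintype α] [DecidableEq α]

theorem clen_le_card (σ : Perm α) (x : α) : clen σ x ≤ Fintype.card α := by
  have : Function.Injective (fun j : Fin (clen σ x) => (σ ^ (j : ℕ)) x) := by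
    intro a b hab
    by_contra hne
    rcases lt_or_gt_of_ne (fun h => hne (Fin.ext h) : (a : ℕ) ≠ b) with h | h
    · exact pow_ne_pow h (by omega) hab.symm
    · exact pow_ne_pow h (by omega) hab
  simpa using Fintype.card_le_of_injective _ this

theorem UU_zero_eq_one (x : α) : UU {1} 0 x = 1 := by
  apply Gr.ext'
  intro π
  rw [Gr.one_apply]
  unfold UU
  rw [ite_eq_chi]
  apply chi_congr
  simp only [Set.mem_singleton_iff, zero_add]
  constructor
  · rintro ⟨h1, h2⟩
    ext y
    by_cases h : SameCycle π x y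
    · rw [clen_sameCycle h, clen_eq_one_iff] at h1
      rw [h1, Perm.one_apply]
    · rw [Perm.one_apply, ← clen_eq_one_iff]
      exact h2 y h
  · rintro rfl
    refine ⟨by rw [clen_eq_one_iff, Perm.one_apply], fun y _ => by
      rw [clen_eq_one_iff, Perm.one_apply]⟩

theorem JM_pow (x : α) (n : ℕ) : (JM x) ^ n = UU {1} n x := by
  induction n with
  | zero => rw [pow_zero, UU_zero_eq_one]
  | succ n ih => rw [pow_succ, ih, UU_one_mul_JM]

theorem UU_eq_zero (S : Set ℕ) (n : ℕ) (x : α) (h : Fintype.card α ≤ n) : UU S n x = 0 := by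
  apply Gr.ext'
  intro π
  have := clen_le_card π x
  rw [Gr.zero_apply]
  unfold UU
  rw [chi_neg]
  rintro ⟨h1, _⟩
  omega

/-- The element `∑ (-1)^r Cat_r J^r`. -/
noncomputable def catE (x : α) : Gr α := Polynomial.aeval (JM x) (catP (Fintype.card α))

theorem catE_eq (x : α) : catE x =
    ∑ r ∈ Finset.range (Fintype.card α + 1), ((-1) ^ r * (catalan r : ℚ)) • UU {1} r x := by
  unfold catE catP
  rw [map_sum]
  apply Finset.sum_congr rfl
  intro r _
  rw [Polynomial.aeval_monomial, JM_pow, Algebra.smul_def]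

theorem catE_rel (x : α) : catE x + JM x * (catE x * catE x) = 1 := by
  obtain ⟨q, hq⟩ := catP_rel (Fintype.card α)
  have h := congrArg (Polynomial.aeval (JM x)) hq
  rw [map_mul, map_pow, Polynomial.aeval_X, JM_pow, UU_eq_zero _ _ _ (by omega), zero_mul,
    map_sub, map_add, map_mul, map_mul, Polynomial.aeval_X, map_one] at h
  exact sub_eq_zero.1 h

theorem catE_comm (x : α) : JM x * catE x = catE x * JM x := by
  unfold catE
  have : JM x = Polynomial.aeval (JM x) (Polynomial.X : Polynomial ℚ) := by simp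
  conv_lhs => rw [this]
  conv_rhs => rw [this]
  simp only [Polynomial.aeval_X]
  conv_lhs => rw [← Polynomial.aeval_X (R := ℚ) (JM x)]
  conv_rhs => rw [← Polynomial.aeval_X (R := ℚ) (JM x)]
  simp only [Polynomial.aeval_X]
  have h1 : JM x * Polynomial.aeval (JM x) (catP (Fintype.card α))
      = Polynomial.aeval (JM x) (Polynomial.X * catP (Fintype.card α)) := by simp
  have h2 : Polynomial.aeval (JM x) (catP (Fintype.card α)) * JM x
      = Polynomial.aeval (JM x) (catP (Fintype.card α) * Polynomial.X) := by simp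
  rw [h1, h2, mul_comm]

/-- The sum of all involutions. -/
noncomputable def DD (α : Type) [Fintype α] [DecidableEq α] : Gr α :=
  fun σ => chi (∀ y, clen σ y = 1 ∨ clen σ y = 2)

theorem UU_add (x : α) : UU {1, 2} 0 x + UU {1, 2} 1 x = DD α := by
  apply Gr.ext'
  intro π
  rw [Gr.add_apply]
  unfold UU DD
  simp only [Set.mem_insert_iff, Set.mem_singleton_iff, zero_add]
  by_cases h : ∀ y, clen π y = 1 ∨ clen π y = 2
  · rw [chi_pos h]
    rcases h x with h1 | h1
    · rw [chi_pos ⟨h1, fun y _ => h y⟩, chi_neg (fun h2 => by omega)]; norm_num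
    · rw [chi_neg (fun h2 => by omega), chi_pos ⟨h1, fun y _ => h y⟩]; norm_num
  · rw [chi_neg h, chi_neg, chi_neg]
    · norm_num
    · rintro ⟨h1, h2⟩
      apply h
      intro y
      by_cases h3 : SameCycle π x y
      · rw [← clen_sameCycle h3]; omega
      · exact h2 y h3
    · rintro ⟨h1, h2⟩
      apply h
      intro y
      by_cases h3 : SameCycle π x y
      · rw [← clen_sameCycle h3]; omega
      · exact h2 y h3

theorem UU_succ (x : α) (k : ℕ) : ∀ n, Fintype.card α ≤ n + k →
    UU {1, 2} (n + 1) x = UU {1, 2} n x * (JM x * catE x) := by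
  induction k with
  | zero =>
    intro n hn
    rw [UU_eq_zero _ _ _ (by omega), UU_eq_zero _ _ _ (by omega), zero_mul]
  | succ k ih =>
    intro n hn
    have h1 := ih (n + 1) (by omega)
    set J := JM x with hJ
    set c := catE x with hc
    have hcJ : J * c = c * J := catE_comm x
    have hrel : c + J * (c * c) = 1 := catE_rel x
    set u := J * c with hu
    have hu1 : (1 + u) * c = 1 := by
      rw [hu, add_mul, one_mul, mul_assoc]; exact hrel
    have hu2 : u + u * u = J := by
      have : u + u * u = J * ((1 + c * J) * c) := by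
        rw [hu]; noncomm_ring
      rw [this, ← hcJ, hu1, mul_one]
    set W := UU {1, 2} (n + 1) x - UU {1, 2} n x * u with hW
    have h2 : W * (1 + u) = -(UU {1, 2} (n + 2) x - UU {1, 2} (n + 1) x * u) := by
      have e1 : W * (1 + u) = UU {1, 2} (n + 1) x + UU {1, 2} (n + 1) x * u
          - UU {1, 2} n x * (u + u * u) := by
        rw [hW]; noncomm_ring
      rw [e1, hu2, UU_two_mul_JM]
      abel
    have h3 : UU {1, 2} (n + 2) x - UU {1, 2} (n + 1) x * u = 0 := sub_eq_zero.2 h1
    rw [h3, neg_zero] at h2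
    have h4 : W = 0 := by
      calc W = W * ((1 + u) * c) := by rw [hu1, mul_one]
        _ = (W * (1 + u)) * c := by rw [mul_assoc]
        _ = 0 := by rw [h2, zero_mul]
    exact sub_eq_zero.1 h4

/-- The key identity: `U_1 = Δ - Δ * c(J)`. -/
theorem UU_one_eq (x : α) : UU {1, 2} 1 x = DD α - DD α * catE x := by
  have h1 := UU_succ x (Fintype.card α) 0 (by omega)
  rw [zero_add] at h1
  have hrel : catE x + JM x * (catE x * catE x) = 1 := catE_rel x
  have h2 : (1 + JM x * catE x) * catE x = 1 := by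
    rw [add_mul, one_mul, mul_assoc]; exact hrel
  have h3 : DD α = UU {1, 2} 0 x * (1 + JM x * catE x) := by
    rw [← UU_add x, h1, mul_add, mul_one]
  have h4 : DD α * catE x = UU {1, 2} 0 x := by
    rw [h3, mul_assoc, h2, mul_one]
  rw [h4, ← UU_add x]
  abel

/-! ### Cycle lengths and the cycle type -/

theorem clen_eq_card_support {σ : Perm α} {x : α} (hx : σ x ≠ x) :
    clen σ x = #(cycleOf σ x).support := by
  have hc : (cycleOf σ x).IsCycle := isCycle_cycleOf σ hx
  rw [← hc.orderOf]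
  have hx' : cycleOf σ x x ≠ x := by rwa [cycleOf_apply_self]
  have key : ∀ n, clen σ x ∣ n ↔ orderOf (cycleOf σ x) ∣ n := by
    intro n
    rw [← pow_eq_self_iff, orderOf_dvd_iff_pow_eq_one, hc.pow_eq_one_iff' hx',
      cycleOf_pow_apply_self]
  exact Nat.dvd_antisymm ((key _).2 dvd_rfl) ((key _).1 dvd_rfl)

theorem mem_cycleType_iff_clen {σ : Perm α} {n : ℕ} :
    n ∈ σ.cycleType ↔ 2 ≤ n ∧ ∃ x, clen σ x = n := by
  constructor
  · intro h
    refine ⟨two_le_of_mem_cycleType h, ?_⟩
    rw [cycleType_def, Multiset.mem_map] at h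
    obtain ⟨c, hc, rfl⟩ := h
    have hc' : c ∈ σ.cycleFactorsFinset := hc
    obtain ⟨x, hx⟩ := (mem_cycleFactorsFinset_iff.1 hc').1.nonempty_support
    refine ⟨x, ?_⟩
    have h1 : σ x ≠ x := mem_support.1 (mem_cycleFactorsFinset_support_le hc' hx)
    rw [clen_eq_card_support h1, ← cycle_is_cycleOf hx hc']
    rfl
  · rintro ⟨h2, x, rfl⟩
    have h1 : σ x ≠ x := by
      intro h
      rw [← clen_eq_one_iff] at h
      omega
    rw [cycleType_def, Multiset.mem_map]
    exact ⟨cycleOf σ x, cycleOf_mem_cycleFactorsFinset_iff.2 (mem_support.2 h1),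
      (clen_eq_card_support h1).symm⟩

theorem nrm_of_cycleType {σ : Perm α} {m : Multiset ℕ} (h : σ.cycleType = m) :
    nrm σ + Multiset.card m = m.sum := by
  rw [← h]; exact nrm_add_card σ

theorem nrm_of_replicate {σ : Perm α} {i : ℕ} (h : σ.cycleType = Multiset.replicate i 2) :
    nrm σ = i := by
  have := nrm_of_cycleType h
  rw [Multiset.card_replicate, Multiset.sum_replicate, smul_eq_mul] at this
  omega

theorem nrm_of_singleton {σ : Perm α} {r : ℕ} (h : σ.cycleType = {r + 1}) :
    nrm σ = r := by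
  have := nrm_of_cycleType h
  rw [Multiset.card_singleton, Multiset.sum_singleton] at this
  omega

theorem all_one_two_iff {σ : Perm α} :
    (∀ y, clen σ y = 1 ∨ clen σ y = 2) ↔ σ.cycleType = Multiset.replicate (nrm σ) 2 := by
  constructor
  · intro h
    have h1 : ∀ n ∈ σ.cycleType, n = 2 := by
      intro n hn
      obtain ⟨h2, x, rfl⟩ := mem_cycleType_iff_clen.1 hn
      rcases h x with h3 | h3 <;> omega
    have h2 := Multiset.eq_replicate_card.2 h1
    have h3 := nrm_of_replicate h2
    rw [h3]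
    exact h2
  · intro h y
    by_contra hc
    have h0 := clen_pos σ y
    have h1 : clen σ y ∈ σ.cycleType := mem_cycleType_iff_clen.2 ⟨by omega, y, rfl⟩
    rw [h] at h1
    have := Multiset.eq_of_mem_replicate h1
    omega

/-- The class `δ_i`: the sum of all products of exactly `i` disjoint transpositions. -/
noncomputable def del (α : Type) [Fintype α] [DecidableEq α] (i : ℕ) : cls α :=
  csum α (Multiset.replicate i 2)

theorem DD_apply (σ : Perm α) : DD α σ = chi (σ.cycleType = Multiset.replicate (nrm σ) 2) :=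
  chi_congr all_one_two_iff

theorem del_apply (i : ℕ) (σ : Perm α) :
    (del α i).1 σ = chi (σ.cycleType = Multiset.replicate i 2) := by
  rw [del, csum_apply, ite_eq_chi]

theorem DD_eq_del (σ : Perm α) : DD α σ = (del α (nrm σ)).1 σ := by
  rw [DD_apply, del_apply]

theorem sum_UU_two (σ : Perm α) :
    (∑ x : α, UU {1, 2} 1 x) σ = 2 * (nrm σ : ℚ) * DD α σ := by
  rw [Gr.sum_apply]
  by_cases h : ∀ y, clen σ y = 1 ∨ clen σ y = 2
  · have e1 : ∀ x ∈ Finset.univ, (UU {1, 2} 1 x) σ = if σ x ≠ x then 1 else 0 := by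
      intro x _
      rw [ite_eq_chi]
      unfold UU
      apply chi_congr
      rw [ne_eq, ← clen_eq_one_iff]
      constructor
      · rintro ⟨h1, _⟩; omega
      · intro h1
        refine ⟨?_, fun y _ => h y⟩
        rcases h x with h2 | h2 <;> omega
    rw [Finset.sum_congr rfl e1]
    unfold DD
    rw [chi_pos h, ← Finset.sum_filter, Finset.sum_const, nsmul_eq_mul, mul_one, mul_one]
    have h1 := nrm_add_card σ
    have h2 := all_one_two_iff.1 h
    have h3 : Multiset.card σ.cycleType = nrm σ := by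
      conv_lhs => rw [h2]
      rw [Multiset.card_replicate]
    have h4 : #(Finset.univ.filter (fun x => σ x ≠ x)) = σ.cycleType.sum := by
      rw [sum_cycleType]; rfl
    rw [h4, ← h1, h3]
    push_cast; ring
  · unfold DD
    rw [chi_neg h, mul_zero]
    apply Finset.sum_eq_zero
    intro x _
    unfold UU
    apply chi_neg
    rintro ⟨h1, h2⟩
    apply h
    intro y
    by_cases h3 : SameCycle σ x y
    · rw [← clen_sameCycle h3]; right; omega
    · exact h2 y h3

theorem UU_one_iff {σ : Perm α} {x : α} {r : ℕ} (hr : 1 ≤ r) :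
    (clen σ x = r + 1 ∧ ∀ y, ¬ SameCycle σ x y → clen σ y ∈ ({1} : Set ℕ)) ↔
      (σ.cycleType = {r + 1} ∧ σ x ≠ x) := by
  simp only [Set.mem_singleton_iff, clen_eq_one_iff]
  constructor
  · rintro ⟨h1, h2⟩
    have hx : σ x ≠ x := by rw [ne_eq, ← clen_eq_one_iff]; omega
    have hc : σ.IsCycle := ⟨x, hx, fun y hy => by
      by_contra h; exact hy (h2 y h)⟩
    refine ⟨?_, hx⟩
    have h3 : clen σ x ∈ σ.cycleType := mem_cycleType_iff_clen.2 ⟨by omega, x, rfl⟩
    rw [hc.cycleType, Multiset.mem_singleton] at h3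
    rw [hc.cycleType, ← h3, h1]
  · rintro ⟨h1, hx⟩
    have hc : σ.IsCycle := card_cycleType_eq_one.1 (by rw [h1, Multiset.card_singleton])
    have h2 : clen σ x ≠ 1 := by rwa [ne_eq, clen_eq_one_iff]
    have h0 := clen_pos σ x
    have h3 : clen σ x ∈ σ.cycleType := mem_cycleType_iff_clen.2 ⟨by omega, x, rfl⟩
    rw [h1, Multiset.mem_singleton] at h3
    refine ⟨h3, fun y hy => ?_⟩
    by_contra h4
    exact hy (hc.sameCycle hx h4)

theorem sum_UU_one {r : ℕ} (hr : 1 ≤ r) :
    (∑ x : α, UU {1} r x) = ((r : ℚ) + 1) • (csum α {r + 1}).1 := by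
  apply Gr.ext'
  intro σ
  rw [Gr.sum_apply, Gr.smul_apply, csum_apply]
  by_cases h : σ.cycleType = {r + 1}
  · rw [if_pos h, mul_one]
    have e1 : ∀ x ∈ Finset.univ, (UU {1} r x) σ = if σ x ≠ x then 1 else 0 := by
      intro x _
      rw [ite_eq_chi]
      unfold UU
      apply chi_congr
      rw [UU_one_iff hr]
      exact ⟨fun h => h.2, fun h2 => ⟨h, h2⟩⟩
    rw [Finset.sum_congr rfl e1, ← Finset.sum_filter, Finset.sum_const, nsmul_eq_mul, mul_one]
    have h4 : #(Finset.univ.filter (fun x => σ x ≠ x)) = σ.cycleType.sum := by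
      rw [sum_cycleType]; rfl
    rw [h4, h, Multiset.sum_singleton]
    push_cast; ring
  · rw [if_neg h, mul_zero]
    apply Finset.sum_eq_zero
    intro x _
    unfold UU
    apply chi_neg
    rw [UU_one_iff hr]
    exact fun h2 => h h2.1

theorem key1 : (∑ x : α, UU {1, 2} 1 x) = ∑ r ∈ Finset.Ico 1 (Fintype.card α + 1),
    ((-1) ^ (r + 1) * (catalan r : ℚ) * (r + 1)) • (DD α * (csum α {r + 1}).1) := by
  have e1 : ∀ x ∈ (Finset.univ : Finset α), UU {1, 2} 1 x =
      ∑ r ∈ Finset.Ico 1 (Fintype.card α + 1),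
        ((-1) ^ (r + 1) * (catalan r : ℚ)) • (DD α * UU {1} r x) := by
    intro x _
    rw [UU_one_eq, catE_eq, Finset.range_eq_Ico, Finset.sum_eq_sum_Ico_succ_bot (by omega),
      UU_zero_eq_one, catalan_zero, mul_add, Finset.mul_sum]
    simp only [pow_zero, Nat.cast_one, mul_one, one_smul, zero_add]
    rw [sub_add_cancel_left, ← Finset.sum_neg_distrib]
    apply Finset.sum_congr rfl
    intro r _
    rw [Algebra.mul_smul_comm, ← neg_smul, pow_succ]
    congr 1
    ring
  rw [Finset.sum_congr rfl e1, Finset.sum_comm]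
  apply Finset.sum_congr rfl
  intro r hr
  rw [Finset.mem_Ico] at hr
  rw [← Finset.smul_sum, ← Finset.mul_sum, sum_UU_one hr.1, Algebra.mul_smul_comm, smul_smul]

theorem conv_csum (r : ℕ) (σ : Perm α) : (DD α * (csum α {r + 1}).1) σ =
    if r ≤ nrm σ then ((del α (nrm σ - r)).1 * (csum α {r + 1}).1) σ else 0 := by
  split_ifs with hr
  · rw [Gr.mul_apply, Gr.mul_apply]
    apply Finset.sum_congr rfl
    intro ρ _
    by_cases hg : nrm ρ + nrm (ρ⁻¹ * σ) = nrm σ
    · rw [if_pos hg, if_pos hg, csum_apply]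
      by_cases hc : (ρ⁻¹ * σ).cycleType = {r + 1}
      · have h1 := nrm_of_singleton hc
        rw [DD_eq_del]
        have h2 : nrm ρ = nrm σ - r := by omega
        rw [h2]
      · rw [if_neg hc, mul_zero, mul_zero]
    · rw [if_neg hg, if_neg hg]
  · rw [Gr.mul_apply]
    apply Finset.sum_eq_zero
    intro ρ _
    by_cases hg : nrm ρ + nrm (ρ⁻¹ * σ) = nrm σ
    · rw [if_pos hg, csum_apply, if_neg, mul_zero]
      intro hc
      have h1 := nrm_of_singleton hc
      omega
    · rw [if_neg hg]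

/-- Homogeneous elements. -/
def IsH (f : Gr α) (k : ℕ) : Prop := ∀ σ, f σ ≠ 0 → nrm σ = k

theorem IsH.mul {f g : Gr α} {k l : ℕ} (hf : IsH f k) (hg : IsH g l) : IsH (f * g) (k + l) := by
  intro σ hσ
  rw [Gr.mul_apply] at hσ
  obtain ⟨ρ, _, hρ⟩ := Finset.exists_ne_zero_of_sum_ne_zero hσ
  by_cases hgeo : nrm ρ + nrm (ρ⁻¹ * σ) = nrm σ
  · rw [if_pos hgeo] at hρ
    have h1 := hf ρ (left_ne_zero_of_mul hρ)
    have h2 := hg _ (right_ne_zero_of_mul hρ)
    omega
  · rw [if_neg hgeo] at hρ
    exact absurd rfl hρ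

theorem isH_csum {m : Multiset ℕ} {k : ℕ} (h : k + Multiset.card m = m.sum) :
    IsH (csum α m).1 k := by
  intro σ hσ
  rw [csum_apply] at hσ
  by_cases hm : σ.cycleType = m
  · have := nrm_of_cycleType hm
    omega
  · rw [if_neg hm] at hσ
    exact absurd rfl hσ

theorem isH_del (i : ℕ) : IsH (del α i).1 i := by
  apply isH_csum
  rw [Multiset.card_replicate, Multiset.sum_replicate, smul_eq_mul]
  omega

theorem isH_cyc (r : ℕ) : IsH (csum α {r + 1}).1 r := by
  apply isH_csum
  simp

theorem IsH.eq_zero {f : Gr α} {k : ℕ} (hf : IsH f k) {σ : Perm α} (h : nrm σ ≠ k) : f σ = 0 := by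
  by_contra hc
  exact h (hf σ hc)

theorem key2 (n : ℕ) : (2 * (n : ℚ)) • del α n = ∑ r ∈ Finset.Ico 1 (n + 1),
    ((-1) ^ (r + 1) * (catalan r : ℚ) * (r + 1)) • (del α (n - r) * csum α {r + 1}) := by
  apply Subtype.ext
  apply Gr.ext'
  intro σ
  have e0 : ((∑ r ∈ Finset.Ico 1 (n + 1),
      ((-1) ^ (r + 1) * (catalan r : ℚ) * (r + 1)) • (del α (n - r) * csum α {r + 1}) : cls α)).1
      = ∑ r ∈ Finset.Ico 1 (n + 1), ((-1) ^ (r + 1) * (catalan r : ℚ) * (r + 1)) •
        ((del α (n - r)).1 * (csum α {r + 1}).1) := by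
    rw [AddSubmonoidClass.coe_finsetSum]
    rfl
  have e0' : (((2 * (n : ℚ)) • del α n : cls α)).1 = (2 * (n : ℚ)) • (del α n).1 := rfl
  rw [e0, e0', Gr.smul_apply, Gr.sum_apply]
  by_cases hn : nrm σ = n
  · have h1 := congrFun (key1 (α := α)) σ
    change (∑ x : α, UU {1, 2} 1 x) σ = _ at h1
    rw [sum_UU_two, hn] at h1
    have h2 : DD α σ = (del α n).1 σ := by rw [DD_eq_del, hn]
    rw [h2] at h1
    rw [h1, Gr.sum_apply]
    have hle : n ≤ Fintype.card α := by rw [← hn]; unfold nrm; omega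
    rw [← Finset.sum_Ico_consecutive _ (by omega : 1 ≤ n + 1) (by omega : n + 1 ≤ Fintype.card α + 1)]
    rw [add_eq_left.2]
    · apply Finset.sum_congr rfl
      intro r hr
      rw [Finset.mem_Ico] at hr
      rw [Gr.smul_apply, Gr.smul_apply, conv_csum, hn, if_pos (by omega)]
    · apply Finset.sum_eq_zero
      intro r hr
      rw [Finset.mem_Ico] at hr
      rw [Gr.smul_apply, conv_csum, hn, if_neg (by omega), mul_zero]
  · rw [(isH_del n).eq_zero hn, mul_zero]
    symm
    apply Finset.sum_eq_zero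
    intro r hr
    rw [Finset.mem_Ico] at hr
    rw [Gr.smul_apply, ((isH_del (n - r)).mul (isH_cyc r)).eq_zero (by omega), mul_zero]

theorem csum_cyc_mem (B : Subalgebra ℚ (cls α)) (hB : ∀ i, del α i ∈ B) (n : ℕ) (hn : 1 ≤ n) :
    csum α {n + 1} ∈ B := by
  induction n using Nat.strong_induction_on with
  | _ n ih =>
    have h := key2 (α := α) n
    rw [Finset.sum_Ico_succ_top hn] at h
    have h1 : ((-1) ^ (n + 1) * (catalan n : ℚ) * (n + 1)) • (del α (n - n) * csum α {n + 1}) ∈ B := by
      have : ((-1) ^ (n + 1) * (catalan n : ℚ) * (n + 1)) • (del α (n - n) * csum α {n + 1})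
          = (2 * (n : ℚ)) • del α n - ∑ r ∈ Finset.Ico 1 n,
    ((-1) ^ (r + 1) * (catalan r : ℚ) * (r + 1)) • (del α (n - r) * csum α {r + 1}) := by
        rw [h]; ring
      rw [this]
      apply B.sub_mem (B.smul_mem (hB n) _)
      apply B.sum_mem
      intro r hr
      rw [Finset.mem_Ico] at hr
      exact B.smul_mem (B.mul_mem (hB _) (ih r hr.2 hr.1)) _
    have h2 : del α (n - n) = 1 := by
      rw [Nat.sub_self]
      apply Subtype.ext
      apply Gr.ext'
      intro σ
      change _ = (1 : Gr α) σ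
      rw [del_apply, Gr.one_apply, ite_eq_chi, Multiset.replicate_zero]
      exact chi_congr cycleType_eq_zero
    rw [h2, one_mul] at h1
    have h3 : ((-1) ^ (n + 1) * (catalan n : ℚ) * (n + 1)) ≠ 0 := by
      have := catalan_ne_zero n
      have h4 : ((n : ℚ) + 1) ≠ 0 := by positivity
      have h5 : ((-1 : ℚ)) ^ (n + 1) ≠ 0 := pow_ne_zero _ (by norm_num)
      exact mul_ne_zero (mul_ne_zero h5 this) h4
    have h4 := B.smul_mem h1 ((-1) ^ (n + 1) * (catalan n : ℚ) * (n + 1))⁻¹
    rwa [smul_smul, inv_mul_cancel₀ h3, one_smul] at h4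

end GrSym
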