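import Pool.Agent.Q34.GrRank

/-!
# The graded pieces of `P_+ K_d`
-/

set_option linter.unusedSectionVars false

open Module MvPolynomial

namespace GrSym

theorem Gr.mul_apply_one {α : Type} [Fintype α] [DecidableEq α] (f g : Gr α) :
    (f * g) 1 = f 1 * g 1 := by
  rw [Gr.mul_apply, Finset.sum_eq_single 1]
  · simp [nrm_one]
  · intro σ _ hσ
    rw [if_neg]
    intro h
    rw [mul_one, nrm_inv, nrm_one] at h
    exact hσ (nrm_eq_zero_iff.1 (by omega))
  · intro h; exact absurd (Finset.mem_univ _) h

theorem Phi_apply_one (α : Type) [Fintype α] [DecidableEq α] (P : PP) :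
    (Phi α P).1 1 = constantCoeff P := by
  induction P using MvPolynomial.induction_on with
  | C c => rw [Phi_C, if_pos rfl, constantCoeff_C]
  | add p q hp hq =>
    rw [map_add, map_add]
    change (Phi α p).1 1 + (Phi α q).1 1 = _
    rw [hp, hq]
  | mul_X p i hp =>
    rw [map_mul, map_mul, Phi_X, constantCoeff_X, mul_zero]
    change ((Phi α p).1 * (del α (i + 1)).1) 1 = 0
    rw [Gr.mul_apply_one, del_apply, chi_neg, mul_zero]
    rw [Equiv.Perm.cycleType_one]
    intro h
    have := congrArg Multiset.card h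
    simp at this

theorem mem_idealOfVars {P : PP} : P ∈ idealOfVars ℕ ℚ ↔ constantCoeff P = 0 := by
  have h := mem_pow_idealOfVars_iff' (σ := ℕ) (R := ℚ) 1 P
  rw [pow_one] at h
  rw [h, constantCoeff_eq]
  constructor
  · intro h1
    exact h1 0 (by simp)
  · intro h1 x hx
    have : x = 0 := by
      rw [← Finsupp.degree_eq_zero_iff]; omega
    rw [this]; exact h1

theorem KK_le (d : ℕ) : KK d ≤ idealOfVars ℕ ℚ := by
  intro P hP
  rw [mem_idealOfVars, ← Phi_apply_one (Fin d)]
  have : Phi (Fin d) P = 0 := hP
  rw [this]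
  rfl

/-- The homogeneous elements of degree `n` of `P_+ K_d`. -/
noncomputable def LL (d n : ℕ) : Submodule ℚ PP :=
  (idealOfVars ℕ ℚ * KK d).restrictScalars ℚ ⊓ WH n

theorem mem_LL {d n : ℕ} {P : PP} : P ∈ LL d n ↔ P ∈ idealOfVars ℕ ℚ * KK d ∧ P ∈ WH n := Iff.rfl

theorem LL_le_GG (d n : ℕ) : LL d n ≤ GG n (2 * n - d) := by
  intro P hP
  rw [mem_LL] at hP
  rw [← mem_KK_iff_GG hP.2]
  exact Ideal.mul_le_right (I := idealOfVars ℕ ℚ) (J := KK d) hP.1

theorem coeff_single_LL {d n : ℕ} {P : PP} (hP : P ∈ LL d n) (i : ℕ) :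
    coeff (Finsupp.single i 1) P = 0 := by
  have h1 : P ∈ idealOfVars ℕ ℚ ^ 2 := by
    rw [pow_two]
    exact Ideal.mul_mono_right (KK_le d) hP.1
  rw [mem_pow_idealOfVars_iff'] at h1
  apply h1
  rw [Finsupp.degree_single]
  omega

theorem component_X_mul (n i : ℕ) (Q : PP) :
    weightedHomogeneousComponent wt n (X i * Q) =
      if i + 1 ≤ n then X i * weightedHomogeneousComponent wt (n - (i + 1)) Q else 0 := by
  classical
  ext s
  rw [coeff_weightedHomogeneousComponent, coeff_X_mul']
  by_cases hs : i ∈ s.support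
  · rw [Finsupp.mem_support_iff] at hs
    have h1 := sub_single_add hs
    have h2 := weight_add_single (s - Finsupp.single i 1) i
    rw [h1] at h2
    rw [if_pos (Finsupp.mem_support_iff.2 hs)]
    by_cases hn : i + 1 ≤ n
    · rw [if_pos hn, coeff_X_mul', if_pos (Finsupp.mem_support_iff.2 hs),
        coeff_weightedHomogeneousComponent]
      by_cases h3 : Finsupp.weight wt s = n
      · rw [if_pos h3, if_pos (by omega)]
      · rw [if_neg h3, if_neg (by omega)]
    · rw [if_neg hn, if_neg (by omega), coeff_zero]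
  · rw [if_neg hs, ite_self]
    split_ifs
    · rw [coeff_X_mul', if_neg hs]
    · rw [coeff_zero]

theorem LL_eq_WW (e k : ℕ) : LL (2 * (2 * e + k) - e) (2 * e + k) = WW e k := by
  apply le_antisymm
  · intro P hP
    rw [mem_LL] at hP
    rw [← component_of_mem hP.2]
    have key : ∀ A ∈ idealOfVars ℕ ℚ, ∀ Q ∈ KK (2 * (2 * e + k) - e),
        weightedHomogeneousComponent wt (2 * e + k) (A * Q) ∈ WW e k := by
      intro A hA
      induction hA using Submodule.span_induction with
      | mem x hx =>
        obtain ⟨i, rfl⟩ := hx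
        intro Q hQ
        rw [component_X_mul]
        split_ifs with hi
        · have h1 := component_mem_KK (n := 2 * e + k - (i + 1)) hQ
          rw [mem_KK_iff_GG (component_mem_WH _ _)] at h1
          by_cases hie : i < e
          · apply Submodule.subset_span
            refine ⟨i, hie, _, ?_, rfl⟩
            have e1 : 2 * e - (i + 1) + k = 2 * e + k - (i + 1) := by omega
            have e2 : 2 * (2 * e + k - (i + 1)) - (2 * (2 * e + k) - e) = e - 2 * (i + 1) := by
              omega
            rw [e1, ← e2]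
            exact h1
          · have e2 : 2 * (2 * e + k - (i + 1)) - (2 * (2 * e + k) - e) = 0 := by
              omega
            rw [e2, GG_zero, Submodule.mem_bot] at h1
            rw [h1, mul_zero]
            exact Submodule.zero_mem _
        · exact Submodule.zero_mem _
      | zero =>
        intro Q _
        rw [zero_mul, map_zero]
        exact Submodule.zero_mem _
      | add x y _ _ hx hy =>
        intro Q hQ
        rw [add_mul, map_add]
        exact Submodule.add_mem _ (hx Q hQ) (hy Q hQ)
      | smul a x _ hx =>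
        intro Q hQ
        rw [smul_eq_mul, mul_comm a, mul_assoc]
        exact hx _ (Ideal.mul_mem_left _ _ hQ)
    have h2 : ∀ B ∈ idealOfVars ℕ ℚ * KK (2 * (2 * e + k) - e),
        weightedHomogeneousComponent wt (2 * e + k) B ∈ WW e k := by
      intro B hB
      induction hB using Submodule.mul_induction_on' with
      | mem_mul_mem A hA Q hQ => exact key A hA Q hQ
      | add x _ y _ hx hy => rw [map_add]; exact Submodule.add_mem _ hx hy
    exact h2 P hP.1
  · apply Submodule.span_le.2
    rintro _ ⟨i, hi, Q, hQ, rfl⟩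
    have h1 : Q ∈ KK (2 * (2 * e + k) - e) := by
      rw [mem_KK_iff_GG hQ.1]
      have : 2 * (2 * e - (i + 1) + k) - (2 * (2 * e + k) - e) = e - 2 * (i + 1) := by omega
      rwa [this]
    refine ⟨Ideal.mul_mem_mul (Ideal.subset_span ⟨i, rfl⟩) h1, ?_⟩
    have := X_mul_mem (n := 2 * e + k) (e := e) (by omega) (by omega) hQ
    exact this.1

theorem finrank_split {V W : Type*} [AddCommGroup V] [Module ℚ V] [AddCommGroup W]
    [Module ℚ W] (f : V →ₗ[ℚ] W) (S : Submodule ℚ V) [Module.Finite ℚ S] :
    finrank ℚ (S.map f) + finrank ℚ ↥(S ⊓ LinearMap.ker f) = finrank ℚ S := by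
  have h1 := LinearMap.finrank_range_add_finrank_ker (f.domRestrict S)
  rw [LinearMap.range_domRestrict, LinearMap.ker_domRestrict] at h1
  rw [← h1, ← Submodule.map_comap_subtype, Submodule.finrank_map_subtype_eq]

end GrSym
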