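import Mathlib

/-!
# The norm of a permutation and geodesic factorisations
-/

set_option linter.unusedSectionVars false

open Equiv Equiv.Perm Finset

namespace GrSym

section Norm
variable {α : Type} [Fintype α] [DecidableEq α]

/-- The norm `N(σ)`: the number of points minus the number of cycles of `σ`, where fixed points
are counted as cycles. -/
def nrm (σ : Perm α) : ℕ := Fintype.card α - Multiset.card σ.partition.parts

theorem two_mul_card_le (σ : Perm α) : 2 * Multiset.card σ.cycleType ≤ σ.cycleType.sum := by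
  have := Multiset.card_nsmul_le_sum (s := σ.cycleType) (a := 2)
    (fun x hx => two_le_of_mem_cycleType hx)
  simpa [mul_comm] using this

theorem nrm_add_card (σ : Perm α) : nrm σ + Multiset.card σ.cycleType = σ.cycleType.sum := by
  have h1 := two_mul_card_le σ
  have h2 : σ.cycleType.sum ≤ Fintype.card α := sum_cycleType_le σ
  have h3 : Multiset.card σ.partition.parts
      = Multiset.card σ.cycleType + (Fintype.card α - σ.cycleType.sum) := by
    rw [parts_partition, Multiset.card_add, Multiset.card_replicate, ← sum_cycleType]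
  unfold nrm
  rw [h3]
  omega

theorem nrm_eq_of_cycleType_eq {β : Type} [Fintype β] [DecidableEq β] {σ : Perm α} {τ : Perm β}
    (h : σ.cycleType = τ.cycleType) : nrm σ = nrm τ := by
  have h1 := nrm_add_card σ
  have h2 := nrm_add_card τ
  rw [h] at h1
  omega

theorem nrm_one : nrm (1 : Perm α) = 0 := by
  have := nrm_add_card (1 : Perm α)
  simpa using this

theorem nrm_eq_zero_iff {σ : Perm α} : nrm σ = 0 ↔ σ = 1 := by
  constructor
  · intro h
    have h1 := nrm_add_card σ
    have h2 := two_mul_card_le σ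
    have h3 : Multiset.card σ.cycleType = 0 := by omega
    exact card_cycleType_eq_zero.1 h3
  · rintro rfl; exact nrm_one

theorem nrm_inv (σ : Perm α) : nrm σ⁻¹ = nrm σ := nrm_eq_of_cycleType_eq (cycleType_inv σ)

theorem nrm_conj (σ τ : Perm α) : nrm (τ * σ * τ⁻¹) = nrm σ :=
  nrm_eq_of_cycleType_eq cycleType_conj

theorem sign_eq_nrm (σ : Perm α) : sign σ = (-1) ^ nrm σ := by
  rw [sign_of_cycleType, ← nrm_add_card, add_assoc, pow_add, ← two_mul, pow_mul]
  simp

theorem nrm_swap {x y : α} (h : x ≠ y) : nrm (swap x y) = 1 := by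
  have h1 := nrm_add_card (swap x y)
  have h2 : (swap x y).cycleType = {2} := isSwap_iff_cycleType.1 ⟨x, y, h, rfl⟩
  rw [h2] at h1
  simp at h1
  omega

/-- Functions constant along the cycles of `σ`. -/
def fixSpace (σ : Perm α) : Submodule ℚ (α → ℚ) where
  carrier := {f | ∀ x, f (σ x) = f x}
  add_mem' := by
    intro a b ha hb x
    simp only [Pi.add_apply, ha x, hb x]
  zero_mem' := by intro x; rfl
  smul_mem' := by
    intro c a ha x
    simp only [Pi.smul_apply, ha x]

theorem mem_fixSpace {σ : Perm α} {f : α → ℚ} : f ∈ fixSpace σ ↔ ∀ x, f (σ x) = f x := Iff.rfl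

theorem fix_sameCycle {σ : Perm α} {f : α → ℚ} (hf : f ∈ fixSpace σ) {x y : α}
    (h : SameCycle σ x y) : f x = f y := by
  obtain ⟨i, rfl⟩ := h.exists_nat_pow_eq
  induction i with
  | zero => simp
  | succ i ih =>
    rw [pow_succ', Perm.mul_apply, hf]
    exact ih ⟨i, by simp⟩

theorem exists_mem_support {σ : Perm α} (c : {c // c ∈ σ.cycleFactorsFinset}) :
    ∃ x, x ∈ c.1.support :=
  (mem_cycleFactorsFinset_iff.1 c.2).1.nonempty_support

/-- A point in the support of a cycle factor. -/
noncomputable def pt {σ : Perm α} (c : {c // c ∈ σ.cycleFactorsFinset}) : α :=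
  (exists_mem_support c).choose

theorem pt_mem {σ : Perm α} (c : {c // c ∈ σ.cycleFactorsFinset}) : pt c ∈ c.1.support :=
  (exists_mem_support c).choose_spec

/-- Functions constant along cycles are functions on the set of cycles. -/
noncomputable def fixEquiv (σ : Perm α) :
    fixSpace σ ≃ₗ[ℚ] (({c // c ∈ σ.cycleFactorsFinset} ⊕ {x // σ x = x}) → ℚ) where
  toFun f := Sum.elim (fun c => f.1 (pt c)) (fun x => f.1 x.1)
  map_add' f g := by
    ext (c | x) <;> rfl
  map_smul' a f := by
    ext (c | x) <;> rfl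
  invFun g := ⟨fun x => if h : σ x = x then g (Sum.inr ⟨x, h⟩) else
      g (Sum.inl ⟨cycleOf σ x, cycleOf_mem_cycleFactorsFinset_iff.2 (mem_support.2 h)⟩), by
    intro x
    by_cases h : σ x = x
    · simp only [h]
    · have h' : ¬ σ (σ x) = σ x := fun h2 => h (σ.injective h2)
      simp only [h, h', dite_false]
      congr 2
      apply Subtype.ext
      change cycleOf σ (σ x) = cycleOf σ x
      exact (SameCycle.cycleOf_eq (by simp [SameCycle.refl]))⟩
  left_inv f := by
    apply Subtype.ext
    funext x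
    by_cases h : σ x = x
    · simp only [h, dite_true, Sum.elim_inr]
    · simp only [h, dite_false, Sum.elim_inl]
      set c : {c // c ∈ σ.cycleFactorsFinset} :=
        ⟨cycleOf σ x, cycleOf_mem_cycleFactorsFinset_iff.2 (mem_support.2 h)⟩ with hc
      have h1 := pt_mem c
      have h2 : SameCycle σ x (pt c) := by
        have := mem_support_cycleOf_iff.1 h1
        exact this.1
      exact (fix_sameCycle f.2 h2).symm
  right_inv g := by
    funext y
    rcases y with c | x
    · have h1 := pt_mem c
      have h2 : σ (pt c) ≠ pt c := by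
        have := mem_cycleFactorsFinset_support_le c.2 h1
        exact mem_support.1 this
      simp only [Sum.elim_inl, h2, dite_false]
      congr 2
      apply Subtype.ext
      exact (cycle_is_cycleOf h1 c.2).symm
    · simp only [Sum.elim_inr, x.2, dite_true]

theorem finrank_fixSpace (σ : Perm α) :
    Module.finrank ℚ (fixSpace σ) + nrm σ = Fintype.card α := by
  rw [(fixEquiv σ).finrank_eq, Module.finrank_fintype_fun_eq_card, Fintype.card_sum]
  have h1 : Fintype.card {c // c ∈ σ.cycleFactorsFinset} = Multiset.card σ.cycleType := by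
    rw [Fintype.card_coe, cycleType_def, Multiset.card_map]
    rfl
  have h2 : Fintype.card {x // σ x = x} = Fintype.card α - σ.cycleType.sum := by
    rw [sum_cycleType, Fintype.card_subtype, ← Finset.card_compl]
    congr 1
    ext x
    simp
  have h3 := nrm_add_card σ
  have h4 := sum_cycleType_le σ
  rw [h1, h2]
  omega

theorem inf_le_fix_mul (σ τ : Perm α) : fixSpace σ ⊓ fixSpace τ ≤ fixSpace (σ * τ) := by
  intro f hf x
  rw [Perm.mul_apply, hf.1, hf.2]

theorem finrank_inf (σ τ : Perm α) :
    Fintype.card α ≤ Module.finrank ℚ ↥(fixSpace σ ⊓ fixSpace τ) + nrm σ + nrm τ := by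
  have h1 := Submodule.finrank_sup_add_finrank_inf_eq (fixSpace σ) (fixSpace τ)
  have h2 : Module.finrank ℚ ↥(fixSpace σ ⊔ fixSpace τ) ≤ Fintype.card α := by
    have := Submodule.finrank_le (fixSpace σ ⊔ fixSpace τ)
    simpa using this
  have h3 := finrank_fixSpace σ
  have h4 := finrank_fixSpace τ
  omega

theorem nrm_mul_le (σ τ : Perm α) : nrm (σ * τ) ≤ nrm σ + nrm τ := by
  have h1 := finrank_inf σ τ
  have h2 := Submodule.finrank_mono (inf_le_fix_mul σ τ)
  have h3 := finrank_fixSpace (σ * τ)
  omega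

theorem fix_mul_eq {σ τ : Perm α} (h : nrm σ + nrm τ = nrm (σ * τ)) :
    fixSpace σ ⊓ fixSpace τ = fixSpace (σ * τ) := by
  apply Submodule.eq_of_le_of_finrank_le (inf_le_fix_mul σ τ)
  have h1 := finrank_inf σ τ
  have h3 := finrank_fixSpace (σ * τ)
  omega

theorem geod_sameCycle {σ τ : Perm α} (h : nrm σ + nrm τ = nrm (σ * τ)) (x : α) :
    SameCycle (σ * τ) x (σ x) ∧ SameCycle (σ * τ) x (τ x) := by
  classical
  let f : α → ℚ := fun y => if SameCycle (σ * τ) x y then 1 else 0
  have hf : f ∈ fixSpace (σ * τ) := by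
    intro y
    simp only [f, sameCycle_apply_right]
  rw [← fix_mul_eq h] at hf
  have hx : f x = 1 := by simp [f, SameCycle.refl]
  constructor
  · have h1 := hf.1 x
    rw [hx] at h1
    by_contra hc
    simp [f, hc] at h1
  · have h1 := hf.2 x
    rw [hx] at h1
    by_contra hc
    simp [f, hc] at h1

theorem geod_sameCycle_left {σ τ : Perm α} (h : nrm σ + nrm τ = nrm (σ * τ)) {x y : α}
    (hxy : SameCycle σ x y) : SameCycle (σ * τ) x y := by
  obtain ⟨i, rfl⟩ := hxy.exists_nat_pow_eq
  clear hxy
  induction i with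
  | zero => simp [SameCycle.refl]
  | succ i ih =>
    rw [pow_succ', Perm.mul_apply]
    exact ih.trans (geod_sameCycle h _).1

theorem geod_sameCycle_right {σ τ : Perm α} (h : nrm σ + nrm τ = nrm (σ * τ)) {x y : α}
    (hxy : SameCycle τ x y) : SameCycle (σ * τ) x y := by
  obtain ⟨i, rfl⟩ := hxy.exists_nat_pow_eq
  clear hxy
  induction i with
  | zero => simp [SameCycle.refl]
  | succ i ih =>
    rw [pow_succ', Perm.mul_apply]
    exact ih.trans (geod_sameCycle h _).2

/-- The length of the cycle of `σ` through `x`. -/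
noncomputable def clen (σ : Perm α) (x : α) : ℕ := Function.minimalPeriod σ x

theorem clen_pos (σ : Perm α) (x : α) : 0 < clen σ x := by
  apply Function.minimalPeriod_pos_of_mem_periodicPts
  refine Function.mem_periodicPts.2 ⟨orderOf σ, orderOf_pos σ, ?_⟩
  change σ^[orderOf σ] x = x
  rw [iterate_eq_pow, pow_orderOf_eq_one, Perm.one_apply]

theorem pow_eq_self_iff (σ : Perm α) (x : α) (n : ℕ) : (σ ^ n) x = x ↔ clen σ x ∣ n := by
  have := Function.isPeriodicPt_iff_minimalPeriod_dvd (f := σ) (x := x) (n := n)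
  rw [← clen] at this
  rw [← this]
  change _ ↔ σ^[n] x = x
  rw [iterate_eq_pow]

theorem pow_clen (σ : Perm α) (x : α) : (σ ^ clen σ x) x = x :=
  (pow_eq_self_iff σ x _).2 dvd_rfl

theorem pow_ne_self {σ : Perm α} {x : α} {n : ℕ} (h0 : 0 < n) (h1 : n < clen σ x) :
    (σ ^ n) x ≠ x := by
  intro h
  have := Nat.le_of_dvd h0 ((pow_eq_self_iff σ x n).1 h)
  omega

theorem pow_ne_pow {σ : Perm α} {x : α} {m n : ℕ} (h0 : m < n) (h1 : n < m + clen σ x) :
    (σ ^ n) x ≠ (σ ^ m) x := by
  intro h
  obtain ⟨k, rfl⟩ := Nat.exists_eq_add_of_lt h0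
  have h2 : (σ ^ m) ((σ ^ (k + 1)) x) = (σ ^ m) x := by
    rw [← h, ← Perm.mul_apply, ← pow_add]; congr 2
  exact pow_ne_self (by omega) (by omega) ((σ ^ m).injective h2)

theorem clen_eq {σ : Perm α} {x : α} {n : ℕ} (h0 : 0 < n) (h1 : (σ ^ n) x = x)
    (h2 : ∀ k, 0 < k → k < n → (σ ^ k) x ≠ x) : clen σ x = n := by
  have h3 := Nat.le_of_dvd h0 ((pow_eq_self_iff σ x n).1 h1)
  rcases h3.lt_or_eq with h | h
  · exact absurd (pow_clen σ x) (h2 _ (clen_pos σ x) h)
  · exact h

theorem exists_pow_lt {σ : Perm α} {x y : α} (h : SameCycle σ x y) :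
    ∃ j < clen σ x, (σ ^ j) x = y := by
  obtain ⟨i, rfl⟩ := h.exists_nat_pow_eq
  refine ⟨i % clen σ x, Nat.mod_lt _ (clen_pos σ x), ?_⟩
  conv_rhs => rw [← Nat.mod_add_div i (clen σ x)]
  rw [pow_add, Perm.mul_apply]
  congr 1
  exact ((pow_eq_self_iff σ x _).2 (Dvd.intro _ rfl)).symm

theorem sameCycle_pow (σ : Perm α) (x : α) (n : ℕ) : SameCycle σ x ((σ ^ n) x) :=
  ⟨n, by simp⟩

theorem clen_sameCycle {σ : Perm α} {x y : α} (h : SameCycle σ x y) : clen σ x = clen σ y := by
  obtain ⟨i, rfl⟩ := h.exists_nat_pow_eq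
  have key : ∀ n, (σ ^ n) x = x ↔ (σ ^ n) ((σ ^ i) x) = (σ ^ i) x := by
    intro n
    rw [← Perm.mul_apply, ← pow_add, add_comm, pow_add, Perm.mul_apply]
    exact ((σ ^ i).injective.eq_iff).symm
  apply Nat.dvd_antisymm
  · rw [← pow_eq_self_iff, key]; exact pow_clen _ _
  · rw [← pow_eq_self_iff, ← key]; exact pow_clen _ _

theorem clen_eq_one_iff {σ : Perm α} {x : α} : clen σ x = 1 ↔ σ x = x := by
  rw [← Nat.dvd_one, ← pow_eq_self_iff, pow_one]

section split
variable {π : Perm α} {x : α} {s : ℕ}

theorem split_pow (h0 : 0 < s) (h1 : s < clen π x) (k : ℕ) (hk : 0 < k) (hk' : k ≤ clen π x - s) :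
    ((π * swap ((π ^ s) x) x) ^ k) x = (π ^ (s + k)) x := by
  induction k with
  | zero => omega
  | succ k ih =>
    rcases Nat.eq_zero_or_pos k with rfl | hk0
    · rw [zero_add, pow_one, Perm.mul_apply, swap_apply_right, ← Perm.mul_apply, ← pow_succ']
    · rw [pow_succ', Perm.mul_apply, ih hk0 (by omega), Perm.mul_apply,
        swap_apply_of_ne_of_ne, ← Perm.mul_apply, ← pow_succ', add_assoc]
      · exact pow_ne_pow (by omega) (by omega)
      · exact pow_ne_self (by omega) (by omega)

theorem split_clen (h0 : 0 < s) (h1 : s < clen π x) :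
    clen (π * swap ((π ^ s) x) x) x = clen π x - s := by
  apply clen_eq (by omega)
  · rw [split_pow h0 h1 _ (by omega) le_rfl]
    have : s + (clen π x - s) = clen π x := by omega
    rw [this, pow_clen]
  · intro k hk hk'
    rw [split_pow h0 h1 _ hk hk'.le]
    exact pow_ne_self (by omega) (by omega)

theorem split_symm (h1 : s < clen π x) :
    (π ^ (clen π x - s)) ((π ^ s) x) = x := by
  rw [← Perm.mul_apply, ← pow_add]
  have : clen π x - s + s = clen π x := by omega
  rw [this, pow_clen]

theorem split_swap (h1 : s < clen π x) :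
    swap ((π ^ s) x) x = swap ((π ^ (clen π x - s)) ((π ^ s) x)) ((π ^ s) x) := by
  rw [split_symm h1, swap_comm]

theorem split_clen' (h0 : 0 < s) (h1 : s < clen π x) :
    clen (π * swap ((π ^ s) x) x) ((π ^ s) x) = s := by
  have h2 : clen π ((π ^ s) x) = clen π x := (clen_sameCycle (sameCycle_pow π x s)).symm
  rw [split_swap h1, split_clen (by omega) (by omega), h2]
  omega

theorem split_pow' (h0 : 0 < s) (h1 : s < clen π x) (k : ℕ) (hk : 0 < k) (hk' : k ≤ s) :
    ((π * swap ((π ^ s) x) x) ^ k) ((π ^ s) x) = (π ^ k) x := by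
  have h2 : clen π ((π ^ s) x) = clen π x := (clen_sameCycle (sameCycle_pow π x s)).symm
  rw [split_swap h1, split_pow (by omega) (by omega) k hk (by omega), ← Perm.mul_apply, ← pow_add]
  have : clen π x - s + k + s = k + clen π x := by omega
  rw [this, pow_add, Perm.mul_apply, pow_clen]

theorem split_not_sameCycle (h0 : 0 < s) (h1 : s < clen π x) :
    ¬ SameCycle (π * swap ((π ^ s) x) x) x ((π ^ s) x) := by
  intro h
  obtain ⟨j, hj, hj'⟩ := exists_pow_lt h
  rw [split_clen h0 h1] at hj
  rcases Nat.eq_zero_or_pos j with rfl | hj0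
  · simp only [pow_zero, Perm.one_apply] at hj'
    exact pow_ne_self h0 h1 hj'.symm
  · rw [split_pow h0 h1 j hj0 hj.le] at hj'
    exact pow_ne_pow (by omega) (by omega) hj'

theorem split_sameCycle_or (h0 : 0 < s) (h1 : s < clen π x) {y : α} (hy : SameCycle π x y) :
    SameCycle (π * swap ((π ^ s) x) x) x y ∨ SameCycle (π * swap ((π ^ s) x) x) ((π ^ s) x) y := by
  obtain ⟨j, hj, rfl⟩ := exists_pow_lt hy
  rcases Nat.eq_zero_or_pos j with rfl | hj0
  · left; simp [SameCycle.refl]
  · rcases le_or_gt j s with h | h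
    · right
      rw [← split_pow' h0 h1 j hj0 h]
      exact sameCycle_pow _ _ _
    · left
      have : j = s + (j - s) := by omega
      rw [this, ← split_pow h0 h1 (j - s) (by omega) (by omega)]
      exact sameCycle_pow _ _ _

theorem split_pow_of_not (i : α) (hi : SameCycle π x i) {y : α}
    (hy : ¬ SameCycle π x y) (k : ℕ) : ((π * swap i x) ^ k) y = (π ^ k) y := by
  induction k with
  | zero => rfl
  | succ k ih =>
    rw [pow_succ', Perm.mul_apply, ih, Perm.mul_apply, swap_apply_of_ne_of_ne,
      ← Perm.mul_apply, ← pow_succ']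
    · rintro rfl
      exact hy (hi.trans (sameCycle_pow π y k).symm)
    · rintro h
      exact hy (by
        have := (sameCycle_pow π y k).symm
        rwa [h] at this)

theorem split_clen_of_not (i : α) (hi : SameCycle π x i) {y : α}
    (hy : ¬ SameCycle π x y) : clen (π * swap i x) y = clen π y := by
  apply Nat.dvd_antisymm
  · rw [← pow_eq_self_iff, split_pow_of_not i hi hy]; exact pow_clen _ _
  · rw [← pow_eq_self_iff, ← split_pow_of_not i hi hy]; exact pow_clen _ _

theorem split_not_sameCycle_of_not (i : α) (hi : SameCycle π x i) {y z : α}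
    (hy : ¬ SameCycle π x y) (hz : SameCycle π x z) : ¬ SameCycle (π * swap i x) z y := by
  intro h
  obtain ⟨j, hj, hj'⟩ := exists_pow_lt h.symm
  rw [split_pow_of_not i hi hy] at hj'
  apply hy
  apply hz.trans
  rw [← hj']
  exact (sameCycle_pow π y j).symm

theorem nrm_split (h0 : 0 < s) (h1 : s < clen π x) :
    nrm (π * swap ((π ^ s) x) x) + 1 = nrm π := by
  set i := (π ^ s) x with hi
  have hne : i ≠ x := pow_ne_self h0 h1
  have hs : nrm (swap i x) = 1 := nrm_swap hne
  have e1 := nrm_mul_le π (swap i x)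
  have e2 := nrm_mul_le (π * swap i x) (swap i x)
  rw [mul_assoc, swap_mul_self, mul_one] at e2
  have e3 : sign (π * swap i x) = - sign π := by
    rw [Perm.sign_mul, sign_swap hne]; simp
  rw [sign_eq_nrm, sign_eq_nrm] at e3
  have e4 : nrm (π * swap i x) ≠ nrm π := by
    intro h
    rw [h] at e3
    rcases Nat.even_or_odd (nrm π) with h2 | h2
    · rw [h2.neg_one_pow] at e3; exact absurd e3 (by decide)
    · rw [h2.neg_one_pow] at e3; exact absurd e3 (by decide)
  have e5 : nrm (π * swap i x) ≠ nrm π + 1 := by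
    intro h
    have h2 := (geod_sameCycle (σ := π) (τ := swap i x) (by omega) x).2
    rw [swap_apply_right] at h2
    exact split_not_sameCycle h0 h1 h2
  omega

end split

theorem sameCycle_of_nrm {π : Perm α} {i x : α} (hne : i ≠ x)
    (h : nrm (π * swap i x) + 1 = nrm π) : SameCycle π x i := by
  have hs : nrm (swap i x) = 1 := nrm_swap hne
  have h2 := (geod_sameCycle (σ := π * swap i x) (τ := swap i x)
    (by rw [mul_assoc, swap_mul_self, mul_one]; omega) x).2
  rwa [mul_assoc, swap_mul_self, mul_one, swap_apply_right] at h2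

end Norm

end GrSym
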