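import Pool.Agent.Q34.GrFin

/-!
# Eventual constancy of the dimensions
-/

set_option linter.unusedSectionVars false

open Module

namespace GrSym

theorem finrank_map_of_inj {V W : Type*} [AddCommGroup V] [Module ℚ V] [AddCommGroup W]
    [Module ℚ W] (f : V →ₗ[ℚ] W) (S : Submodule ℚ V) (h : ∀ x ∈ S, f x = 0 → x = 0) :
    finrank ℚ (S.map f) = finrank ℚ S := by
  rw [← LinearMap.range_domRestrict]
  apply LinearMap.finrank_range_of_inj
  rw [← LinearMap.ker_eq_bot, LinearMap.ker_eq_bot']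
  intro x hx
  apply Subtype.ext
  exact h x.1 x.2 hx

theorem finrank_GG_succ {n e : ℕ} (hn : 2 * e ≤ n + 1) :
    finrank ℚ (GG (n + 1) e) = finrank ℚ (GG n e) := by
  have h1 := finrank_map_of_inj ((dd : Derivation ℚ PP PP) : PP →ₗ[ℚ] PP) (GG (n + 1) e)
    (fun x hx h0 => dd_injective hn hx h0)
  have h2 : (GG (n + 1) e).map ((dd : Derivation ℚ PP PP) : PP →ₗ[ℚ] PP) = GG n e := by
    apply le_antisymm
    · rintro _ ⟨P, hP, rfl⟩
      exact dd_mem_GG hP
    · intro Q hQ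
      obtain ⟨P, hP, hPQ⟩ := dd_surjective hQ
      exact ⟨P, hP, hPQ⟩
  rw [← h1, h2]

theorem finrank_GG_add {n e : ℕ} (hn : 2 * e ≤ n + 1) (k : ℕ) :
    finrank ℚ (GG (n + k) e) = finrank ℚ (GG n e) := by
  induction k with
  | zero => rfl
  | succ k ih => rw [← ih]; exact finrank_GG_succ (n := n + k) (by omega)

theorem mem_span_seq {n e : ℕ} (hn : 2 * e ≤ n + 1) {ι : Type} [Fintype ι]
    (b : Basis ι ℚ (GG n e)) (w : ι → ℕ → PP) (h0 : ∀ j, w j 0 = (b j).1)
    (h1 : ∀ j k, w j k ∈ GG (n + k) e) (h2 : ∀ j k, dd (w j (k + 1)) = w j k)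
    (k : ℕ) {Q : PP} (hQ : Q ∈ GG (n + k) e) : Q ∈ Submodule.span ℚ (Set.range fun j => w j k) := by
  have h3 := b.sum_repr ⟨ddk k Q, ddk_mem_GG k hQ⟩
  set c := b.repr ⟨ddk k Q, ddk_mem_GG k hQ⟩ with hc
  have h4 : ∑ j, c j • w j 0 = ddk k Q := by
    have h5 := congrArg Subtype.val h3
    rw [AddSubmonoidClass.coe_finsetSum] at h5
    refine Eq.trans ?_ h5
    apply Finset.sum_congr rfl
    intro j _
    rw [h0]
    rfl
  have h6 : Q - ∑ j, c j • w j k = 0 := by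
    apply ddk_injective hn k
    · apply (GG (n + k) e).sub_mem hQ
      exact (GG (n + k) e).sum_mem (fun j _ => (GG (n + k) e).smul_mem _ (h1 j k))
    · rw [map_sub, map_sum, ← h4, sub_eq_zero]
      apply Finset.sum_congr rfl
      intro j _
      rw [map_smul]
      congr 1
      exact (ddk_seq (h2 j) k 0).symm
  rw [sub_eq_zero.1 h6]
  apply Submodule.sum_mem
  intro j _
  apply Submodule.smul_mem
  exact Submodule.subset_span ⟨j, rfl⟩

theorem X_mem_WH (i : ℕ) : (MvPolynomial.X i : PP) ∈ WH (i + 1) :=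
  MvPolynomial.isWeightedHomogeneous_X ℚ wt i

theorem X_mul_mem {m n e i : ℕ} (h : m + (i + 1) = n) (he : e ≤ 2 * n) {Q : PP}
    (hQ : Q ∈ GG m (e - 2 * (i + 1))) : MvPolynomial.X i * Q ∈ GG n e := by
  have h1 : Q ∈ KK (2 * n - e) := by
    rw [mem_KK_iff_GG hQ.1]
    have : 2 * m - (2 * n - e) = e - 2 * (i + 1) := by omega
    rwa [this]
  have h2 : MvPolynomial.X i * Q ∈ WH n := by
    rw [← h, add_comm m]
    exact MvPolynomial.IsWeightedHomogeneous.mul (X_mem_WH i) hQ.1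
  have h3 : MvPolynomial.X i * Q ∈ KK (2 * n - e) := Ideal.mul_mem_left _ _ h1
  rw [mem_KK_iff_GG h2] at h3
  have : 2 * n - (2 * n - e) = e := by omega
  rwa [this] at h3

/-- The span of the products `X_i Q`. -/
noncomputable def WW (e k : ℕ) : Submodule ℚ PP :=
  Submodule.span ℚ {P | ∃ i < e, ∃ Q ∈ GG (2 * e - (i + 1) + k) (e - 2 * (i + 1)),
    P = MvPolynomial.X i * Q}

theorem WW_le (e k : ℕ) : WW e k ≤ GG (2 * e + k) e := by
  apply Submodule.span_le.2
  rintro _ ⟨i, hi, Q, hQ, rfl⟩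
  exact X_mul_mem (by omega) (by omega) hQ

theorem rank_const (e : ℕ) : ∃ c N : ℕ, ∀ k, N ≤ k → finrank ℚ (WW e k) = c := by
  classical
  let ι : Type := Σ i : Fin e, Fin (finrank ℚ (GG (2 * e - (i.1 + 1)) (e - 2 * (i.1 + 1))))
  let b : ∀ i : Fin e, Basis (Fin (finrank ℚ (GG (2 * e - (i.1 + 1)) (e - 2 * (i.1 + 1))))) ℚ
    (GG (2 * e - (i.1 + 1)) (e - 2 * (i.1 + 1))) := fun i => finBasis ℚ _
  choose w hw0 hw1 hw2 using fun (p : ι) => exists_seq (b p.1 p.2).2
  let v : ι → ℕ → PP := fun p k => ddk k (MvPolynomial.X p.1.1 * w p k)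
  obtain ⟨c, N, hc⟩ := eventually_const_rank v
    (fun p φ => isPolyFn_T φ p.1.1 (w p) (hw2 p))
  refine ⟨c, N, fun k hk => ?_⟩
  rw [← hc k hk, ← finrank_map_of_inj (ddk k) (WW e k)
    (fun x hx h0 => ddk_injective (n := 2 * e) (e := e) (by omega) k (WW_le e k hx) h0)]
  have key : (WW e k).map (ddk k) = Submodule.span ℚ (Set.range fun p => v p k) := by
    apply le_antisymm
    · rw [WW, Submodule.map_span, Submodule.span_le]
      rintro _ ⟨_, ⟨i, hi, Q, hQ, rfl⟩, rfl⟩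
      have h1 := mem_span_seq (n := 2 * e - (i + 1)) (e := e - 2 * (i + 1)) (by omega)
        (b ⟨i, hi⟩) (fun j => w ⟨⟨i, hi⟩, j⟩) (fun j => hw0 ⟨⟨i, hi⟩, j⟩)
        (fun j => hw1 ⟨⟨i, hi⟩, j⟩) (fun j => hw2 ⟨⟨i, hi⟩, j⟩) k hQ
      have h2 : ∀ Q' ∈ Submodule.span ℚ (Set.range fun j => w ⟨⟨i, hi⟩, j⟩ k),
          ddk k (MvPolynomial.X i * Q') ∈ Submodule.span ℚ (Set.range fun p => v p k) := by
        intro Q' hQ'
        induction hQ' using Submodule.span_induction with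
        | mem x hx =>
          obtain ⟨j, rfl⟩ := hx
          exact Submodule.subset_span ⟨⟨⟨i, hi⟩, j⟩, rfl⟩
        | zero => rw [mul_zero, map_zero]; exact Submodule.zero_mem _
        | add x y _ _ hx hy => rw [mul_add, map_add]; exact Submodule.add_mem _ hx hy
        | smul a x _ hx => rw [mul_smul_comm, map_smul]; exact Submodule.smul_mem _ _ hx
      exact h2 Q h1
    · rw [Submodule.span_le]
      rintro _ ⟨p, rfl⟩
      exact ⟨_, Submodule.subset_span ⟨p.1.1, p.1.2, w p k, hw1 p k, rfl⟩, rfl⟩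
  rw [key]

end GrSym
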