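import Pool.Agent.Q34.GrGen

/-!
# Every class function is a polynomial in the classes `δ_i`
-/

set_option linter.unusedSectionVars false

open Equiv Equiv.Perm Finset

namespace GrSym

variable {α : Type} [Fintype α] [DecidableEq α]

/-- If `ρ` is a cycle and `ρβ` is geodesic then `ρβ` has at most one nontrivial cycle more than `β`,
and if it has one more, then its cycle type is that of `β` with the length of `ρ` added. -/
theorem cycle_mul {ρ β : Perm α} (hρ : ρ.IsCycle) (hg : nrm ρ + nrm β = nrm (ρ * β)) :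
    Multiset.card (ρ * β).cycleType ≤ Multiset.card β.cycleType ∨
      (ρ * β).cycleType = β.cycleType + ρ.cycleType := by
  obtain ⟨x0, hx0⟩ := hρ.nonempty_support
  rw [mem_support] at hx0
  set σ := ρ * β with hσ
  have hσx : σ x0 ≠ x0 := by
    intro h
    have h1 : SameCycle σ x0 (ρ x0) := (geod_sameCycle hg x0).1
    exact hx0 (h1.eq_of_left h).symm
  set c0 := cycleOf σ x0 with hc0
  have hc0m : c0 ∈ σ.cycleFactorsFinset := cycleOf_mem_cycleFactorsFinset_iff.2 (mem_support.2 hσx)
  have hsub : σ.cycleFactorsFinset \ {c0} ⊆ β.cycleFactorsFinset := by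
    intro c hc
    rw [Finset.mem_sdiff, Finset.mem_singleton] at hc
    obtain ⟨hc1, hc2⟩ := hc
    have hc3 := mem_cycleFactorsFinset_iff.1 hc1
    rw [mem_cycleFactorsFinset_iff]
    refine ⟨hc3.1, fun a ha => ?_⟩
    rw [hc3.2 a ha]
    have hca : c = cycleOf σ a := cycle_is_cycleOf ha hc1
    have h1 : SameCycle σ a (β a) := (geod_sameCycle hg a).2
    have h2 : ρ (β a) = β a := by
      by_contra h3
      have h4 : SameCycle ρ x0 (β a) := hρ.sameCycle hx0 h3
      have h5 : SameCycle σ x0 (β a) := geod_sameCycle_left hg h4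
      apply hc2
      rw [hca, hc0]
      exact ((h5.trans h1.symm).cycleOf_eq).symm
    rw [hσ, Perm.mul_apply, h2]
  have hcard : Multiset.card σ.cycleType = #σ.cycleFactorsFinset := by
    rw [cycleType_def, Multiset.card_map]; rfl
  have hcard' : Multiset.card β.cycleType = #β.cycleFactorsFinset := by
    rw [cycleType_def, Multiset.card_map]; rfl
  have h6 : #(σ.cycleFactorsFinset \ {c0}) = #σ.cycleFactorsFinset - 1 := by
    rw [Finset.card_sdiff_of_subset (Finset.singleton_subset_iff.2 hc0m), Finset.card_singleton]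
  have h7 : 0 < #σ.cycleFactorsFinset := Finset.card_pos.2 ⟨c0, hc0m⟩
  have h8 := Finset.card_le_card hsub
  by_cases h9 : Multiset.card σ.cycleType ≤ Multiset.card β.cycleType
  · exact Or.inl h9
  · right
    have h10 : σ.cycleFactorsFinset \ {c0} = β.cycleFactorsFinset :=
      Finset.eq_of_subset_of_card_le hsub (by omega)
    rw [← cycleFactorsFinset_mul_inv_mem_eq_sdiff hc0m] at h10
    have h11 : σ * c0⁻¹ = β := cycleFactorsFinset_injective h10
    have h12 : Disjoint β c0 := by
      rw [← h11]; exact disjoint_mul_inv_of_mem_cycleFactorsFinset hc0m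
    have h13 : σ = β * c0 := by rw [← h11, inv_mul_cancel_right]
    have h14 : ρ = β * c0 * β⁻¹ := by
      rw [← h13, hσ, mul_inv_cancel_right]
    rw [h13, h12.cycleType_mul, h14, cycleType_conj]

theorem cyc_mul_ne_zero {r : ℕ} {m : Multiset ℕ} {σ : Perm α}
    (h : ((csum α {r}).1 * (csum α m).1) σ ≠ 0) :
    Multiset.card σ.cycleType ≤ Multiset.card m ∨ σ.cycleType = r ::ₘ m := by
  rw [Gr.mul_apply] at h
  obtain ⟨ρ, _, hρ⟩ := Finset.exists_ne_zero_of_sum_ne_zero h
  by_cases hgeo : nrm ρ + nrm (ρ⁻¹ * σ) = nrm σ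
  · rw [if_pos hgeo, csum_apply, csum_apply] at hρ
    by_cases h1 : ρ.cycleType = {r}
    · by_cases h2 : (ρ⁻¹ * σ).cycleType = m
      · have hc : ρ.IsCycle := card_cycleType_eq_one.1 (by rw [h1, Multiset.card_singleton])
        have e : ρ * (ρ⁻¹ * σ) = σ := by rw [mul_inv_cancel_left]
        have := cycle_mul (ρ := ρ) (β := ρ⁻¹ * σ) hc (by rw [e]; exact hgeo)
        rw [e, h2, h1] at this
        rwa [add_comm m, Multiset.singleton_add] at this
      · rw [if_neg h2, mul_zero] at hρ; exact absurd rfl hρ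
    · rw [if_neg h1, zero_mul] at hρ; exact absurd rfl hρ
  · rw [if_neg hgeo] at hρ; exact absurd rfl hρ

theorem cyc_mul_pos {r : ℕ} {m : Multiset ℕ} {σ : Perm α} (h : σ.cycleType = r ::ₘ m) :
    0 < ((csum α {r}).1 * (csum α m).1) σ := by
  have hr : r ∈ σ.cycleType := by rw [h]; exact Multiset.mem_cons_self _ _
  obtain ⟨c, τ, hστ, hd, hc, hcr⟩ := mem_cycleType_iff.1 hr
  have h1 : c.cycleType = {r} := by rw [hc.cycleType, hcr]
  have h2 : τ.cycleType = m := by
    have := hd.cycleType_mul
    rw [← hστ, h, h1, Multiset.singleton_add, Multiset.cons_inj_right] at this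
    exact this.symm
  have h3 : c⁻¹ * σ = τ := by rw [hστ, inv_mul_cancel_left]
  rw [Gr.mul_apply]
  apply Finset.sum_pos'
  · intro ρ _
    split_ifs
    · rw [csum_apply, csum_apply]
      apply mul_nonneg <;> split_ifs <;> norm_num
    · exact le_rfl
  · refine ⟨c, Finset.mem_univ _, ?_⟩
    have h4 : nrm c + nrm (c⁻¹ * σ) = nrm σ := by
      rw [h3]
      have e1 := nrm_add_card c
      have e2 := nrm_add_card τ
      have e3 := nrm_add_card σ
      have e4 : σ.cycleType = c.cycleType + τ.cycleType := by rw [hστ]; exact hd.cycleType_mul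
      rw [e4, Multiset.card_add, Multiset.sum_add] at e3
      omega
    rw [if_pos h4, csum_apply, csum_apply, h3, if_pos h1, if_pos h2]
    norm_num

/-- A class function is a combination of the class sums of the types in its support. -/
theorem mem_of_csum_mem (B : Subalgebra ℚ (cls α)) (f : cls α)
    (hf : ∀ σ : Perm α, f.1 σ ≠ 0 → csum α σ.cycleType ∈ B) : f ∈ B := by
  have hnum : ∀ τ : Perm α, 0 < #(Finset.univ.filter (fun υ : Perm α => υ.cycleType = τ.cycleType)) := by
    intro τ
    exact Finset.card_pos.2 ⟨τ, by simp⟩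
  have e : f = ∑ τ : Perm α, (f.1 τ /
      (#(Finset.univ.filter (fun υ : Perm α => υ.cycleType = τ.cycleType)) : ℚ)) •
        csum α τ.cycleType := by
    apply Subtype.ext
    rw [AddSubmonoidClass.coe_finsetSum]
    apply Gr.ext'
    intro σ
    rw [Gr.sum_apply]
    have e1 : ∀ τ ∈ (Finset.univ : Finset (Perm α)), (((f.1 τ /
      (#(Finset.univ.filter (fun υ : Perm α => υ.cycleType = τ.cycleType)) : ℚ)) •
        csum α τ.cycleType : cls α).1) σ =
      if τ.cycleType = σ.cycleType then (f.1 σ /
      (#(Finset.univ.filter (fun υ : Perm α => υ.cycleType = σ.cycleType)) : ℚ)) else 0 := by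
      intro τ _
      change (f.1 τ / _) * (csum α τ.cycleType).1 σ = _
      rw [csum_apply]
      by_cases h : τ.cycleType = σ.cycleType
      · rw [if_pos h, if_pos h.symm, mul_one, h, f.2 τ σ h]
      · rw [if_neg h, if_neg (fun h' => h h'.symm), mul_zero]
    rw [Finset.sum_congr rfl e1, ← Finset.sum_filter, Finset.sum_const, nsmul_eq_mul]
    have := hnum σ
    field_simp
  rw [e]
  apply B.sum_mem
  intro τ _
  by_cases h : f.1 τ = 0
  · rw [h, zero_div, zero_smul]; exact B.zero_mem
  · exact B.smul_mem (hf τ h) _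

theorem csum_mem (B : Subalgebra ℚ (cls α)) (hB : ∀ i, del α i ∈ B) (k : ℕ) :
    ∀ m : Multiset ℕ, Multiset.card m = k → csum α m ∈ B := by
  induction k using Nat.strong_induction_on with
  | _ k ih =>
    intro m hm
    by_cases hex : ∃ σ : Perm α, σ.cycleType = m
    swap
    · have : csum α m = 0 := by
        apply Subtype.ext
        apply Gr.ext'
        intro σ
        rw [csum_apply, if_neg (fun h => hex ⟨σ, h⟩)]
        rfl
      rw [this]; exact B.zero_mem
    obtain ⟨σ0, hσ0⟩ := hex
    rcases Multiset.empty_or_exists_mem m with rfl | ⟨r, hr⟩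
    · have := hB 0
      rwa [del, Multiset.replicate_zero] at this
    · obtain ⟨m', rfl⟩ := Multiset.exists_cons_of_mem hr
      rw [Multiset.card_cons] at hm
      have hr2 : 2 ≤ r := by
        apply two_le_of_mem_cycleType (σ := σ0)
        rw [hσ0]; exact Multiset.mem_cons_self _ _
      have hc1 : csum α {r} ∈ B := by
        have := csum_cyc_mem B hB (r - 1) (by omega)
        have e : r - 1 + 1 = r := by omega
        rwa [e] at this
      have hc2 : csum α m' ∈ B := ih _ (by omega) m' rfl
      have hg := B.mul_mem hc1 hc2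
      set g := csum α {r} * csum α m' with hgdef
      have hg1 : g.1 = (csum α {r}).1 * (csum α m').1 := rfl
      have hpos : 0 < g.1 σ0 := by rw [hg1]; exact cyc_mul_pos hσ0
      have hh : g - (g.1 σ0) • csum α (r ::ₘ m') ∈ B := by
        apply mem_of_csum_mem
        intro σ hσ
        change g.1 σ - (g.1 σ0) * (csum α (r ::ₘ m')).1 σ ≠ 0 at hσ
        rw [csum_apply] at hσ
        have h1 : ¬ σ.cycleType = r ::ₘ m' := by
          intro h1
          rw [if_pos h1, mul_one, g.2 σ σ0 (h1.trans hσ0.symm), sub_self] at hσ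
          exact hσ rfl
        rw [if_neg h1, mul_zero, sub_zero, hg1] at hσ
        rcases cyc_mul_ne_zero hσ with h2 | h2
        · exact ih _ (by omega) _ rfl
        · exact absurd h2 h1
      have h3 : (g.1 σ0) • csum α (r ::ₘ m') ∈ B := by
        have := B.sub_mem hg hh
        rwa [sub_sub_cancel] at this
      have h4 := B.smul_mem h3 (g.1 σ0)⁻¹
      rwa [smul_smul, inv_mul_cancel₀ hpos.ne', one_smul] at h4

theorem del_generate (B : Subalgebra ℚ (cls α)) (hB : ∀ i, del α i ∈ B) : B = ⊤ := by
  rw [eq_top_iff]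
  intro f _
  exact mem_of_csum_mem B f (fun σ _ => csum_mem B hB _ _ rfl)

end GrSym
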