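import Pool.Agent.Q34.GrSpan

/-!
# Restriction to Young subgroups, and the value of a polynomial in the `δ_i` on a cycle type
-/

set_option linter.unusedSectionVars false

open Equiv Equiv.Perm Finset

namespace GrSym

section young
variable {α β : Type} [Fintype α] [DecidableEq α] [Fintype β] [DecidableEq β]

theorem cycleType_sumCongr_one (a : Perm α) :
    (Perm.sumCongr a (1 : Perm β)).cycleType = a.cycleType := by
  classical
  have : Perm.sumCongr a (1 : Perm β) =
      a.extendDomain (Equiv.ofInjective (Sum.inl : α → α ⊕ β) Sum.inl_injective) := by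
    apply Equiv.ext
    rintro (x | x)
    · have := extendDomain_apply_image a
        (Equiv.ofInjective (Sum.inl : α → α ⊕ β) Sum.inl_injective) x
      simpa using this.symm
    · rw [extendDomain_apply_not_subtype]
      · simp
      · simp
  rw [this, cycleType_extendDomain]

theorem cycleType_one_sumCongr (b : Perm β) :
    (Perm.sumCongr (1 : Perm α) b).cycleType = b.cycleType := by
  classical
  have : Perm.sumCongr (1 : Perm α) b =
      b.extendDomain (Equiv.ofInjective (Sum.inr : β → α ⊕ β) Sum.inr_injective) := by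
    apply Equiv.ext
    rintro (x | x)
    · rw [extendDomain_apply_not_subtype]
      · simp
      · simp
    · have := extendDomain_apply_image b
        (Equiv.ofInjective (Sum.inr : β → α ⊕ β) Sum.inr_injective) x
      simpa using this.symm
  rw [this, cycleType_extendDomain]

theorem cycleType_sumCongr (a : Perm α) (b : Perm β) :
    (Perm.sumCongr a b).cycleType = a.cycleType + b.cycleType := by
  have h1 : Perm.sumCongr a b = Perm.sumCongr a 1 * Perm.sumCongr 1 b := by
    rw [Perm.sumCongr_mul, mul_one, one_mul]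
  have h2 : Disjoint (Perm.sumCongr a (1 : Perm β)) (Perm.sumCongr (1 : Perm α) b) := by
    rintro (x | x)
    · right; simp
    · left; simp
  rw [h1, h2.cycleType_mul, cycleType_sumCongr_one, cycleType_one_sumCongr]

theorem nrm_sumCongr (a : Perm α) (b : Perm β) : nrm (Perm.sumCongr a b) = nrm a + nrm b := by
  have h1 := nrm_add_card (Perm.sumCongr a b)
  have h2 := nrm_add_card a
  have h3 := nrm_add_card b
  rw [cycleType_sumCongr, Multiset.card_add, Multiset.sum_add] at h1
  omega

theorem sumCongr_inv_mul (a a1 : Perm α) (b b1 : Perm β) :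
    (Perm.sumCongr a1 b1)⁻¹ * Perm.sumCongr a b = Perm.sumCongr (a1⁻¹ * a) (b1⁻¹ * b) := by
  rw [Perm.sumCongr_inv, Perm.sumCongr_mul]

theorem geod_mem_range {a : Perm α} {b : Perm β} {σ : Perm (α ⊕ β)}
    (h : nrm σ + nrm (σ⁻¹ * Perm.sumCongr a b) = nrm (Perm.sumCongr a b)) :
    σ ∈ (Perm.sumCongrHom α β).range := by
  apply mem_sumCongrHom_range_of_perm_mapsTo_inl
  rintro _ ⟨x, rfl⟩
  have e : σ * (σ⁻¹ * Perm.sumCongr a b) = Perm.sumCongr a b := by rw [mul_inv_cancel_left]
  have h1 := (geod_sameCycle (σ := σ) (τ := σ⁻¹ * Perm.sumCongr a b) (by rw [e]; exact h)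
    (Sum.inl x)).1
  rw [e] at h1
  obtain ⟨i, hi⟩ := h1.exists_nat_pow_eq
  rw [← hi]
  clear hi h1
  induction i with
  | zero => exact ⟨x, rfl⟩
  | succ i ih =>
    obtain ⟨y, hy⟩ := ih
    rw [pow_succ', Perm.mul_apply, ← hy]
    exact ⟨a y, rfl⟩

theorem young_mul (f g : Gr (α ⊕ β)) (a : Perm α) (b : Perm β) :
    (f * g) (Perm.sumCongr a b) = ∑ p : Perm α × Perm β,
      if nrm p.1 + nrm (p.1⁻¹ * a) = nrm a ∧ nrm p.2 + nrm (p.2⁻¹ * b) = nrm b then
        f (Perm.sumCongr p.1 p.2) * g (Perm.sumCongr (p.1⁻¹ * a) (p.2⁻¹ * b)) else 0 := by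
  rw [Gr.mul_apply]
  symm
  apply Finset.sum_of_injOn (fun p : Perm α × Perm β => Perm.sumCongr p.1 p.2)
  · intro p _ q _ hpq
    exact Perm.sumCongrHom_injective (α := α) (β := β) hpq
  · intro p _; exact Finset.mem_coe.2 (Finset.mem_univ _)
  · intro σ _ hσ
    rw [if_neg]
    intro h
    obtain ⟨p, hp⟩ := geod_mem_range h
    apply hσ
    exact ⟨p, Finset.mem_coe.2 (Finset.mem_univ _), hp⟩
  · intro p _
    simp only [sumCongr_inv_mul, nrm_sumCongr]
    have h1 : nrm a ≤ nrm p.1 + nrm (p.1⁻¹ * a) := by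
      have := nrm_mul_le p.1 (p.1⁻¹ * a)
      rwa [mul_inv_cancel_left] at this
    have h2 : nrm b ≤ nrm p.2 + nrm (p.2⁻¹ * b) := by
      have := nrm_mul_le p.2 (p.2⁻¹ * b)
      rwa [mul_inv_cancel_left] at this
    by_cases hc : nrm p.1 + nrm (p.1⁻¹ * a) = nrm a ∧ nrm p.2 + nrm (p.2⁻¹ * b) = nrm b
    · rw [if_pos hc, if_pos (by omega)]
    · rw [if_neg hc, if_neg (by omega)]

theorem res_mul (f g : Gr (α ⊕ β)) (a : Perm α) :
    (f * g) (Perm.sumCongr a 1) = ∑ a1 : Perm α,
      if nrm a1 + nrm (a1⁻¹ * a) = nrm a then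
        f (Perm.sumCongr a1 1) * g (Perm.sumCongr (a1⁻¹ * a) 1) else 0 := by
  rw [young_mul, Fintype.sum_prod_type]
  apply Finset.sum_congr rfl
  intro a1 _
  rw [Finset.sum_eq_single 1]
  · simp only [nrm_one, inv_one, mul_one, add_zero, and_true]
  · intro b1 _ hb1
    rw [if_neg]
    rintro ⟨_, h⟩
    rw [nrm_one, mul_one, nrm_inv] at h
    exact hb1 (nrm_eq_zero_iff.1 (by simp only at h; omega))
  · intro h; exact absurd (Finset.mem_univ _) h

theorem res_mul' (f g : Gr (α ⊕ β)) (b : Perm β) :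
    (f * g) (Perm.sumCongr 1 b) = ∑ b1 : Perm β,
      if nrm b1 + nrm (b1⁻¹ * b) = nrm b then
        f (Perm.sumCongr 1 b1) * g (Perm.sumCongr 1 (b1⁻¹ * b)) else 0 := by
  rw [young_mul, Fintype.sum_prod_type_right]
  apply Finset.sum_congr rfl
  intro b1 _
  rw [Finset.sum_eq_single 1]
  · simp only [nrm_one, inv_one, mul_one, add_zero, true_and]
  · intro a1 _ ha1
    rw [if_neg]
    rintro ⟨h, _⟩
    rw [nrm_one, mul_one, nrm_inv] at h
    exact ha1 (nrm_eq_zero_iff.1 (by simp only at h; omega))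
  · intro h; exact absurd (Finset.mem_univ _) h

theorem perm_fin_two (b : Perm (Fin 2)) : b = 1 ∨ b = swap 0 1 := by
  revert b; decide

/-- The Leibniz rule for `f ↦ f(· ⊕ (0 1))`. -/
theorem der_mul (f g : Gr (α ⊕ Fin 2)) (a : Perm α) :
    (f * g) (Perm.sumCongr a (swap 0 1)) = ∑ a1 : Perm α,
      if nrm a1 + nrm (a1⁻¹ * a) = nrm a then
        f (Perm.sumCongr a1 1) * g (Perm.sumCongr (a1⁻¹ * a) (swap 0 1)) +
        f (Perm.sumCongr a1 (swap 0 1)) * g (Perm.sumCongr (a1⁻¹ * a) 1) else 0 := by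
  rw [young_mul, Fintype.sum_prod_type]
  apply Finset.sum_congr rfl
  intro a1 _
  have h01 : (1 : Perm (Fin 2)) ≠ swap 0 1 := by decide
  have hs : nrm (swap (0 : Fin 2) 1) = 1 := nrm_swap (by decide)
  rw [Finset.sum_eq_add (1 : Perm (Fin 2)) (swap 0 1) h01]
  · simp only [nrm_one, inv_one, one_mul, hs, inv_mul_cancel]
    by_cases h : nrm a1 + nrm (a1⁻¹ * a) = nrm a
    · simp [h]
    · simp [h]
  · intro b _ hb
    rcases perm_fin_two b with h | h
    · exact absurd h hb.1
    · exact absurd h hb.2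
  · intro h; exact absurd (Finset.mem_univ _) h
  · intro h; exact absurd (Finset.mem_univ _) h

end young

section Phi

/-- The homomorphism `X_i ↦ δ_{i+1}` from the polynomial ring in infinitely many variables. -/
noncomputable def Phi (α : Type) [Fintype α] [DecidableEq α] :
    MvPolynomial ℕ ℚ →ₐ[ℚ] cls α := MvPolynomial.aeval (fun i => del α (i + 1))

/-- The weight of the variable `X_i` is `i + 1`. -/
def wt : ℕ → ℕ := fun i => i + 1

/-- The size weight: a cycle of length `i + 2` moves `i + 2` points. -/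
def wsize : ℕ → ℕ := fun i => i + 2

/-- The excess weight. -/
def wexc : ℕ → ℕ := fun i => i

theorem weight_rel (s : ℕ →₀ ℕ) :
    Finsupp.weight wsize s + Finsupp.weight wexc s = 2 * Finsupp.weight wt s := by
  induction s using Finsupp.induction_linear with
  | zero => simp
  | add f g hf hg => rw [map_add, map_add, map_add]; omega
  | single i n =>
    rw [Finsupp.weight_apply, Finsupp.weight_apply, Finsupp.weight_apply]
    rw [Finsupp.sum_single_index (by simp), Finsupp.sum_single_index (by simp),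
      Finsupp.sum_single_index (by simp)]
    simp only [wsize, wexc, wt, smul_eq_mul]
    ring

/-- The cycle type belonging to an exponent vector. -/
noncomputable def mty (s : ℕ →₀ ℕ) : Multiset ℕ := (Finsupp.toMultiset s).map (fun i => i + 2)

theorem mty_add (s t : ℕ →₀ ℕ) : mty (s + t) = mty s + mty t := by
  unfold mty; rw [map_add, Multiset.map_add]

theorem mty_single (i n : ℕ) : mty (Finsupp.single i n) = Multiset.replicate n (i + 2) := by
  unfold mty; rw [Finsupp.toMultiset_single, Multiset.nsmul_singleton, Multiset.map_replicate]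

theorem mty_zero : mty 0 = 0 := by unfold mty; simp

theorem two_le_of_mem_mty {s : ℕ →₀ ℕ} {a : ℕ} (h : a ∈ mty s) : 2 ≤ a := by
  unfold mty at h
  rw [Multiset.mem_map] at h
  obtain ⟨i, _, rfl⟩ := h
  omega

theorem sum_mty (s : ℕ →₀ ℕ) : (mty s).sum = Finsupp.weight wsize s := by
  induction s using Finsupp.induction_linear with
  | zero => simp [mty_zero]
  | add f g hf hg => rw [mty_add, Multiset.sum_add, hf, hg, map_add]
  | single i n =>
    rw [mty_single, Multiset.sum_replicate, Finsupp.weight_apply,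
      Finsupp.sum_single_index (by simp)]
    rfl

theorem card_mty (s : ℕ →₀ ℕ) :
    Finsupp.weight wt s + Multiset.card (mty s) = Finsupp.weight wsize s := by
  induction s using Finsupp.induction_linear with
  | zero => simp [mty_zero]
  | add f g hf hg => rw [mty_add, Multiset.card_add, map_add, map_add]; omega
  | single i n =>
    rw [mty_single, Multiset.card_replicate, Finsupp.weight_apply, Finsupp.weight_apply,
      Finsupp.sum_single_index (by simp), Finsupp.sum_single_index (by simp)]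
    simp only [wsize, wt, smul_eq_mul]
    ring

/-- The exponent vector of a cycle type. -/
noncomputable def ty (m : Multiset ℕ) : ℕ →₀ ℕ := Multiset.toFinsupp (m.map (fun a => a - 2))

theorem mty_ty {m : Multiset ℕ} (h : ∀ a ∈ m, 2 ≤ a) : mty (ty m) = m := by
  unfold mty ty
  rw [Multiset.toFinsupp_toMultiset, Multiset.map_map]
  conv_rhs => rw [← Multiset.map_id m]
  apply Multiset.map_congr rfl
  intro a ha
  have := h a ha
  simp only [Function.comp_apply, id]
  omega

theorem ty_mty (s : ℕ →₀ ℕ) : ty (mty s) = s := by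
  unfold mty ty
  rw [Multiset.map_map]
  have : ((fun a => a - 2) ∘ fun i => i + 2 : ℕ → ℕ) = id := by
    funext i; simp
  rw [this, Multiset.map_id, Finsupp.toMultiset_toFinsupp]

theorem exists_perm (α : Type) [Fintype α] [DecidableEq α] (s : ℕ →₀ ℕ)
    (h : Finsupp.weight wsize s ≤ Fintype.card α) : ∃ σ : Perm α, σ.cycleType = mty s := by
  rw [exists_with_cycleType_iff]
  exact ⟨by rw [sum_mty]; exact h, fun a ha => two_le_of_mem_mty ha⟩

theorem nrm_of_mty {α : Type} [Fintype α] [DecidableEq α] {s : ℕ →₀ ℕ} {σ : Perm α}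
    (h : σ.cycleType = mty s) : nrm σ = Finsupp.weight wt s := by
  have h1 := nrm_of_cycleType h
  rw [sum_mty] at h1
  have h2 := card_mty s
  omega

variable {α β : Type} [Fintype α] [DecidableEq α] [Fintype β] [DecidableEq β]

theorem Phi_surjective : Function.Surjective (Phi α) := by
  rw [← AlgHom.range_eq_top]
  apply del_generate
  intro i
  cases i with
  | zero =>
    have : del α 0 = 1 := by
      apply Subtype.ext
      apply Gr.ext'
      intro σ
      change _ = (1 : Gr α) σ
      rw [del_apply, Gr.one_apply, ite_eq_chi, Multiset.replicate_zero]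
      exact chi_congr cycleType_eq_zero
    rw [this]; exact one_mem _
  | succ i => exact ⟨MvPolynomial.X i, by simp [Phi]⟩

theorem Phi_C (a : ℚ) (σ : Perm α) : (Phi α (MvPolynomial.C a)).1 σ = if σ = 1 then a else 0 := by
  have : Phi α (MvPolynomial.C a) = algebraMap ℚ (cls α) a := by
    rw [← MvPolynomial.algebraMap_eq, AlgHom.commutes]
  rw [this]
  exact Gr.algebraMap_apply a σ

theorem Phi_X (i : ℕ) : Phi α (MvPolynomial.X i) = del α (i + 1) := by simp [Phi]

theorem Phi_res (P : MvPolynomial ℕ ℚ) : ∀ a : Perm α,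
    (Phi (α ⊕ β) P).1 (Perm.sumCongr a 1) = (Phi α P).1 a := by
  induction P using MvPolynomial.induction_on with
  | C c =>
    intro a
    rw [Phi_C, Phi_C]
    apply if_congr _ rfl rfl
    rw [← cycleType_eq_zero, cycleType_sumCongr_one, cycleType_eq_zero]
  | add p q hp hq =>
    intro a
    rw [map_add, map_add]
    change (Phi (α ⊕ β) p).1 _ + (Phi (α ⊕ β) q).1 _ = (Phi α p).1 a + (Phi α q).1 a
    rw [hp, hq]
  | mul_X p i hp =>
    intro a
    rw [map_mul, map_mul, Phi_X, Phi_X]
    change ((Phi (α ⊕ β) p).1 * (del (α ⊕ β) (i + 1)).1) _ = ((Phi α p).1 * (del α (i + 1)).1) a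
    rw [res_mul, Gr.mul_apply]
    apply Finset.sum_congr rfl
    intro a1 _
    rw [hp, del_apply, del_apply, cycleType_sumCongr_one]

theorem Phi_res' (P : MvPolynomial ℕ ℚ) : ∀ b : Perm β,
    (Phi (α ⊕ β) P).1 (Perm.sumCongr 1 b) = (Phi β P).1 b := by
  induction P using MvPolynomial.induction_on with
  | C c =>
    intro a
    rw [Phi_C, Phi_C]
    apply if_congr _ rfl rfl
    rw [← cycleType_eq_zero, cycleType_one_sumCongr, cycleType_eq_zero]
  | add p q hp hq =>
    intro a
    rw [map_add, map_add]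
    change (Phi (α ⊕ β) p).1 _ + (Phi (α ⊕ β) q).1 _ = (Phi β p).1 a + (Phi β q).1 a
    rw [hp, hq]
  | mul_X p i hp =>
    intro a
    rw [map_mul, map_mul, Phi_X, Phi_X]
    change ((Phi (α ⊕ β) p).1 * (del (α ⊕ β) (i + 1)).1) _ = ((Phi β p).1 * (del β (i + 1)).1) a
    rw [res_mul', Gr.mul_apply]
    apply Finset.sum_congr rfl
    intro a1 _
    rw [hp, del_apply, del_apply, cycleType_one_sumCongr]

theorem Phi_eq_of_cycleType (P : MvPolynomial ℕ ℚ) {σ : Perm α} {τ : Perm β}
    (h : σ.cycleType = τ.cycleType) : (Phi α P).1 σ = (Phi β P).1 τ := by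
  rw [← Phi_res (β := β) P σ, ← Phi_res' (α := α) P τ]
  apply (Phi (α ⊕ β) P).2
  rw [cycleType_sumCongr_one, cycleType_one_sumCongr, h]

/-- The derivation of the polynomial ring with `X_0 ↦ 1` and `X_{i+1} ↦ X_i`. -/
noncomputable def dd : Derivation ℚ (MvPolynomial ℕ ℚ) (MvPolynomial ℕ ℚ) :=
  MvPolynomial.mkDerivation ℚ (fun i => Nat.casesOn i 1 (fun j => MvPolynomial.X j))

theorem dd_X_zero : dd (MvPolynomial.X 0) = 1 := by
  unfold dd; exact MvPolynomial.mkDerivation_X _ _ _

theorem dd_X_succ (i : ℕ) : dd (MvPolynomial.X (i + 1)) = MvPolynomial.X i := by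
  unfold dd; exact MvPolynomial.mkDerivation_X _ _ _

theorem Phi_dd_X (i : ℕ) : Phi α (dd (MvPolynomial.X i)) = del α i := by
  cases i with
  | zero =>
    rw [dd_X_zero, map_one]
    symm
    apply Subtype.ext
    apply Gr.ext'
    intro σ
    change _ = (1 : Gr α) σ
    rw [del_apply, Gr.one_apply, ite_eq_chi, Multiset.replicate_zero]
    exact chi_congr cycleType_eq_zero
  | succ i => rw [dd_X_succ, Phi_X]

theorem cycleType_swap01 : (swap (0 : Fin 2) 1).cycleType = {2} :=
  isSwap_iff_cycleType.1 ⟨0, 1, by decide, rfl⟩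

theorem del_swap (i : ℕ) (a : Perm α) :
    (del (α ⊕ Fin 2) (i + 1)).1 (Perm.sumCongr a (swap 0 1)) = (del α i).1 a := by
  rw [del_apply, del_apply, cycleType_sumCongr, cycleType_swap01]
  apply chi_congr
  rw [Multiset.replicate_succ, add_comm, Multiset.singleton_add, Multiset.cons_inj_right]

theorem del_res (i : ℕ) (a : Perm α) :
    (del (α ⊕ β) i).1 (Perm.sumCongr a 1) = (del α i).1 a := by
  rw [del_apply, del_apply, cycleType_sumCongr_one]

/-- The derivation `dd` is the operator `f ↦ f(· ⊕ (0 1))`. -/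
theorem Phi_dd (P : MvPolynomial ℕ ℚ) : ∀ a : Perm α,
    (Phi α (dd P)).1 a = (Phi (α ⊕ Fin 2) P).1 (Perm.sumCongr a (swap 0 1)) := by
  induction P using MvPolynomial.induction_on with
  | C c =>
    intro a
    have : dd (MvPolynomial.C c) = 0 := dd.map_algebraMap c
    rw [this, map_zero, Phi_C, if_neg]
    · rfl
    · rw [← cycleType_eq_zero, cycleType_sumCongr, cycleType_swap01]
      intro h
      have := congrArg Multiset.card h
      simp at this
  | add p q hp hq =>
    intro a
    rw [map_add, map_add, map_add]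
    change (Phi α (dd p)).1 a + (Phi α (dd q)).1 a =
      (Phi (α ⊕ Fin 2) p).1 _ + (Phi (α ⊕ Fin 2) q).1 _
    rw [hp, hq]
  | mul_X p i hp =>
    intro a
    rw [Derivation.leibniz, map_add, smul_eq_mul, smul_eq_mul, map_mul, map_mul, Phi_dd_X,
      map_mul, Phi_X, Phi_X, mul_comm (del α (i + 1))]
    change ((Phi α p).1 * (del α i).1) a + ((Phi α (dd p)).1 * (del α (i + 1)).1) a =
      ((Phi (α ⊕ Fin 2) p).1 * (del (α ⊕ Fin 2) (i + 1)).1) _
    rw [der_mul, Gr.mul_apply, Gr.mul_apply, ← Finset.sum_add_distrib]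
    apply Finset.sum_congr rfl
    intro a1 _
    rw [del_swap, Phi_res, ← hp, del_res]
    split_ifs <;> ring

/-- The common value of the class functions `Phi α P` on permutations of type `s`. -/
noncomputable def val (P : MvPolynomial ℕ ℚ) (s : ℕ →₀ ℕ) : ℚ :=
  (Phi (Fin (Finsupp.weight wsize s)) P).1
    (exists_perm (Fin (Finsupp.weight wsize s)) s (by simp)).choose

theorem val_eq (P : MvPolynomial ℕ ℚ) {s : ℕ →₀ ℕ} {σ : Perm α} (h : σ.cycleType = mty s) :
    val P s = (Phi α P).1 σ := by
  apply Phi_eq_of_cycleType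
  rw [(exists_perm (Fin (Finsupp.weight wsize s)) s (by simp)).choose_spec, h]

theorem val_add (P Q : MvPolynomial ℕ ℚ) (s : ℕ →₀ ℕ) : val (P + Q) s = val P s + val Q s := by
  unfold val; rw [map_add]; rfl

theorem val_smul (c : ℚ) (P : MvPolynomial ℕ ℚ) (s : ℕ →₀ ℕ) : val (c • P) s = c * val P s := by
  unfold val; rw [map_smul]; rfl

/-- (V4) -/
theorem val_dd (P : MvPolynomial ℕ ℚ) (s : ℕ →₀ ℕ) :
    val (dd P) s = val P (s + Finsupp.single 0 1) := by
  obtain ⟨σ, hσ⟩ := exists_perm (Fin (Finsupp.weight wsize s)) s (by simp)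
  rw [val_eq (dd P) hσ, Phi_dd]
  symm
  apply val_eq
  rw [cycleType_sumCongr, hσ, cycleType_swap01, mty_add, mty_single]
  rfl

/-- (V3) -/
theorem mem_ker_iff (d : ℕ) (P : MvPolynomial ℕ ℚ) :
    Phi (Fin d) P = 0 ↔ ∀ s : ℕ →₀ ℕ, Finsupp.weight wsize s ≤ d → val P s = 0 := by
  constructor
  · intro h s hs
    obtain ⟨σ, hσ⟩ := exists_perm (Fin d) s (by simpa using hs)
    rw [val_eq P hσ, h]
    rfl
  · intro h
    apply Subtype.ext
    apply Gr.ext'
    intro σ
    have h1 : σ.cycleType = mty (ty σ.cycleType) :=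
      (mty_ty (fun a ha => two_le_of_mem_cycleType ha)).symm
    rw [← val_eq P h1, h]
    · rfl
    · rw [← sum_mty, ← h1]
      simpa using sum_cycleType_le σ

theorem isH_one : IsH (1 : Gr α) 0 := by
  intro σ hσ
  rw [Gr.one_apply] at hσ
  by_cases h : σ = 1
  · rw [h, nrm_one]
  · rw [if_neg h] at hσ; exact absurd rfl hσ

theorem isH_Phi_monomial (s : ℕ →₀ ℕ) : ∀ c : ℚ,
    IsH (Phi α (MvPolynomial.monomial s c)).1 (Finsupp.weight wt s) := by
  induction s using Finsupp.induction_linear with
  | zero =>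
    intro c σ hσ
    have h1 : (MvPolynomial.monomial (0 : ℕ →₀ ℕ) c : MvPolynomial ℕ ℚ) = MvPolynomial.C c := rfl
    rw [h1, Phi_C] at hσ
    by_cases h : σ = 1
    · rw [h, nrm_one, map_zero]
    · rw [if_neg h] at hσ; exact absurd rfl hσ
  | add s t hs ht =>
    intro c
    have h1 : (MvPolynomial.monomial (s + t) c : MvPolynomial ℕ ℚ)
        = MvPolynomial.monomial s c * MvPolynomial.monomial t 1 := by
      rw [MvPolynomial.monomial_mul, mul_one]
    rw [h1, map_mul, map_add]
    exact (hs c).mul (ht 1)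
  | single i n =>
    induction n with
    | zero =>
      intro c σ hσ
      rw [Finsupp.single_zero] at hσ ⊢
      have h1 : (MvPolynomial.monomial (0 : ℕ →₀ ℕ) c : MvPolynomial ℕ ℚ) = MvPolynomial.C c := rfl
      rw [h1, Phi_C] at hσ
      by_cases h : σ = 1
      · rw [h, nrm_one, map_zero]
      · rw [if_neg h] at hσ; exact absurd rfl hσ
    | succ n ih =>
      intro c
      have h1 : (MvPolynomial.monomial (Finsupp.single i (n + 1)) c : MvPolynomial ℕ ℚ)
          = MvPolynomial.monomial (Finsupp.single i n) c * MvPolynomial.X i := by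
        rw [MvPolynomial.X, MvPolynomial.monomial_mul, mul_one, ← Finsupp.single_add]
      have h2 : Finsupp.weight wt (Finsupp.single i (n + 1))
          = Finsupp.weight wt (Finsupp.single i n) + (i + 1) := by
        rw [Finsupp.single_add, map_add]
        congr 1
        rw [Finsupp.weight_apply, Finsupp.sum_single_index (by simp)]
        simp [wt]
      rw [h1, map_mul, h2, Phi_X]
      exact (ih c).mul (isH_del (i + 1))

theorem Phi_component (P : MvPolynomial ℕ ℚ) (σ : Perm α) :
    (Phi α (MvPolynomial.weightedHomogeneousComponent wt (nrm σ) P)).1 σ = (Phi α P).1 σ := by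
  induction P using MvPolynomial.induction_on' with
  | monomial s c =>
    by_cases h : Finsupp.weight wt s = nrm σ
    · rw [MvPolynomial.IsWeightedHomogeneous.weightedHomogeneousComponent_same
        (MvPolynomial.isWeightedHomogeneous_monomial _ _ _ h)]
    · rw [MvPolynomial.IsWeightedHomogeneous.weightedHomogeneousComponent_ne _
        (MvPolynomial.isWeightedHomogeneous_monomial wt s c rfl) (fun h' => h h'.symm)]
      rw [(isH_Phi_monomial s c).eq_zero (fun h' => h h'.symm), map_zero]
      rfl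
  | add p q hp hq =>
    rw [map_add, map_add, map_add]
    change (Phi α _).1 σ + (Phi α _).1 σ = (Phi α _).1 σ + (Phi α _).1 σ
    rw [hp, hq]

theorem val_component (P : MvPolynomial ℕ ℚ) (s : ℕ →₀ ℕ) :
    val (MvPolynomial.weightedHomogeneousComponent wt (Finsupp.weight wt s) P) s = val P s := by
  obtain ⟨σ, hσ⟩ := exists_perm (Fin (Finsupp.weight wsize s)) s (by simp)
  rw [val_eq _ hσ, val_eq _ hσ, ← nrm_of_mty hσ, Phi_component]

/-- (V1) -/
theorem val_of_homogeneous {P : MvPolynomial ℕ ℚ} {n : ℕ}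
    (hP : MvPolynomial.IsWeightedHomogeneous wt P n) {s : ℕ →₀ ℕ}
    (hs : Finsupp.weight wt s ≠ n) : val P s = 0 := by
  rw [← val_component, MvPolynomial.IsWeightedHomogeneous.weightedHomogeneousComponent_ne _ hP hs]
  have := val_smul 0 (0 : MvPolynomial ℕ ℚ) s
  rwa [zero_smul, zero_mul] at this

/-- (V2) -/
theorem exists_val (n : ℕ) (F : (ℕ →₀ ℕ) → ℚ) : ∃ P : MvPolynomial ℕ ℚ,
    MvPolynomial.IsWeightedHomogeneous wt P n ∧
      ∀ s, Finsupp.weight wt s = n → val P s = F s := by
  let f : cls (Fin (2 * n)) := ⟨fun σ => F (ty σ.cycleType), by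
    intro σ τ h
    simp only [h]⟩
  obtain ⟨P, hP⟩ := Phi_surjective f
  refine ⟨MvPolynomial.weightedHomogeneousComponent wt n P,
    MvPolynomial.weightedHomogeneousComponent_isWeightedHomogeneous _ _, ?_⟩
  intro s hs
  have h1 := weight_rel s
  obtain ⟨σ, hσ⟩ := exists_perm (Fin (2 * n)) s (by rw [Fintype.card_fin]; omega)
  rw [← hs, val_component, val_eq P hσ, hP]
  change F (ty σ.cycleType) = F s
  rw [hσ, ty_mty]

end Phi

end GrSym
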