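import Mathlib

/-! Exchange properties of bases of discrete polymatroids. -/

set_option autoImplicit false
open Finset

namespace Q34.Poly

variable {n : ℕ}

/-- exponent vectors -/
abbrev V (n : ℕ) := Fin n →₀ ℕ

/-- the unit vector -/
noncomputable abbrev ee (p : Fin n) : V n := Finsupp.single p 1

/-- the exchange property -/
def Exc (B : Set (V n)) : Prop :=
  ∀ u ∈ B, ∀ v ∈ B, ∀ p, v p < u p → ∃ q, u q < v q ∧ ∃ w ∈ B, w + ee p = u + ee q

/-- all vectors have degree `d` -/
def SameDeg (B : Set (V n)) (d : ℕ) : Prop := ∀ u ∈ B, ∑ i, u i = d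

theorem ee_apply (p i : Fin n) : (ee p) i = if i = p then 1 else 0 := by
  rw [Finsupp.single_apply]
  simp only [eq_comm]

theorem eq_apply {w u : V n} {p q : Fin n} (h : w + ee p = u + ee q) (i : Fin n) :
    w i + (if i = p then 1 else 0) = u i + (if i = q then 1 else 0) := by
  have := DFunLike.congr_fun h i
  rw [Finsupp.add_apply, Finsupp.add_apply, ee_apply, ee_apply] at this
  exact this

theorem sum_ee (p : Fin n) (A : Finset (Fin n)) : ∑ i ∈ A, (ee p) i = if p ∈ A then 1 else 0 := by
  simp only [ee_apply]
  rw [sum_ite_eq']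

theorem sum_eq {w u : V n} {p q : Fin n} (h : w + ee p = u + ee q) (A : Finset (Fin n)) :
    ∑ i ∈ A, w i + (if p ∈ A then 1 else 0) = ∑ i ∈ A, u i + (if q ∈ A then 1 else 0) := by
  have h1 : ∑ i ∈ A, (w + ee p) i = ∑ i ∈ A, (u + ee q) i := by rw [h]
  simp only [Finsupp.add_apply, sum_add_distrib] at h1
  rw [sum_ee, sum_ee] at h1
  exact h1

/-- one sided distance -/
def D (x y : V n) : ℕ := ∑ i, (x i - y i)

theorem D_lt {w u v : V n} {p q : Fin n} (h : w + ee p = u + ee q) (hp : v p < u p)
    (hq : u q < v q) : D w v < D u v := by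
  have hne : p ≠ q := by rintro rfl; omega
  apply sum_lt_sum
  · intro i _
    have := eq_apply h i
    by_cases h1 : i = p
    · by_cases h2 : i = q
      · exact absurd (h1.symm.trans h2) hne
      · rw [if_pos h1, if_neg h2] at this; omega
    · by_cases h2 : i = q
      · rw [if_neg h1, if_pos h2] at this
        subst h2
        omega
      · rw [if_neg h1, if_neg h2] at this; omega
  · refine ⟨p, mem_univ _, ?_⟩
    have := eq_apply h p
    rw [if_pos rfl, if_neg hne] at this
    omega

/-- the sum of two sets with the exchange property has the exchange property -/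
theorem Exc.add {B₁ B₂ : Set (V n)} (h₁ : Exc B₁) (h₂ : Exc B₂) :
    Exc {z | ∃ x ∈ B₁, ∃ y ∈ B₂, z = x + y} := by
  rintro _ ⟨u₁, hu₁, u₂, hu₂, rfl⟩ _ ⟨v₁, hv₁, v₂, hv₂, rfl⟩ p hp
  have key : ∀ N : ℕ, ∀ x ∈ B₁, ∀ y ∈ B₂, ∀ q, D x v₁ + D y v₂ ≤ N →
      (x + y) + ee p = (u₁ + u₂) + ee q →
      ∃ q, (u₁ + u₂) q < (v₁ + v₂) q ∧
        ∃ w ∈ {z | ∃ x ∈ B₁, ∃ y ∈ B₂, z = x + y}, w + ee p = (u₁ + u₂) + ee q := by
    intro N
    induction N with
    | zero =>
      intro x hx y hy q hD hq
      by_cases hlt : (u₁ + u₂) q < (v₁ + v₂) q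
      · exact ⟨q, hlt, x + y, ⟨x, hx, y, hy, rfl⟩, hq⟩
      · exfalso
        have e1 : D x v₁ = 0 := by omega
        have e2 : D y v₂ = 0 := by omega
        have e3 := (sum_eq_zero_iff.mp e1) q (mem_univ _)
        have e4 := (sum_eq_zero_iff.mp e2) q (mem_univ _)
        have e5 := eq_apply hq q
        rw [if_pos rfl, Finsupp.add_apply] at e5
        rw [Finsupp.add_apply v₁] at hlt
        by_cases hpq : q = p
        · subst hpq
          rw [if_pos rfl] at e5
          rw [Finsupp.add_apply v₁] at hp
          omega
        · rw [if_neg hpq] at e5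
          omega
    | succ N ih =>
      intro x hx y hy q hD hq
      by_cases hlt : (u₁ + u₂) q < (v₁ + v₂) q
      · exact ⟨q, hlt, x + y, ⟨x, hx, y, hy, rfl⟩, hq⟩
      · have e5 := eq_apply hq q
        rw [if_pos rfl, Finsupp.add_apply] at e5
        rw [Finsupp.add_apply v₁] at hlt
        have e6 : v₁ q + v₂ q < x q + y q := by
          by_cases hpq : q = p
          · subst hpq
            rw [if_pos rfl] at e5
            rw [Finsupp.add_apply v₁] at hp
            omega
          · rw [if_neg hpq] at e5
            omega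
        rcases (by omega : v₁ q < x q ∨ v₂ q < y q) with h | h
        · obtain ⟨r, hr, x', hx', hxx⟩ := h₁ x hx v₁ hv₁ q h
          have h3 := D_lt hxx h hr
          refine ih x' hx' y hy r (by omega) ?_
          have h4 : (x' + y + ee p) + ee q = (u₁ + u₂ + ee r) + ee q := by
            calc (x' + y + ee p) + ee q = (x' + ee q) + y + ee p := by abel
              _ = (x + y + ee p) + ee r := by rw [hxx]; abel
              _ = _ := by rw [hq]; abel
          exact add_right_cancel h4
        · obtain ⟨r, hr, y', hy', hyy⟩ := h₂ y hy v₂ hv₂ q h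
          have h3 := D_lt hyy h hr
          refine ih x hx y' hy' r (by omega) ?_
          have h4 : (x + y' + ee p) + ee q = (u₁ + u₂ + ee r) + ee q := by
            calc (x + y' + ee p) + ee q = x + (y' + ee q) + ee p := by abel
              _ = (x + y + ee p) + ee r := by rw [hyy]; abel
              _ = _ := by rw [hq]; abel
          exact add_right_cancel h4
  exact key _ u₁ hu₁ u₂ hu₂ p le_rfl rfl

/-- the dual exchange property -/
theorem Exc.dual {B : Set (V n)} (hB : Exc B) {d : ℕ} (hd : SameDeg B d) :
    ∀ u ∈ B, ∀ v ∈ B, ∀ p, u p < v p → ∃ q, v q < u q ∧ ∃ w ∈ B, w + ee q = u + ee p := by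
  intro u hu v hv p hp
  have key : ∀ N : ℕ, ∀ w ∈ B, D w u ≤ N → u p < w p → (∀ j, min (u j) (v j) ≤ w j) →
      ∃ q, v q < u q ∧ ∃ w ∈ B, w + ee q = u + ee p := by
    intro N
    induction N with
    | zero =>
      intro w _ hD hw _
      exfalso
      have e3 := (sum_eq_zero_iff.mp (Nat.le_zero.mp hD)) p (mem_univ _)
      omega
    | succ N ih =>
      intro w hw hD hwp hmin
      by_cases hex : ∃ j, u j < w j ∧ (j = p → u p + 1 < w p)
      · obtain ⟨j, hj, hjp⟩ := hex
        obtain ⟨q, hq, w', hw', hww⟩ := hB w hw u hu j hj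
        have h3 := D_lt hww hj hq
        have hjq : j ≠ q := by rintro rfl; omega
        refine ih w' hw' (by omega) ?_ ?_
        · have h4 := eq_apply hww p
          by_cases h5 : p = j
          · have h6 := hjp h5.symm
            rw [if_pos h5] at h4
            split_ifs at h4 <;> omega
          · rw [if_neg h5] at h4
            split_ifs at h4 <;> omega
        · intro i
          have h4 := eq_apply hww i
          have h5 := hmin i
          by_cases h6 : i = j
          · subst h6
            rw [if_pos rfl, if_neg hjq] at h4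
            omega
          · rw [if_neg h6] at h4
            split_ifs at h4 <;> omega
      · push Not at hex
        have hp1 : w p = u p + 1 := by
          have := (hex p hwp).2
          omega
        have hle : ∀ j, j ≠ p → w j ≤ u j := by
          intro j hj
          by_contra hcon
          exact hj (hex j (by omega)).1
        have hsum : ∑ i, w i = ∑ i, u i := by rw [hd w hw, hd u hu]
        obtain ⟨q, hq⟩ : ∃ q, w q < u q := by
          by_contra hcon
          push Not at hcon
          have : ∑ i, u i < ∑ i, w i := sum_lt_sum (fun i _ => hcon i) ⟨p, mem_univ _, hwp⟩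
          omega
        have hqp : q ≠ p := by rintro rfl; omega
        refine ⟨q, ?_, w, hw, ?_⟩
        · have := hmin q
          omega
        · have hle' : ∀ i ∈ univ, (w + ee q) i ≤ (u + ee p) i := by
            intro i _
            rw [Finsupp.add_apply, Finsupp.add_apply, ee_apply, ee_apply]
            by_cases h1 : i = p
            · subst h1
              rw [if_pos rfl, if_neg hqp.symm]
              omega
            · rw [if_neg h1]
              have := hle i h1
              by_cases h2 : i = q
              · subst h2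
                rw [if_pos rfl]
                omega
              · rw [if_neg h2]
                omega
          have hs : ∑ i, (w + ee q) i = ∑ i, (u + ee p) i := by
            simp only [Finsupp.add_apply, sum_add_distrib]
            rw [hsum, sum_ee, sum_ee]
            simp
          have := (sum_eq_sum_iff_of_le hle').mp hs
          ext i
          exact this i (mem_univ _)
  exact key _ v hv le_rfl hp (fun j => min_le_right _ _)

/-- transitivity of the exchange relation -/
theorem Exc.trans {B : Set (V n)} (hB : Exc B) {u v w : V n} (hu : u ∈ B) (hv : v ∈ B)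
    (hw : w ∈ B) {p q r : Fin n} (h1 : v + ee p = u + ee q) (h2 : w + ee r = u + ee p) :
    ∃ z ∈ B, z + ee r = u + ee q := by
  by_cases hrq : r = q
  · exact ⟨u, hu, by rw [hrq]⟩
  by_cases hpq : p = q
  · exact ⟨w, hw, by rw [h2, hpq]⟩
  by_cases hpr : p = r
  · exact ⟨v, hv, by rw [← hpr, h1]⟩
  have a1 := eq_apply h1 r
  rw [if_neg (Ne.symm hpr), if_neg hrq] at a1
  have a2 := eq_apply h2 r
  rw [if_pos rfl, if_neg (Ne.symm hpr)] at a2
  obtain ⟨s, hs, z, hz, hzz⟩ := hB v hv w hw r (by omega)
  have b1 := eq_apply h1 s
  have b2 := eq_apply h2 s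
  have hsp : s = p := by
    by_contra hcon
    rw [if_neg hcon] at b1 b2
    split_ifs at b1 b2 <;> omega
  subst hsp
  exact ⟨z, hz, by rw [hzz, h1]⟩

/-- sets closed under exchange are tight -/
theorem Exc.tight {B : Set (V n)} (hB : Exc B) {d : ℕ} (hd : SameDeg B d) (A : Finset (Fin n)) :
    ∀ N : ℕ, ∀ u ∈ B, (∀ q ∈ A, ∀ p, (∃ w ∈ B, w + ee p = u + ee q) → p ∈ A) →
      ∀ c ∈ B, D c u ≤ N → ∑ i ∈ A, c i ≤ ∑ i ∈ A, u i := by
  intro N
  induction N with
  | zero =>
    intro u _ _ c _ hD
    apply sum_le_sum
    intro i _
    have e3 := (sum_eq_zero_iff.mp (Nat.le_zero.mp hD)) i (mem_univ _)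
    omega
  | succ N ih =>
    intro u hu hcl c hc hD
    by_contra hcon
    push Not at hcon
    obtain ⟨q, hqA, hq⟩ := exists_lt_of_sum_lt hcon
    obtain ⟨s, hs, v, hv, hvs⟩ := hB.dual hd u hu c hc q hq
    have hsA : s ∈ A := hcl q hqA s ⟨v, hv, hvs⟩
    have hqs : q ≠ s := by rintro rfl; omega
    have h1 := sum_eq hvs A
    rw [if_pos hsA, if_pos hqA] at h1
    have h2 : D c v < D c u := by
      apply sum_lt_sum
      · intro i _
        have := eq_apply hvs i
        by_cases h1 : i = s
        · subst h1
          rw [if_pos rfl, if_neg hqs.symm] at this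
          omega
        · rw [if_neg h1] at this
          split_ifs at this <;> omega
      · refine ⟨q, mem_univ _, ?_⟩
        have := eq_apply hvs q
        rw [if_neg hqs, if_pos rfl] at this
        omega
    have h3 := ih v hv (by
      rintro x hx y ⟨w, hw, hwy⟩
      by_contra hy
      have hxy : y ≠ x := by rintro rfl; exact hy hx
      have hyq : y ≠ q := by rintro rfl; exact hy hqA
      have hys : y ≠ s := by rintro rfl; exact hy hsA
      have e1 := eq_apply hwy y
      have e2 := eq_apply hvs y
      rw [if_pos rfl, if_neg hxy] at e1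
      rw [if_neg hys, if_neg hyq] at e2
      obtain ⟨z, hz, t, ht, htz⟩ := hB u hu w hw y (by omega)
      have hzA : z ∈ A := by
        have e3 := eq_apply hwy z
        have e4 := eq_apply hvs z
        by_contra hzA
        have z1 : z ≠ x := by rintro rfl; exact hzA hx
        have z2 : z ≠ q := by rintro rfl; exact hzA hqA
        have z3 : z ≠ s := by rintro rfl; exact hzA hsA
        rw [if_neg z1] at e3
        rw [if_neg z2, if_neg z3] at e4
        split_ifs at e3 <;> omega
      exact hy (hcl z hzA y ⟨t, ht, htz⟩)) c hc (by omega)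
    omega

end Q34.Poly
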