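import Pool.Agent.Q34.PolyB

/-! Multigraded Betti numbers of polymatroidal ideals and sums of bases. -/

set_option autoImplicit false
open Finset

namespace Q34.Poly

variable {n : ℕ}

/-- `u` has maximal weight on `A` -/
def Tight (B : Set (V n)) (u : V n) (A : Finset (Fin n)) : Prop :=
  ∀ c ∈ B, ∑ i ∈ A, c i ≤ ∑ i ∈ A, u i

theorem exists_ee {B : Set (V n)} {d : ℕ} (hd : SameDeg B d) {u w : V n} (hu : u ∈ B) (hw : w ∈ B)
    {q : Fin n} (h : w ≤ u + ee q) : ∃ p, w + ee p = u + ee q := by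
  have hs : ∑ i, (u + ee q) i = d + 1 := by
    simp only [Finsupp.add_apply, sum_add_distrib]
    rw [hd u hu, sum_ee, if_pos (mem_univ _)]
  obtain ⟨p, -, hp⟩ : ∃ p ∈ univ, w p < (u + ee q) p := by
    apply exists_lt_of_sum_lt
    rw [hs, hd w hw]
    exact Nat.lt_succ_self d
  refine ⟨p, ?_⟩
  have hle : ∀ i ∈ univ, (w + ee p) i ≤ (u + ee q) i := by
    intro i _
    rw [Finsupp.add_apply, ee_apply]
    by_cases h1 : i = p
    · rw [if_pos h1, h1]
      exact hp
    · rw [if_neg h1]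
      exact h i
  have hs' : ∑ i, (w + ee p) i = ∑ i, (u + ee q) i := by
    rw [hs]
    simp only [Finsupp.add_apply, sum_add_distrib]
    rw [hd w hw, sum_ee, if_pos (mem_univ _)]
  have := (sum_eq_sum_iff_of_le hle).mp hs'
  ext i
  exact this i (mem_univ _)

theorem Tight.closed {B : Set (V n)} {u : V n} {A : Finset (Fin n)} (h : Tight B u A) :
    ∀ q ∈ A, ∀ p, (∃ w ∈ B, w + ee p = u + ee q) → p ∈ A := by
  rintro q hq p ⟨w, hw, hwp⟩
  by_contra hp
  have h1 := sum_eq hwp A
  rw [if_neg hp, if_pos hq] at h1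
  have := h w hw
  omega

theorem tight_of_closed {B : Set (V n)} (hB : Exc B) {d : ℕ} (hd : SameDeg B d) {u : V n}
    (hu : u ∈ B) {A : Finset (Fin n)}
    (h : ∀ q ∈ A, ∀ p, (∃ w ∈ B, w + ee p = u + ee q) → p ∈ A) : Tight B u A :=
  fun c hc => hB.tight hd A _ u hu h c hc le_rfl

theorem Exc.lq {C : Finset (V n)} (hC : Exc (C : Set (V n))) : LQ C := by
  intro u hu v hv hr
  obtain ⟨p, hp1, hp2⟩ := (rl_iff v u).mp hr
  obtain ⟨q, hq, w, hw, hwp⟩ := hC u hu v hv p hp2
  refine ⟨q, hq, w, hw, ?_, ?_⟩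
  · have hqp : q ≠ p := by rintro rfl; omega
    have hqlt : q < p := by
      rcases lt_trichotomy q p with h | h | h
      · exact h
      · exact absurd h hqp
      · have := hp1 q h
        omega
    rw [rl_iff]
    refine ⟨p, fun j hj => ?_, ?_⟩
    · have := eq_apply hwp j
      rwa [if_neg hj.ne', if_neg (hqlt.trans hj).ne', add_zero, add_zero] at this
    · have := eq_apply hwp p
      rw [if_pos rfl, if_neg hqp.symm] at this
      omega
  · rw [← hwp]
    intro i
    rw [Finsupp.add_apply]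
    exact Nat.le_add_right _ _

theorem not_tight_of_st {C : Finset (V n)} {d : ℕ} (hd : SameDeg (C : Set (V n)) d) {u : V n}
    (hu : u ∈ C) {F : Finset (Fin n)} (h : ∀ f ∈ F, st C u f) :
    ∀ A ⊆ F, A.Nonempty → ¬ Tight (C : Set (V n)) u A := by
  intro A hA hne ht
  obtain ⟨w, hw, hwr, hwle⟩ := h (A.max' hne) (hA (max'_mem A hne))
  obtain ⟨p, hp⟩ := exists_ee hd hu hw hwle
  have hpA := ht.closed _ (max'_mem A hne) p ⟨w, hw, hp⟩
  have hple := le_max' A p hpA
  obtain ⟨s, hs1, hs2⟩ := (rl_iff w u).mp hwr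
  have h1 := eq_apply hp s
  have hsp : s = p := by
    by_contra hcon
    rw [if_neg hcon] at h1
    split_ifs at h1 <;> omega
  subst hsp
  rcases hple.lt_or_eq with hlt | heq
  · have h2 := eq_apply hp (A.max' hne)
    have h3 := hs1 _ hlt
    rw [if_neg hlt.ne', if_pos rfl] at h2
    omega
  · rw [← heq, if_pos rfl] at h1
    omega

/-- the extremal representation -/
theorem st_of_not_tight {C : Finset (V n)} (hC : Exc (C : Set (V n))) {d : ℕ}
    (hd : SameDeg (C : Set (V n)) d) {u : V n} (hu : u ∈ C) {F : Finset (Fin n)}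
    (h : ∀ A ⊆ F, A.Nonempty → ¬ Tight (C : Set (V n)) u A) :
    ∃ u' ∈ C, ∃ F' : Finset (Fin n), F'.card = F.card ∧ u + ind F = u' + ind F' ∧
      ∀ f ∈ F', st C u' f := by
  classical
  set a := u + ind F with ha
  let S : Finset (V n) := C.filter fun u' => ∃ F' : Finset (Fin n), F'.card = F.card ∧
    a = u' + ind F'
  have hS : u ∈ S := mem_filter.mpr ⟨hu, F, rfl, rfl⟩
  obtain ⟨u', hu'S, hmax⟩ := exists_max_image S (fun u : V n => toColex (u : Fin n → ℕ)) ⟨u, hS⟩
  obtain ⟨hu'C, F', hF', hau'⟩ := mem_filter.mp hu'S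
  refine ⟨u', hu'C, F', hF', hau', ?_⟩
  intro f hf
  -- a representation which avoids `f`
  obtain ⟨v, hv, G, hG, hav, hfG⟩ : ∃ v ∈ C, ∃ G : Finset (Fin n), G.card = F.card ∧
      a = v + ind G ∧ f ∉ G := by
    by_cases hfF : f ∈ F
    · by_contra hcon
      push Not at hcon
      let A : Finset (Fin n) := insert f (univ.filter fun p => ∃ w ∈ C, w + ee p = u + ee f)
      have hcl : ∀ q ∈ A, ∀ p, (∃ w ∈ (C : Set (V n)), w + ee p = u + ee q) → p ∈ A := by
        rintro q hq p ⟨w, hw, hwp⟩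
        rcases mem_insert.mp hq with rfl | hq
        · exact mem_insert_of_mem (mem_filter.mpr ⟨mem_univ _, w, hw, hwp⟩)
        · obtain ⟨-, v, hv, hvq⟩ := mem_filter.mp hq
          obtain ⟨z, hz, hzz⟩ := hC.trans hu hv hw hvq hwp
          exact mem_insert_of_mem (mem_filter.mpr ⟨mem_univ _, z, hz, hzz⟩)
      refine h A ?_ ⟨f, mem_insert_self _ _⟩ (tight_of_closed hC hd hu hcl)
      intro p hp
      rcases mem_insert.mp hp with rfl | hp
      · exact hfF
      · by_contra hpF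
        obtain ⟨-, w, hw, hwp⟩ := mem_filter.mp hp
        have hpf : p ≠ f := by rintro rfl; exact hpF hfF
        have hpe : p ∉ F.erase f := fun h => hpF (mem_of_mem_erase h)
        have h1 := hcon w hw (insert p (F.erase f)) (by
          rw [card_insert_of_notMem hpe, card_erase_of_mem hfF]
          have := card_pos.mpr ⟨f, hfF⟩
          omega) (by
          rw [ind_insert _ _ hpe, ← add_assoc, hwp, add_assoc, ← ind_insert _ _ (notMem_erase f F),
            insert_erase hfF])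
        rw [mem_insert] at h1
        rcases h1 with h1 | h1
        · exact hpf h1.symm
        · exact notMem_erase f F h1
    · exact ⟨u, hu, F, rfl, rfl, hfF⟩
  have e1 : ∀ i, u' i + (if i ∈ F' then 1 else 0) = v i + (if i ∈ G then 1 else 0) := by
    intro i
    have := DFunLike.congr_fun (hau'.symm.trans hav) i
    rwa [Finsupp.add_apply, Finsupp.add_apply, ind_apply, ind_apply] at this
  have e2 := e1 f
  rw [if_pos hf, if_neg hfG] at e2
  obtain ⟨p, hp, w, hw, hwp⟩ := hC.dual hd u' hu'C v hv f (by omega)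
  have e3 := e1 p
  have hpF' : p ∉ F' := by
    intro h1
    rw [if_pos h1] at e3
    split_ifs at e3 <;> omega
  have hpf : p ≠ f := by rintro rfl; exact hpF' hf
  have hpe : p ∉ F'.erase f := fun h => hpF' (mem_of_mem_erase h)
  have hwS : w ∈ S := by
    refine mem_filter.mpr ⟨hw, insert p (F'.erase f), ?_, ?_⟩
    · rw [card_insert_of_notMem hpe, card_erase_of_mem hf, ← hF']
      have := card_pos.mpr ⟨f, hf⟩
      omega
    · rw [ind_insert _ _ hpe, ← add_assoc, hwp, add_assoc, ← ind_insert _ _ (notMem_erase f F'),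
        insert_erase hf]
      exact hau'
  refine ⟨w, hw, ?_, ?_⟩
  · refine lt_of_le_of_ne (hmax w hwS) ?_
    intro heq
    have h1 : w = u' := DFunLike.coe_injective (toColex.injective heq)
    rw [h1] at hwp
    have h2 := eq_apply hwp p
    rw [if_pos rfl, if_neg hpf] at h2
    omega
  · rw [← hwp]
    intro i
    rw [Finsupp.add_apply]
    exact Nat.le_add_right _ _

/-- non-vanishing of the multigraded Tor (as homology of a Koszul strand) -/
def TorC (K : Type*) [Field K] (C : Finset (V n)) (i : ℕ) (a : V n) : Prop :=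
  ∃ z : Finset (Fin n) → K, Ch C a i z ∧ bd z = 0 ∧
    ∀ w : Finset (Fin n) → K, Ch C a (i + 1) w → bd w ≠ z

/-- **the multigraded shifts of a polymatroidal ideal** -/
theorem torC_iff (K : Type*) [Field K] {C : Finset (V n)} (hC : Exc (C : Set (V n))) {d : ℕ}
    (hd : SameDeg (C : Set (V n)) d) (i : ℕ) (hi : 1 ≤ i) (a : V n) :
    TorC K C i a ↔ ∃ u ∈ C, ∃ F : Finset (Fin n), F.card = i ∧ a = u + ind F ∧
      ∀ A ⊆ F, A.Nonempty → ¬ Tight (C : Set (V n)) u A := by
  constructor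
  · rintro ⟨z, hz, hbz, hno⟩
    by_contra hcon
    obtain ⟨w, hw, hbw⟩ := acyclic C hC.lq i a z hz hbz (by
      rintro ⟨u, hu, F, hF, hau, hst⟩
      exact hcon ⟨u, hu, F, hF, hau, not_tight_of_st hd hu hst⟩)
    exact hno w hw hbw
  · rintro ⟨u, hu, F, hF, hau, ht⟩
    obtain ⟨u', hu', F', hF', heq, hst⟩ := st_of_not_tight hC hd hu ht
    have hFi : F'.card = i := hF'.trans hF
    have hne : F'.Nonempty := card_pos.mp (by omega)
    have h1 := nonzero (K := K) C hC.lq hd u' hu' F' hne hst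
    rw [hau, heq]
    rw [hFi] at h1
    exact h1

/-- sums of `m` elements -/
def pw (B : Set (V n)) (m : ℕ) : Set (V n) :=
  {z | ∃ f : Fin m → V n, (∀ j, f j ∈ B) ∧ z = ∑ j, f j}

theorem pw_succ (B : Set (V n)) (m : ℕ) :
    pw B (m + 1) = {z | ∃ x ∈ pw B m, ∃ y ∈ B, z = x + y} := by
  ext z
  constructor
  · rintro ⟨f, hf, rfl⟩
    exact ⟨∑ j : Fin m, f j.castSucc, ⟨_, fun j => hf _, rfl⟩, f (Fin.last m), hf _,
      Fin.sum_univ_castSucc f⟩
  · rintro ⟨_, ⟨f, hf, rfl⟩, y, hy, rfl⟩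
    refine ⟨Fin.snoc f y, ?_, ?_⟩
    · intro j
      refine Fin.lastCases ?_ (fun j => ?_) j
      · rw [Fin.snoc_last]; exact hy
      · rw [Fin.snoc_castSucc]; exact hf j
    · rw [Fin.sum_univ_castSucc]
      simp

theorem Exc.pw {B : Set (V n)} (hB : Exc B) (m : ℕ) : Exc (pw B m) := by
  induction m with
  | zero =>
    rintro u ⟨f, -, rfl⟩ v ⟨g, -, rfl⟩ p hp
    simp at hp
  | succ m ih =>
    rw [pw_succ]
    exact ih.add hB

theorem SameDeg.pw {B : Set (V n)} {d : ℕ} (hd : SameDeg B d) (m : ℕ) :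
    SameDeg (pw B m) (m * d) := by
  rintro _ ⟨f, hf, rfl⟩
  simp only [Finsupp.finsetSum_apply]
  rw [sum_comm, sum_congr rfl fun j _ => hd (f j) (hf j), sum_const, card_univ, Fintype.card_fin,
    smul_eq_mul]

/-- greedy choice -/
theorem greedy {m : ℕ} (R : Fin m → Fin n → Fin n → Prop) (N : ℕ) : ∀ G : Finset (Fin n),
    G.card = N → (∀ A ⊆ G, A.Nonempty → ∃ j, ¬ ∀ q ∈ A, ∀ p, R j q p → p ∈ A) →
    ∃ J : Finset (Fin m), J.card ≤ N ∧
      ∀ A ⊆ G, A.Nonempty → ∃ j ∈ J, ¬ ∀ q ∈ A, ∀ p, R j q p → p ∈ A := by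
  classical
  induction N with
  | zero =>
    intro G hG _
    refine ⟨∅, le_rfl, fun A hA hne => ?_⟩
    rw [card_eq_zero] at hG
    rw [hG, subset_empty] at hA
    exact absurd hA hne.ne_empty
  | succ N ih =>
    intro G hG h
    have hne : G.Nonempty := card_pos.mp (by omega)
    obtain ⟨j, hj⟩ := h G Subset.rfl hne
    push Not at hj
    obtain ⟨q, hq, p, hR, hp⟩ := hj
    obtain ⟨J, hJ, hJ2⟩ := ih (G.erase q) (by rw [card_erase_of_mem hq, hG]; rfl)
      (fun A hA hne => h A (hA.trans (erase_subset _ _)) hne)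
    refine ⟨insert j J, (card_insert_le _ _).trans (by omega), ?_⟩
    intro A hA hAne
    by_cases hqA : q ∈ A
    · refine ⟨j, mem_insert_self _ _, fun hcl => hp (hA (hcl q hqA p hR))⟩
    · obtain ⟨j', hj', h'⟩ := hJ2 A (fun x hx => mem_erase.mpr
        ⟨fun h => hqA (h ▸ hx), hA hx⟩) hAne
      exact ⟨j', mem_insert_of_mem hj', h'⟩

theorem tight_pw {B : Set (V n)} {m : ℕ} {f : Fin m → V n} (hf : ∀ j, f j ∈ B)
    (A : Finset (Fin n)) : Tight (pw B m) (∑ j, f j) A ↔ ∀ j, Tight B (f j) A := by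
  classical
  constructor
  · intro h j c hc
    have h1 := h (∑ l, Function.update f j c l) ⟨_, fun l => by
      by_cases hl : l = j
      · rw [hl, Function.update_self]; exact hc
      · rw [Function.update_of_ne hl]; exact hf l, rfl⟩
    simp only [Finsupp.finsetSum_apply] at h1
    rw [sum_comm, sum_comm (s := A)] at h1
    rw [← add_sum_erase univ _ (mem_univ j), ← add_sum_erase univ (fun l => ∑ i ∈ A, f l i)
      (mem_univ j), Function.update_self] at h1
    have h2 : ∑ l ∈ univ.erase j, ∑ i ∈ A, (Function.update f j c l) i =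
        ∑ l ∈ univ.erase j, ∑ i ∈ A, f l i :=
      sum_congr rfl fun l hl => by rw [Function.update_of_ne (ne_of_mem_erase hl)]
    rw [h2] at h1
    omega
  · rintro h _ ⟨g, hg, rfl⟩
    simp only [Finsupp.finsetSum_apply]
    rw [sum_comm, sum_comm (s := A)]
    exact sum_le_sum fun j _ => h j (g j) (hg j)

/-- **decomposition** -/
theorem decomp {B : Set (V n)} (hB : Exc B) {d : ℕ} (hd : SameDeg B d) {k : ℕ} {z : V n}
    (hz : z ∈ pw B (k + 1)) {F : Finset (Fin n)} (hF : F.card ≤ k)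
    (h : ∀ A ⊆ F, A.Nonempty → ¬ Tight (pw B (k + 1)) z A) :
    ∃ b ∈ B, ∃ u ∈ pw B k, z = b + u ∧ ∀ A ⊆ F, A.Nonempty → ¬ Tight (pw B k) u A := by
  classical
  obtain ⟨f, hf, rfl⟩ := hz
  obtain ⟨J, hJ, hJ2⟩ := greedy (fun j q p => ∃ w ∈ B, w + ee p = f j + ee q) F.card F rfl (by
    intro A hA hne
    by_contra hcon
    push Not at hcon
    refine h A hA hne ((tight_pw hf A).mpr fun j => tight_of_closed hB hd (hf j) ?_)
    intro q hq p hw
    exact hcon j q hq p hw)
  obtain ⟨j0, hj0⟩ : ∃ j0, j0 ∉ J := by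
    by_contra hcon
    push Not at hcon
    have : J = univ := eq_univ_of_forall hcon
    rw [this, card_univ, Fintype.card_fin] at hJ
    omega
  refine ⟨f j0, hf j0, ∑ j, f (j0.succAbove j), ⟨_, fun j => hf _, rfl⟩,
    Fin.sum_univ_succAbove f j0, ?_⟩
  intro A hA hne ht
  obtain ⟨j, hj, hcl⟩ := hJ2 A hA hne
  have hjne : j ≠ j0 := by rintro rfl; exact hj0 hj
  obtain ⟨l, rfl⟩ := Fin.exists_succAbove_eq hjne
  apply hcl
  have := ((tight_pw (fun j => hf (j0.succAbove j)) A).mp ht) l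
  exact this.closed

/-- adding a base preserves the condition -/
theorem not_tight_add {B : Set (V n)} {k : ℕ} {b u : V n} (hb : b ∈ B)
    {A : Finset (Fin n)} (h : ¬ Tight (pw B k) u A) : ¬ Tight (pw B (k + 1)) (b + u) A := by
  intro ht
  apply h
  intro c hc
  have h1 := ht (b + c) (by
    rw [pw_succ]
    exact ⟨c, hc, b, hb, add_comm _ _⟩)
  simp only [Finsupp.add_apply, sum_add_distrib] at h1
  omega

end Q34.Poly
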