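import Pool.Agent.Q34.PolyC

/-! Violated sets, submodularity and the exchange property of the multigraded shifts. -/

set_option autoImplicit false
open Finset

namespace Q34.Poly

variable {n : ℕ}

theorem split_sum (A : Finset (Fin n)) (x : V n) :
    ∑ i ∈ A, x i + ∑ i ∈ univ \ A, x i = ∑ i, x i := by
  rw [add_comm, sum_sdiff (subset_univ A)]

/-- **violated sets** -/
theorem exists_violated {G : Set (V n)} (hG : Exc G) {d : ℕ} (hd : SameDeg G d)
    (hne : G.Nonempty) (x : V n) (hx : ¬ ∃ g ∈ G, g ≤ x) :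
    ∃ A : Finset (Fin n), ∃ g ∈ G, ∑ i ∈ A, x i < ∑ i ∈ A, g i ∧
      ∀ c ∈ G, ∑ i ∈ A, g i ≤ ∑ i ∈ A, c i := by
  classical
  obtain ⟨g, hg, hmin⟩ : ∃ g ∈ G, ∀ c ∈ G, D g x ≤ D c x := by
    obtain ⟨g0, hg0⟩ := hne
    have hex : ∃ m, ∃ g ∈ G, D g x = m := ⟨_, g0, hg0, rfl⟩
    obtain ⟨g, hg, hgm⟩ := Nat.find_spec hex
    exact ⟨g, hg, fun c hc => hgm ▸ Nat.find_min' hex ⟨c, hc, rfl⟩⟩
  let P : Finset (Fin n) := univ.filter fun i => x i < g i
  let A : Finset (Fin n) := univ.filter fun j => j ∈ P ∨ ∃ i ∈ P, ∃ w ∈ G, w + ee i = g + ee j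
  have hPne : P.Nonempty := by
    by_contra hcon
    rw [not_nonempty_iff_eq_empty] at hcon
    apply hx
    refine ⟨g, hg, fun i => ?_⟩
    by_contra hi
    have : i ∈ P := mem_filter.mpr ⟨mem_univ _, not_le.mp hi⟩
    rw [hcon] at this
    exact notMem_empty _ this
  have hcl : ∀ q ∈ univ \ A, ∀ p, (∃ w ∈ G, w + ee p = g + ee q) → p ∈ univ \ A := by
    rintro q hq p ⟨w, hw, hwp⟩
    rw [mem_sdiff] at hq ⊢
    refine ⟨mem_univ _, fun hp => hq.2 ?_⟩
    rcases (mem_filter.mp hp).2 with h | ⟨i, hi, v, hv, hvi⟩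
    · exact mem_filter.mpr ⟨mem_univ _, Or.inr ⟨p, h, w, hw, hwp⟩⟩
    · obtain ⟨z, hz, hzz⟩ := hG.trans hg hw hv hwp hvi
      exact mem_filter.mpr ⟨mem_univ _, Or.inr ⟨i, hi, z, hz, hzz⟩⟩
  have ht := tight_of_closed hG hd hg hcl
  refine ⟨A, g, hg, ?_, ?_⟩
  · obtain ⟨i, hi⟩ := hPne
    apply sum_lt_sum
    · intro j hj
      rcases (mem_filter.mp hj).2 with h | ⟨i, hi, w, hw, hwi⟩
      · exact (mem_filter.mp h).2.le
      · by_contra hcon
        have h1 := D_lt hwi (mem_filter.mp hi).2 (not_le.mp hcon)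
        have h2 := hmin w hw
        omega
    · exact ⟨i, mem_filter.mpr ⟨mem_univ _, Or.inl hi⟩, (mem_filter.mp hi).2⟩
  · intro c hc
    have h1 := ht c hc
    have h2 := split_sum A c
    have h3 := split_sum A g
    rw [hd c hc] at h2
    rw [hd g hg] at h3
    omega

/-- no holes -/
theorem mem_of_le {G : Set (V n)} (hG : Exc G) {d : ℕ} (hd : SameDeg G d) (hne : G.Nonempty)
    (a : V n) (ha : ∑ i, a i = d)
    (h : ∀ A : Finset (Fin n), ∃ g ∈ G, ∑ i ∈ A, a i ≤ ∑ i ∈ A, g i) : a ∈ G := by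
  by_contra hcon
  obtain ⟨A, g, hg, h1, h2⟩ := exists_violated hG hd hne a (by
    rintro ⟨g, hg, hle⟩
    apply hcon
    have : g = a := by
      ext j
      have h3 : ∑ i, g i = ∑ i, a i := by rw [hd g hg, ha]
      exact (sum_eq_sum_iff_of_le fun i _ => hle i).mp h3 j (mem_univ _)
    rwa [← this])
  obtain ⟨c, hc, h3⟩ := h (univ \ A)
  have h4 := h2 c hc
  have h5 := split_sum A c
  have h6 := split_sum A a
  rw [hd c hc] at h5
  rw [ha] at h6
  omega

/-- a common maximiser for a chain -/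
theorem exists_chain {C : Finset (V n)} (hC : Exc (C : Set (V n))) {d : ℕ}
    (hd : SameDeg (C : Set (V n)) d) (hne : C.Nonempty) {X Y : Finset (Fin n)} (hXY : X ⊆ Y) :
    ∃ c ∈ C, Tight (C : Set (V n)) c X ∧ Tight (C : Set (V n)) c Y := by
  classical
  obtain ⟨c0, hc0, hmax0⟩ := exists_max_image C (fun c => ∑ i ∈ X, c i) hne
  obtain ⟨c, hc, hmax⟩ := exists_max_image (C.filter fun c => Tight (C : Set (V n)) c X)
    (fun c => ∑ i ∈ Y, c i) ⟨c0, mem_filter.mpr ⟨hc0, fun c hc => hmax0 c hc⟩⟩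
  obtain ⟨hcC, hcX⟩ := mem_filter.mp hc
  refine ⟨c, hcC, hcX, tight_of_closed hC hd hcC ?_⟩
  rintro q hq p ⟨w, hw, hwp⟩
  by_contra hp
  have hpX : p ∉ X := fun h => hp (hXY h)
  have h1 := sum_eq hwp X
  rw [if_neg hpX] at h1
  have h2 := sum_eq hwp Y
  rw [if_neg hp, if_pos hq] at h2
  have h3 := hmax w (mem_filter.mpr ⟨hw, fun c' hc' => (hcX c' hc').trans (by
    split_ifs at h1 <;> omega)⟩)
  omega

/-- the rank function -/
def rk (C : Finset (V n)) (A : Finset (Fin n)) : ℕ := C.sup fun c => ∑ i ∈ A, c i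

theorem le_rk {C : Finset (V n)} {c : V n} (hc : c ∈ C) (A : Finset (Fin n)) :
    ∑ i ∈ A, c i ≤ rk C A := le_sup (f := fun c => ∑ i ∈ A, c i) hc

theorem tight_iff {C : Finset (V n)} {c : V n} (hc : c ∈ C) (A : Finset (Fin n)) :
    Tight (C : Set (V n)) c A ↔ ∑ i ∈ A, c i = rk C A := by
  constructor
  · intro h
    exact le_antisymm (le_rk hc A) (Finset.sup_le fun c' hc' => h c' hc')
  · intro h c' hc'
    rw [h]
    exact le_rk hc' A

theorem rk_submod {C : Finset (V n)} (hC : Exc (C : Set (V n))) {d : ℕ}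
    (hd : SameDeg (C : Set (V n)) d) (hne : C.Nonempty) (A B : Finset (Fin n)) :
    rk C (A ∪ B) + rk C (A ∩ B) ≤ rk C A + rk C B := by
  obtain ⟨c, hc, h1, h2⟩ := exists_chain hC hd hne (X := A ∩ B) (Y := A ∪ B)
    (inter_subset_left.trans subset_union_left)
  rw [tight_iff hc] at h1 h2
  rw [← h1, ← h2, sum_union_inter]
  exact add_le_add (le_rk hc A) (le_rk hc B)

/-- the `i`-subsets -/
def Tset (n i : ℕ) : Set (V n) := {x | ∃ F : Finset (Fin n), F.card = i ∧ x = ind F}

theorem Tset_exc (n i : ℕ) : Exc (Tset n i) := by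
  rintro _ ⟨F, hF, rfl⟩ _ ⟨G, hG, rfl⟩ p hp
  rw [ind_apply, ind_apply] at hp
  have hpF : p ∈ F := by
    by_contra h
    rw [if_neg h] at hp
    omega
  have hpG : p ∉ G := by
    intro h
    rw [if_pos h, if_pos hpF] at hp
    omega
  obtain ⟨q, hqG, hqF⟩ : ∃ q ∈ G, q ∉ F := by
    by_contra hcon
    push Not at hcon
    have h1 : G ⊆ F.erase p := fun q hq => mem_erase.mpr ⟨fun h => hpG (h ▸ hq), hcon q hq⟩
    have h2 := card_le_card h1
    rw [card_erase_of_mem hpF] at h2
    have := card_pos.mpr ⟨p, hpF⟩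
    omega
  have hqe : q ∉ F.erase p := fun h => hqF (mem_of_mem_erase h)
  refine ⟨q, ?_, ind (insert q (F.erase p)), ⟨_, ?_, rfl⟩, ?_⟩
  · rw [ind_apply, ind_apply, if_neg hqF, if_pos hqG]
    exact Nat.zero_lt_one
  · rw [card_insert_of_notMem hqe, card_erase_of_mem hpF, hF]
    have := card_pos.mpr ⟨p, hpF⟩
    omega
  · rw [ind_insert _ _ hqe]
    have h1 : ind F = ee p + ind (F.erase p) := by
      rw [← ind_insert _ _ (notMem_erase p F), insert_erase hpF]
    rw [h1]
    abel

theorem Tset_deg (n i : ℕ) : SameDeg (Tset n i) i := by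
  rintro _ ⟨F, hF, rfl⟩
  rw [sum_ind, hF]

/-- the shifts -/
def Sh (C : Set (V n)) (i : ℕ) : Set (V n) :=
  {a | ∃ u ∈ C, ∃ F : Finset (Fin n), F.card = i ∧ a = u + ind F ∧
    ∀ A ⊆ F, A.Nonempty → ¬ Tight C u A}

theorem sum_ind_on (A F : Finset (Fin n)) : ∑ i ∈ A, ind F i = (A ∩ F).card := by
  simp only [ind_apply]
  rw [sum_ite_mem, sum_const, smul_eq_mul, mul_one]

/-- description of the shifts by inequalities -/
theorem mem_Sh {C : Finset (V n)} (hC : Exc (C : Set (V n))) {d : ℕ}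
    (hd : SameDeg (C : Set (V n)) d) (hne : C.Nonempty) (i : ℕ) (hin : i ≤ n) (a : V n) :
    a ∈ Sh (C : Set (V n)) i ↔ ∑ j, a j = d + i ∧
      ∀ A : Finset (Fin n), A.Nonempty → ∑ j ∈ A, a j ≤ rk C A + i ∧
        ∑ j ∈ A, a j + 1 ≤ rk C A + A.card := by
  classical
  constructor
  · rintro ⟨u, hu, F, hF, rfl, ht⟩
    refine ⟨?_, fun A hA => ?_⟩
    · simp only [Finsupp.add_apply, sum_add_distrib]
      rw [hd u hu, sum_ind, hF]
    · simp only [Finsupp.add_apply, sum_add_distrib]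
      rw [sum_ind_on]
      have h1 := le_rk hu A
      have h2 : (A ∩ F).card ≤ F.card := card_le_card inter_subset_right
      refine ⟨by omega, ?_⟩
      by_cases hAF : A ⊆ F
      · have h3 := ht A hAF hA
        rw [tight_iff hu] at h3
        have h4 : (A ∩ F).card ≤ A.card := card_le_card inter_subset_left
        omega
      · have h4 : (A ∩ F).card < A.card := by
          apply card_lt_card
          refine ⟨inter_subset_left, fun h => hAF fun x hx => ?_⟩
          exact (mem_inter.mp (h hx)).2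
        omega
  · rintro ⟨hdeg, hle⟩
    have h1 : a ∈ {z : V n | ∃ x ∈ (C : Set (V n)), ∃ y ∈ Tset n i, z = x + y} := by
      refine mem_of_le (hC.add (Tset_exc n i)) (d := d + i) ?_ ?_ a hdeg ?_
      · rintro _ ⟨x, hx, y, hy, rfl⟩
        simp only [Finsupp.add_apply, sum_add_distrib]
        rw [hd x hx, Tset_deg n i y hy]
      · obtain ⟨c, hc⟩ := hne
        obtain ⟨F, -, hF⟩ := exists_subset_card_eq (s := (univ : Finset (Fin n))) (n := i)
          (by rw [card_univ, Fintype.card_fin]; exact hin)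
        exact ⟨_, c, hc, _, ⟨F, hF, rfl⟩, rfl⟩
      · intro A
        rcases A.eq_empty_or_nonempty with rfl | hA
        · obtain ⟨c, hc⟩ := hne
          obtain ⟨F, -, hF⟩ := exists_subset_card_eq (s := (univ : Finset (Fin n))) (n := i)
            (by rw [card_univ, Fintype.card_fin]; exact hin)
          exact ⟨_, ⟨c, hc, _, ⟨F, hF, rfl⟩, rfl⟩, by simp⟩
        · obtain ⟨h2, h3⟩ := hle A hA
          obtain ⟨c, hc, hcA, -⟩ := exists_chain hC hd hne (X := A) (Y := A) Subset.rfl
          rw [tight_iff hc] at hcA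
          -- choose `F` as large as possible on `A`
          obtain ⟨F, hF, hFA⟩ : ∃ F : Finset (Fin n), F.card = i ∧
              min i A.card ≤ (A ∩ F).card := by
            rcases le_total i A.card with h | h
            · obtain ⟨F, hFA, hF⟩ := exists_subset_card_eq (s := A) (n := i) h
              refine ⟨F, hF, ?_⟩
              rw [inter_eq_right.mpr hFA, hF]
              exact min_le_left _ _
            · obtain ⟨F, hAF, -, hF⟩ := exists_subsuperset_card_eq (subset_univ A) h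
                (by rw [card_univ, Fintype.card_fin]; exact hin)
              refine ⟨F, hF, ?_⟩
              rw [inter_eq_left.mpr hAF]
              exact min_le_right _ _
          refine ⟨_, ⟨c, hc, _, ⟨F, hF, rfl⟩, rfl⟩, ?_⟩
          simp only [Finsupp.add_apply, sum_add_distrib]
          rw [sum_ind_on, hcA]
          rcases le_total i A.card with h | h
          · rw [min_eq_left h] at hFA
            omega
          · rw [min_eq_right h] at hFA
            omega
    obtain ⟨u, hu, _, ⟨F, hF, rfl⟩, rfl⟩ := h1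
    refine ⟨u, hu, F, hF, rfl, fun A hAF hA ht => ?_⟩
    have h2 := (hle A hA).2
    simp only [Finsupp.add_apply, sum_add_distrib] at h2
    rw [sum_ind_on, inter_eq_left.mpr hAF, (tight_iff hu A).mp ht] at h2
    omega

/-- **the shifts have the exchange property** -/
theorem Sh_exc {C : Finset (V n)} (hC : Exc (C : Set (V n))) {d : ℕ}
    (hd : SameDeg (C : Set (V n)) d) (i : ℕ) : Exc (Sh (C : Set (V n)) i) := by
  classical
  intro a ha a' ha' p hp
  have hne : C.Nonempty := by
    obtain ⟨u, hu, -⟩ := ha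
    exact ⟨u, hu⟩
  have hin : i ≤ n := by
    obtain ⟨u, hu, F, hF, -⟩ := ha
    rw [← hF]
    simpa using card_le_univ F
  rw [mem_Sh hC hd hne i hin] at ha ha'
  by_contra hcon
  push Not at hcon
  let f : Finset (Fin n) → ℕ := fun A => min (rk C A + i) (rk C A + A.card - 1)
  have hf : ∀ A : Finset (Fin n), A.Nonempty → ∑ j ∈ A, a j ≤ f A := by
    intro A hA
    obtain ⟨h1, h2⟩ := ha.2 A hA
    exact le_min h1 (by omega)
  have hf' : ∀ A : Finset (Fin n), A.Nonempty → ∑ j ∈ A, a' j ≤ f A := by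
    intro A hA
    obtain ⟨h1, h2⟩ := ha'.2 A hA
    exact le_min h1 (by omega)
  have hsub : ∀ A B : Finset (Fin n), (A ∩ B).Nonempty → f (A ∪ B) + f (A ∩ B) ≤ f A + f B := by
    intro A B hAB
    have h1 := rk_submod hC hd hne A B
    have h2 := card_union_add_card_inter A B
    have h3 := card_pos.mpr hAB
    have h4 : (A ∩ B).card ≤ A.card := card_le_card inter_subset_left
    have h5 : (A ∩ B).card ≤ B.card := card_le_card inter_subset_right
    simp only [f]
    omega
  have htight : ∀ q, a q < a' q → ∃ A : Finset (Fin n), q ∈ A ∧ p ∉ A ∧ ∑ j ∈ A, a j = f A := by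
    intro q hq
    by_contra hno
    push Not at hno
    have hqp : q ≠ p := by rintro rfl; omega
    obtain ⟨w, hw⟩ : ∃ w : V n, w + ee p = a + ee q := by
      refine ⟨a + ee q - ee p, tsub_add_cancel_of_le ?_⟩
      intro j
      rw [Finsupp.add_apply, ee_apply, ee_apply]
      by_cases h1 : j = p
      · subst h1
        rw [if_pos rfl]
        omega
      · rw [if_neg h1]
        exact Nat.zero_le _
    refine hcon q hq w ?_ hw
    rw [mem_Sh hC hd hne i hin]
    have hs : ∀ A : Finset (Fin n), _ := fun A => sum_eq hw A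
    constructor
    · have := hs univ
      rw [if_pos (mem_univ _), if_pos (mem_univ _)] at this
      rw [← ha.1]
      omega
    · intro A hA
      have h1 := hs A
      obtain ⟨h2, h3⟩ := ha.2 A hA
      have hcard := card_pos.mpr hA
      by_cases hqA : q ∈ A
      · by_cases hpA : p ∈ A
        · rw [if_pos hpA, if_pos hqA] at h1
          omega
        · have h4 := hno A hqA hpA
          have h5 := hf A hA
          rw [if_neg hpA, if_pos hqA] at h1
          simp only [f] at h4 h5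
          omega
      · rw [if_neg hqA] at h1
        split_ifs at h1 <;> omega
  -- the family of tight sets avoiding `p`
  let TT : Finset (Finset (Fin n)) := univ.filter fun A => A.Nonempty ∧ p ∉ A ∧ ∑ j ∈ A, a j = f A
  have hunion : ∀ A ∈ TT, ∀ B ∈ TT, (A ∩ B).Nonempty → A ∪ B ∈ TT := by
    intro A hA B hB hAB
    obtain ⟨-, hA1, hA2, hA3⟩ := mem_filter.mp hA
    obtain ⟨-, hB1, hB2, hB3⟩ := mem_filter.mp hB
    refine mem_filter.mpr ⟨mem_univ _, hA1.mono subset_union_left, ?_, ?_⟩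
    · rw [mem_union, not_or]
      exact ⟨hA2, hB2⟩
    · have h1 := hsub A B hAB
      have h2 := hf (A ∪ B) (hA1.mono subset_union_left)
      have h3 := hf (A ∩ B) hAB
      have h4 := sum_union_inter (s₁ := A) (s₂ := B) (f := fun j => a j)
      omega
  -- maximal members
  let MM : Finset (Finset (Fin n)) := TT.filter fun A => ∀ B ∈ TT, A ⊆ B → B ⊆ A
  have hdisj : ∀ A ∈ MM, ∀ B ∈ MM, A ≠ B → Disjoint A B := by
    intro A hA B hB hne'
    rw [disjoint_iff_inter_eq_empty]
    by_contra h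
    have h1 := hunion A (mem_filter.mp hA).1 B (mem_filter.mp hB).1 (nonempty_iff_ne_empty.mpr h)
    have h2 := (mem_filter.mp hA).2 _ h1 subset_union_left
    have h3 := (mem_filter.mp hB).2 _ h1 subset_union_right
    apply hne'
    apply Subset.antisymm
    · exact subset_union_left.trans h3
    · exact subset_union_right.trans h2
  have hcover : ∀ A ∈ TT, ∃ B ∈ MM, A ⊆ B := by
    intro A hA
    obtain ⟨B, hB, hmax⟩ := exists_max_image (TT.filter fun B => A ⊆ B) card
      ⟨A, mem_filter.mpr ⟨hA, Subset.rfl⟩⟩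
    obtain ⟨hB1, hB2⟩ := mem_filter.mp hB
    refine ⟨B, mem_filter.mpr ⟨hB1, fun C hC hBC => ?_⟩, hB2⟩
    have h1 := hmax C (mem_filter.mpr ⟨hC, hB2.trans hBC⟩)
    exact (eq_of_subset_of_card_le hBC h1).symm ▸ Subset.rfl
  let T : Finset (Fin n) := MM.biUnion id
  have hT1 : ∑ j ∈ T, a' j ≤ ∑ j ∈ T, a j := by
    rw [sum_biUnion (by
      intro A hA B hB hne'
      exact hdisj A hA B hB hne'), sum_biUnion (by
      intro A hA B hB hne'
      exact hdisj A hA B hB hne')]
    apply sum_le_sum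
    intro A hA
    obtain ⟨-, hA1, -, hA3⟩ := mem_filter.mp (mem_filter.mp hA).1
    show ∑ j ∈ A, a' j ≤ ∑ j ∈ A, a j
    rw [hA3]
    exact hf' A hA1
  have hT2 : ∀ q, a q < a' q → q ∈ T := by
    intro q hq
    obtain ⟨A, hqA, hpA, hA⟩ := htight q hq
    obtain ⟨B, hB, hAB⟩ := hcover A (mem_filter.mpr ⟨mem_univ _, ⟨q, hqA⟩, hpA, hA⟩)
    exact mem_biUnion.mpr ⟨B, hB, hAB hqA⟩
  have hT3 : p ∉ T := by
    intro h
    obtain ⟨A, hA, hpA⟩ := mem_biUnion.mp h
    obtain ⟨-, -, hA2, -⟩ := mem_filter.mp (mem_filter.mp hA).1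
    exact hA2 hpA
  have h1 : ∑ j ∈ univ \ T, a' j < ∑ j ∈ univ \ T, a j := by
    apply sum_lt_sum
    · intro j hj
      by_contra hcon
      exact (mem_sdiff.mp hj).2 (hT2 j (not_le.mp hcon))
    · exact ⟨p, mem_sdiff.mpr ⟨mem_univ _, hT3⟩, hp⟩
  have h2 := split_sum T a
  have h3 := split_sum T a'
  rw [ha.1] at h2
  rw [ha'.1] at h3
  omega

end Q34.Poly
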