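import Mathlib

/-! Normal form for `n + 3` points of `ℙ^n` in linearly general position: they lie on a rational
normal curve. -/

set_option autoImplicit false
open Finset

namespace Q34.Rnc

variable {K : Type*} [Field K]

/-- the point of the moment curve -/
def nu (n : ℕ) (s : K) : Fin (n + 1) → K := fun b => s ^ (b : ℕ)

/-- Lagrange weights kill low powers -/
theorem sum_weights {N : ℕ} (t : Fin (N + 2) → K) (ht : Function.Injective t) (b : ℕ) (hb : b ≤ N) :
    ∑ i, (∏ j ∈ univ.erase i, (t i - t j))⁻¹ * t i ^ b = 0 := by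
  classical
  have h1 := Lagrange.coeff_eq_sum (s := (univ : Finset (Fin (N + 2)))) (v := t)
    (P := (Polynomial.X : Polynomial K) ^ b) (ht.injOn) (by
      rw [Polynomial.degree_X_pow, card_univ, Fintype.card_fin]
      exact_mod_cast (by omega : b < N + 2))
  rw [Polynomial.coeff_X_pow, card_univ, Fintype.card_fin, if_neg (by omega)] at h1
  rw [h1]
  refine sum_congr rfl fun i _ => ?_
  rw [Polynomial.eval_pow, Polynomial.eval_X, div_eq_mul_inv, mul_comm]

/-- Vandermonde: points of the moment curve are independent -/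
theorem nu_indep (n : ℕ) (s : Fin (n + 1) → K) (hs : Function.Injective s) :
    LinearIndependent K (fun i => nu n (s i)) := by
  have h1 : (Matrix.vandermonde s).det ≠ 0 := Matrix.det_vandermonde_ne_zero_iff.mpr hs
  have h2 := Matrix.linearIndependent_rows_of_det_ne_zero h1
  exact h2

/-- **Normal form.** -/
theorem normal_form [Infinite K] (n : ℕ) (p : Fin (n + 3) → Fin (n + 1) → K)
    (hp : ∀ σ : Fin (n + 1) → Fin (n + 3), Function.Injective σ → LinearIndependent K (p ∘ σ)) :
    ∃ (t c : Fin (n + 3) → K) (T : (Fin (n + 1) → K) ≃ₗ[K] (Fin (n + 1) → K)),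
      Function.Injective t ∧ (∀ i, c i ≠ 0) ∧ ∀ i, T (p i) = c i • nu n (t i) := by
  classical
  -- the relations
  let Pm : (Fin (n + 3) → K) →ₗ[K] (Fin (n + 1) → K) :=
    { toFun := fun l => ∑ i, l i • p i
      map_add' := fun a b => by simp only [Pi.add_apply, add_smul, sum_add_distrib]
      map_smul' := fun a b => by
        simp only [Pi.smul_apply, smul_eq_mul, mul_smul, RingHom.id_apply, smul_sum] }
  have hPm : ∀ l, Pm l = ∑ i, l i • p i := fun _ => rfl
  -- a relation with two zeros is zero
  have hzero : ∀ l : Fin (n + 3) → K, Pm l = 0 → ∀ i j, i ≠ j → l i = 0 → l j = 0 → l = 0 := by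
    intro l hl i j hij hi hj
    have hcard : (univ \ {i, j} : Finset (Fin (n + 3))).card = n + 1 := by
      rw [card_sdiff_of_subset (subset_univ _), card_univ, Fintype.card_fin,
        card_pair hij]
      omega
    let e := (univ \ {i, j} : Finset (Fin (n + 3))).orderEmbOfFin hcard
    have h1 := hp e e.injective
    rw [Fintype.linearIndependent_iff] at h1
    have h2 : ∑ m, l (e m) • (p ∘ e) m = 0 := by
      rw [hPm] at hl
      rw [← hl]
      have h3 : ∑ m, l (e m) • (p ∘ e) m = ∑ m ∈ univ.image e, l m • p m := by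
        rw [sum_image (fun a _ b _ h => e.injective h)]
        rfl
      rw [h3]
      have h4 : univ.image e = (univ \ {i, j} : Finset (Fin (n + 3))) :=
        Finset.image_orderEmbOfFin_univ _ hcard
      rw [h4]
      apply sum_subset (subset_univ _)
      intro x _ hx
      rw [mem_sdiff, not_and, not_not] at hx
      have hx' := hx (mem_univ _)
      rw [mem_insert, mem_singleton] at hx'
      rcases hx' with rfl | rfl
      · rw [hi, zero_smul]
      · rw [hj, zero_smul]
    have h3 := h1 _ h2
    funext m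
    rw [Pi.zero_apply]
    by_cases hm : m = i ∨ m = j
    · rcases hm with rfl | rfl
      · exact hi
      · exact hj
    · have h4 : m ∈ (univ \ {i, j} : Finset (Fin (n + 3))) := by
        rw [mem_sdiff, mem_insert, mem_singleton]
        exact ⟨mem_univ _, hm⟩
      have h5 : m ∈ univ.image e := by
        rw [Finset.image_orderEmbOfFin_univ _ hcard]
        exact h4
      obtain ⟨a, -, ha⟩ := mem_image.mp h5
      rw [← ha]
      exact h3 a
  -- two independent relations
  have hker : 2 ≤ Module.finrank K (LinearMap.ker Pm) := by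
    have h1 := LinearMap.finrank_range_add_finrank_ker Pm
    have h2 : Module.finrank K (LinearMap.range Pm) ≤ n + 1 := by
      have := Submodule.finrank_le (LinearMap.range Pm)
      rwa [Module.finrank_fin_fun] at this
    rw [Module.finrank_fin_fun] at h1
    omega
  obtain ⟨f, hf⟩ := exists_linearIndependent_of_le_finrank hker
  have hfK : ∀ a, Pm (f a) = 0 := fun a => (f a).2
  have hfi : ∀ x y : K, x • (f 0 : Fin (n + 3) → K) + y • (f 1 : Fin (n + 3) → K) = 0 →
      x = 0 ∧ y = 0 := by
    intro x y hxy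
    rw [Fintype.linearIndependent_iff] at hf
    have h1 := hf ![x, y] (by
      rw [Fin.sum_univ_two]
      apply Subtype.ext
      simpa using hxy)
    exact ⟨h1 0, h1 1⟩
  -- both coordinates do not vanish simultaneously
  have hboth : ∀ i, ¬ ((f 0 : Fin (n + 3) → K) i = 0 ∧ (f 1 : Fin (n + 3) → K) i = 0) := by
    rintro i ⟨h0, h1⟩
    obtain ⟨j, hj⟩ : ∃ j : Fin (n + 3), j ≠ i := exists_ne i
    by_cases hj0 : (f 0 : Fin (n + 3) → K) j = 0
    · have h2 := hzero _ (hfK 0) i j hj.symm h0 hj0
      have h3 := hfi 1 0 (by rw [h2]; simp)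
      exact one_ne_zero h3.1
    · have h2 := hzero ((f 1 : Fin (n + 3) → K) j • (f 0 : Fin (n + 3) → K) -
        (f 0 : Fin (n + 3) → K) j • (f 1 : Fin (n + 3) → K)) (by
          rw [map_sub, map_smul, map_smul, hfK, hfK]; simp) i j hj.symm (by
          simp [h0, h1]) (by simp [mul_comm])
      have h3 := hfi ((f 1 : Fin (n + 3) → K) j) (-(f 0 : Fin (n + 3) → K) j) (by
        rw [neg_smul, ← sub_eq_add_neg]; exact h2)
      exact hj0 (neg_eq_zero.mp h3.2)
  obtain ⟨β, hβ⟩ : ∃ β : K, β ∉ (univ.image fun i : Fin (n + 3) =>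
      -(f 0 : Fin (n + 3) → K) i / (f 1 : Fin (n + 3) → K) i) := Infinite.exists_notMem_finset _
  set u : Fin (n + 3) → K := (f 0 : Fin (n + 3) → K) + β • (f 1 : Fin (n + 3) → K) with hu
  set v : Fin (n + 3) → K := (f 1 : Fin (n + 3) → K) with hv
  have hu0 : ∀ i, u i ≠ 0 := by
    intro i h0
    have h1 : (f 0 : Fin (n + 3) → K) i + β * v i = 0 := h0
    by_cases hvi : v i = 0
    · rw [hvi, mul_zero, add_zero] at h1
      exact hboth i ⟨h1, hvi⟩
    · apply hβ
      rw [mem_image]
      refine ⟨i, mem_univ _, ?_⟩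
      rw [div_eq_iff hvi]
      linear_combination -h1
  have huK : Pm u = 0 := by rw [hu, map_add, map_smul, hfK, hfK]; simp
  have hvK : Pm v = 0 := hfK 1
  have huv : ∀ x y : K, x • u + y • v = 0 → x = 0 ∧ y = 0 := by
    intro x y hxy
    have h1 := hfi x (x * β + y) (by
      rw [← hxy, hu, smul_add, smul_smul, add_smul, add_assoc])
    refine ⟨h1.1, ?_⟩
    have h2 := h1.2
    rw [h1.1, zero_mul, zero_add] at h2
    exact h2
  set t : Fin (n + 3) → K := fun i => v i / u i with ht
  have htv : ∀ i, t i * u i = v i := fun i => div_mul_cancel₀ _ (hu0 i)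
  have htinj : Function.Injective t := by
    intro i j hij
    by_contra hne
    have h1 := hzero (v - t i • u) (by rw [map_sub, map_smul, huK, hvK]; simp) i j hne (by
      rw [Pi.sub_apply, Pi.smul_apply, smul_eq_mul, htv, sub_self]) (by
      rw [Pi.sub_apply, Pi.smul_apply, smul_eq_mul, hij, htv, sub_self])
    have h2 := huv (-(t i)) 1 (by rw [neg_smul, one_smul, neg_add_eq_sub]; exact h1)
    exact one_ne_zero h2.2
  set w : Fin (n + 3) → K := fun i => (∏ j ∈ univ.erase i, (t i - t j))⁻¹ with hw
  have hw0 : ∀ i, w i ≠ 0 := by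
    intro i
    apply inv_ne_zero
    rw [prod_ne_zero_iff]
    intro j hj h0
    exact (ne_of_mem_erase hj) (htinj (sub_eq_zero.mp h0)).symm
  set c : Fin (n + 3) → K := fun i => w i / u i with hc
  have hcu : ∀ i, c i * u i = w i := fun i => div_mul_cancel₀ _ (hu0 i)
  have hc0 : ∀ i, c i ≠ 0 := fun i => div_ne_zero (hw0 i) (hu0 i)
  let Qm : (Fin (n + 3) → K) →ₗ[K] (Fin (n + 1) → K) :=
    { toFun := fun l => ∑ i, l i • (c i • nu n (t i))
      map_add' := fun a b => by simp only [Pi.add_apply, add_smul, sum_add_distrib]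
      map_smul' := fun a b => by
        simp only [Pi.smul_apply, smul_eq_mul, mul_smul, RingHom.id_apply, smul_sum] }
  have hQm : ∀ l, Qm l = ∑ i, l i • (c i • nu n (t i)) := fun _ => rfl
  have hQu : Qm u = 0 := by
    rw [hQm]
    funext b
    rw [Finset.sum_apply, Pi.zero_apply]
    have h1 := sum_weights (N := n + 1) t htinj b (by have := b.2; omega)
    rw [← h1]
    refine sum_congr rfl fun i _ => ?_
    simp only [Pi.smul_apply, smul_eq_mul, nu]
    rw [← mul_assoc, mul_comm (u i), hcu]
  have hQv : Qm v = 0 := by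
    rw [hQm]
    funext b
    rw [Finset.sum_apply, Pi.zero_apply]
    have h1 := sum_weights (N := n + 1) t htinj (b + 1) (by have := b.2; omega)
    rw [← h1]
    refine sum_congr rfl fun i _ => ?_
    simp only [Pi.smul_apply, smul_eq_mul, nu]
    rw [← htv i, pow_succ]
    have := hcu i
    calc t i * u i * (c i * t i ^ (b : ℕ)) = (c i * u i) * (t i ^ (b : ℕ) * t i) := by ring
      _ = w i * (t i ^ (b : ℕ) * t i) := by rw [this]
  -- the kernel is spanned by `u, v`
  have hkerle : ∀ l, Pm l = 0 → Qm l = 0 := by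
    intro l hl
    -- match the first two coordinates
    have h01 : (0 : Fin (n + 3)) ≠ 1 := by
      intro h
      have := congrArg Fin.val h
      simp at this
    set D := u 0 * v 1 - u 1 * v 0 with hD
    have hD0 : D ≠ 0 := by
      rw [hD, ← htv 0, ← htv 1]
      have h1 : u 0 * (t 1 * u 1) - u 1 * (t 0 * u 0) = (u 0 * u 1) * (t 1 - t 0) := by ring
      rw [h1]
      refine mul_ne_zero (mul_ne_zero (hu0 0) (hu0 1)) ?_
      intro h2
      exact h01 (htinj (sub_eq_zero.mp h2)).symm
    have h1 := hzero (D • l - ((l 0 * v 1 - l 1 * v 0) • u + (u 0 * l 1 - u 1 * l 0) • v)) (by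
      rw [map_sub, map_add, map_smul, map_smul, map_smul, hl, huK, hvK]; simp) 0 1 h01 (by
      simp only [Pi.sub_apply, Pi.smul_apply, Pi.add_apply, smul_eq_mul, hD]; ring) (by
      simp only [Pi.sub_apply, Pi.smul_apply, Pi.add_apply, smul_eq_mul, hD]; ring)
    have h2 := congrArg Qm (sub_eq_zero.mp h1)
    rw [map_smul, map_add, map_smul, map_smul, hQu, hQv, smul_zero, smul_zero, add_zero] at h2
    exact (smul_eq_zero.mp h2).resolve_left hD0
  -- `Pm` and `Qm` are surjective
  let ι : Fin (n + 1) → Fin (n + 3) := fun i => ⟨i, by have := i.2; omega⟩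
  have hι : Function.Injective ι := fun i j h => by
    apply Fin.ext
    have := congrArg Fin.val h
    simpa [ι] using this
  have hsurjP : Function.Surjective Pm := by
    rw [← LinearMap.range_eq_top, eq_top_iff,
      ← (hp ι hι).span_eq_top_of_card_eq_finrank (by simp), Submodule.span_le]
    rintro _ ⟨i, rfl⟩
    refine ⟨Pi.single (ι i) 1, ?_⟩
    rw [hPm, sum_eq_single (ι i)]
    · simp
    · intro j _ hj
      rw [Pi.single_eq_of_ne hj, zero_smul]
    · intro h
      exact absurd (mem_univ _) h
  have hsurjQ : Function.Surjective Qm := by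
    rw [← LinearMap.range_eq_top, eq_top_iff,
      ← (nu_indep n (t ∘ ι) (htinj.comp hι)).span_eq_top_of_card_eq_finrank (by simp),
      Submodule.span_le]
    rintro _ ⟨i, rfl⟩
    refine ⟨Pi.single (ι i) (c (ι i))⁻¹, ?_⟩
    rw [hQm, sum_eq_single (ι i)]
    · rw [Pi.single_eq_same, smul_smul, inv_mul_cancel₀ (hc0 _), one_smul]
      rfl
    · intro j _ hj
      rw [Pi.single_eq_of_ne hj, zero_smul]
    · intro h
      exact absurd (mem_univ _) h
  obtain ⟨S, hS⟩ := Pm.exists_rightInverse_of_surjective (LinearMap.range_eq_top.mpr hsurjP)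
  have hTP : ∀ l, Qm (S (Pm l)) = Qm l := by
    intro l
    have h1 : Pm (S (Pm l) - l) = 0 := by
      rw [map_sub, ← LinearMap.comp_apply, hS, LinearMap.id_apply, sub_self]
    have h2 := hkerle _ h1
    rw [map_sub, sub_eq_zero] at h2
    exact h2
  have hTsurj : Function.Surjective (Qm ∘ₗ S) := by
    intro y
    obtain ⟨l, rfl⟩ := hsurjQ y
    exact ⟨Pm l, hTP l⟩
  have hTinj : Function.Injective (Qm ∘ₗ S) := LinearMap.injective_iff_surjective.mpr hTsurj
  refine ⟨t, c, LinearEquiv.ofBijective (Qm ∘ₗ S) ⟨hTinj, hTsurj⟩, htinj, hc0, fun i => ?_⟩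
  show Qm (S (p i)) = _
  have h1 : p i = Pm (Pi.single i 1) := by
    rw [hPm, sum_eq_single i]
    · simp
    · intro j _ hj
      rw [Pi.single_eq_of_ne hj, zero_smul]
    · intro h
      exact absurd (mem_univ _) h
  rw [h1, hTP, hQm, sum_eq_single i]
  · simp
  · intro j _ hj
    rw [Pi.single_eq_of_ne hj, zero_smul]
  · intro h
    exact absurd (mem_univ _) h

end Q34.Rnc
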