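import Pool.Agent.Q34.RncA

/-! Cones over secant varieties of rational normal curves: determinantal hypersurfaces. -/

set_option autoImplicit false
open Finset MvPolynomial

namespace Q34.Rnc

variable {K : Type*} [Field K]

/-- a determinant with many rows in an ideal -/
theorem det_mem_pow {R : Type*} [CommRing R] {m : ℕ} (M : Matrix (Fin m) (Fin m) R) (I : Ideal R)
    (A : Finset (Fin m)) (h : ∀ a ∈ A, ∀ b, M a b ∈ I) : M.det ∈ I ^ A.card := by
  classical
  rw [← Matrix.det_transpose, Matrix.det_apply']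
  refine Ideal.sum_mem _ fun σ _ => Ideal.mul_mem_left _ _ ?_
  have h1 : ∏ i, M.transpose (σ i) i = (∏ i ∈ A, M i (σ i)) * ∏ i ∈ univ \ A, M i (σ i) := by
    rw [mul_comm, prod_sdiff (subset_univ A)]
    rfl
  rw [h1]
  apply Ideal.mul_mem_right
  have h2 := Ideal.prod_mem_prod (s := A) (I := fun _ => I) (x := fun i => M i (σ i))
    (fun i hi => h i hi _)
  rwa [prod_const] at h2

section

variable {n : ℕ} (T : (Fin (n + 1) → K) ≃ₗ[K] (Fin (n + 1) → K))

/-- the coordinates with respect to the curve -/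
noncomputable def Lam (b : Fin (n + 1)) : MvPolynomial (Fin (n + 1)) K :=
  ∑ i, C (T (Pi.single i 1) b) * X i

theorem Lam_hom (b : Fin (n + 1)) : (Lam T b).IsHomogeneous 1 :=
  IsHomogeneous.sum _ _ _ fun _ _ => isHomogeneous_C_mul_X _ _

theorem eval_Lam (b : Fin (n + 1)) (x : Fin (n + 1) → K) : eval x (Lam T b) = T x b := by
  rw [Lam, map_sum]
  simp only [map_mul, eval_C, eval_X]
  conv_rhs => rw [pi_eq_sum_univ' x, map_sum, Finset.sum_apply]
  refine sum_congr rfl fun i _ => ?_
  rw [map_smul, Pi.smul_apply, smul_eq_mul, mul_comm]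

/-- the linear form attached to a polynomial of degree at most `n` -/
noncomputable def ellq (q : Polynomial K) : MvPolynomial (Fin (n + 1)) K :=
  ∑ b : Fin (n + 1), C (q.coeff b) * Lam T b

theorem ellq_hom (q : Polynomial K) : (ellq T q).IsHomogeneous 1 :=
  IsHomogeneous.sum _ _ _ fun b _ => (Lam_hom T b).C_mul _

theorem eval_ellq (q : Polynomial K) (x : Fin (n + 1) → K) :
    eval x (ellq T q) = ∑ b : Fin (n + 1), q.coeff b * T x b := by
  rw [ellq, map_sum]
  refine sum_congr rfl fun b _ => ?_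
  rw [map_mul, eval_C, eval_Lam]

theorem sum_coeff (q : Polynomial K) (hq : q.natDegree ≤ n) (s : K) :
    ∑ b : Fin (n + 1), q.coeff b * nu n s b = q.eval s := by
  rw [Polynomial.eval_eq_sum_range' (Nat.lt_succ_of_le hq),
    ← Fin.sum_univ_eq_sum_range (fun i => q.coeff i * s ^ i)]
  rfl

variable (t c : Fin (n + 3) → K) (p : Fin (n + 3) → Fin (n + 1) → K)

theorem eval_ellq_point (hT : ∀ i, T (p i) = c i • nu n (t i)) (q : Polynomial K)
    (hq : q.natDegree ≤ n) (i : Fin (n + 3)) : eval (p i) (ellq T q) = c i * q.eval (t i) := by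
  rw [eval_ellq, hT, ← sum_coeff q hq, mul_sum]
  refine sum_congr rfl fun b _ => ?_
  rw [Pi.smul_apply, smul_eq_mul]
  ring

/-- the polynomial vanishing at the parameters off `S` -/
noncomputable def gS (S : Finset (Fin (n + 3))) : Polynomial K :=
  ∏ i ∈ univ \ S, (Polynomial.X - Polynomial.C (t i))

theorem gS_natDegree (S : Finset (Fin (n + 3))) : (gS t S).natDegree = n + 3 - S.card := by
  rw [gS, Polynomial.natDegree_prod_of_monic _ _ fun i _ => Polynomial.monic_X_sub_C _]
  simp only [Polynomial.natDegree_X_sub_C, sum_const, smul_eq_mul, mul_one]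
  rw [card_sdiff_of_subset (subset_univ _), card_univ, Fintype.card_fin]

theorem gS_ne (S : Finset (Fin (n + 3))) : gS t S ≠ 0 :=
  prod_ne_zero_iff.mpr fun _ _ => Polynomial.X_sub_C_ne_zero _

theorem gS_zero (S : Finset (Fin (n + 3))) (i : Fin (n + 3)) (hi : i ∉ S) :
    (gS t S).eval (t i) = 0 := by
  rw [gS, Polynomial.eval_prod]
  refine prod_eq_zero (mem_sdiff.mpr ⟨mem_univ i, hi⟩) ?_
  simp

/-- the Hankel type matrix -/
noncomputable def HS (S : Finset (Fin (n + 3))) (m : ℕ) :
    Matrix (Fin m) (Fin m) (MvPolynomial (Fin (n + 1)) K) :=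
  fun a b => ellq T (gS t S * Polynomial.X ^ ((a : ℕ) + b))

theorem entry_deg (S : Finset (Fin (n + 3))) (m : ℕ) (hS : S.card = 2 * m + 1) (a b : Fin m) :
    (gS t S * Polynomial.X ^ ((a : ℕ) + b)).natDegree ≤ n := by
  have h1 : S.card ≤ n + 3 := by simpa using card_le_univ S
  rw [Polynomial.natDegree_mul (gS_ne t S) (pow_ne_zero _ Polynomial.X_ne_zero), gS_natDegree,
    Polynomial.natDegree_X_pow]
  have := a.2
  have := b.2
  omega

theorem eval_HS (hT : ∀ i, T (p i) = c i • nu n (t i)) (S : Finset (Fin (n + 3))) (m : ℕ)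
    (hS : S.card = 2 * m + 1) (a b : Fin m) (i : Fin (n + 3)) :
    eval (p i) (HS T t S m a b) = c i * ((gS t S).eval (t i) * t i ^ ((a : ℕ) + b)) := by
  rw [HS, eval_ellq_point T t c p hT _ (entry_deg t S m hS a b), Polynomial.eval_mul,
    Polynomial.eval_pow, Polynomial.eval_X]

theorem det_hom {N m : ℕ} (M : Matrix (Fin m) (Fin m) (MvPolynomial (Fin N) K))
    (h : ∀ a b, (M a b).IsHomogeneous 1) : M.det.IsHomogeneous m := by
  rw [Matrix.det_apply']
  apply IsHomogeneous.sum
  intro σ _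
  have h1 : (∏ i, M (σ i) i).IsHomogeneous (∑ _i : Fin m, 1) :=
    IsHomogeneous.prod _ _ _ fun i _ => h _ _
  rw [sum_const, card_univ, Fintype.card_fin, smul_eq_mul, mul_one] at h1
  have h2 : (((Equiv.Perm.sign σ : ℤ) : MvPolynomial (Fin N) K)) =
      C ((Equiv.Perm.sign σ : ℤ) : K) := by
    rw [map_intCast]
  rw [h2]
  exact h1.C_mul _

theorem DS_hom (S : Finset (Fin (n + 3))) (m : ℕ) : (HS T t S m).det.IsHomogeneous m :=
  det_hom _ fun _ _ => ellq_hom _ _

theorem DS_off (hT : ∀ i, T (p i) = c i • nu n (t i)) (S : Finset (Fin (n + 3))) (m : ℕ)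
    (hS : S.card = 2 * m + 1) (i : Fin (n + 3)) (hi : i ∉ S)
    (J : Ideal (MvPolynomial (Fin (n + 1)) K))
    (hJ : ∀ L : MvPolynomial (Fin (n + 1)) K, L.IsHomogeneous 1 → eval (p i) L = 0 → L ∈ J) :
    (HS T t S m).det ∈ J ^ m := by
  have h1 := det_mem_pow (HS T t S m) J univ fun a _ b => hJ _ (ellq_hom _ _) (by
    rw [eval_HS T t c p hT S m hS, gS_zero t S i hi, zero_mul, mul_zero])
  rwa [card_univ, Fintype.card_fin] at h1

theorem DS_on (hT : ∀ i, T (p i) = c i • nu n (t i)) (S : Finset (Fin (n + 3))) (m : ℕ)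
    (hS : S.card = 2 * m + 1) (i : Fin (n + 3))
    (J : Ideal (MvPolynomial (Fin (n + 1)) K))
    (hJ : ∀ L : MvPolynomial (Fin (n + 1)) K, L.IsHomogeneous 1 → eval (p i) L = 0 → L ∈ J) :
    (HS T t S m).det ∈ J ^ (m - 1) := by
  classical
  rcases Nat.eq_zero_or_pos m with rfl | hm
  · simp
  obtain ⟨m, rfl⟩ : ∃ m', m = m' + 1 := ⟨m - 1, by omega⟩
  set H := HS T t S (m + 1) with hH
  let B : Matrix (Fin (m + 1)) (Fin (m + 1)) (MvPolynomial (Fin (n + 1)) K) := fun a b =>
    if a = 0 then H 0 b else H a b - C (t i ^ (a : ℕ)) * H 0 b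
  have hdet : H.det = B.det := by
    apply Matrix.det_eq_of_forall_row_eq_smul_add_const
      (fun a : Fin (m + 1) => if a = 0 then (0 : MvPolynomial (Fin (n + 1)) K)
        else C (t i ^ (a : ℕ))) 0 (by simp)
    intro a b
    by_cases ha : a = 0
    · subst ha
      simp [B]
    · simp only [B, if_neg ha, if_pos]
      ring
  rw [hdet]
  have h1 := det_mem_pow B J (univ.erase 0) (by
    intro a ha b
    have ha0 : a ≠ 0 := ne_of_mem_erase ha
    have hB : B a b = H a b - C (t i ^ (a : ℕ)) * H 0 b := by simp [B, ha0]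
    rw [hB]
    apply hJ
    · exact (ellq_hom _ _).sub ((ellq_hom _ _).C_mul _)
    · rw [map_sub, map_mul, eval_C, hH, eval_HS T t c p hT S _ hS, eval_HS T t c p hT S _ hS]
      simp only [Fin.val_zero, zero_add]
      rw [pow_add]
      ring)
  rwa [card_erase_of_mem (mem_univ _), card_univ, Fintype.card_fin] at h1

theorem DS_ne [Infinite K] (S : Finset (Fin (n + 3))) (m : ℕ) (hS : S.card = 2 * m + 1) :
    (HS T t S m).det ≠ 0 := by
  classical
  -- `m` distinct parameters which are not roots of `g`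
  obtain ⟨s, hs, hg⟩ : ∃ s : Fin m → K, Function.Injective s ∧ ∀ l, (gS t S).eval (s l) ≠ 0 := by
    have hinf : ({x : K | (gS t S).eval x ≠ 0}).Infinite := by
      have h1 : ({x : K | (gS t S).eval x ≠ 0}) = ((gS t S).roots.toFinset : Set K)ᶜ := by
        ext x
        simp [gS_ne t S]
      rw [h1]
      exact (Finset.finite_toSet _).infinite_compl
    let e := hinf.natEmbedding
    refine ⟨fun l => (e l : K), ?_, fun l => (e l).2⟩
    intro a b hab
    have := e.injective (Subtype.ext hab)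
    exact Fin.ext this
  intro h0
  let x : Fin (n + 1) → K := T.symm (∑ l, nu n (s l))
  have hx : ∀ q : Polynomial K, q.natDegree ≤ n → eval x (ellq T q) = ∑ l, q.eval (s l) := by
    intro q hq
    rw [eval_ellq]
    simp only [x, LinearEquiv.apply_symm_apply, Finset.sum_apply, mul_sum]
    rw [sum_comm]
    exact sum_congr rfl fun l _ => sum_coeff q hq (s l)
  have h1 : eval x (HS T t S m).det = (Matrix.of fun a b : Fin m =>
      ∑ l, (gS t S).eval (s l) * s l ^ ((a : ℕ) + b)).det := by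
    rw [RingHom.map_det]
    congr 1
    ext a b
    rw [RingHom.mapMatrix_apply, Matrix.map_apply, Matrix.of_apply, HS,
      hx _ (entry_deg t S m hS a b)]
    refine sum_congr rfl fun l _ => ?_
    rw [Polynomial.eval_mul, Polynomial.eval_pow, Polynomial.eval_X]
  have h2 : (Matrix.of fun a b : Fin m => ∑ l, (gS t S).eval (s l) * s l ^ ((a : ℕ) + b)) =
      (Matrix.vandermonde s).transpose * Matrix.diagonal (fun l => (gS t S).eval (s l)) *
        Matrix.vandermonde s := by
    ext a b
    rw [Matrix.of_apply, Matrix.mul_apply]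
    refine sum_congr rfl fun l _ => ?_
    rw [Matrix.mul_diagonal, Matrix.transpose_apply, Matrix.vandermonde_apply,
      Matrix.vandermonde_apply, pow_add]
    ring
  rw [h0, map_zero, h2, Matrix.det_mul, Matrix.det_mul, Matrix.det_transpose,
    Matrix.det_diagonal] at h1
  have h3 : (Matrix.vandermonde s).det ≠ 0 := Matrix.det_vandermonde_ne_zero_iff.mpr hs
  exact (mul_ne_zero (mul_ne_zero h3 (prod_ne_zero_iff.mpr fun l _ => hg l)) h3) h1.symm

end

end Q34.Rnc
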