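import Pool.Agent.Q34.RncB

/-! Products of determinantal hypersurfaces with the required multiplicities. -/

set_option autoImplicit false
open Finset MvPolynomial

namespace Q34.Rnc

variable {K : Type*} [Field K]

theorem sum_min (j d s : ℕ) : ∑ i ∈ range s, min j (d - j * i) = min (j * s) d := by
  induction s with
  | zero => simp
  | succ s ih =>
    rw [sum_range_succ, ih, Nat.mul_succ]
    omega

/-- residues of a short interval are distinct -/
theorem card_image_mod {N : ℕ} (hN : 0 < N) (a l : ℕ) (hl : l ≤ N) :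
    ((Ico a (a + l)).image fun q => (⟨q % N, Nat.mod_lt _ hN⟩ : Fin N)).card = l := by
  rw [card_image_of_injOn]
  · simp
  · intro x hx y hy hxy
    have h1 : x % N = y % N := congrArg Fin.val hxy
    rw [Finset.coe_Ico, Set.mem_Ico] at hx hy
    have h2 := Nat.div_add_mod x N
    have h3 := Nat.div_add_mod y N
    rcases lt_trichotomy (x / N) (y / N) with h | h | h
    · exfalso
      have : N * (x / N + 1) ≤ N * (y / N) := Nat.mul_le_mul_left _ h
      rw [Nat.mul_add, mul_one] at this
      omega
    · rw [← h2, ← h3, h1, h]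
    · exfalso
      have : N * (y / N + 1) ≤ N * (x / N) := Nat.mul_le_mul_left _ h
      rw [Nat.mul_add, mul_one] at this
      omega

/-- **the upper bound** -/
theorem exists_form [Infinite K] {n j : ℕ} (hj : 1 ≤ j) (hn : n + 1 = 2 * j)
    (T : (Fin (n + 1) → K) ≃ₗ[K] (Fin (n + 1) → K)) (t c : Fin (n + 3) → K)
    (p : Fin (n + 3) → Fin (n + 1) → K) (hT : ∀ i, T (p i) = c i • nu n (t i)) (k d : ℕ)
    (hkd : j * (n + 3) * k + d ≤ 2 * j ^ 2 * d) :
    ∃ F : MvPolynomial (Fin (n + 1)) K, F ≠ 0 ∧ F.IsHomogeneous d ∧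
      ∀ (i : Fin (n + 3)) (J : Ideal (MvPolynomial (Fin (n + 1)) K)),
        (∀ L : MvPolynomial (Fin (n + 1)) K, L.IsHomogeneous 1 → eval (p i) L = 0 → L ∈ J) →
        F ∈ J ^ k := by
  classical
  obtain ⟨r, hjr1, hjr2⟩ : ∃ r, j * r ≤ d + j - 1 ∧ d + j - 1 < j * r + j := by
    refine ⟨(d + j - 1) / j, Nat.mul_div_le _ _, ?_⟩
    have := Nat.lt_mul_div_succ (d + j - 1) (by omega : 0 < j)
    rw [mul_add, mul_one] at this
    exact this
  have hjr3 : d ≤ j * r := by omega
  -- the total length
  have hlen : 2 * d + r + (n + 3) * k ≤ (n + 3) * d := by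
    by_contra hcon
    push Not at hcon
    have h1 : j * ((n + 3) * d + 1) ≤ j * (2 * d + r + (n + 3) * k) := Nat.mul_le_mul_left _ hcon
    have e1 : j * ((n + 3) * d + 1) = 2 * j ^ 2 * d + 2 * j * d + j := by
      rw [show n + 3 = 2 * j + 2 by omega]; ring
    have e2 : j * (2 * d + r + (n + 3) * k) = 2 * j * d + j * r + j * (n + 3) * k := by ring
    rw [e1, e2] at h1
    omega
  have hkd' : k ≤ d := by
    by_contra hcon
    push Not at hcon
    have h1 : (n + 3) * d < (n + 3) * k := (Nat.mul_lt_mul_left (Nat.succ_pos _)).mpr hcon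
    omega
  have hlen' : 2 * d + r ≤ (n + 3) * (d - k) := by
    rw [Nat.mul_sub]
    omega
  -- the blocks
  let m : ℕ → ℕ := fun i => min j (d - j * i)
  have hmj : ∀ i, m i ≤ j := fun i => min_le_left _ _
  let N := n + 3
  have hN : 0 < N := Nat.succ_pos _
  let B : ℕ → Finset ℕ := fun i => Ico ((2 * j + 1) * i) ((2 * j + 1) * i + (2 * m i + 1))
  let S : ℕ → Finset (Fin N) := fun i => (B i).image fun q => (⟨q % N, Nat.mod_lt _ hN⟩ : Fin N)
  have hScard : ∀ i, (S i).card = 2 * m i + 1 := by
    intro i
    apply card_image_mod hN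
    have := hmj i
    show 2 * m i + 1 ≤ n + 3
    omega
  have hBT : ∀ i, i < r → ∀ q ∈ B i, q < 2 * d + r := by
    intro i hi q hq
    rw [mem_Ico] at hq
    have h1 : m i ≤ d - j * i := min_le_right _ _
    have h2 : j * i < d := by
      have : j * (i + 1) ≤ j * r := Nat.mul_le_mul_left _ hi
      rw [mul_add, mul_one] at this
      omega
    have e1 : (2 * j + 1) * i = 2 * (j * i) + i := by ring
    rw [e1] at hq
    omega
  have hsum : ∑ i ∈ range r, m i = d := by
    rw [show (∑ i ∈ range r, m i) = ∑ i ∈ range r, min j (d - j * i) from rfl, sum_min]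
    omega
  refine ⟨∏ i ∈ range r, (HS T t (S i) (m i)).det, ?_, ?_, ?_⟩
  · exact prod_ne_zero_iff.mpr fun i _ => DS_ne T t (S i) (m i) (hScard i)
  · have h1 := IsHomogeneous.prod (range r) (fun i => (HS T t (S i) (m i)).det) m
      (fun i _ => DS_hom T t (S i) (m i))
    rwa [hsum] at h1
  · intro x J hJ
    have h1 : ∀ i, (HS T t (S i) (m i)).det ∈ J ^ (m i - if x ∈ S i then 1 else 0) := by
      intro i
      by_cases hx : x ∈ S i
      · rw [if_pos hx]
        exact DS_on T t c p hT (S i) (m i) (hScard i) x J hJ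
      · rw [if_neg hx, Nat.sub_zero]
        exact DS_off T t c p hT (S i) (m i) (hScard i) x hx J hJ
    have h2 := Ideal.prod_mem_prod (s := range r)
      (I := fun i => J ^ (m i - if x ∈ S i then 1 else 0))
      (x := fun i => (HS T t (S i) (m i)).det) (fun i _ => h1 i)
    rw [prod_pow_eq_pow_sum] at h2
    refine Ideal.pow_le_pow_right ?_ h2
    -- count the blocks which contain `x`
    have hcount : ((range r).filter fun i => x ∈ S i).card ≤ d - k := by
      have hq : ∀ i ∈ (range r).filter (fun i => x ∈ S i), ∃ q, q ∈ B i ∧ q % N = x := by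
        intro i hi
        have h3 := (mem_filter.mp hi).2
        obtain ⟨q, hq, hqx⟩ := mem_image.mp h3
        exact ⟨q, hq, congrArg Fin.val hqx⟩
      choose! q hqB hqx using hq
      rw [← card_range (d - k)]
      apply card_le_card_of_injOn (fun i => q i / N)
      · intro i hi
        have hi' : i ∈ (range r).filter (fun i => x ∈ S i) := hi
        rw [Finset.coe_range, Set.mem_Iio]
        have h3 := hBT i (mem_range.mp (mem_filter.mp hi').1) _ (hqB i hi')
        rw [Nat.div_lt_iff_lt_mul hN, mul_comm]
        exact lt_of_lt_of_le h3 hlen'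
      · intro a ha b hb hab
        have ha' : a ∈ (range r).filter (fun i => x ∈ S i) := ha
        have hb' : b ∈ (range r).filter (fun i => x ∈ S i) := hb
        have h3 : q a = q b := by
          rw [← Nat.div_add_mod (q a) N, ← Nat.div_add_mod (q b) N, hqx a ha', hqx b hb']
          have : q a / N = q b / N := hab
          rw [this]
        have h4 := hqB a ha'
        have h5 := hqB b hb'
        rw [← h3] at h5
        rw [mem_Ico] at h4 h5
        have h6 := hmj a
        have h7 := hmj b
        rcases lt_trichotomy a b with h | h | h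
        · exfalso
          have : (2 * j + 1) * (a + 1) ≤ (2 * j + 1) * b := Nat.mul_le_mul_left _ h
          rw [Nat.mul_add (2 * j + 1) a 1, mul_one] at this
          omega
        · exact h
        · exfalso
          have : (2 * j + 1) * (b + 1) ≤ (2 * j + 1) * a := Nat.mul_le_mul_left _ h
          rw [Nat.mul_add (2 * j + 1) b 1, mul_one] at this
          omega
    have h3 : ∑ i ∈ range r, m i ≤ ∑ i ∈ range r, (m i - if x ∈ S i then 1 else 0) +
        ((range r).filter fun i => x ∈ S i).card := by
      rw [card_filter, ← sum_add_distrib]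
      apply sum_le_sum
      intro i _
      by_cases hx : x ∈ S i <;> simp [hx] <;> omega
    rw [hsum] at h3
    omega

end Q34.Rnc
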