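import Mathlib

/-! Iterated partial derivatives along a curve. -/

set_option autoImplicit false
open Finset MvPolynomial

namespace Q34.Rnc

variable {K : Type*} [Field K] {ι : Type*}

/-- iterated partial derivatives -/
noncomputable def dl (l : List ι) (F : MvPolynomial ι K) : MvPolynomial ι K :=
  l.foldr (fun i G => pderiv i G) F

theorem dl_nil (F : MvPolynomial ι K) : dl [] F = F := rfl

theorem dl_cons (i : ι) (l : List ι) (F : MvPolynomial ι K) :
    dl (i :: l) F = pderiv i (dl l F) := rfl

theorem pderiv_comm' (i j : ι) (F : MvPolynomial ι K) :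
    pderiv i (pderiv j F) = pderiv j (pderiv i F) := by
  classical
  ext m
  simp only [coeff_pderiv]
  by_cases h : i = j
  · rw [h]
  · have e1 : (m + Finsupp.single i 1) + Finsupp.single j 1 =
      (m + Finsupp.single j 1) + Finsupp.single i 1 := by abel
    rw [e1]
    simp only [Finsupp.add_apply, Finsupp.single_eq_of_ne h,
      Finsupp.single_eq_of_ne (Ne.symm h), add_zero]
    ring

theorem dl_perm {l l' : List ι} (h : l.Perm l') (F : MvPolynomial ι K) : dl l F = dl l' F := by
  induction h with
  | nil => rfl
  | cons x _ ih => rw [dl_cons, dl_cons, ih]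
  | swap x y l => rw [dl_cons, dl_cons, dl_cons, dl_cons, pderiv_comm']
  | trans _ _ ih1 ih2 => rw [ih1, ih2]

theorem dl_append (l l' : List ι) (F : MvPolynomial ι K) : dl (l ++ l') F = dl l (dl l' F) := by
  rw [dl, List.foldr_append]; rfl

theorem dl_hom {d : ℕ} (l : List ι) (F : MvPolynomial ι K) (hF : F.IsHomogeneous d) :
    (dl l F).IsHomogeneous (d - l.length) := by
  induction l with
  | nil => exact hF
  | cons i l ih =>
    have := ih.pderiv (i := i)
    rw [dl_cons, List.length_cons, ← Nat.sub_sub]
    exact this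

/-- derivations lower the order by at most one -/
theorem pderiv_mem_pow (i : ι) (I : Ideal (MvPolynomial ι K)) (k : ℕ) (F : MvPolynomial ι K)
    (hF : F ∈ I ^ (k + 1)) : pderiv i F ∈ I ^ k := by
  induction k generalizing F with
  | zero => rw [pow_zero, Ideal.one_eq_top]; exact Submodule.mem_top
  | succ k ih =>
    rw [pow_succ] at hF
    refine Submodule.mul_induction_on hF ?_ ?_
    · intro a ha b hb
      rw [Derivation.leibniz, smul_eq_mul, smul_eq_mul]
      refine Ideal.add_mem _ (Ideal.mul_mem_right _ _ ha) ?_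
      rw [mul_comm, pow_succ]
      exact Ideal.mul_mem_mul (ih a ha) hb
    · intro a b ha hb
      rw [map_add]
      exact Ideal.add_mem _ ha hb

theorem dl_mem_pow (I : Ideal (MvPolynomial ι K)) (k : ℕ) (F : MvPolynomial ι K)
    (hF : F ∈ I ^ k) (l : List ι) : dl l F ∈ I ^ (k - l.length) := by
  induction l with
  | nil => exact hF
  | cons i l ih =>
    rw [dl_cons, List.length_cons, ← Nat.sub_sub]
    rcases Nat.eq_zero_or_pos (k - l.length) with h | h
    · rw [h, Nat.zero_sub, pow_zero, Ideal.one_eq_top]; exact Submodule.mem_top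
    · apply pderiv_mem_pow
      rwa [Nat.sub_add_cancel h]

section char0

variable [CharZero K] [Fintype ι]

theorem exists_pderiv_ne {d : ℕ} (F : MvPolynomial ι K) (hF : F.IsHomogeneous (d + 1))
    (h0 : F ≠ 0) : ∃ i, pderiv i F ≠ 0 := by
  by_contra hcon
  push Not at hcon
  have h1 := hF.sum_X_mul_pderiv
  simp only [hcon, mul_zero, sum_const_zero] at h1
  rw [eq_comm, smul_eq_zero] at h1
  rcases h1 with h1 | h1
  · exact Nat.succ_ne_zero d h1
  · exact h0 h1

theorem exists_dl_ne {d : ℕ} (F : MvPolynomial ι K) (hF : F.IsHomogeneous d)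
    (h0 : F ≠ 0) : ∃ l : List ι, l.length = d ∧ ∃ c : K, c ≠ 0 ∧ dl l F = C c := by
  induction d generalizing F with
  | zero =>
    refine ⟨[], rfl, ?_⟩
    rw [dl_nil]
    have h1 : F.totalDegree = 0 := by
      rw [totalDegree_zero_iff_isHomogeneous]
      exact hF
    rw [totalDegree_eq_zero_iff_eq_C] at h1
    refine ⟨coeff 0 F, ?_, h1⟩
    intro h2
    rw [h2, C_0] at h1
    exact h0 h1
  | succ d ih =>
    obtain ⟨i, hi⟩ := exists_pderiv_ne F hF h0
    obtain ⟨l, hl, c, hc, hlc⟩ := ih (pderiv i F) hF.pderiv hi
    refine ⟨l ++ [i], by rw [List.length_append, hl]; rfl, c, hc, ?_⟩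
    rw [dl_append]
    exact hlc

end char0

/-- the chain rule -/
theorem chain [Fintype ι] (L : ι → Polynomial K) (G : MvPolynomial ι K) :
    Polynomial.derivative (aeval L G) =
      ∑ i, Polynomial.derivative (L i) * aeval L (pderiv i G) := by
  classical
  induction G using MvPolynomial.induction_on with
  | C a =>
    simp only [algHom_C, Polynomial.algebraMap_eq, Polynomial.derivative_C, pderiv_C, map_zero,
      mul_zero, sum_const_zero]
  | add p q hp hq =>
    simp only [map_add, mul_add, sum_add_distrib, hp, hq]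
  | mul_X p i hp =>
    rw [map_mul, aeval_X, Polynomial.derivative_mul, hp]
    simp only [pderiv_mul, map_add, map_mul, aeval_X, pderiv_X, mul_add, sum_add_distrib]
    congr 1
    · rw [sum_mul]
      exact sum_congr rfl fun j _ => by ring
    · rw [sum_eq_single i]
      · simp [Pi.single_eq_same, mul_comm]
      · intro j _ hj
        rw [Pi.single_eq_of_ne hj.symm, map_zero, mul_zero, mul_zero]
      · intro h
        exact absurd (mem_univ _) h

end Q34.Rnc
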