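import Pool.Agent.Q34.RncD

/-! Multiplicity along a rational normal curve. -/

set_option autoImplicit false
open Finset MvPolynomial

namespace Q34.Rnc

variable {K : Type*} [Field K] {n : ℕ}

/-- the coordinates of the curve -/
noncomputable def Lc (a : Fin (n + 1) → K) (m : Fin (n + 1)) : Polynomial K :=
  ∏ l ∈ univ.erase m, (Polynomial.X - Polynomial.C (a l))

theorem Lc_natDegree (a : Fin (n + 1) → K) (m : Fin (n + 1)) : (Lc a m).natDegree = n := by
  rw [Lc, Polynomial.natDegree_prod_of_monic _ _ fun i _ => Polynomial.monic_X_sub_C _]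
  simp

theorem Lc_self (a : Fin (n + 1) → K) (ha : Function.Injective a) (m : Fin (n + 1)) :
    (Lc a m).eval (a m) ≠ 0 := by
  rw [Lc, Polynomial.eval_prod, prod_ne_zero_iff]
  intro l hl
  rw [Polynomial.eval_sub, Polynomial.eval_X, Polynomial.eval_C, sub_ne_zero]
  exact fun h => (ne_of_mem_erase hl) (ha h).symm

theorem Lc_dvd (a : Fin (n + 1) → K) (m l : Fin (n + 1)) (h : l ≠ m) :
    (Polynomial.X - Polynomial.C (a m)) ∣ Lc a l :=
  dvd_prod_of_mem _ (mem_erase.mpr ⟨h.symm, mem_univ _⟩)

theorem Lc_other (a : Fin (n + 1) → K) (m l : Fin (n + 1)) (h : l ≠ m) :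
    (Lc a l).eval (a m) = 0 := by
  obtain ⟨q, hq⟩ := Lc_dvd a m l h
  rw [hq, Polynomial.eval_mul]
  simp

/-- degree bound for the composition with the curve -/
theorem natDegree_aeval_le {ι : Type*} [Fintype ι] (L : ι → Polynomial K) (e : ℕ)
    (hL : ∀ i, (L i).natDegree ≤ e)
    {d : ℕ} (F : MvPolynomial ι K) (hF : F.IsHomogeneous d) :
    (aeval L F).natDegree ≤ e * d := by
  rw [aeval_def, eval₂_eq']
  apply Polynomial.natDegree_sum_le_of_forall_le
  intro s hs
  refine (Polynomial.natDegree_C_mul_le _ _).trans ?_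
  refine (Polynomial.natDegree_prod_le _ _).trans ?_
  have h1 : ∑ i, s i = d := by
    have := hF (mem_support_iff.mp hs)
    rw [← this, Finsupp.weight_apply, Finsupp.sum_fintype]
    · simp
    · simp
  rw [← h1, mul_sum]
  apply sum_le_sum
  intro i _
  refine Polynomial.natDegree_pow_le.trans ?_
  rw [mul_comm]
  exact Nat.mul_le_mul_right _ (hL i)

theorem eval_aeval {ι : Type*} (L : ι → Polynomial K) (t : K) (G : MvPolynomial ι K) :
    Polynomial.eval t (aeval L G) = eval (fun i => (L i).eval t) G := by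
  induction G using MvPolynomial.induction_on with
  | C a => simp
  | add p q hp hq => simp [hp, hq]
  | mul_X p i hp => simp [hp]

/-- vanishing at the parameter of a point of high multiplicity -/
theorem dvd_of_mem_pow {ι : Type*} (L : ι → Polynomial K) (t : K) (k : ℕ)
    (F : MvPolynomial ι K)
    (hF : F ∈ RingHom.ker (eval fun i => (L i).eval t) ^ k) :
    (Polynomial.X - Polynomial.C t) ^ k ∣ aeval L F := by
  rw [← Ideal.mem_span_singleton, ← Ideal.span_singleton_pow]
  have h1 : (RingHom.ker (eval fun i => (L i).eval t)).map (aeval L : _ →ₐ[K] Polynomial K) ≤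
      Ideal.span {Polynomial.X - Polynomial.C t} := by
    rw [Ideal.map_le_iff_le_comap]
    intro G hG
    rw [Ideal.mem_comap, Ideal.mem_span_singleton, Polynomial.dvd_iff_isRoot, Polynomial.IsRoot]
    rw [RingHom.mem_ker] at hG
    exact (eval_aeval L t G).trans hG
  have h2 := Ideal.mem_map_of_mem (aeval L : _ →ₐ[K] Polynomial K) hF
  rw [Ideal.map_pow] at h2
  exact Ideal.pow_right_mono h1 k h2

section

variable (a : Fin (n + 1) → K) (ha : Function.Injective a) (F : MvPolynomial (Fin (n + 1)) K)
  {d : ℕ} (hF : F.IsHomogeneous d) (b : ℕ)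
  (hb : ∀ l : List (Fin (n + 1)), l.length < b → aeval (Lc a) (dl l F) = 0)

include hF hb in
theorem relation (m : Fin (n + 1)) (l : List (Fin (n + 1))) (hl : l.length < b) :
    ∑ i, ((Polynomial.X - Polynomial.C (a m)) * Polynomial.derivative (Lc a i) - Lc a i) *
      aeval (Lc a) (dl (i :: l) F) = 0 := by
  have h1 := chain (Lc a) (dl l F)
  rw [hb l hl, Polynomial.derivative_zero] at h1
  have h2 := congrArg (aeval (Lc a)) (dl_hom l F hF).sum_X_mul_pderiv
  rw [map_nsmul, hb l hl, smul_zero, map_sum] at h2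
  simp only [map_mul, aeval_X] at h2
  calc _ = (Polynomial.X - Polynomial.C (a m)) *
        (∑ i, Polynomial.derivative (Lc a i) * aeval (Lc a) (pderiv i (dl l F))) -
        ∑ i, Lc a i * aeval (Lc a) (pderiv i (dl l F)) := by
        rw [mul_sum, ← sum_sub_distrib]
        exact sum_congr rfl fun i _ => by rw [dl_cons]; ring
    _ = 0 := by rw [← h1, h2]; simp

include ha hF hb in
theorem dvd_double (m : Fin (n + 1)) (r : ℕ) : ∀ l : List (Fin (n + 1)), l.length = b →
    l.count m = r → (Polynomial.X - Polynomial.C (a m)) ^ (2 * r) ∣ aeval (Lc a) (dl l F) := by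
  induction r with
  | zero => intro l _ _; simp
  | succ r ih =>
    intro l hl hc
    have hm : m ∈ l := by
      rw [← List.count_pos_iff]
      omega
    have hp := List.perm_cons_erase hm
    set l' := l.erase m with hl'
    have hlen : l'.length + 1 = b := by
      rw [← hl, hp.length_eq, List.length_cons]
    have hcount : l'.count m = r := by
      have := hp.count_eq m
      rw [List.count_cons_self] at this
      omega
    rw [dl_perm hp]
    have h1 := relation a F hF b hb m l' (by omega)
    rw [← add_sum_erase univ _ (mem_univ m)] at h1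
    have h2 : (Polynomial.X - Polynomial.C (a m)) ^ (2 * (r + 1)) ∣
        ∑ i ∈ univ.erase m, ((Polynomial.X - Polynomial.C (a m)) *
          Polynomial.derivative (Lc a i) - Lc a i) * aeval (Lc a) (dl (i :: l') F) := by
      apply dvd_sum
      intro i hi
      have hi' := ne_of_mem_erase hi
      have h3 : (Polynomial.X - Polynomial.C (a m)) ^ (2 * r) ∣
          aeval (Lc a) (dl (i :: l') F) := by
        apply ih
        · rw [List.length_cons, hlen]
        · rw [List.count_cons_of_ne hi', hcount]
      have h4 : (Polynomial.X - Polynomial.C (a m)) ^ 2 ∣ ((Polynomial.X - Polynomial.C (a m)) *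
          Polynomial.derivative (Lc a i) - Lc a i) := by
        obtain ⟨q, hq⟩ := Lc_dvd a m i hi'
        refine ⟨Polynomial.derivative q, ?_⟩
        rw [hq, Polynomial.derivative_mul, Polynomial.derivative_sub, Polynomial.derivative_X,
          Polynomial.derivative_C]
        ring
      have h5 := mul_dvd_mul h4 h3
      rwa [← pow_add, show 2 + 2 * r = 2 * (r + 1) by ring] at h5
    have h3 : (Polynomial.X - Polynomial.C (a m)) ^ (2 * (r + 1)) ∣
        ((Polynomial.X - Polynomial.C (a m)) *
          Polynomial.derivative (Lc a m) - Lc a m) * aeval (Lc a) (dl (m :: l') F) := by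
      rw [eq_neg_of_add_eq_zero_left h1]
      exact h2.neg_right
    refine IsCoprime.dvd_of_dvd_mul_left ?_ h3
    apply IsCoprime.pow_left
    rw [(Polynomial.prime_X_sub_C (a m)).irreducible.coprime_iff_not_dvd,
      Polynomial.dvd_iff_isRoot, Polynomial.IsRoot]
    simp only [Polynomial.eval_sub, Polynomial.eval_mul, Polynomial.eval_X, Polynomial.eval_C,
      sub_self, zero_mul, zero_sub, neg_eq_zero]
    exact Lc_self a ha m

include ha hF hb in
/-- **the degree count** -/
theorem degree_count {N : ℕ} (t : Fin N → K) (ht : Function.Injective t)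
    (hta : ∀ i m, t i ≠ a m) (k : ℕ)
    (hk : ∀ i, F ∈ RingHom.ker (eval fun m => (Lc a m).eval (t i)) ^ k)
    (l : List (Fin (n + 1))) (hl : l.length = b) (hne : aeval (Lc a) (dl l F) ≠ 0) :
    2 * b + N * (k - b) ≤ n * (d - b) := by
  classical
  have h1 : ∏ m, (Polynomial.X - Polynomial.C (a m)) ^ (2 * l.count m) ∣
      aeval (Lc a) (dl l F) := by
    apply prod_dvd_of_coprime
    · intro x _ y _ hxy
      exact (Polynomial.isCoprime_X_sub_C_of_isUnit_sub
        (sub_ne_zero.mpr (ha.ne hxy)).isUnit).pow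
    · intro m _
      exact dvd_double a ha F hF b hb m _ l hl rfl
  have h2 : ∏ i, (Polynomial.X - Polynomial.C (t i)) ^ (k - b) ∣
      aeval (Lc a) (dl l F) := by
    apply prod_dvd_of_coprime
    · intro x _ y _ hxy
      exact (Polynomial.isCoprime_X_sub_C_of_isUnit_sub
        (sub_ne_zero.mpr (ht.ne hxy)).isUnit).pow
    · intro i _
      apply dvd_of_mem_pow
      have := dl_mem_pow _ k F (hk i) l
      rwa [hl] at this
  have h3 : IsCoprime (∏ m, (Polynomial.X - Polynomial.C (a m)) ^ (2 * l.count m))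
      (∏ i, (Polynomial.X - Polynomial.C (t i)) ^ (k - b)) := by
    apply IsCoprime.prod_left
    intro m _
    apply IsCoprime.prod_right
    intro i _
    exact (Polynomial.isCoprime_X_sub_C_of_isUnit_sub
        (sub_ne_zero.mpr (hta i m).symm).isUnit).pow
  have h4 := h3.mul_dvd h1 h2
  have h5 := Polynomial.natDegree_le_of_dvd h4 hne
  have h6 := natDegree_aeval_le (Lc a) n (fun i => (Lc_natDegree a i).le) (dl l F)
    (dl_hom l F hF)
  rw [hl] at h6
  refine le_trans (le_of_eq ?_) (h5.trans h6)
  rw [Polynomial.natDegree_mul, Polynomial.natDegree_prod_of_monic,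
    Polynomial.natDegree_prod_of_monic]
  · simp only [Polynomial.natDegree_pow, Polynomial.natDegree_X_sub_C, mul_one]
    rw [← mul_sum, sum_const, card_univ, Fintype.card_fin, smul_eq_mul]
    congr 2
    rw [← hl]
    have := Multiset.sum_count_eq_card (s := (univ : Finset (Fin (n + 1))))
      (m := (l : Multiset (Fin (n + 1)))) (fun _ _ => mem_univ _)
    rw [Multiset.coe_card] at this
    rw [← this]
    refine sum_congr rfl fun x _ => ?_
    rw [Multiset.coe_count]
  · intro i _
    exact (Polynomial.monic_X_sub_C _).pow _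
  · intro i _
    exact (Polynomial.monic_X_sub_C _).pow _
  · exact prod_ne_zero_iff.mpr fun _ _ => pow_ne_zero _ (Polynomial.X_sub_C_ne_zero _)
  · exact prod_ne_zero_iff.mpr fun _ _ => pow_ne_zero _ (Polynomial.X_sub_C_ne_zero _)

end

/-- **multiplicity along the curve** -/
theorem exists_mult [CharZero K] (a : Fin (n + 1) → K) (ha : Function.Injective a)
    (F : MvPolynomial (Fin (n + 1)) K) {d : ℕ} (hF : F.IsHomogeneous d) (h0 : F ≠ 0)
    (t : Fin (n + 3) → K) (ht : Function.Injective t) (hta : ∀ i m, t i ≠ a m) (k : ℕ)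
    (hk : ∀ i, F ∈ RingHom.ker (eval fun m => (Lc a m).eval (t i)) ^ k) :
    ∃ b : ℕ, b ≤ d ∧ (n + 3) * k ≤ n * d + b ∧
      ∀ l : List (Fin (n + 1)), l.length < b → ∀ s : K,
        eval (fun m => (Lc a m).eval s) (dl l F) = 0 := by
  classical
  obtain ⟨l0, hl0, c, hc, hlc⟩ := exists_dl_ne F hF h0
  have hex : ∃ b, ∃ l : List (Fin (n + 1)), l.length = b ∧ aeval (Lc a) (dl l F) ≠ 0 := by
    refine ⟨d, l0, hl0, ?_⟩
    rw [hlc, algHom_C, Polynomial.algebraMap_eq]
    exact Polynomial.C_ne_zero.mpr hc
  obtain ⟨l, hl, hne⟩ := Nat.find_spec hex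
  have hmin := fun m => Nat.find_min hex (m := m)
  have hle : Nat.find hex ≤ d := Nat.find_min' hex ⟨l0, hl0, by
    rw [hlc, algHom_C, Polynomial.algebraMap_eq]
    exact Polynomial.C_ne_zero.mpr hc⟩
  set b := Nat.find hex with hb
  have hb' : ∀ l : List (Fin (n + 1)), l.length < b → aeval (Lc a) (dl l F) = 0 := by
    intro l' hl'
    by_contra hcon
    exact hmin _ hl' ⟨l', rfl, hcon⟩
  refine ⟨b, hle, ?_, fun l' hl' s => ?_⟩
  · have h1 := degree_count a ha F hF b hb' t ht hta k hk l hl hne
    rw [Nat.mul_sub n d b] at h1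
    have h2 : n * b ≤ n * d := Nat.mul_le_mul_left _ hle
    have h3 : 2 * b + (n + 3) * (k - b) + n * b ≤ n * d := by omega
    rcases le_total k b with h | h
    · have h4 : (n + 3) * k ≤ (n + 3) * b := Nat.mul_le_mul_left _ h
      have h5 : (n + 3) * b = n * b + 3 * b := by ring
      rw [Nat.sub_eq_zero_of_le h] at h3
      omega
    · have h5 : (n + 3) * (k - b) = (n + 3) * k - (n + 3) * b := Nat.mul_sub _ _ _
      have h6 : (n + 3) * b ≤ (n + 3) * k := Nat.mul_le_mul_left _ h
      have h7 : (n + 3) * b = n * b + 3 * b := by ring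
      omega
  · rw [← eval_aeval, hb' l' hl', Polynomial.eval_zero]

end Q34.Rnc
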