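import Pool.Agent.Q34.RncE

/-! Forms vanishing to high order along a rational normal curve of odd degree. -/

set_option autoImplicit false
open Finset MvPolynomial

namespace Q34.Rnc

variable {K : Type*} [Field K]

/-- linear substitution -/
noncomputable def lsub {ι κ : Type*} [Fintype κ] (A : ι → κ → K) (F : MvPolynomial ι K) :
    MvPolynomial κ K := aeval (fun i => ∑ m, C (A i m) * X m) F

theorem eval_lsub {ι κ : Type*} [Fintype κ] (A : ι → κ → K) (F : MvPolynomial ι K) (x : κ → K) :
    eval x (lsub A F) = eval (fun i => ∑ m, A i m * x m) F := by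
  unfold lsub
  induction F using MvPolynomial.induction_on with
  | C a => rw [algHom_C, algebraMap_eq, eval_C, eval_C]
  | add p q hp hq => rw [map_add, map_add, map_add, hp, hq]
  | mul_X p i hp =>
    rw [map_mul, map_mul, map_mul, hp, aeval_X, eval_X, map_sum]
    simp only [map_mul, eval_C, eval_X]

theorem lsub_hom {ι κ : Type*} [Fintype κ] (A : ι → κ → K) (F : MvPolynomial ι K) {d : ℕ}
    (hF : F.IsHomogeneous d) : (lsub A F).IsHomogeneous d := by
  have h1 := hF.aeval (fun i => ∑ m, C (A i m) * X m : ι → MvPolynomial κ K) (n := 1)
    (fun i => IsHomogeneous.sum _ _ _ fun m _ => isHomogeneous_C_mul_X _ _)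
  rwa [one_mul] at h1

theorem pderiv_lsub {ι κ : Type*} [Fintype ι] [Fintype κ] (A : ι → κ → K)
    (F : MvPolynomial ι K) (m : κ) :
    pderiv m (lsub A F) = ∑ i, C (A i m) * lsub A (pderiv i F) := by
  classical
  unfold lsub
  induction F using MvPolynomial.induction_on with
  | C a =>
    simp only [algHom_C, algebraMap_eq, pderiv_C, map_zero, mul_zero, sum_const_zero]
  | add p q hp hq => simp only [map_add, mul_add, sum_add_distrib, hp, hq]
  | mul_X p i hp =>
    rw [map_mul, aeval_X, pderiv_mul, hp]
    simp only [pderiv_mul, map_add, map_mul, aeval_X, pderiv_X, mul_add, sum_add_distrib]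
    congr 1
    · rw [sum_mul]
      exact sum_congr rfl fun j _ => by ring
    · have h1 : pderiv m (∑ x, C (A i x) * X x : MvPolynomial κ K) = C (A i m) := by
        rw [map_sum, sum_eq_single m]
        · simp
        · intro j _ hj
          rw [pderiv_C_mul, pderiv_X_of_ne hj, mul_zero]
        · intro h
          exact absurd (mem_univ _) h
      rw [h1, sum_eq_single i]
      · simp [Pi.single_eq_same, mul_comm]
      · intro j _ hj
        rw [Pi.single_eq_of_ne hj.symm, map_zero, mul_zero, mul_zero]
      · intro h
        exact absurd (mem_univ _) h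

theorem dl_sum {ι κ : Type*} [Fintype ι] (l : List κ) (c : ι → K) (G : ι → MvPolynomial κ K) :
    dl l (∑ i, C (c i) * G i) = ∑ i, C (c i) * dl l (G i) := by
  induction l with
  | nil => rfl
  | cons j l ih =>
    rw [dl_cons, ih, map_sum]
    exact sum_congr rfl fun i _ => by rw [pderiv_C_mul, dl_cons]

theorem van_lsub {ι κ : Type*} [Fintype ι] [Fintype κ] (A : ι → κ → K) (x : κ → K) (b : ℕ) :
    ∀ F : MvPolynomial ι K,
      (∀ l : List ι, l.length < b → eval (fun i => ∑ m, A i m * x m) (dl l F) = 0) →
      ∀ l : List κ, l.length < b → eval x (dl l (lsub A F)) = 0 := by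
  induction b with
  | zero => intro F _ l hl; exact absurd hl (Nat.not_lt_zero _)
  | succ b ih =>
    intro F hF l hl
    rcases List.eq_nil_or_concat l with rfl | ⟨l', m, rfl⟩
    · rw [dl_nil, eval_lsub]
      exact hF [] (Nat.succ_pos _)
    · rw [List.concat_eq_append, dl_append, dl_cons, dl_nil, pderiv_lsub, dl_sum, map_sum]
      apply sum_eq_zero
      intro i _
      rw [map_mul, ih (pderiv i F) _ l' _, mul_zero]
      · intro l2 hl2
        have h1 : dl l2 (pderiv i F) = dl (l2 ++ [i]) F := by rw [dl_append]; rfl
        rw [h1]
        apply hF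
        rw [List.length_append, List.length_singleton]
        omega
      · rw [List.concat_eq_append, List.length_append, List.length_singleton] at hl
        omega

theorem sum_of_hom {κ : Type*} [Fintype κ] {H : MvPolynomial κ K} {d : ℕ}
    (hH : H.IsHomogeneous d) (γ : κ →₀ ℕ) (hγ : γ ∈ H.support) : ∑ i, γ i = d := by
  have := hH (mem_support_iff.mp hγ)
  rw [← this, Finsupp.weight_apply, Finsupp.sum_fintype]
  · simp
  · simp

theorem exponent_bound [CharZero K] {κ : Type*} [Fintype κ] [DecidableEq κ] (m : κ) (b : ℕ) :
    ∀ (H : MvPolynomial κ K) (d : ℕ), H.IsHomogeneous d →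
      (∀ l : List κ, l.length < b → eval (Pi.single m 1) (dl l H) = 0) →
      ∀ γ ∈ H.support, γ m + b ≤ d := by
  induction b with
  | zero =>
    intro H d hH _ γ hγ
    rw [← sum_of_hom hH γ hγ, add_zero]
    exact single_le_sum (fun _ _ => Nat.zero_le _) (mem_univ m)
  | succ b ih =>
    intro H d hH hv γ hγ
    have h1 : coeff (Finsupp.single m d) H = 0 := by
      have h2 := hv [] (Nat.succ_pos _)
      rw [dl_nil, eval_eq', sum_eq_single (Finsupp.single m d)] at h2
      · rw [prod_eq_one, mul_one] at h2
        · exact h2
        · intro i _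
          by_cases h : i = m
          · rw [h]; simp
          · rw [Finsupp.single_eq_of_ne h, pow_zero]
      · intro s hs hne
        obtain ⟨i, him, hi⟩ : ∃ i, i ≠ m ∧ s i ≠ 0 := by
          by_contra hcon
          push Not at hcon
          apply hne
          have h3 := sum_of_hom hH s hs
          rw [sum_eq_single m (fun i _ h => hcon i h) (fun h => absurd (mem_univ _) h)] at h3
          ext i
          by_cases h : i = m
          · rw [h, h3]; simp
          · rw [hcon i h, Finsupp.single_eq_of_ne h]
        rw [prod_eq_zero (mem_univ i), mul_zero]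
        rw [Pi.single_eq_of_ne him, zero_pow hi]
      · intro h
        rw [notMem_support_iff.mp h, zero_mul]
    obtain ⟨i, him, hi⟩ : ∃ i, i ≠ m ∧ γ i ≠ 0 := by
      by_contra hcon
      push Not at hcon
      apply mem_support_iff.mp hγ
      rw [← h1]
      congr 1
      have h3 := sum_of_hom hH γ hγ
      rw [sum_eq_single m (fun i _ h => hcon i h) (fun h => absurd (mem_univ _) h)] at h3
      ext i
      by_cases h : i = m
      · rw [h, h3]; simp
      · rw [hcon i h, Finsupp.single_eq_of_ne h]
    obtain ⟨γ', hγ'⟩ : ∃ γ' : κ →₀ ℕ, γ' + Finsupp.single i 1 = γ := by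
      refine ⟨γ - Finsupp.single i 1, tsub_add_cancel_of_le ?_⟩
      rw [Finsupp.single_le_iff]
      exact Nat.one_le_iff_ne_zero.mpr hi
    have h2 : γ' ∈ (pderiv i H).support := by
      rw [mem_support_iff, coeff_pderiv, hγ']
      refine mul_ne_zero (mem_support_iff.mp hγ) ?_
      exact_mod_cast Nat.succ_ne_zero (γ' i)
    have h3 := ih (pderiv i H) (d - 1) hH.pderiv (by
      intro l hl
      have h1 : dl l (pderiv i H) = dl (l ++ [i]) H := by rw [dl_append]; rfl
      rw [h1]
      apply hv
      rw [List.length_append, List.length_singleton]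
      omega) _ h2
    have h4 : γ' m = γ m := by
      rw [← hγ', Finsupp.add_apply, Finsupp.single_eq_of_ne him.symm, Nat.add_zero]
    have h5 : 1 ≤ d := by
      rw [← sum_of_hom hH γ hγ]
      exact (Nat.one_le_iff_ne_zero.mpr hi).trans
        (single_le_sum (fun _ _ => Nat.zero_le _) (mem_univ i))
    omega

theorem zero_of_van [CharZero K] {j : ℕ} (b d : ℕ) (hlt : j * d < d + j * b)
    (H : MvPolynomial (Fin j) K) (hH : H.IsHomogeneous d)
    (hv : ∀ m, ∀ l : List (Fin j), l.length < b → eval (Pi.single m 1) (dl l H) = 0) :
    H = 0 := by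
  by_contra h0
  obtain ⟨γ, hγ⟩ := support_nonempty.mpr h0
  have h1 := sum_of_hom hH γ hγ
  have h2 : ∑ i, γ i + j * b ≤ j * d := by
    have h3 : ∑ i : Fin j, (γ i + b) ≤ ∑ _i : Fin j, d :=
      sum_le_sum fun i _ => exponent_bound i b H d hH (hv i) γ hγ
    rw [sum_add_distrib] at h3
    simpa using h3
  omega

theorem deriv_zero [Infinite K] {ι : Type*} [Fintype ι] (G : MvPolynomial ι K)
    (P : ι → Polynomial K) (S : Finset K)
    (hS : ∀ s, s ∉ S → eval (fun i => (P i).eval s) G = 0) (s : K) :
    ∑ i, (Polynomial.derivative (P i)).eval s * eval (fun i => (P i).eval s) (pderiv i G) = 0 := by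
  have h1 : aeval P G = 0 := by
    apply Polynomial.eq_zero_of_infinite_isRoot
    refine Set.Infinite.mono ?_ (Set.Finite.infinite_compl S.finite_toSet)
    intro x hx
    show Polynomial.eval x _ = 0
    rw [eval_aeval]
    exact hS x (by simpa using hx)
  have h2 := chain P G
  rw [h1, Polynomial.derivative_zero] at h2
  have h3 := congrArg (Polynomial.eval s) h2
  rw [Polynomial.eval_zero, Polynomial.eval_finsetSum] at h3
  rw [h3]
  exact sum_congr rfl fun i _ => by rw [Polynomial.eval_mul, eval_aeval]

theorem double_root (p : Polynomial K) (s : K) (h0 : p.eval s = 0)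
    (h1 : (Polynomial.derivative p).eval s = 0) : (Polynomial.X - Polynomial.C s) ^ 2 ∣ p := by
  obtain ⟨q, hq⟩ := Polynomial.dvd_iff_isRoot.mpr h0
  rw [hq, Polynomial.derivative_mul] at h1
  simp only [Polynomial.derivative_sub, Polynomial.derivative_X, Polynomial.derivative_C,
    sub_zero, one_mul, Polynomial.eval_add, Polynomial.eval_mul, Polynomial.eval_sub,
    Polynomial.eval_X, Polynomial.eval_C, sub_self, zero_mul, add_zero] at h1
  obtain ⟨r, hr⟩ := Polynomial.dvd_iff_isRoot.mpr h1
  exact ⟨r, by rw [hq, hr]; ring⟩

/-- **secants of the curve fill the space** -/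
theorem secant_zero [CharZero K] {n j : ℕ} (hn : n + 1 = 2 * j)
    (a : Fin (n + 1) → K) (ha : Function.Injective a) (e : ℕ) :
    ∀ G : MvPolynomial (Fin (n + 1)) K, G.IsHomogeneous e →
      (∀ (lam sig : Fin j → K), (∀ m, lam m ≠ 0) → Function.Injective sig →
        eval (fun i => ∑ m, lam m * (Lc a i).eval (sig m)) G = 0) → G = 0 := by
  classical
  induction e with
  | zero =>
    intro G hG h
    have h1 : G.totalDegree = 0 := by
      rw [totalDegree_zero_iff_isHomogeneous]
      exact hG
    rw [totalDegree_eq_zero_iff_eq_C] at h1
    have h2 := h (fun _ => 1) (fun m => ((m : ℕ) : K)) (fun _ => one_ne_zero) (fun x y hxy => by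
      have : ((x : ℕ) : K) = ((y : ℕ) : K) := hxy
      exact Fin.ext (Nat.cast_injective this))
    rw [h1, eval_C] at h2
    rw [h1, h2, C_0]
  | succ e ih =>
    intro G hG h
    by_contra h0
    obtain ⟨i, hi⟩ := exists_pderiv_ne G hG h0
    apply hi
    apply ih _ hG.pderiv
    intro lam sig hlam hsig
    -- the gradient
    set w : Fin (n + 1) → K := fun i => ∑ m, lam m * (Lc a i).eval (sig m) with hw
    set v : Fin (n + 1) → K := fun i => eval w (pderiv i G) with hv
    have hA : ∀ m, ∑ i, v i * (Lc a i).eval (sig m) = 0 := by
      intro m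
      have h1 := deriv_zero G (fun i => Polynomial.C (w i) +
        Polynomial.X * Polynomial.C ((Lc a i).eval (sig m))) {-lam m} (by
          intro s hs
          have h2 := h (Function.update lam m (lam m + s)) sig (by
            intro m'
            by_cases hm : m' = m
            · rw [hm, Function.update_self]
              intro h3
              apply hs
              rw [mem_singleton]
              linear_combination h3
            · rw [Function.update_of_ne hm]
              exact hlam m') hsig
          rw [← h2]
          congr 2
          funext i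
          simp only [Polynomial.eval_add, Polynomial.eval_mul, Polynomial.eval_X,
            Polynomial.eval_C, hw]
          rw [← add_sum_erase univ _ (mem_univ m), ← add_sum_erase univ _ (mem_univ m),
            Function.update_self]
          have h3 : ∑ x ∈ univ.erase m, Function.update lam m (lam m + s) x *
              (Lc a i).eval (sig x) = ∑ x ∈ univ.erase m, lam x * (Lc a i).eval (sig x) :=
            sum_congr rfl fun x hx => by rw [Function.update_of_ne (ne_of_mem_erase hx)]
          rw [h3]
          ring) 0
      simp only [Polynomial.derivative_add, Polynomial.derivative_C, Polynomial.derivative_mul,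
        Polynomial.derivative_X, Polynomial.eval_add, Polynomial.eval_mul, Polynomial.eval_X,
        Polynomial.eval_C, Polynomial.eval_zero, Polynomial.eval_one, mul_zero, add_zero,
        zero_add, one_mul, zero_mul] at h1
      rw [← h1]
      exact sum_congr rfl fun i _ => mul_comm _ _
    have hB : ∀ m, ∑ i, v i * (Polynomial.derivative (Lc a i)).eval (sig m) = 0 := by
      intro m
      have hkey : ∀ s, (fun i => Polynomial.eval s (Polynomial.C (∑ x ∈ univ.erase m, lam x *
          (Lc a i).eval (sig x)) + Polynomial.C (lam m) * Lc a i)) =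
          fun i => ∑ x, lam x * (Lc a i).eval (Function.update sig m s x) := by
        intro s
        funext i
        simp only [Polynomial.eval_add, Polynomial.eval_mul, Polynomial.eval_C]
        rw [← add_sum_erase univ _ (mem_univ m), Function.update_self, add_comm]
        congr 1
        exact sum_congr rfl fun x hx => by rw [Function.update_of_ne (ne_of_mem_erase hx)]
      have h1 := deriv_zero G (fun i => Polynomial.C (∑ x ∈ univ.erase m, lam x *
          (Lc a i).eval (sig x)) + Polynomial.C (lam m) * Lc a i) (univ.image sig) (by
          intro s hs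
          rw [hkey]
          apply h _ _ hlam
          intro x y hxy
          by_cases hx : x = m
          · by_cases hy : y = m
            · rw [hx, hy]
            · rw [hx, Function.update_self, Function.update_of_ne hy] at hxy
              exact absurd (mem_image.mpr ⟨y, mem_univ _, hxy.symm⟩) hs
          · by_cases hy : y = m
            · rw [hy, Function.update_self, Function.update_of_ne hx] at hxy
              exact absurd (mem_image.mpr ⟨x, mem_univ _, hxy⟩) hs
            · rw [Function.update_of_ne hx, Function.update_of_ne hy] at hxy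
              exact hsig hxy) (sig m)
      rw [hkey, Function.update_eq_self] at h1
      simp only [Polynomial.derivative_add, Polynomial.derivative_C, Polynomial.derivative_mul,
        Polynomial.eval_add, Polynomial.eval_mul,
        Polynomial.eval_C, Polynomial.eval_zero, zero_add, zero_mul] at h1
      have h2 : lam m * ∑ i, v i * (Polynomial.derivative (Lc a i)).eval (sig m) = 0 := by
        rw [mul_sum, ← h1]
        exact sum_congr rfl fun i _ => by rw [hv]; ring
      exact (mul_eq_zero.mp h2).resolve_left (hlam m)
    -- the polynomial with too many roots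
    set p : Polynomial K := ∑ i, Polynomial.C (v i) * Lc a i with hp
    have hp0 : p = 0 := by
      have h1 : ∏ m, (Polynomial.X - Polynomial.C (sig m)) ^ 2 ∣ p := by
        apply prod_dvd_of_coprime
        · intro x _ y _ hxy
          exact (Polynomial.isCoprime_X_sub_C_of_isUnit_sub
            (sub_ne_zero.mpr (hsig.ne hxy)).isUnit).pow
        · intro m _
          apply double_root
          · rw [hp, Polynomial.eval_finsetSum]
            simp only [Polynomial.eval_mul, Polynomial.eval_C]
            exact hA m
          · rw [hp, Polynomial.derivative_sum, Polynomial.eval_finsetSum]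
            simp only [Polynomial.derivative_C_mul, Polynomial.eval_mul, Polynomial.eval_C]
            exact hB m
      refine Polynomial.eq_zero_of_dvd_of_natDegree_lt h1 ?_
      have h2 : p.natDegree ≤ n := by
        apply Polynomial.natDegree_sum_le_of_forall_le
        intro i _
        exact (Polynomial.natDegree_C_mul_le _ _).trans (Lc_natDegree a i).le
      rw [Polynomial.natDegree_prod_of_monic]
      · simp only [Polynomial.natDegree_pow, Polynomial.natDegree_X_sub_C, sum_const, card_univ,
          Fintype.card_fin, smul_eq_mul]
        omega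
      · intro i _
        exact (Polynomial.monic_X_sub_C _).pow _
    have h1 : v i * (Lc a i).eval (a i) = 0 := by
      have h2 := congrArg (Polynomial.eval (a i)) hp0
      rw [hp, Polynomial.eval_finsetSum, Polynomial.eval_zero, sum_eq_single i] at h2
      · rwa [Polynomial.eval_mul, Polynomial.eval_C] at h2
      · intro l _ hl
        rw [Polynomial.eval_mul, Lc_other a i l hl, mul_zero]
      · intro h
        exact absurd (mem_univ _) h
    exact (mul_eq_zero.mp h1).resolve_right (Lc_self a ha i)

/-- **the lower bound** in curve coordinates -/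
theorem lower_bound [CharZero K] {n j : ℕ} (hn : n + 1 = 2 * j)
    (a : Fin (n + 1) → K) (ha : Function.Injective a)
    (F : MvPolynomial (Fin (n + 1)) K) {d : ℕ} (hF : F.IsHomogeneous d) (h0 : F ≠ 0)
    (t : Fin (n + 3) → K) (ht : Function.Injective t) (hta : ∀ i m, t i ≠ a m) (k : ℕ)
    (hk : ∀ i, F ∈ RingHom.ker (eval fun m => (Lc a m).eval (t i)) ^ k) :
    j * (n + 3) * k + d ≤ 2 * j ^ 2 * d := by
  classical
  obtain ⟨b, hbd, hb1, hb2⟩ := exists_mult a ha F hF h0 t ht hta k hk
  have hkey : d + j * b ≤ j * d := by
    by_contra hcon
    push Not at hcon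
    apply h0
    apply secant_zero hn a ha d F hF
    intro lam sig _ _
    have h1 := zero_of_van b d hcon (lsub (fun i m => (Lc a i).eval (sig m)) F)
      (lsub_hom _ F hF) (by
        intro m l hl
        apply van_lsub _ _ b F _ l hl
        intro l' hl'
        rw [← hb2 l' hl' (sig m)]
        congr 2
        funext i
        rw [sum_eq_single m]
        · simp
        · intro x _ hx
          rw [Pi.single_eq_of_ne hx, mul_zero]
        · intro h
          exact absurd (mem_univ _) h)
    have h2 := eval_lsub (fun i m => (Lc a i).eval (sig m)) F lam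
    rw [h1, map_zero] at h2
    rw [h2]
    congr 2
    funext i
    exact sum_congr rfl fun m _ => mul_comm _ _
  have h1 : j * ((n + 3) * k) ≤ j * (n * d + b) := Nat.mul_le_mul_left _ hb1
  have h2 : j * (n * d + b) = j * n * d + j * b := by ring
  have h3 : 2 * j ^ 2 * d = j * n * d + j * d := by
    have : 2 * j ^ 2 * d = j * (2 * j) * d := by ring
    rw [this, ← hn]
    ring
  have h4 : j * (n + 3) * k = j * ((n + 3) * k) := by ring
  omega

end Q34.Rnc
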