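import Mathlib

set_option autoImplicit false

/-!
# Linear maps of finite rank and towers of rings of linear maps
-/

namespace Q34.UR

variable {F V : Type} [Field F] [AddCommGroup V] [Module F V]

/-- finite rank -/
def FR (z : Module.End F V) : Prop := FiniteDimensional F (LinearMap.range z)

theorem FR.of_mem {z : Module.End F V} {K : Submodule F V} [FiniteDimensional F K]
    (h : ∀ x, z x ∈ K) : FR z := by
  have h1 : LinearMap.range z ≤ K := by
    rintro _ ⟨x, rfl⟩; exact h x
  exact Submodule.finiteDimensional_of_le h1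

theorem FR.zero : FR (0 : Module.End F V) := FR.of_mem (K := ⊥) (fun x => by simp)

theorem FR.add {z w : Module.End F V} (h : FR z) (h' : FR w) : FR (z + w) := by
  unfold FR at h h'
  exact FR.of_mem (K := LinearMap.range z ⊔ LinearMap.range w)
    (fun x => Submodule.add_mem_sup ⟨x, rfl⟩ ⟨x, rfl⟩)

theorem FR.mul_right {z : Module.End F V} (h : FR z) (a : Module.End F V) : FR (z * a) := by
  unfold FR at h
  exact FR.of_mem (K := LinearMap.range z) (fun x => ⟨a x, rfl⟩)

theorem FR.mul_left {z : Module.End F V} (h : FR z) (a : Module.End F V) : FR (a * z) := by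
  unfold FR at h
  exact FR.of_mem (K := (LinearMap.range z).map a)
    (fun x => Submodule.mem_map_of_mem ⟨x, rfl⟩)

theorem FR.neg {z : Module.End F V} (h : FR z) : FR (-z) := by
  have := h.mul_left (-1)
  simpa using this

theorem FR.sub {z w : Module.End F V} (h : FR z) (h' : FR w) : FR (z - w) := by
  rw [sub_eq_add_neg]; exact h.add h'.neg

/-- A surjective finite rank perturbation of the identity is injective. -/
theorem inj_of_surj {f : Module.End F V} (h : FR f)
    (hs : Function.Surjective (1 + f : Module.End F V)) :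
    Function.Injective (1 + f : Module.End F V) := by
  unfold FR at h
  have hmap : ∀ w ∈ LinearMap.range f, (1 + f) w ∈ LinearMap.range f := by
    intro w hw
    exact add_mem hw ⟨w, rfl⟩
  let g : LinearMap.range f →ₗ[F] LinearMap.range f := (1 + f).restrict hmap
  have hg : Function.Surjective g := by
    rintro ⟨w, hw⟩
    obtain ⟨x, hx⟩ := hs w
    have hx' : x = w - f x := by
      rw [← hx]; simp
    have hxm : x ∈ LinearMap.range f := by
      rw [hx']; exact sub_mem hw ⟨x, rfl⟩
    exact ⟨⟨x, hxm⟩, Subtype.ext hx⟩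
  have hgi : Function.Injective g := LinearMap.injective_iff_surjective.2 hg
  rw [injective_iff_map_eq_zero]
  intro x hx
  have hx' : x = f (-x) := by
    have : x + f x = 0 := hx
    rw [map_neg]; exact eq_neg_of_add_eq_zero_left this
  have hxm : x ∈ LinearMap.range f := by
    rw [hx']; exact ⟨-x, rfl⟩
  have h0 : g ⟨x, hxm⟩ = 0 := Subtype.ext hx
  have := hgi (h0.trans (map_zero g).symm)
  exact congrArg Subtype.val this

/-- If `x` is a finite rank perturbation of a unit and `x y = 1` then `y x = 1`. -/
theorem comm_of_unit {x y : Module.End F V} {g : (Module.End F V)ˣ}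
    (h : FR (x - (g : Module.End F V))) (hxy : x * y = 1) : y * x = 1 := by
  set f : Module.End F V := (↑g⁻¹ : Module.End F V) * (x - g) with hf
  have hx : x = g * (1 + f) := by
    rw [hf, mul_add, mul_one, ← mul_assoc, Units.mul_inv, one_mul]; abel
  have hfr : FR f := h.mul_left _
  have h1 : (1 + f) * (y * g) = 1 := by
    have h2 : (↑g⁻¹ : Module.End F V) * (x * y) * g = 1 := by rw [hxy, mul_one, Units.inv_mul]
    calc (1 + f) * (y * g) = ((↑g⁻¹ : Module.End F V) * (g * (1 + f))) * (y * g) := by
          rw [Units.inv_mul_cancel_left]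
      _ = (↑g⁻¹ : Module.End F V) * (x * y) * g := by rw [← hx]; simp only [mul_assoc]
      _ = 1 := h2
  have hs : Function.Surjective (1 + f : Module.End F V) := fun w =>
    ⟨(y * g : Module.End F V) w, LinearMap.congr_fun h1 w⟩
  have hi := inj_of_surj hfr hs
  have hxi : Function.Injective x := by
    intro u v huv
    apply hi
    have : ((↑g⁻¹ : Module.End F V) * x) u = ((↑g⁻¹ : Module.End F V) * x) v := by
      simp only [Module.End.mul_apply]; rw [huv]
    have e : (↑g⁻¹ : Module.End F V) * x = 1 + f := by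
      rw [hx, Units.inv_mul_cancel_left]
    rwa [e] at this
  ext v
  apply hxi
  rw [← Module.End.mul_apply, ← mul_assoc, hxy]
  rfl

theorem exists_inner (f : Module.End F V) : ∃ g : Module.End F V, f * g * f = f := by
  obtain ⟨s, hs⟩ := f.rangeRestrict.exists_rightInverse_of_surjective f.range_rangeRestrict
  obtain ⟨p, hp⟩ := (LinearMap.range f).subtype.exists_leftInverse_of_injective
    (Submodule.ker_subtype _)
  refine ⟨s ∘ₗ p, ?_⟩
  ext x
  have h1 : p (f x) = f.rangeRestrict x := by
    have := LinearMap.congr_fun hp (f.rangeRestrict x)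
    exact this
  have h2 : f.rangeRestrict (s (f.rangeRestrict x)) = f.rangeRestrict x :=
    LinearMap.congr_fun hs (f.rangeRestrict x)
  show f (s (p (f x))) = f x
  rw [h1]
  exact congrArg Subtype.val h2

/-- inner inverses of finite rank commuting with an idempotent -/
theorem exists_inner_comm {f P : Module.End F V} (hP : P * P = P) (hf : FR f)
    (hc : f * P = P * f) : ∃ g : Module.End F V, FR g ∧ g * P = P * g ∧ f * g * f = f := by
  obtain ⟨g1, h1⟩ := exists_inner (P * f * P)
  obtain ⟨g2, h2⟩ := exists_inner ((1 - P) * f * (1 - P))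
  have hQ : (1 - P) * (1 - P) = 1 - P := by
    rw [mul_sub, mul_one, sub_mul, one_mul, hP, sub_self, sub_zero]
  have hPQ : P * (1 - P) = 0 := by rw [mul_sub, mul_one, hP, sub_self]
  have hQP : (1 - P) * P = 0 := by rw [sub_mul, one_mul, hP, sub_self]
  have hcQ : f * (1 - P) = (1 - P) * f := by rw [mul_sub, sub_mul, mul_one, one_mul, hc]
  set g0 := P * g1 * P + (1 - P) * g2 * (1 - P) with hg0
  have e1 : P * f * P = f * P := by rw [← hc, mul_assoc, hP]
  have e2 : (1 - P) * f * (1 - P) = f * (1 - P) := by rw [← hcQ, mul_assoc, hQ]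
  rw [e1] at h1
  rw [e2] at h2
  have hg0P : g0 * P = P * g1 * P := by
    rw [hg0, add_mul, mul_assoc _ (1 - P) P, hQP, mul_zero, add_zero, mul_assoc _ P P, hP]
  have hPg0 : P * g0 = P * g1 * P := by
    rw [hg0, mul_add]
    have : P * ((1 - P) * g2 * (1 - P)) = 0 := by
      rw [← mul_assoc, ← mul_assoc, hPQ, zero_mul, zero_mul]
    rw [this, add_zero, ← mul_assoc, ← mul_assoc, hP]
  have key : f * g0 * f = f := by
    have a1 : f * (P * g1 * P) * f = f * P := by
      calc f * (P * g1 * P) * f = (f * P) * g1 * (P * f) := by simp only [mul_assoc]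
        _ = f * P := by rw [← hc, h1]
    have a2 : f * ((1 - P) * g2 * (1 - P)) * f = f * (1 - P) := by
      calc f * ((1 - P) * g2 * (1 - P)) * f = (f * (1 - P)) * g2 * ((1 - P) * f) := by
            simp only [mul_assoc]
        _ = f * (1 - P) := by rw [← hcQ, h2]
    rw [hg0, mul_add, add_mul, a1, a2, ← mul_add, add_sub_cancel, mul_one]
  refine ⟨g0 * f * g0, (hf.mul_left g0).mul_right g0, ?_, ?_⟩
  · calc g0 * f * g0 * P = g0 * f * (g0 * P) := by rw [mul_assoc]
      _ = g0 * f * (P * g0) := by rw [hg0P, hPg0]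
      _ = g0 * (f * P) * g0 := by simp only [mul_assoc]
      _ = (g0 * P) * f * g0 := by rw [hc]; simp only [mul_assoc]
      _ = P * (g0 * f * g0) := by rw [hg0P, ← hPg0]; simp only [mul_assoc]
  · calc f * (g0 * f * g0) * f = (f * g0 * f) * g0 * f := by simp only [mul_assoc]
      _ = f := by rw [key, key]

/-- A finite rank map supported on the corner of `P` is a combination of products
`a * z * b` when `z P ≠ 0`. -/
theorem exists_sum {f z P : Module.End F V} (hP : P * P = P) (hf : FR f) (hfP : P * f * P = f)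
    (hz : z * P = P * z) (hz0 : z * P ≠ 0) :
    ∃ (n : ℕ) (a b : Fin n → Module.End F V), (∀ i, FR (a i) ∧ a i * P = P * a i) ∧
      (∀ i, FR (b i) ∧ b i * P = P * b i) ∧ f = ∑ i, a i * z * b i := by
  unfold FR at hf
  obtain ⟨u, hu⟩ : ∃ u, (z * P) u ≠ 0 := by
    by_contra hc
    push Not at hc
    exact hz0 (LinearMap.ext hc)
  set u0 := P u with hu0
  have hPu0 : P u0 = u0 := by rw [hu0, ← Module.End.mul_apply, hP]
  have hzu0 : z u0 ≠ 0 := hu
  obtain ⟨μ0, hμ0⟩ : ∃ g : V →ₗ[F] F, g (z u0) = 1 := by
    by_contra hc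
    push Not at hc
    apply hzu0
    rw [← Module.forall_dual_apply_eq_zero_iff F]
    intro φ
    by_contra h0
    exact hc ((φ (z u0))⁻¹ • φ) (by
      rw [LinearMap.smul_apply, smul_eq_mul, inv_mul_cancel₀ h0])
  set μ : V →ₗ[F] F := μ0 ∘ₗ P with hμ
  have hμz : μ (z u0) = 1 := by
    have : P (z u0) = z u0 := by
      rw [← Module.End.mul_apply, ← hz, Module.End.mul_apply, hPu0]
    rw [hμ, LinearMap.comp_apply, this, hμ0]
  have hμP : ∀ x, μ (P x) = μ x := by
    intro x
    rw [hμ, LinearMap.comp_apply, LinearMap.comp_apply, ← Module.End.mul_apply, hP]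
  let b := Module.finBasis F (LinearMap.range f)
  have hfx : ∀ x, f x = ∑ i, (b.coord i (f.rangeRestrict x)) • (b i : V) := by
    intro x
    have h1 := b.sum_repr (f.rangeRestrict x)
    have h2 := congrArg (Submodule.subtype (LinearMap.range f)) h1
    rw [map_sum] at h2
    simp only [map_smul] at h2
    exact h2.symm
  have hbP : ∀ i, P (b i : V) = b i := by
    intro i
    obtain ⟨y, hy⟩ := (b i).2
    rw [← hy, ← hfP]
    simp only [Module.End.mul_apply]
    rw [← Module.End.mul_apply P P, hP]
  have hfP' : ∀ x, f.rangeRestrict (P x) = f.rangeRestrict x := by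
    intro x
    apply Subtype.ext
    show f (P x) = f x
    conv_lhs => rw [← hfP]
    conv_rhs => rw [← hfP]
    simp only [Module.End.mul_apply]
    rw [← Module.End.mul_apply P P x, hP]
  have hsr : ∀ (lam : V →ₗ[F] F) (v : V), FR (lam.smulRight v : Module.End F V) := by
    intro lam v
    exact FR.of_mem (K := F ∙ v) (fun x => Submodule.mem_span_singleton.2 ⟨lam x, rfl⟩)
  refine ⟨_, fun i => μ.smulRight (b i : V),
    fun i => ((b.coord i) ∘ₗ f.rangeRestrict).smulRight u0, ?_, ?_, ?_⟩
  · intro i
    refine ⟨hsr _ _, ?_⟩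
    ext x
    simp only [Module.End.mul_apply, LinearMap.smulRight_apply, map_smul, hbP, hμP]
  · intro i
    refine ⟨hsr _ _, ?_⟩
    ext x
    simp only [Module.End.mul_apply, LinearMap.smulRight_apply, map_smul, hPu0,
      LinearMap.comp_apply, hfP']
  · ext x
    rw [LinearMap.sum_apply, hfx x]
    refine Finset.sum_congr rfl fun i _ => ?_
    simp only [Module.End.mul_apply, LinearMap.smulRight_apply, map_smul, LinearMap.comp_apply,
      hμz, one_smul]

end Q34.UR
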