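import Pool.Agent.Q34.UrA

set_option autoImplicit false

/-!
# Block diagonal maps and the tower
-/

namespace Q34.UR

section tri

variable {F V : Type} [Field F] [AddCommGroup V] [Module F V] (th : V ≃ₗ[F] V × V × V)

/-- the block diagonal map -/
def tri (x y w : Module.End F V) : Module.End F V :=
  th.symm.toLinearMap ∘ₗ (x.prodMap (y.prodMap w)) ∘ₗ th.toLinearMap

theorem tri_apply (x y w : Module.End F V) (v : V) :
    tri th x y w v = th.symm (x (th v).1, y (th v).2.1, w (th v).2.2) := rfl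

theorem th_tri (x y w : Module.End F V) (v : V) :
    th (tri th x y w v) = (x (th v).1, y (th v).2.1, w (th v).2.2) := by
  rw [tri_apply, LinearEquiv.apply_symm_apply]

theorem tri_mul (x y w x' y' w' : Module.End F V) :
    tri th x y w * tri th x' y' w' = tri th (x * x') (y * y') (w * w') := by
  ext v
  apply th.injective
  rw [Module.End.mul_apply, th_tri, th_tri, th_tri]
  rfl

theorem tri_one : tri th 1 1 1 = 1 := by
  ext v
  apply th.injective
  rw [th_tri]
  rfl

theorem tri_add (x y w x' y' w' : Module.End F V) :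
    tri th x y w + tri th x' y' w' = tri th (x + x') (y + y') (w + w') := by
  ext v
  apply th.injective
  rw [LinearMap.add_apply, map_add, th_tri, th_tri, th_tri]
  rfl

theorem tri_zero : tri th 0 0 0 = 0 := by
  ext v
  apply th.injective
  rw [th_tri]
  exact (map_zero th).symm

theorem tri_neg (x y w : Module.End F V) : - tri th x y w = tri th (-x) (-y) (-w) := by
  rw [neg_eq_iff_add_eq_zero, tri_add, add_neg_cancel, add_neg_cancel, add_neg_cancel, tri_zero]

theorem tri_sub (x y w x' y' w' : Module.End F V) :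
    tri th x y w - tri th x' y' w' = tri th (x - x') (y - y') (w - w') := by
  rw [sub_eq_add_neg, tri_neg, tri_add, ← sub_eq_add_neg, ← sub_eq_add_neg, ← sub_eq_add_neg]

theorem tri_eq_zero {x y w : Module.End F V} (h : tri th x y w = 0) : x = 0 ∧ y = 0 ∧ w = 0 := by
  have key : ∀ a b c : V, (x a, y b, w c) = (0 : V × V × V) := by
    intro a b c
    have h1 := congrArg th (LinearMap.congr_fun h (th.symm (a, b, c)))
    rw [th_tri, LinearEquiv.apply_symm_apply, LinearMap.zero_apply, map_zero] at h1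
    exact h1
  refine ⟨?_, ?_, ?_⟩
  · ext a
    exact congrArg Prod.fst (key a 0 0)
  · ext b
    exact congrArg (fun p : V × V × V => p.2.1) (key 0 b 0)
  · ext c
    exact congrArg (fun p : V × V × V => p.2.2) (key 0 0 c)

/-- the inclusion of the product of the ranges -/
def incl (x y w : Module.End F V) :
    (LinearMap.range x × LinearMap.range y × LinearMap.range w) →ₗ[F] V :=
  th.symm.toLinearMap ∘ₗ ((LinearMap.range x).subtype.prodMap
    ((LinearMap.range y).subtype.prodMap (LinearMap.range w).subtype))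

theorem incl_inj (x y w : Module.End F V) : Function.Injective (incl th x y w) := by
  intro a b h
  have h1 := th.symm.injective h
  obtain ⟨a1, a2, a3⟩ := a
  obtain ⟨b1, b2, b3⟩ := b
  have e1 : (a1 : V) = b1 := congrArg Prod.fst h1
  have e2 : (a2 : V) = b2 := congrArg (fun p : V × V × V => p.2.1) h1
  have e3 : (a3 : V) = b3 := congrArg (fun p : V × V × V => p.2.2) h1
  rw [Subtype.ext e1, Subtype.ext e2, Subtype.ext e3]

theorem range_incl (x y w : Module.End F V) :
    LinearMap.range (incl th x y w) = LinearMap.range (tri th x y w) := by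
  apply le_antisymm
  · rintro _ ⟨⟨⟨_, a, rfl⟩, ⟨_, b, rfl⟩, ⟨_, c, rfl⟩⟩, rfl⟩
    refine ⟨th.symm (a, b, c), ?_⟩
    rw [tri_apply, LinearEquiv.apply_symm_apply]
    rfl
  · rintro _ ⟨v, rfl⟩
    exact ⟨(⟨_, (th v).1, rfl⟩, ⟨_, (th v).2.1, rfl⟩, ⟨_, (th v).2.2, rfl⟩), rfl⟩

theorem FR.tri {x y w : Module.End F V} (hx : FR x) (hy : FR y) (hw : FR w) :
    FR (tri th x y w) := by
  unfold FR at *
  rw [← range_incl]
  infer_instance

/-- the rank -/
noncomputable def rk (x : Module.End F V) : ℕ := Module.finrank F (LinearMap.range x)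

theorem rk_tri {x y w : Module.End F V} (hx : FR x) (hy : FR y) (hw : FR w) :
    rk (Q34.UR.tri th x y w) = rk x + (rk y + rk w) := by
  unfold FR at *
  unfold rk
  rw [← range_incl, LinearMap.finrank_range_of_inj (incl_inj th x y w), Module.finrank_prod,
    Module.finrank_prod]

theorem rk_mul_right {x : Module.End F V} (hx : FR x) (y : Module.End F V) :
    rk (x * y) ≤ rk x := by
  unfold FR at hx
  apply Submodule.finrank_mono
  rintro _ ⟨v, rfl⟩
  exact ⟨y v, rfl⟩

theorem rk_mul_left {x : Module.End F V} (hx : FR x) (y : Module.End F V) :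
    rk (y * x) ≤ rk x := by
  unfold FR at hx
  have h1 : LinearMap.range (y * x) = (LinearMap.range x).map y := by
    rw [Module.End.mul_eq_comp, LinearMap.range_comp]
  unfold rk
  rw [h1]
  exact Submodule.finrank_map_le _ _

/-- equivalent idempotents have the same rank -/
theorem rk_equiv {x y : Module.End F V} (h1 : FR (x * y)) (h2 : FR (y * x))
    (hi : (x * y) * (x * y) = x * y) (hj : (y * x) * (y * x) = y * x) :
    rk (x * y) = rk (y * x) := by
  apply le_antisymm
  · calc rk (x * y) = rk (x * ((y * x) * y)) := by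
          congr 1
          rw [← hi]; simp only [mul_assoc]
      _ ≤ rk ((y * x) * y) := rk_mul_left (h2.mul_right y) x
      _ ≤ rk (y * x) := rk_mul_right h2 y
  · calc rk (y * x) = rk (y * ((x * y) * x)) := by
          congr 1
          rw [← hj]; simp only [mul_assoc]
      _ ≤ rk ((x * y) * x) := rk_mul_left (h1.mul_right x) y
      _ ≤ rk (x * y) := rk_mul_right h1 x

end tri

/-- the data of the construction -/
structure Dat (F V K : Type) [Field F] [AddCommGroup V] [Module F V] [Field K] where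
  th : V ≃ₗ[F] V × V × V
  P0 : Module.End F V
  hP : P0 * P0 = P0
  D : K → Module.End F V
  D_add : ∀ a b, D (a + b) = D a + D b
  D_one : D 1 = 1
  D_mul : ∀ a b, FR (D a * D b - D (a * b))
  D_comm : ∀ a, D a * P0 = P0 * D a
  D_unit : ∀ a, a ≠ 0 → ∃ g : (Module.End F V)ˣ, FR (D a - (g : Module.End F V))
  inf : ¬ FR (1 : Module.End F V)
  t : K
  s : K
  E0 : Module.End F V
  F0 : Module.End F V
  hE : D s * D t = 1 - E0
  hF : D t * D s = 1 - F0
  hTE : D t * E0 = 0
  hFT : F0 * D t = 0
  hEF : FR E0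
  hFF : FR F0
  hEr : rk (E0 * P0) = 0
  hEr' : rk (E0 * (1 - P0)) = 1
  hFr : rk (F0 * P0) = 1
  hFr' : rk (F0 * (1 - P0)) = 0

namespace Dat

variable {F V K : Type} [Field F] [AddCommGroup V] [Module F V] [Field K] (d : Dat F V K)

theorem D_zero : d.D 0 = 0 := by
  have := d.D_add 0 0
  rw [add_zero] at this
  exact left_eq_add.1 this

theorem D_neg (a : K) : d.D (-a) = - d.D a := by
  have := d.D_add (-a) a
  rw [neg_add_cancel, d.D_zero] at this
  exact (neg_eq_of_add_eq_zero_left this.symm).symm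

/-- three copies -/
def phi : Module.End F V →+* Module.End F V where
  toFun z := tri d.th z z z
  map_one' := tri_one _
  map_mul' _ _ := (tri_mul _ _ _ _ _ _ _).symm
  map_zero' := tri_zero _
  map_add' _ _ := (tri_add _ _ _ _ _ _ _).symm

theorem phi_apply (z : Module.End F V) : d.phi z = tri d.th z z z := rfl

theorem phi_inj : Function.Injective d.phi := by
  rw [injective_iff_map_eq_zero]
  intro z hz
  exact (tri_eq_zero _ hz).1

theorem FR_phi {z : Module.End F V} (h : FR z) : FR (d.phi z) := FR.tri _ h h h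

/-- the projections -/
def P : ℕ → Module.End F V
  | 0 => d.P0
  | k + 1 => tri d.th (P k) (P k) (1 - P k)

theorem P_succ (k : ℕ) : d.P (k + 1) = tri d.th (d.P k) (d.P k) (1 - d.P k) := rfl

theorem one_sub_P_succ (k : ℕ) :
    1 - d.P (k + 1) = tri d.th (1 - d.P k) (1 - d.P k) (d.P k) := by
  rw [P_succ]
  nth_rw 1 [← tri_one d.th]
  rw [tri_sub, sub_sub_cancel]

theorem P_idem (k : ℕ) : d.P k * d.P k = d.P k := by
  induction k with
  | zero => exact d.hP
  | succ k ih =>
    rw [P_succ, tri_mul, ih]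
    congr 1
    rw [mul_sub, mul_one, sub_mul, one_mul, ih, sub_self, sub_zero]

theorem Q_idem (k : ℕ) : (1 - d.P k) * (1 - d.P k) = 1 - d.P k := by
  rw [mul_sub, mul_one, sub_mul, one_mul, d.P_idem, sub_self, sub_zero]

/-- the lifts of the elements of the field -/
def DD : ℕ → K → Module.End F V
  | 0, a => d.D a
  | k + 1, a => d.phi (DD k a)

theorem DD_succ (k : ℕ) (a : K) : d.DD (k + 1) a = d.phi (d.DD k a) := rfl

theorem DD_add (k : ℕ) (a b : K) : d.DD k (a + b) = d.DD k a + d.DD k b := by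
  induction k with
  | zero => exact d.D_add a b
  | succ k ih => rw [DD_succ, ih, map_add]; rfl

theorem DD_neg (k : ℕ) (a : K) : d.DD k (-a) = - d.DD k a := by
  induction k with
  | zero => exact d.D_neg a
  | succ k ih => rw [DD_succ, ih, map_neg]; rfl

theorem DD_zero (k : ℕ) : d.DD k 0 = 0 := by
  induction k with
  | zero => exact d.D_zero
  | succ k ih => rw [DD_succ, ih, map_zero]

theorem DD_one (k : ℕ) : d.DD k 1 = 1 := by
  induction k with
  | zero => exact d.D_one
  | succ k ih => rw [DD_succ, ih, map_one]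

theorem DD_mul (k : ℕ) (a b : K) : FR (d.DD k a * d.DD k b - d.DD k (a * b)) := by
  induction k with
  | zero => exact d.D_mul a b
  | succ k ih =>
    have := d.FR_phi ih
    rwa [map_sub, map_mul] at this

theorem comm_succ {k : ℕ} {z : Module.End F V} (h : z * d.P k = d.P k * z) :
    d.phi z * d.P (k + 1) = d.P (k + 1) * d.phi z := by
  rw [phi_apply, P_succ, tri_mul, tri_mul, h, mul_sub, mul_one, h, sub_mul, one_mul]

theorem DD_comm (k : ℕ) (a : K) : d.DD k a * d.P k = d.P k * d.DD k a := by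
  induction k with
  | zero => exact d.D_comm a
  | succ k ih => exact d.comm_succ ih

theorem DD_unit (k : ℕ) (a : K) (ha : a ≠ 0) :
    ∃ g : (Module.End F V)ˣ, FR (d.DD k a - (g : Module.End F V)) := by
  induction k with
  | zero => exact d.D_unit a ha
  | succ k ih =>
    obtain ⟨g, hg⟩ := ih
    refine ⟨Units.map d.phi.toMonoidHom g, ?_⟩
    have := d.FR_phi hg
    rwa [map_sub] at this

/-- the rings of the tower -/
def Mem (k : ℕ) (z : Module.End F V) : Prop :=
  z * d.P k = d.P k * z ∧ ∃ a, FR (z - d.DD k a)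

theorem Mem.mk' {k : ℕ} {z : Module.End F V} (a : K) (h : z * d.P k = d.P k * z)
    (h' : FR (z - d.DD k a)) : d.Mem k z := ⟨h, a, h'⟩

theorem Mem.of_FR {k : ℕ} {z : Module.End F V} (h : z * d.P k = d.P k * z) (h' : FR z) :
    d.Mem k z := ⟨h, 0, by rw [d.DD_zero, sub_zero]; exact h'⟩

theorem Mem.dd (k : ℕ) (a : K) : d.Mem k (d.DD k a) :=
  ⟨d.DD_comm k a, a, by rw [sub_self]; exact FR.zero⟩

theorem Mem.zero (k : ℕ) : d.Mem k 0 := by
  have := Mem.dd d k 0
  rwa [d.DD_zero] at this

theorem Mem.one (k : ℕ) : d.Mem k 1 := by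
  have := Mem.dd d k 1
  rwa [d.DD_one] at this

variable {d}

theorem Mem.add {k : ℕ} {z w : Module.End F V} (h : d.Mem k z) (h' : d.Mem k w) :
    d.Mem k (z + w) := by
  obtain ⟨h1, a, h2⟩ := h
  obtain ⟨h1', a', h2'⟩ := h'
  refine ⟨by rw [add_mul, mul_add, h1, h1'], a + a', ?_⟩
  rw [d.DD_add, add_sub_add_comm]
  exact h2.add h2'

theorem Mem.neg {k : ℕ} {z : Module.End F V} (h : d.Mem k z) : d.Mem k (-z) := by
  obtain ⟨h1, a, h2⟩ := h
  refine ⟨by rw [neg_mul, mul_neg, h1], -a, ?_⟩
  rw [d.DD_neg, ← neg_sub']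
  exact h2.neg

theorem FR_mul_sub {k : ℕ} {z w : Module.End F V} {a b : K} (h : FR (z - d.DD k a))
    (h' : FR (w - d.DD k b)) : FR (z * w - d.DD k (a * b)) := by
  have e : z * w - d.DD k (a * b) = (z - d.DD k a) * w + d.DD k a * (w - d.DD k b) +
      (d.DD k a * d.DD k b - d.DD k (a * b)) := by
    rw [sub_mul, mul_sub]; abel
  rw [e]
  exact ((h.mul_right _).add (h'.mul_left _)).add (d.DD_mul k a b)

theorem Mem.mul {k : ℕ} {z w : Module.End F V} (h : d.Mem k z) (h' : d.Mem k w) :
    d.Mem k (z * w) := by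
  obtain ⟨h1, a, h2⟩ := h
  obtain ⟨h1', a', h2'⟩ := h'
  refine ⟨?_, a * a', FR_mul_sub h2 h2'⟩
  rw [mul_assoc, h1', ← mul_assoc, h1, mul_assoc]

theorem Mem.succ {k : ℕ} {z : Module.End F V} (h : d.Mem k z) : d.Mem (k + 1) (d.phi z) := by
  obtain ⟨h1, a, h2⟩ := h
  refine ⟨d.comm_succ h1, a, ?_⟩
  have := d.FR_phi h2
  rwa [map_sub] at this

/-- The rings of the tower are regular. -/
theorem Mem.regular {k : ℕ} {z : Module.End F V} (h : d.Mem k z) :
    ∃ w, d.Mem k w ∧ z * w * z = z := by
  obtain ⟨h1, a, h2⟩ := h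
  by_cases ha : a = 0
  · subst ha
    rw [d.DD_zero, sub_zero] at h2
    obtain ⟨g, g1, g2, g3⟩ := exists_inner_comm (d.P_idem k) h2 h1
    exact ⟨g, Mem.of_FR d g2 g1, g3⟩
  · have hy := Mem.dd d k a⁻¹
    set y := d.DD k a⁻¹ with hyd
    have hz : d.Mem k z := ⟨h1, a, h2⟩
    have hfr : FR (z - z * y * z) := by
      have k1 : FR (z * y - d.DD k (a * a⁻¹)) := FR_mul_sub h2 (by
        rw [sub_self]; exact FR.zero)
      rw [mul_inv_cancel₀ ha, d.DD_one] at k1
      have k2 := (k1.mul_right z).neg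
      have e : -((z * y - 1) * z) = z - z * y * z := by
        rw [sub_mul, one_mul, neg_sub]
      rwa [e] at k2
    have hm : d.Mem k (z - z * y * z) := by
      rw [sub_eq_add_neg]; exact hz.add ((hz.mul hy).mul hz).neg
    obtain ⟨g, g1, g2, g3⟩ := exists_inner_comm (d.P_idem k) hfr hm.1
    have hg : d.Mem k g := Mem.of_FR d g2 g1
    have m1 : d.Mem k (1 - y * z) := by
      rw [sub_eq_add_neg]; exact (Mem.one d k).add (hy.mul hz).neg
    have m2 : d.Mem k (1 - z * y) := by
      rw [sub_eq_add_neg]; exact (Mem.one d k).add (hz.mul hy).neg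
    refine ⟨y + (1 - y * z) * g * (1 - z * y), hy.add ((m1.mul hg).mul m2), ?_⟩
    have e1 : z * (1 - y * z) = z - z * y * z := by rw [mul_sub, mul_one, mul_assoc]
    have e2 : (1 - z * y) * z = z - z * y * z := by rw [sub_mul, one_mul]
    calc z * (y + (1 - y * z) * g * (1 - z * y)) * z
        = z * y * z + (z * (1 - y * z)) * g * ((1 - z * y) * z) := by
          rw [mul_add, add_mul]; simp only [mul_assoc]
      _ = z := by rw [e1, e2, g3]; abel

/-- The rings of the tower are directly finite. -/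
theorem Mem.finite {k : ℕ} {x y : Module.End F V} (h : d.Mem k x) (hxy : x * y = 1) :
    y * x = 1 := by
  obtain ⟨h1, a, h2⟩ := h
  have ha : a ≠ 0 := by
    rintro rfl
    rw [d.DD_zero, sub_zero] at h2
    apply d.inf
    rw [← hxy]
    exact h2.mul_right y
  obtain ⟨g, hg⟩ := d.DD_unit k a ha
  have h3 : FR (x - (g : Module.End F V)) := by
    have := h2.add hg
    rwa [sub_add_sub_cancel] at this
  exact comm_of_unit h3 hxy

/-- Commutators have finite rank. -/
theorem Mem.commutator {k : ℕ} {x y : Module.End F V} (h : d.Mem k x) (h' : d.Mem k y) :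
    FR (x * y - y * x) := by
  obtain ⟨h1, a, h2⟩ := h
  obtain ⟨h1', a', h2'⟩ := h'
  have k1 := FR_mul_sub h2 h2'
  have k2 := FR_mul_sub h2' h2
  rw [mul_comm a' a] at k2
  have := k1.sub k2
  rwa [sub_sub_sub_cancel_right] at this

/-- Finite rank elements at the next level lie in the ideal of a nonzero element. -/
theorem exists_sum_succ {k : ℕ} {z f : Module.End F V} (hz : d.Mem k z) (hz0 : z ≠ 0)
    (hf : FR f) (hfc : f * d.P (k + 1) = d.P (k + 1) * f) :
    ∃ (n : ℕ) (a b : Fin n → Module.End F V), (∀ i, d.Mem (k + 1) (a i)) ∧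
      (∀ i, d.Mem (k + 1) (b i)) ∧ f = ∑ i, a i * d.phi z * b i := by
  have hzc := hz.1
  have hsum : z * d.P k + z * (1 - d.P k) = z := by rw [← mul_add, add_sub_cancel, mul_one]
  have hPne : d.phi z * d.P (k + 1) ≠ 0 := by
    intro h
    rw [phi_apply, P_succ, tri_mul] at h
    obtain ⟨e1, -, e3⟩ := tri_eq_zero _ h
    rw [e1, e3, add_zero] at hsum
    exact hz0 hsum.symm
  have hQne : d.phi z * (1 - d.P (k + 1)) ≠ 0 := by
    intro h
    rw [phi_apply, one_sub_P_succ, tri_mul] at h
    obtain ⟨e1, -, e3⟩ := tri_eq_zero _ h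
    rw [e1, e3, add_zero] at hsum
    exact hz0 hsum.symm
  set P := d.P (k + 1) with hPd
  have hP : P * P = P := d.P_idem (k + 1)
  have hQ : (1 - P) * (1 - P) = 1 - P := d.Q_idem (k + 1)
  have hphic : d.phi z * P = P * d.phi z := d.comm_succ hzc
  have hfP : P * (P * f) * P = P * f := by
    rw [← mul_assoc, hP, ← hfc, mul_assoc, hP]
  have hfQc : f * (1 - P) = (1 - P) * f := by rw [mul_sub, mul_one, sub_mul, one_mul, hfc]
  have hfQ : (1 - P) * ((1 - P) * f) * (1 - P) = (1 - P) * f := by
    rw [← mul_assoc, hQ, ← hfQc, mul_assoc, hQ]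
  have hcomm : ∀ a : Module.End F V, a * (1 - P) = (1 - P) * a → a * P = P * a := by
    intro a ha
    rw [mul_sub, mul_one, sub_mul, one_mul] at ha
    exact sub_right_injective ha
  obtain ⟨n, a, b, ha, hb, h1⟩ := exists_sum hP (hf.mul_left P) hfP hphic hPne
  obtain ⟨n', a', b', ha', hb', h1'⟩ := exists_sum hQ (hf.mul_left (1 - P)) hfQ
    (by rw [mul_sub, mul_one, sub_mul, one_mul, hphic]) hQne
  refine ⟨n + n', Fin.append a a', Fin.append b b', ?_, ?_, ?_⟩
  · intro i
    refine Fin.addCases (fun i => ?_) (fun i => ?_) i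
    · rw [Fin.append_left]; exact Mem.of_FR d (ha i).2 (ha i).1
    · rw [Fin.append_right]; exact Mem.of_FR d (hcomm _ (ha' i).2) (ha' i).1
  · intro i
    refine Fin.addCases (fun i => ?_) (fun i => ?_) i
    · rw [Fin.append_left]; exact Mem.of_FR d (hb i).2 (hb i).1
    · rw [Fin.append_right]; exact Mem.of_FR d (hcomm _ (hb' i).2) (hb' i).1
  · rw [Fin.sum_univ_add]
    simp only [Fin.append_left, Fin.append_right]
    rw [← h1, ← h1', ← add_mul, add_sub_cancel, one_mul]

variable (d)

/-- the two idempotents at all levels -/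
def EE : ℕ → Module.End F V
  | 0 => d.E0
  | k + 1 => d.phi (EE k)

/-- the two idempotents at all levels -/
def FF : ℕ → Module.End F V
  | 0 => d.F0
  | k + 1 => d.phi (FF k)

theorem EE_FR (k : ℕ) : FR (d.EE k) := by
  induction k with
  | zero => exact d.hEF
  | succ k ih => exact d.FR_phi ih

theorem FF_FR (k : ℕ) : FR (d.FF k) := by
  induction k with
  | zero => exact d.hFF
  | succ k ih => exact d.FR_phi ih

theorem EE_eq (k : ℕ) : d.DD k d.s * d.DD k d.t = 1 - d.EE k := by
  induction k with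
  | zero => exact d.hE
  | succ k ih => rw [DD_succ, DD_succ, ← map_mul, ih, map_sub, map_one]; rfl

theorem FF_eq (k : ℕ) : d.DD k d.t * d.DD k d.s = 1 - d.FF k := by
  induction k with
  | zero => exact d.hF
  | succ k ih => rw [DD_succ, DD_succ, ← map_mul, ih, map_sub, map_one]; rfl

theorem TE (k : ℕ) : d.DD k d.t * d.EE k = 0 := by
  induction k with
  | zero => exact d.hTE
  | succ k ih =>
    show d.phi (d.DD k d.t) * d.phi (d.EE k) = 0
    rw [← map_mul, ih, map_zero]

theorem FT (k : ℕ) : d.FF k * d.DD k d.t = 0 := by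
  induction k with
  | zero => exact d.hFT
  | succ k ih =>
    show d.phi (d.FF k) * d.phi (d.DD k d.t) = 0
    rw [← map_mul, ih, map_zero]

theorem ranks (k : ℕ) : ∃ a b : ℕ, rk (d.EE k * d.P k) = a ∧ rk (d.FF k * d.P k) = a + 1 ∧
    rk (d.EE k * (1 - d.P k)) = b + 1 ∧ rk (d.FF k * (1 - d.P k)) = b := by
  induction k with
  | zero => exact ⟨0, 0, d.hEr, by rw [zero_add]; exact d.hFr, by
      rw [zero_add]; exact d.hEr', d.hFr'⟩
  | succ k ih =>
    obtain ⟨a, b, h1, h2, h3, h4⟩ := ih
    have e1 : d.EE (k + 1) * d.P (k + 1) =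
        tri d.th (d.EE k * d.P k) (d.EE k * d.P k) (d.EE k * (1 - d.P k)) := by
      rw [P_succ, ← tri_mul]; rfl
    have e2 : d.FF (k + 1) * d.P (k + 1) =
        tri d.th (d.FF k * d.P k) (d.FF k * d.P k) (d.FF k * (1 - d.P k)) := by
      rw [P_succ, ← tri_mul]; rfl
    have e3 : d.EE (k + 1) * (1 - d.P (k + 1)) =
        tri d.th (d.EE k * (1 - d.P k)) (d.EE k * (1 - d.P k)) (d.EE k * d.P k) := by
      rw [one_sub_P_succ, ← tri_mul]; rfl
    have e4 : d.FF (k + 1) * (1 - d.P (k + 1)) =
        tri d.th (d.FF k * (1 - d.P k)) (d.FF k * (1 - d.P k)) (d.FF k * d.P k) := by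
      rw [one_sub_P_succ, ← tri_mul]; rfl
    have hE := d.EE_FR k
    have hF := d.FF_FR k
    refine ⟨2 * a + b + 1, 2 * b + a + 1, ?_, ?_, ?_, ?_⟩
    · rw [e1, rk_tri _ (hE.mul_right _) (hE.mul_right _) (hE.mul_right _), h1, h3]; ring
    · rw [e2, rk_tri _ (hF.mul_right _) (hF.mul_right _) (hF.mul_right _), h2, h4]; ring
    · rw [e3, rk_tri _ (hE.mul_right _) (hE.mul_right _) (hE.mul_right _), h1, h3]; ring
    · rw [e4, rk_tri _ (hF.mul_right _) (hF.mul_right _) (hF.mul_right _), h2, h4]; ring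

/-- The lift of `t` has no unit inner inverse in the rings of the tower. -/
theorem not_unit_regular (k : ℕ) (u u' : Module.End F V) (hu : u * d.P k = d.P k * u)
    (hu' : u' * d.P k = d.P k * u') (h1 : u * u' = 1) (h2 : u' * u = 1)
    (h : d.DD k d.t * u * d.DD k d.t = d.DD k d.t) : False := by
  set T := d.DD k d.t with hT
  set T' := d.DD k d.s with hT'
  set P := d.P k with hP
  set E := d.EE k with hE
  set G := d.FF k with hG
  have hPP : P * P = P := d.P_idem k
  have hTP : T * P = P * T := d.DD_comm k d.t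
  have hTP' : T' * P = P * T' := d.DD_comm k d.s
  have eE : T' * T = 1 - E := d.EE_eq k
  have eG : T * T' = 1 - G := d.FF_eq k
  have hTE : T * E = 0 := d.TE k
  have hGT : G * T = 0 := d.FT k
  have hTT : T * T' * T = T := by rw [eG, sub_mul, one_mul, hGT, sub_zero]
  have hEdef : E = 1 - T' * T := by rw [eE, sub_sub_cancel]
  have hGdef : G = 1 - T * T' := by rw [eG, sub_sub_cancel]
  -- the equivalence
  set X := u * (1 - T * u) with hX
  set Y := G * u' * E with hY
  have hf1G : (1 - T * u) * G = 1 - T * u := by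
    rw [hGdef, mul_sub, mul_one, sub_mul, one_mul, ← mul_assoc, h, sub_self, sub_zero]
  have hGf1 : G * (1 - T * u) = G := by
    rw [mul_sub, mul_one, ← mul_assoc, hGT, zero_mul, sub_zero]
  have he1 : u * (1 - T * u) = (1 - u * T) * u := by
    rw [mul_sub, mul_one, sub_mul, one_mul, mul_assoc]
  have hEe1 : E * (1 - u * T) = 1 - u * T := by
    rw [hEdef, sub_mul, one_mul, mul_sub, mul_one]
    have : T' * T * (u * T) = T' * T := by
      rw [mul_assoc, ← mul_assoc T u T, h]
    rw [this, sub_self, sub_zero]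
  have he1E : (1 - u * T) * E = E := by
    rw [sub_mul, one_mul, mul_assoc, hTE, mul_zero, sub_zero]
  have hf1f1 : (1 - T * u) * (1 - T * u) = 1 - T * u := by
    have : T * u * (T * u) = T * u := by rw [← mul_assoc, h]
    rw [mul_sub, mul_one, sub_mul, one_mul, this, sub_self, sub_zero]
  have hEX : E * X = X := by rw [hX, he1, ← mul_assoc, hEe1]
  have hXG : X * G = X := by rw [hX, mul_assoc, hf1G]
  have hXY : X * Y = E := by
    calc X * Y = (X * G) * u' * E := by rw [hY]; simp only [mul_assoc]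
      _ = X * u' * E := by rw [hXG]
      _ = (1 - u * T) * (u * u') * E := by rw [hX, he1]; simp only [mul_assoc]
      _ = E := by rw [h1, mul_one, he1E]
  have hYX : Y * X = G := by
    calc Y * X = G * u' * (E * X) := by rw [hY]; simp only [mul_assoc]
      _ = G * (u' * u) * (1 - T * u) := by rw [hEX, hX]; simp only [mul_assoc]
      _ = G := by rw [h2, mul_one, hGf1]
  have hEP : E * P = P * E := by
    rw [hEdef, sub_mul, mul_sub, one_mul, mul_one, mul_assoc, hTP, ← mul_assoc, hTP', mul_assoc]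
  have hGP : G * P = P * G := by
    rw [hGdef, sub_mul, mul_sub, one_mul, mul_one, mul_assoc, hTP', ← mul_assoc, hTP, mul_assoc]
  have hXP : X * P = P * X := by
    have : (1 - T * u) * P = P * (1 - T * u) := by
      rw [sub_mul, mul_sub, one_mul, mul_one, mul_assoc, hu, ← mul_assoc, hTP, mul_assoc]
    rw [hX, mul_assoc, this, ← mul_assoc, hu, mul_assoc]
  have hYP : Y * P = P * Y := by
    rw [hY, mul_assoc, hEP, ← mul_assoc, mul_assoc G u' P, hu', ← mul_assoc, hGP]
    simp only [mul_assoc]
  have hEE : E * E = E := by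
    nth_rw 1 [hEdef]
    rw [sub_mul, one_mul, mul_assoc, hTE, mul_zero, sub_zero]
  have hGG : G * G = G := by
    nth_rw 2 [hGdef]
    rw [mul_sub, mul_one, ← mul_assoc, hGT, zero_mul, sub_zero]
  have k1 : (X * P) * (Y * P) = E * P := by
    calc (X * P) * (Y * P) = X * (P * Y) * P := by simp only [mul_assoc]
      _ = X * Y * (P * P) := by rw [← hYP]; simp only [mul_assoc]
      _ = E * P := by rw [hXY, hPP]
  have k2 : (Y * P) * (X * P) = G * P := by
    calc (Y * P) * (X * P) = Y * (P * X) * P := by simp only [mul_assoc]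
      _ = Y * X * (P * P) := by rw [← hXP]; simp only [mul_assoc]
      _ = G * P := by rw [hYX, hPP]
  have hrk : rk (E * P) = rk (G * P) := by
    rw [← k1, ← k2]
    apply rk_equiv
    · rw [k1]; exact (d.EE_FR k).mul_right _
    · rw [k2]; exact (d.FF_FR k).mul_right _
    · rw [k1]
      calc E * P * (E * P) = E * (P * E) * P := by simp only [mul_assoc]
        _ = (E * E) * (P * P) := by rw [← hEP]; simp only [mul_assoc]
        _ = E * P := by rw [hEE, hPP]
    · rw [k2]
      calc G * P * (G * P) = G * (P * G) * P := by simp only [mul_assoc]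
        _ = (G * G) * (P * P) := by rw [← hGP]; simp only [mul_assoc]
        _ = G * P := by rw [hGG, hPP]
  obtain ⟨a, b, r1, r2, -, -⟩ := d.ranks k
  rw [← hE, ← hP] at r1
  rw [← hG, ← hP] at r2
  omega

end Dat

end Q34.UR
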