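import Pool.Agent.Q34.UrB

set_option autoImplicit false

/-!
# The limit of the tower
-/

namespace Q34.UR

open Filter

namespace Dat

variable {F V K : Type} [Field F] [AddCommGroup V] [Module F V] [Field K] (d : Dat F V K)

/-- the ring of germs of sequences -/
abbrev GG (F V : Type) [Field F] [AddCommGroup V] [Module F V] : Type :=
  Germ (atTop : Filter ℕ) (Module.End F V)

/-- the map of the `k`-th level to the germs -/
def iota (k : ℕ) : Module.End F V →+* GG F V :=
  (Germ.coeRingHom (atTop : Filter ℕ)).comp (RingHom.pi fun n => d.phi ^ (n - k))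

theorem iota_apply (k : ℕ) (z : Module.End F V) :
    d.iota k z = ((fun n => (d.phi ^ (n - k)) z : ℕ → Module.End F V) : GG F V) := rfl

theorem iota_succ (k : ℕ) (z : Module.End F V) : d.iota (k + 1) (d.phi z) = d.iota k z := by
  rw [iota_apply, iota_apply, Germ.coe_eq]
  filter_upwards [eventually_ge_atTop (k + 1)] with n hn
  obtain ⟨m, rfl⟩ := Nat.exists_eq_add_of_le hn
  have e1 : k + 1 + m - (k + 1) = m := by omega
  have e2 : k + 1 + m - k = m + 1 := by omega
  rw [e1, e2, pow_succ]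
  rfl

theorem iota_inj (k : ℕ) : Function.Injective (d.iota k) := by
  rw [injective_iff_map_eq_zero]
  intro z hz
  rw [iota_apply, ← Germ.coe_zero, Germ.coe_eq] at hz
  obtain ⟨n, hn⟩ := hz.exists
  have h1 : Function.Injective (d.phi ^ (n - k) : Module.End F V →+* Module.End F V) := by
    rw [RingHom.coe_pow]
    exact d.phi_inj.iterate _
  apply h1
  rw [map_zero]
  exact hn

/-- the limit ring -/
def RR : Subring (GG F V) where
  carrier := {g | ∃ k z, d.Mem k z ∧ d.iota k z = g}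
  one_mem' := ⟨0, 1, Mem.one d 0, map_one _⟩
  zero_mem' := ⟨0, 0, Mem.zero d 0, map_zero _⟩
  neg_mem' := by
    rintro _ ⟨k, z, hz, rfl⟩
    exact ⟨k, -z, hz.neg, map_neg _ _⟩
  mul_mem' := by
    rintro _ _ ⟨k, z, hz, rfl⟩ ⟨l, w, hw, rfl⟩
    obtain ⟨z', hz', e1⟩ : ∃ z', d.Mem (max k l) z' ∧ d.iota (max k l) z' = d.iota k z := by
      obtain ⟨m, hm⟩ := Nat.exists_eq_add_of_le (le_max_left k l)
      rw [hm]
      clear hm
      induction m with
      | zero => exact ⟨z, hz, rfl⟩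
      | succ m ih =>
        obtain ⟨z', h1, h2⟩ := ih
        exact ⟨d.phi z', h1.succ, by rw [← add_assoc, d.iota_succ, h2]⟩
    obtain ⟨w', hw', e2⟩ : ∃ w', d.Mem (max k l) w' ∧ d.iota (max k l) w' = d.iota l w := by
      obtain ⟨m, hm⟩ := Nat.exists_eq_add_of_le (le_max_right k l)
      rw [hm]
      clear hm
      induction m with
      | zero => exact ⟨w, hw, rfl⟩
      | succ m ih =>
        obtain ⟨w', h1, h2⟩ := ih
        exact ⟨d.phi w', h1.succ, by rw [← add_assoc, d.iota_succ, h2]⟩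
    exact ⟨max k l, z' * w', hz'.mul hw', by rw [map_mul, e1, e2]⟩
  add_mem' := by
    rintro _ _ ⟨k, z, hz, rfl⟩ ⟨l, w, hw, rfl⟩
    obtain ⟨z', hz', e1⟩ : ∃ z', d.Mem (max k l) z' ∧ d.iota (max k l) z' = d.iota k z := by
      obtain ⟨m, hm⟩ := Nat.exists_eq_add_of_le (le_max_left k l)
      rw [hm]
      clear hm
      induction m with
      | zero => exact ⟨z, hz, rfl⟩
      | succ m ih =>
        obtain ⟨z', h1, h2⟩ := ih
        exact ⟨d.phi z', h1.succ, by rw [← add_assoc, d.iota_succ, h2]⟩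
    obtain ⟨w', hw', e2⟩ : ∃ w', d.Mem (max k l) w' ∧ d.iota (max k l) w' = d.iota l w := by
      obtain ⟨m, hm⟩ := Nat.exists_eq_add_of_le (le_max_right k l)
      rw [hm]
      clear hm
      induction m with
      | zero => exact ⟨w, hw, rfl⟩
      | succ m ih =>
        obtain ⟨w', h1, h2⟩ := ih
        exact ⟨d.phi w', h1.succ, by rw [← add_assoc, d.iota_succ, h2]⟩
    exact ⟨max k l, z' + w', hz'.add hw', by rw [map_add, e1, e2]⟩

theorem mem_RR {g : GG F V} : g ∈ d.RR ↔ ∃ k z, d.Mem k z ∧ d.iota k z = g := Iff.rfl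

/-- The elements of the limit ring are represented at all large levels. -/
theorem exists_rep_ge (g : d.RR) : ∃ k, ∀ l, k ≤ l → ∃ z, d.Mem l z ∧ d.iota l z = g.1 := by
  obtain ⟨k, z, hz, h⟩ := g.2
  refine ⟨k, fun l hl => ?_⟩
  obtain ⟨m, rfl⟩ := Nat.exists_eq_add_of_le hl
  clear hl
  induction m with
  | zero => exact ⟨z, hz, h⟩
  | succ m ih =>
    obtain ⟨z', h1, h2⟩ := ih
    exact ⟨d.phi z', h1.succ, by rw [← add_assoc, d.iota_succ, h2]⟩

/-- the elements of the levels as elements of the limit -/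
def el (k : ℕ) (z : Module.End F V) (h : d.Mem k z) : d.RR := ⟨d.iota k z, k, z, h, rfl⟩

theorem RR_regular (a : d.RR) : ∃ x : d.RR, a * x * a = a := by
  obtain ⟨k, z, hz, h⟩ := a.2
  obtain ⟨w, hw, e⟩ := hz.regular
  refine ⟨d.el k w hw, ?_⟩
  apply Subtype.ext
  show a.1 * d.iota k w * a.1 = a.1
  rw [← h, ← map_mul, ← map_mul, e]

theorem RR_finite (x y : d.RR) (hxy : x * y = 1) : y * x = 1 := by
  obtain ⟨k, hk⟩ := d.exists_rep_ge x
  obtain ⟨l, hl⟩ := d.exists_rep_ge y
  obtain ⟨z, hz, ez⟩ := hk (max k l) (le_max_left _ _)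
  obtain ⟨w, hw, ew⟩ := hl (max k l) (le_max_right _ _)
  have h1 : x.1 * y.1 = 1 := congrArg Subtype.val hxy
  have h2 : z * w = 1 := by
    apply d.iota_inj (max k l)
    rw [map_mul, ez, ew, h1, map_one]
  have h3 := hz.finite h2
  apply Subtype.ext
  show y.1 * x.1 = 1
  rw [← ez, ← ew, ← map_mul, h3, map_one]

/-- All homomorphic images are directly finite. -/
theorem RR_images (S : Type) [Ring S] (f : d.RR →+* S) (hf : Function.Surjective f)
    (x y : S) (hxy : x * y = 1) : y * x = 1 := by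
  by_cases hinj : Function.Injective f
  · obtain ⟨X, rfl⟩ := hf x
    obtain ⟨Y, rfl⟩ := hf y
    rw [← map_mul, ← map_one f] at hxy
    have h1 := d.RR_finite X Y (hinj hxy)
    rw [← map_mul, h1, map_one]
  · -- `f` kills the finite rank elements
    rw [injective_iff_map_eq_zero] at hinj
    push Not at hinj
    obtain ⟨Z, hZ, hZ0⟩ := hinj
    obtain ⟨X, rfl⟩ := hf x
    obtain ⟨Y, rfl⟩ := hf y
    obtain ⟨k, hk⟩ := d.exists_rep_ge X
    obtain ⟨l, hl⟩ := d.exists_rep_ge Y
    obtain ⟨m, hm⟩ := d.exists_rep_ge Z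
    set N := max k (max l m) with hN
    obtain ⟨z, hz, ez⟩ := hm N (by omega)
    obtain ⟨a, ha, ea⟩ := hk (N + 1) (by omega)
    obtain ⟨b, hb, eb⟩ := hl (N + 1) (by omega)
    have hz0 : z ≠ 0 := by
      rintro rfl
      apply hZ0
      apply Subtype.ext
      rw [← ez, map_zero]
      rfl
    have hc := ha.commutator hb
    have hcm : d.Mem (N + 1) (a * b - b * a) := by
      rw [sub_eq_add_neg]; exact (ha.mul hb).add (hb.mul ha).neg
    obtain ⟨n, α, β, hα, hβ, e⟩ := exists_sum_succ hz hz0 hc hcm.1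
    have key : X * Y - Y * X = ∑ i, d.el (N + 1) (α i) (hα i) * Z * d.el (N + 1) (β i) (hβ i) := by
      apply Subtype.ext
      show X.1 * Y.1 - Y.1 * X.1 = _
      rw [← ea, ← eb, ← map_mul, ← map_mul, ← map_sub, e, map_sum]
      rw [show ((∑ i, d.el (N + 1) (α i) (hα i) * Z * d.el (N + 1) (β i) (hβ i) : d.RR) : GG F V)
        = ∑ i, ((d.el (N + 1) (α i) (hα i) * Z * d.el (N + 1) (β i) (hβ i) : d.RR) : GG F V)
        from map_sum d.RR.subtype _ _]
      refine Finset.sum_congr rfl fun i _ => ?_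
      rw [map_mul, map_mul, d.iota_succ, ez]
      rfl
    have h2 := congrArg f key
    rw [map_sub, map_mul, map_mul, map_sum] at h2
    have h3 : ∀ i, f (d.el (N + 1) (α i) (hα i) * Z * d.el (N + 1) (β i) (hβ i)) = 0 := by
      intro i
      rw [map_mul, map_mul, hZ, mul_zero, zero_mul]
    rw [Finset.sum_eq_zero (fun i _ => h3 i), sub_eq_zero] at h2
    rw [← h2, hxy]

theorem RR_not (u : (d.RR)ˣ) :
    d.el 0 (d.DD 0 d.t) (Mem.dd d 0 d.t) * (u : d.RR) * d.el 0 (d.DD 0 d.t) (Mem.dd d 0 d.t) ≠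
      d.el 0 (d.DD 0 d.t) (Mem.dd d 0 d.t) := by
  intro h
  obtain ⟨k, hk⟩ := d.exists_rep_ge (u : d.RR)
  obtain ⟨l, hl⟩ := d.exists_rep_ge ((u⁻¹ : (d.RR)ˣ) : d.RR)
  obtain ⟨v, hv, ev⟩ := hk (max k l) (le_max_left _ _)
  obtain ⟨w, hw, ew⟩ := hl (max k l) (le_max_right _ _)
  set N := max k l with hN
  have hT : ∀ n, d.iota n (d.DD n d.t) = d.iota 0 (d.DD 0 d.t) := by
    intro n
    induction n with
    | zero => rfl
    | succ n ih => rw [DD_succ, d.iota_succ, ih]
  have h1 : v * w = 1 := by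
    apply d.iota_inj N
    rw [map_mul, ev, ew, map_one, ← Subring.coe_mul, Units.mul_inv]
    rfl
  have h2 : w * v = 1 := by
    apply d.iota_inj N
    rw [map_mul, ev, ew, map_one, ← Subring.coe_mul, Units.inv_mul]
    rfl
  have h3 : d.DD N d.t * v * d.DD N d.t = d.DD N d.t := by
    apply d.iota_inj N
    rw [map_mul, map_mul, ev, hT]
    exact congrArg Subtype.val h
  exact d.not_unit_regular N v w hv.1 hw.1 h1 h2 h3

end Dat

end Q34.UR
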