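import Pool.Agent.Q34.UrC

set_option autoImplicit false

/-!
# Laurent series and their non-negative parts
-/

namespace Q34.UR

open HahnSeries

section one

variable (F : Type) [Field F]

/-- Laurent series -/
abbrev KK : Type := LaurentSeries F

/-- the negative part -/
def nu : Module.End F (KK F) := truncLTLinearMap F (0 : ℤ)

/-- the non-negative part -/
def pi : Module.End F (KK F) := 1 - nu F

/-- multiplication -/
noncomputable def LL (a : KK F) : Module.End F (KK F) where
  toFun x := a * x
  map_add' x y := mul_add a x y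
  map_smul' c x := by
    show a * (c • x) = c • (a * x)
    rw [← C_mul_eq_smul, ← C_mul_eq_smul, mul_left_comm]

theorem nu_coeff (x : KK F) (i : ℤ) : (nu F x).coeff i = if i < 0 then x.coeff i else 0 := rfl

theorem pi_coeff (x : KK F) (i : ℤ) : (pi F x).coeff i = if i < 0 then 0 else x.coeff i := by
  show (x - nu F x).coeff i = _
  rw [coeff_sub, nu_coeff]
  split_ifs <;> simp

theorem nu_nu : nu F * nu F = nu F := by
  ext x i
  show (nu F (nu F x)).coeff i = _
  rw [nu_coeff, nu_coeff]
  split_ifs <;> rfl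

theorem pi_pi : pi F * pi F = pi F := by
  rw [pi, mul_sub, mul_one, sub_mul, one_mul, nu_nu, sub_self, sub_zero]

theorem pi_nu : pi F * nu F = 0 := by
  rw [pi, sub_mul, one_mul, nu_nu, sub_self]

theorem nu_pi : nu F * pi F = 0 := by
  rw [pi, mul_sub, mul_one, nu_nu, sub_self]

theorem pi_add_nu : pi F + nu F = 1 := sub_add_cancel _ _

theorem LL_mul (a b : KK F) : LL F (a * b) = LL F a * LL F b :=
  LinearMap.ext fun x => mul_assoc a b x

theorem LL_one : LL F 1 = 1 := LinearMap.ext fun x => one_mul x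

theorem LL_add (a b : KK F) : LL F (a + b) = LL F a + LL F b :=
  LinearMap.ext fun x => add_mul a b x

theorem LL_apply (a x : KK F) : LL F a x = a * x := rfl

/-- series supported in an interval -/
def WW (m : ℤ) : Submodule F (KK F) where
  carrier := {x | ∀ i : ℤ, (i < m ∨ 0 ≤ i) → x.coeff i = 0}
  zero_mem' := fun _ _ => rfl
  add_mem' := by
    intro x y hx hy i hi
    rw [coeff_add, hx i hi, hy i hi, add_zero]
  smul_mem' := by
    intro c x hx i hi
    rw [coeff_smul, hx i hi, smul_zero]

instance (m : ℤ) : FiniteDimensional F (WW F m) := by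
  let f : WW F m →ₗ[F] (Finset.Ico m 0 → F) :=
    { toFun := fun x i => x.1.coeff i
      map_add' := fun _ _ => rfl
      map_smul' := fun _ _ => rfl }
  apply FiniteDimensional.of_injective f
  rw [injective_iff_map_eq_zero]
  intro x hx
  apply Subtype.ext
  ext i
  by_cases hi : i < m ∨ 0 ≤ i
  · exact x.2 i hi
  · push Not at hi
    exact congrFun hx ⟨i, Finset.mem_Ico.2 hi⟩

theorem FR_npa (a : KK F) : FR (nu F * LL F a * pi F) := by
  by_cases ha : a = 0
  · subst ha
    have : LL F 0 = 0 := LinearMap.ext fun x => zero_mul x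
    rw [this, mul_zero, zero_mul]
    exact FR.zero
  · apply FR.of_mem (K := WW F a.order)
    intro x i hi
    show (nu F (a * pi F x)).coeff i = 0
    rw [nu_coeff]
    split_ifs with h0
    · rw [coeff_mul]
      apply Finset.sum_eq_zero
      intro p hp
      rw [Finset.mem_antidiagonal] at hp
      obtain ⟨h1, h2, h3⟩ := hp
      exfalso
      have k1 : a.order ≤ p.1 := order_le_of_coeff_ne_zero h1
      have k2 : (pi F x).coeff p.2 ≠ 0 := h2
      rw [pi_coeff] at k2
      have k3 : 0 ≤ p.2 := by
        by_contra hc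
        exact k2 (if_pos (not_le.1 hc))
      omega
    · rfl

/-- the lifts -/
noncomputable def D1 (a : KK F) : Module.End F (KK F) :=
  pi F * LL F a * pi F + nu F * LL F a * nu F

theorem D1_add (a b : KK F) : D1 F (a + b) = D1 F a + D1 F b := by
  rw [D1, D1, D1, LL_add, mul_add, add_mul, mul_add, add_mul]; abel

theorem D1_one : D1 F 1 = 1 := by
  rw [D1, LL_one, mul_one, mul_one, pi_pi, nu_nu, pi_add_nu]

theorem D1_pi (a : KK F) : D1 F a * pi F = pi F * LL F a * pi F := by
  rw [D1, add_mul, mul_assoc _ (pi F) (pi F), pi_pi, mul_assoc _ (nu F) (pi F), nu_pi, mul_zero,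
    add_zero]

theorem pi_D1 (a : KK F) : pi F * D1 F a = pi F * LL F a * pi F := by
  rw [D1, mul_add]
  have e1 : pi F * (pi F * LL F a * pi F) = pi F * LL F a * pi F := by
    rw [← mul_assoc, ← mul_assoc, pi_pi]
  have e2 : pi F * (nu F * LL F a * nu F) = 0 := by
    rw [← mul_assoc, ← mul_assoc, pi_nu, zero_mul, zero_mul]
  rw [e1, e2, add_zero]

theorem D1_mul (a b : KK F) : FR (D1 F a * D1 F b - D1 F (a * b)) := by
  have e : D1 F a * D1 F b - D1 F (a * b) =
      -(pi F * LL F a * (nu F * LL F b * pi F) + (nu F * LL F a * pi F) * (LL F b * nu F)) := by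
    have h1 : pi F * LL F a * pi F * (pi F * LL F b * pi F) =
        pi F * LL F (a * b) * pi F - pi F * LL F a * (nu F * LL F b * pi F) := by
      rw [LL_mul]
      have : pi F * (LL F a * LL F b) * pi F =
          pi F * LL F a * (pi F + nu F) * (LL F b * pi F) := by
        rw [pi_add_nu, mul_one]; simp only [mul_assoc]
      rw [this, mul_add, add_mul]
      rw [← mul_assoc (pi F * LL F a * pi F) (pi F * LL F b) (pi F),
        ← mul_assoc (pi F * LL F a * pi F) (pi F) (LL F b), mul_assoc _ (pi F) (pi F), pi_pi]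
      simp only [mul_assoc]
      abel
    have h2 : nu F * LL F a * nu F * (nu F * LL F b * nu F) =
        nu F * LL F (a * b) * nu F - (nu F * LL F a * pi F) * (LL F b * nu F) := by
      rw [LL_mul]
      have : nu F * (LL F a * LL F b) * nu F =
          nu F * LL F a * (pi F + nu F) * (LL F b * nu F) := by
        rw [pi_add_nu, mul_one]; simp only [mul_assoc]
      rw [this, mul_add, add_mul]
      rw [← mul_assoc (nu F * LL F a * nu F) (nu F * LL F b) (nu F),
        ← mul_assoc (nu F * LL F a * nu F) (nu F) (LL F b), mul_assoc _ (nu F) (nu F), nu_nu]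
      simp only [mul_assoc]
      abel
    have h3 : pi F * LL F a * pi F * (nu F * LL F b * nu F) = 0 := by
      rw [← mul_assoc, ← mul_assoc, mul_assoc _ (pi F) (nu F), pi_nu]
      simp only [mul_zero, zero_mul]
    have h4 : nu F * LL F a * nu F * (pi F * LL F b * pi F) = 0 := by
      rw [← mul_assoc, ← mul_assoc, mul_assoc _ (nu F) (pi F), nu_pi]
      simp only [mul_zero, zero_mul]
    simp only [D1]
    rw [add_mul, mul_add, mul_add, h1, h2, h3, h4]
    abel
  rw [e]
  exact (((FR_npa F b).mul_left _).add ((FR_npa F a).mul_right _)).neg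

theorem D1_unit (a : KK F) (ha : a ≠ 0) :
    ∃ g : (Module.End F (KK F))ˣ, FR (D1 F a - (g : Module.End F (KK F))) := by
  set n := pi F * LL F a⁻¹ * pi F * LL F a * nu F with hn
  have hnn : n * n = 0 := by
    have : nu F * (pi F * LL F a⁻¹ * pi F * LL F a * nu F) = 0 := by
      simp only [← mul_assoc]
      rw [nu_pi]
      simp only [zero_mul]
    rw [hn]
    nth_rw 1 [mul_assoc]
    rw [this, mul_zero]
  have hi : LL F a * LL F a⁻¹ = 1 := by rw [← LL_mul, mul_inv_cancel₀ ha, LL_one]
  have hi' : LL F a⁻¹ * LL F a = 1 := by rw [← LL_mul, inv_mul_cancel₀ ha, LL_one]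
  refine ⟨⟨LL F a * (1 - n), (1 + n) * LL F a⁻¹, ?_, ?_⟩, ?_⟩
  · have : (1 - n) * (1 + n) = 1 := by
      rw [sub_mul, one_mul, mul_add, mul_one, hnn]; abel
    calc LL F a * (1 - n) * ((1 + n) * LL F a⁻¹) = LL F a * ((1 - n) * (1 + n)) * LL F a⁻¹ := by
          simp only [mul_assoc]
      _ = 1 := by rw [this, mul_one, hi]
  · have : (1 + n) * (1 - n) = 1 := by
      rw [add_mul, one_mul, mul_sub, mul_one, hnn]; abel
    calc (1 + n) * LL F a⁻¹ * (LL F a * (1 - n)) = (1 + n) * (LL F a⁻¹ * LL F a) * (1 - n) := by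
          simp only [mul_assoc]
      _ = 1 := by rw [hi', mul_one, this]
  · have e : D1 F a - LL F a * (1 - n) =
        -(nu F * LL F a * pi F + LL F a * (nu F * LL F a⁻¹ * pi F) * (LL F a * nu F)) := by
      have h1 : LL F a = pi F * LL F a * pi F + pi F * LL F a * nu F +
          (nu F * LL F a * pi F + nu F * LL F a * nu F) := by
        rw [← mul_add, ← mul_add, pi_add_nu, mul_one, mul_one, ← add_mul, pi_add_nu, one_mul]
      have h2 : LL F a * n = pi F * LL F a * nu F -
          LL F a * (nu F * LL F a⁻¹ * pi F) * (LL F a * nu F) := by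
        have h3 : LL F a * pi F * LL F a⁻¹ = 1 - LL F a * nu F * LL F a⁻¹ := by
          rw [eq_sub_iff_add_eq, ← add_mul, ← mul_add, pi_add_nu, mul_one, hi]
        calc LL F a * n = (LL F a * pi F * LL F a⁻¹) * (pi F * LL F a * nu F) := by
              rw [hn]; simp only [mul_assoc]
          _ = _ := by rw [h3, sub_mul, one_mul]; simp only [mul_assoc]
      rw [mul_sub, mul_one, h2, D1]
      nth_rw 3 [h1]
      abel
    show FR (D1 F a - LL F a * (1 - n))
    rw [e]
    exact ((FR_npa F a).add (((FR_npa F a⁻¹).mul_left _).mul_right _)).neg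

/-- the uniformizer -/
noncomputable def tt : KK F := single (1 : ℤ) (1 : F)

/-- its inverse -/
noncomputable def ss : KK F := single (-1 : ℤ) (1 : F)

theorem tt_ss : tt F * ss F = 1 := by
  rw [tt, ss, single_mul_single, mul_one, add_neg_cancel]; rfl

theorem ss_tt : ss F * tt F = 1 := by rw [mul_comm, tt_ss]

theorem LLt_coeff (x : KK F) (i : ℤ) : (LL F (tt F) x).coeff i = x.coeff (i - 1) := by
  rw [LL_apply, tt]
  have := coeff_single_mul_add (r := (1 : F)) (x := x) (a := i - 1) (b := (1 : ℤ))
  rwa [sub_add_cancel, one_mul] at this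

theorem LLs_coeff (x : KK F) (i : ℤ) : (LL F (ss F) x).coeff i = x.coeff (i + 1) := by
  rw [LL_apply, ss]
  have := coeff_single_mul_add (r := (1 : F)) (x := x) (a := i + 1) (b := (-1 : ℤ))
  rwa [add_neg_cancel_right, one_mul] at this

theorem D1t_coeff (x : KK F) (i : ℤ) :
    (D1 F (tt F) x).coeff i = if i = 0 then 0 else x.coeff (i - 1) := by
  show (pi F (LL F (tt F) (pi F x)) + nu F (LL F (tt F) (nu F x))).coeff i = _
  rw [coeff_add, pi_coeff, nu_coeff, LLt_coeff, LLt_coeff, pi_coeff, nu_coeff]
  split_ifs <;> first | omega | simp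

theorem D1s_coeff (x : KK F) (i : ℤ) :
    (D1 F (ss F) x).coeff i = if i = -1 then 0 else x.coeff (i + 1) := by
  show (pi F (LL F (ss F) (pi F x)) + nu F (LL F (ss F) (nu F x))).coeff i = _
  rw [coeff_add, pi_coeff, nu_coeff, LLs_coeff, LLs_coeff, pi_coeff, nu_coeff]
  split_ifs <;> first | omega | simp

theorem e_coeff (x : KK F) (i : ℤ) :
    ((1 - D1 F (ss F) * D1 F (tt F) : Module.End F (KK F)) x).coeff i =
      if i = -1 then x.coeff i else 0 := by
  show (x - D1 F (ss F) (D1 F (tt F) x)).coeff i = _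
  rw [coeff_sub, D1s_coeff, D1t_coeff, add_sub_cancel_right]
  split_ifs <;> first | omega | simp

theorem f_coeff (x : KK F) (i : ℤ) :
    ((1 - D1 F (tt F) * D1 F (ss F) : Module.End F (KK F)) x).coeff i =
      if i = 0 then x.coeff i else 0 := by
  show (x - D1 F (tt F) (D1 F (ss F) x)).coeff i = _
  rw [coeff_sub, D1t_coeff, D1s_coeff, sub_add_cancel]
  split_ifs <;> first | omega | simp

end one

section two

variable {F : Type} [Field F]

/-- diagonal maps -/
def dg (x y : Module.End F (KK F)) : Module.End F (ℕ → KK F) :=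
  LinearMap.pi fun n => (if n = 0 then x else y) ∘ₗ LinearMap.proj n

theorem dg_apply (x y : Module.End F (KK F)) (f : ℕ → KK F) (n : ℕ) :
    dg x y f n = (if n = 0 then x else y) (f n) := rfl

theorem dg_mul (x y x' y' : Module.End F (KK F)) : dg x y * dg x' y' = dg (x * x') (y * y') := by
  refine LinearMap.ext fun f => funext fun n => ?_
  rw [Module.End.mul_apply, dg_apply, dg_apply, dg_apply]
  split_ifs <;> rfl

theorem dg_add (x y x' y' : Module.End F (KK F)) : dg x y + dg x' y' = dg (x + x') (y + y') := by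
  refine LinearMap.ext fun f => funext fun n => ?_
  rw [LinearMap.add_apply, Pi.add_apply, dg_apply, dg_apply, dg_apply]
  split_ifs <;> rfl

theorem dg_sub (x y x' y' : Module.End F (KK F)) : dg x y - dg x' y' = dg (x - x') (y - y') := by
  refine LinearMap.ext fun f => funext fun n => ?_
  rw [LinearMap.sub_apply, Pi.sub_apply, dg_apply, dg_apply, dg_apply]
  split_ifs <;> rfl

theorem dg_one : dg (1 : Module.End F (KK F)) 1 = 1 := by
  refine LinearMap.ext fun f => funext fun n => ?_
  rw [dg_apply]
  split_ifs <;> rfl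

theorem dg_zero : dg (0 : Module.End F (KK F)) 0 = 0 := by
  refine LinearMap.ext fun f => funext fun n => ?_
  rw [dg_apply]
  split_ifs <;> rfl

theorem FR_dg {x : Module.End F (KK F)} (h : FR x) : FR (dg x 0) := by
  unfold FR at h
  apply FR.of_mem (K := (LinearMap.range x).map (LinearMap.single F (fun _ : ℕ => KK F) 0))
  intro f
  refine ⟨x (f 0), ⟨f 0, rfl⟩, ?_⟩
  funext n
  rw [dg_apply]
  by_cases hn : n = 0
  · subst hn
    simp
  · simp [hn]

theorem dg_zero_zero_right {x : Module.End F (KK F)} (h : x = 0) : dg x 0 = 0 := by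
  rw [h, dg_zero]

theorem not_FR_one : ¬ FR (1 : Module.End F (ℕ → KK F)) := by
  intro h
  unfold FR at h
  have h1 : LinearMap.range (1 : Module.End F (ℕ → KK F)) = ⊤ := by
    rw [LinearMap.range_eq_top]
    exact fun x => ⟨x, rfl⟩
  rw [h1] at h
  have hfd : FiniteDimensional F (ℕ → KK F) :=
    (Submodule.topEquiv : (⊤ : Submodule F (ℕ → KK F)) ≃ₗ[F] (ℕ → KK F)).finiteDimensional
  let sh : (ℕ → KK F) →ₗ[F] (ℕ → KK F) :=
    { toFun := fun f n => f (n + 1)
      map_add' := fun _ _ => rfl
      map_smul' := fun _ _ => rfl }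
  have hs : Function.Surjective sh := by
    intro g
    refine ⟨fun n => if n = 0 then 0 else g (n - 1), ?_⟩
    funext n
    show (if n + 1 = 0 then (0 : KK F) else g (n + 1 - 1)) = g n
    rw [if_neg (Nat.succ_ne_zero n)]
    rfl
  have hi := LinearMap.injective_iff_surjective.2 hs
  have h2 : sh (fun n => if n = 0 then 1 else 0) = sh 0 := by
    funext n
    show (if n + 1 = 0 then (1 : KK F) else 0) = 0
    rw [if_neg (Nat.succ_ne_zero n)]
  have h3 := congrFun (hi h2) 0
  simp at h3

theorem rk_zero : rk (0 : Module.End F (ℕ → KK F)) = 0 := by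
  unfold rk
  rw [LinearMap.range_zero]
  exact finrank_bot _ _

/-- coordinate projections have rank one -/
theorem rk_coeff {x : Module.End F (KK F)} {j : ℤ}
    (h : ∀ v i, (x v).coeff i = if i = j then v.coeff i else 0) : rk (dg x 0) = 1 := by
  unfold rk
  have h1 : LinearMap.range (dg x 0) =
      F ∙ (Pi.single 0 (single j (1 : F)) : ℕ → KK F) := by
    apply le_antisymm
    · rintro _ ⟨f, rfl⟩
      rw [Submodule.mem_span_singleton]
      refine ⟨(f 0).coeff j, ?_⟩
      funext n
      rw [dg_apply, Pi.smul_apply]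
      by_cases hn : n = 0
      · subst hn
        rw [Pi.single_eq_same, if_pos rfl]
        ext i
        rw [h, coeff_smul, coeff_single]
        split_ifs with hi
        · rw [hi]; simp
        · simp
      · rw [Pi.single_eq_of_ne hn, if_neg hn, smul_zero]
        rfl
    · rw [Submodule.span_singleton_le_iff_mem]
      refine ⟨Pi.single 0 (single j (1 : F)), ?_⟩
      funext n
      rw [dg_apply]
      by_cases hn : n = 0
      · subst hn
        rw [Pi.single_eq_same, if_pos rfl]
        ext i
        rw [h, coeff_single]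
        split_ifs <;> rfl
      · rw [Pi.single_eq_of_ne hn, if_neg hn]
        rfl
  rw [h1]
  apply finrank_span_singleton
  intro h0
  have h2 := congrFun h0 0
  rw [Pi.single_eq_same] at h2
  exact single_ne_zero one_ne_zero h2

variable (F)

/-- three copies of the space -/
noncomputable def theta : (ℕ → KK F) ≃ₗ[F] (ℕ → KK F) × (ℕ → KK F) × (ℕ → KK F) :=
  ((LinearEquiv.funCongrLeft F (KK F) Equiv.natSumNatEquivNat).trans
    (LinearEquiv.sumArrowLequivProdArrow ℕ ℕ F (KK F))).trans
  ((LinearEquiv.refl F (ℕ → KK F)).prodCongr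
    ((LinearEquiv.funCongrLeft F (KK F) Equiv.natSumNatEquivNat).trans
      (LinearEquiv.sumArrowLequivProdArrow ℕ ℕ F (KK F))))

/-- the data -/
noncomputable def dat : Dat F (ℕ → KK F) (KK F) where
  th := theta F
  P0 := dg (pi F) 1
  hP := by rw [dg_mul, pi_pi, mul_one]
  D a := dg (D1 F a) (LL F a)
  D_add a b := by rw [dg_add, D1_add, LL_add]
  D_one := by rw [D1_one, LL_one, dg_one]
  D_mul a b := by
    rw [dg_mul, dg_sub, ← LL_mul, sub_self]
    exact FR_dg (D1_mul F a b)
  D_comm a := by
    rw [dg_mul, dg_mul, D1_pi, pi_D1, mul_one, one_mul]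
  D_unit a ha := by
    obtain ⟨g, hg⟩ := D1_unit F a ha
    refine ⟨⟨dg g (LL F a), dg (↑g⁻¹ : Module.End F (KK F)) (LL F a⁻¹), ?_, ?_⟩, ?_⟩
    · rw [dg_mul, Units.mul_inv, ← LL_mul, mul_inv_cancel₀ ha, LL_one, dg_one]
    · rw [dg_mul, Units.inv_mul, ← LL_mul, inv_mul_cancel₀ ha, LL_one, dg_one]
    · show FR (dg (D1 F a) (LL F a) - dg g (LL F a))
      rw [dg_sub, sub_self]
      exact FR_dg hg
  inf := not_FR_one
  t := tt F
  s := ss F
  E0 := dg (1 - D1 F (ss F) * D1 F (tt F)) 0
  F0 := dg (1 - D1 F (tt F) * D1 F (ss F)) 0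
  hE := by
    have e := dg_one (F := F)
    rw [← e, dg_mul, dg_sub, ← LL_mul, ss_tt, LL_one, sub_zero, sub_sub_cancel]
  hF := by
    have e := dg_one (F := F)
    rw [← e, dg_mul, dg_sub, ← LL_mul, tt_ss, LL_one, sub_zero, sub_sub_cancel]
  hTE := by
    rw [dg_mul, mul_zero]
    apply dg_zero_zero_right
    ext x i
    show (D1 F (tt F) ((1 - D1 F (ss F) * D1 F (tt F) : Module.End F (KK F)) x)).coeff i = 0
    rw [D1t_coeff, e_coeff]
    split_ifs <;> first | omega | rfl
  hFT := by
    rw [dg_mul, zero_mul]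
    apply dg_zero_zero_right
    ext x i
    show ((1 - D1 F (tt F) * D1 F (ss F) : Module.End F (KK F)) (D1 F (tt F) x)).coeff i = 0
    rw [f_coeff, D1t_coeff]
    split_ifs <;> first | omega | rfl
  hEF := by
    apply FR_dg
    have := (D1_mul F (ss F) (tt F)).neg
    rwa [ss_tt, D1_one, neg_sub] at this
  hFF := by
    apply FR_dg
    have := (D1_mul F (tt F) (ss F)).neg
    rwa [tt_ss, D1_one, neg_sub] at this
  hEr := by
    rw [dg_mul, zero_mul, dg_zero_zero_right, rk_zero]
    ext x i
    show ((1 - D1 F (ss F) * D1 F (tt F) : Module.End F (KK F)) (pi F x)).coeff i = 0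
    rw [e_coeff, pi_coeff]
    split_ifs <;> first | omega | rfl
  hEr' := by
    rw [← dg_one, dg_sub, dg_mul, zero_mul]
    apply rk_coeff (j := -1)
    intro x i
    show ((1 - D1 F (ss F) * D1 F (tt F) : Module.End F (KK F)) (x - pi F x)).coeff i = _
    rw [e_coeff, coeff_sub, pi_coeff]
    split_ifs <;> first | omega | simp
  hFr := by
    rw [dg_mul, zero_mul]
    apply rk_coeff (j := 0)
    intro x i
    show ((1 - D1 F (tt F) * D1 F (ss F) : Module.End F (KK F)) (pi F x)).coeff i = _
    rw [f_coeff, pi_coeff]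
    split_ifs <;> first | omega | rfl
  hFr' := by
    rw [← dg_one, dg_sub, dg_mul, zero_mul, dg_zero_zero_right, rk_zero]
    ext x i
    show ((1 - D1 F (tt F) * D1 F (ss F) : Module.End F (KK F)) (x - pi F x)).coeff i = 0
    rw [f_coeff, coeff_sub, pi_coeff]
    split_ifs <;> first | omega | simp

end two

end Q34.UR
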